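import Mathlib
import Pool.Agent.H548.BK.Order
import Pool.Agent.H548.BL.Core

/-!
The asymptotic formula for the number of points on complete intersections of `k` divisors of type
`(1,1)` in the product of two projective spaces of dimension `N - 1`: definitions, and the
statements of the modules.
-/

namespace Pool.Agent.T6.H81.BA

open Finset Module Matrix Filter Topology
open Pool.Agent.H548.WM (ht bx mem_bx Rep)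
open Pool.Agent.H548.BL (rv cv Inc Smooth FinZeros tr lat PP rc)

/-- The vectors `x` which are allowed: the vectors `rv M x i` are linearly independent, and `x` is
not orthogonal to any of the vectors in the finite set `Z`. -/
def GX {k N : ℕ} (M : Fin k → Matrix (Fin N) (Fin N) ℤ) (Z : Finset (Fin N → ℤ))
    (x : Fin N → ℤ) : Prop :=
  LinearIndependent ℤ (rv M x) ∧ ∀ z ∈ Z, x ⬝ᵥ z ≠ 0

open Classical in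
/-- The number of the pairs of normalised primitive vectors in a box. -/
noncomputable def cnt {k N : ℕ} (M : Fin k → Matrix (Fin N) (Fin N) ℤ)
    (ZR ZL : Finset (Fin N → ℤ)) (A Y : ℕ) : ℕ :=
  ((bx N A ×ˢ bx N Y).filter fun t => Rep t.1 ∧ Rep t.2 ∧ GX M ZR t.1 ∧ GX (tr M) ZL t.2 ∧
    Inc M t.1 t.2).card

open Classical in
/-- What is needed from one side. -/
def Side {k N : ℕ} (M : Fin k → Matrix (Fin N) (Fin N) ℤ) (ZR ZL : Finset (Fin N → ℤ)) : Prop :=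
  (∀ x, GX M ZR x → ∀ y : Fin N → ℤ, y ≠ 0 → Inc M x y → LinearIndependent ℤ (cv M y)) ∧
  ∃ C : ℝ, ∀ A : ℕ, 1 ≤ A → ((((bx N A).filter fun x => GX M ZR x ∧ ∃ z ∈ ZL,
    ¬ LinearIndependent ℤ (Fin.cons z (rv M x) : Fin (k + 1) → Fin N → ℤ)).card : ℕ) : ℝ) ≤
      C * (A : ℝ) ^ (N - k - 1)

/-- The least height of a nonzero vector in the fibre over `x`. -/
noncomputable def lam {k N : ℕ} (M : Fin k → Matrix (Fin N) (Fin N) ℤ) (x : Fin N → ℤ) : ℕ :=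
  sInf {n | ∃ y : Fin N → ℤ, y ≠ 0 ∧ Inc M x y ∧ ht y = n}

/-- Module L: lattice points in balls. -/
def StmtL : Prop := ∀ a : ℕ, 1 ≤ a → ∃ C : ℝ, 0 ≤ C ∧
  ∀ (E : Type) [NormedAddCommGroup E] [NormedSpace ℝ E] [FiniteDimensional ℝ E]
    (L : Submodule ℤ E) [DiscreteTopology L] [IsZLattice ℝ L], finrank ℝ E = a →
    ∃ c : ℝ, 0 ≤ c ∧ ∀ l : ℝ, 0 < l → (∀ v ∈ L, v ≠ 0 → l ≤ ‖v‖) → c * l ^ a ≤ C ∧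
      ∀ Y : ℝ, 0 ≤ Y → {v : E | v ∈ L ∧ ‖v‖ ≤ Y}.Finite ∧
        |({v : E | v ∈ L ∧ ‖v‖ ≤ Y}.ncard : ℝ) - c * Y ^ a| ≤ C * (1 + Y / l) ^ (a - 1)

open Classical in
/-- Module R: normalised primitive vectors in the lattice `lat w`. -/
def StmtR : Prop := ∀ k N : ℕ, k + 3 ≤ N → ∃ C : ℝ, 0 ≤ C ∧
  ∀ w : Fin k → Fin N → ℤ, LinearIndependent ℤ w → ∃ c : ℝ, 0 ≤ c ∧
    ∀ l : ℕ, 1 ≤ l → (∀ v ∈ lat w, v ≠ 0 → l ≤ ht v) → c * (l : ℝ) ^ (N - k) ≤ C ∧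
      ∀ Y : ℕ, |((((bx N Y).filter fun v => v ∈ lat w ∧ Rep v).card : ℕ) : ℝ) -
        c * (Y : ℝ) ^ (N - k)| ≤ C * (1 + (Y : ℝ) / l) ^ (N - k - 1)

/-- Module E: the sum of the error terms. -/
def StmtE : Prop := ∀ (k N : ℕ) (M : Fin k → Matrix (Fin N) (Fin N) ℤ), 1 ≤ k → 2 * k + 1 ≤ N →
  (∀ ε : ℝ, 0 < ε → ∃ K : ℝ, 0 ≤ K ∧ ∀ A B : ℕ, 1 ≤ A → 1 ≤ B →
      ((PP M A B).card : ℝ) ≤ K * ((A : ℝ) * B) ^ (N - k) * ((A : ℝ) * B) ^ ε) →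
  ∃ C δ : ℝ, 0 ≤ C ∧ 0 < δ ∧ δ ≤ 1 ∧ ∀ A Y : ℕ, 1 ≤ A → 1 ≤ Y → A ≤ 2 * Y →
    ∀ X : Finset (Fin N → ℤ), (∀ x ∈ X, ht x ≤ A ∧ LinearIndependent ℤ (rv M x) ∧
      ∀ y : Fin N → ℤ, y ≠ 0 → Inc M x y → LinearIndependent ℤ (cv M y)) →
    ∑ x ∈ X, (1 + (Y : ℝ) / lam M x) ^ (N - k - 1) ≤
      C * ((A : ℝ) * Y) ^ (N - k) * (A : ℝ) ^ (-δ)

/-- Module C: the asymptotic formula for fixed first factor. -/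
def StmtC : Prop := ∀ (k N : ℕ) (M : Fin k → Matrix (Fin N) (Fin N) ℤ)
  (ZR ZL : Finset (Fin N → ℤ)), 1 ≤ k → k + 3 ≤ N → 2 * k + 1 ≤ N → Side M ZR ZL →
  (∀ ε : ℝ, 0 < ε → ∃ K : ℝ, 0 ≤ K ∧ ∀ A B : ℕ, 1 ≤ A → 1 ≤ B →
      ((PP M A B).card : ℝ) ≤ K * ((A : ℝ) * B) ^ (N - k) * ((A : ℝ) * B) ^ ε) →
  ∃ (S : ℕ → ℝ) (C δ : ℝ), 0 < δ ∧ ∀ A Y : ℕ, 1 ≤ A → 1 ≤ Y → A ≤ 2 * Y →
    |(cnt M ZR ZL A Y : ℝ) - S A * (Y : ℝ) ^ (N - k)| ≤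
      C * ((A : ℝ) * Y) ^ (N - k) * (A : ℝ) ^ (-δ)

/-- Module T: the limit exists, by symmetry. -/
def StmtT : Prop := ∀ (a : ℕ) (P : ℕ → ℕ → ℝ) (S S' : ℕ → ℝ) (C δ : ℝ), 0 < δ →
  (∀ A Y : ℕ, 1 ≤ A → 1 ≤ Y → A ≤ 2 * Y →
    |P A Y - S A * (Y : ℝ) ^ a| ≤ C * ((A : ℝ) * Y) ^ a * (A : ℝ) ^ (-δ)) →
  (∀ A Y : ℕ, 1 ≤ A → 1 ≤ Y → Y ≤ 2 * A →
    |P A Y - S' Y * (A : ℝ) ^ a| ≤ C * ((A : ℝ) * Y) ^ a * (Y : ℝ) ^ (-δ)) →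
  ∃ κ K : ℝ, (∀ ε : ℝ, 0 < ε → ∃ A0 : ℕ, ∀ A Y : ℕ, A0 ≤ A → A0 ≤ Y →
      |P A Y - κ * ((A : ℝ) * Y) ^ a| ≤ ε * ((A : ℝ) * Y) ^ a) ∧
    ∀ A Y : ℕ, 1 ≤ A → 1 ≤ Y → P A Y ≤ K * ((A : ℝ) * Y) ^ a

/-- Module H: from boxes to the region under the hyperbola. -/
def StmtH : Prop := ∀ (a : ℕ) (p : ℕ → ℕ → ℝ) (κ K : ℝ), 1 ≤ a → (∀ i j, 0 ≤ p i j) →
  (∀ ε : ℝ, 0 < ε → ∃ A0 : ℕ, ∀ A Y : ℕ, A0 ≤ A → A0 ≤ Y →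
      |∑ i ∈ Icc 1 A, ∑ j ∈ Icc 1 Y, p i j - κ * ((A : ℝ) * Y) ^ a| ≤
        ε * ((A : ℝ) * Y) ^ a) →
  (∀ A Y : ℕ, 1 ≤ A → 1 ≤ Y →
      ∑ i ∈ Icc 1 A, ∑ j ∈ Icc 1 Y, p i j ≤ K * ((A : ℝ) * Y) ^ a) →
  Tendsto (fun T : ℕ => (∑ i ∈ Icc 1 T, ∑ j ∈ Icc 1 (T / i), p i j) /
    ((T : ℝ) ^ a * Real.log T)) atTop (𝓝 (κ * a))

/-- Module K: the degenerate vectors for `k = 2`. -/
def StmtK : Prop := ∀ (N : ℕ) (M : Fin 2 → Matrix (Fin N) (Fin N) ℤ), 5 ≤ N → Smooth M →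
  ∃ ZR ZL : Finset (Fin N → ℤ), Side M ZR ZL ∧ Side (tr M) ZL ZR ∧
    ∃ x y : Fin N → ℤ, Inc M x y ∧ GX M ZR x ∧ GX (tr M) ZL y

end Pool.Agent.T6.H81.BA
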