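import Mathlib
import Pool.Agent.T6.H81.BA.Defs

/-!
All adelic heights: definitions, and the statements of the modules.
-/

namespace Pool.Agent.T6.H81.BA

open Finset Module Matrix Filter Topology
open Pool.Agent.H548.WM (ht bx mem_bx Rep)
open Pool.Agent.H548.BL (rv cv Inc Smooth FinZeros tr lat PP rc)
open Pool.Agent.H548.BK (InV two)
open Pool.Agent.H548.TL (evz)

instance factPrime (p : Nat.Primes) : Fact (p : ℕ).Prime := ⟨p.2⟩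

/-- Primitive vectors in a cell: congruent to `r` modulo `q`, with given signs of the values of
some linear forms. -/
def Cell {N n : ℕ} (f : Fin n → Fin N → ℤ) (σ : Fin n → Bool) (q : ℕ) (r v : Fin N → ℤ) : Prop :=
  univ.gcd v = 1 ∧ (∀ j, (q : ℤ) ∣ v j - r j) ∧ ∀ i, (0 ≤ f i ⬝ᵥ v ↔ σ i = true)

open Classical in
/-- The number of the pairs of vectors in a box with the properties `cx`, `cy`. -/
noncomputable def cntw {k N : ℕ} (M : Fin k → Matrix (Fin N) (Fin N) ℤ)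
    (ZR ZL : Finset (Fin N → ℤ)) (cx cy : (Fin N → ℤ) → Prop) (A Y : ℕ) : ℕ :=
  ((bx N A ×ˢ bx N Y).filter fun t => cx t.1 ∧ cy t.2 ∧ GX M ZR t.1 ∧ GX (tr M) ZL t.2 ∧
    Inc M t.1 t.2).card

/-- The bound for the number of pairs in boxes (a theorem of the starting files). -/
def Box {k N : ℕ} (M : Fin k → Matrix (Fin N) (Fin N) ℤ) : Prop :=
  ∀ ε : ℝ, 0 < ε → ∃ K : ℝ, 0 ≤ K ∧ ∀ A B : ℕ, 1 ≤ A → 1 ≤ B →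
      ((PP M A B).card : ℝ) ≤ K * ((A : ℝ) * B) ^ (N - k) * ((A : ℝ) * B) ^ ε

/-- Positive continuous functions on `X(K)` (`K` the real or the `p`-adic numbers). -/
def LF {K : Type} [NormedField K] {k N : ℕ} (M : Fin k → Matrix (Fin N) (Fin N) ℤ)
    (φ : (Fin N → K) → (Fin N → K) → ℝ) : Prop :=
  ContinuousOn (fun t : (Fin N → K) × (Fin N → K) => φ t.1 t.2)
    {t | t.1 ≠ 0 ∧ t.2 ≠ 0 ∧ Inc M t.1 t.2} ∧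
  (∀ x y, x ≠ 0 → y ≠ 0 → Inc M x y → 0 < φ x y) ∧
  (∀ x y, x ≠ 0 → y ≠ 0 → Inc M x y → ∀ s t : K, s ≠ 0 → t ≠ 0 → φ (s • x) (t • y) = φ x y)

/-- The product of the local factors at an integer point. -/
noncomputable def Phi {N : ℕ} (ψ : (Fin N → ℝ) → (Fin N → ℝ) → ℝ) (S : Finset Nat.Primes)
    (φ : ∀ p : Nat.Primes, (Fin N → ℚ_[p]) → (Fin N → ℚ_[p]) → ℝ) (x y : Fin N → ℤ) : ℝ :=
  ψ (fun i => (x i : ℝ)) (fun i => (y i : ℝ)) *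
    ∏ p ∈ S, φ p (fun i => (x i : ℚ_[p])) (fun i => (y i : ℚ_[p]))

/-- Module L2: lattice points in translated cones cut out by linear inequalities. -/
def StmtL2 : Prop := ∀ a n : ℕ, 1 ≤ a → ∃ C : ℝ, 0 ≤ C ∧
  ∀ (E : Type) [NormedAddCommGroup E] [NormedSpace ℝ E] [FiniteDimensional ℝ E]
    (L : Submodule ℤ E) [DiscreteTopology L] [IsZLattice ℝ L], finrank ℝ E = a →
    ∀ (f : Fin n → E →ₗ[ℝ] ℝ) (σ : Fin n → Bool),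
    ∃ c : ℝ, 0 ≤ c ∧ ∀ l : ℝ, 0 < l → (∀ v ∈ L, v ≠ 0 → l ≤ ‖v‖) → c * l ^ a ≤ C ∧
      ∀ (u : E) (Y : ℝ), 0 ≤ Y →
        {v : E | v ∈ L ∧ ‖v + u‖ ≤ Y ∧ ∀ i, (0 ≤ f i (v + u) ↔ σ i = true)}.Finite ∧
        |({v : E | v ∈ L ∧ ‖v + u‖ ≤ Y ∧ ∀ i, (0 ≤ f i (v + u) ↔ σ i = true)}.ncard : ℝ) -
          c * Y ^ a| ≤ C * (1 + Y / l) ^ (a - 1)

open Classical in
/-- Module R2: primitive vectors in cells of the lattice `lat w`. -/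
def StmtR2 : Prop := ∀ k N n q : ℕ, k + 3 ≤ N → 1 ≤ q → ∃ C : ℝ, 0 ≤ C ∧
  ∀ w : Fin k → Fin N → ℤ, LinearIndependent ℤ w →
    ∀ (f : Fin n → Fin N → ℤ) (σ : Fin n → Bool) (r : Fin N → ℤ), ∃ c : ℝ, 0 ≤ c ∧
    ∀ l : ℕ, 1 ≤ l → (∀ v ∈ lat w, v ≠ 0 → l ≤ ht v) → c * (l : ℝ) ^ (N - k) ≤ C ∧
      ∀ Y : ℕ, |((((bx N Y).filter fun v => v ∈ lat w ∧ Cell f σ q r v).card : ℕ) : ℝ) -
        c * (Y : ℝ) ^ (N - k)| ≤ C * (1 + (Y : ℝ) / l) ^ (N - k - 1)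

/-- Module C2: the asymptotic formula for fixed first factor, in cells. -/
def StmtC2 : Prop := ∀ (k N : ℕ) (M : Fin k → Matrix (Fin N) (Fin N) ℤ)
  (ZR ZL : Finset (Fin N → ℤ)), 1 ≤ k → k + 3 ≤ N → 2 * k + 1 ≤ N → Side M ZR ZL → Box M →
  ∀ (cx : (Fin N → ℤ) → Prop) (n : ℕ) (f : Fin n → Fin N → ℤ) (σ : Fin n → Bool) (q : ℕ)
    (r : Fin N → ℤ), 1 ≤ q →
  ∃ (S : ℕ → ℝ) (C δ : ℝ), 0 < δ ∧ ∀ A Y : ℕ, 1 ≤ A → 1 ≤ Y → A ≤ 2 * Y →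
    |(cntw M ZR ZL cx (Cell f σ q r) A Y : ℝ) - S A * (Y : ℝ) ^ (N - k)| ≤
      C * ((A : ℝ) * Y) ^ (N - k) * (A : ℝ) ^ (-δ)

/-- Module Z: the local factors are bounded, and almost constant on small cells. -/
def StmtZ : Prop := ∀ (k N : ℕ) (M : Fin k → Matrix (Fin N) (Fin N) ℤ)
  (ψ : (Fin N → ℝ) → (Fin N → ℝ) → ℝ) (S : Finset Nat.Primes)
  (φ : ∀ p : Nat.Primes, (Fin N → ℚ_[p]) → (Fin N → ℚ_[p]) → ℝ),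
  LF M ψ → (∀ p ∈ S, LF M (φ p)) →
  (∃ m m' : ℝ, 0 < m ∧ ∀ x y : Fin N → ℤ, x ≠ 0 → y ≠ 0 → Inc M x y →
    m ≤ Phi ψ S φ x y ∧ Phi ψ S φ x y ≤ m') ∧
  ∀ ε : ℝ, 0 < ε → ∃ (n : ℕ) (f : Fin n → Fin N → ℤ) (q : ℕ), 1 ≤ q ∧
    ∀ x y x' y' : Fin N → ℤ, univ.gcd x = 1 → univ.gcd y = 1 → univ.gcd x' = 1 →
      univ.gcd y' = 1 → Inc M x y → Inc M x' y' →
      (∀ j, (q : ℤ) ∣ x' j - x j) → (∀ j, (q : ℤ) ∣ y' j - y j) →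
      (∀ i, (0 ≤ f i ⬝ᵥ x' ↔ 0 ≤ f i ⬝ᵥ x)) → (∀ i, (0 ≤ f i ⬝ᵥ y' ↔ 0 ≤ f i ⬝ᵥ y)) →
      Phi ψ S φ x' y' ≤ (1 + ε) * Phi ψ S φ x y

/-- Module W: the asymptotic formula for heights with a factor which is almost constant on
cells. -/
def StmtW : Prop := ∀ (α : Type) (Q : Set α) (g Φ : α → ℝ) (m m' : ℝ), 0 < m →
  (∀ t ∈ Q, m ≤ Φ t ∧ Φ t ≤ m') → (∀ t ∈ Q, 1 ≤ g t) → (∀ B : ℝ, {t | t ∈ Q ∧ g t ≤ B}.Finite) →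
  (∀ ε : ℝ, 0 < ε → ∃ (I : Type) (_ : Fintype I) (cell : α → I),
    (∀ t ∈ Q, ∀ t' ∈ Q, cell t = cell t' → Φ t' ≤ (1 + ε) * Φ t) ∧
    ∀ i : I, ∃ κ : ℝ, Tendsto (fun B : ℝ => ({t | t ∈ Q ∧ cell t = i ∧ g t ≤ B}.ncard : ℝ) /
      (B * Real.log B)) atTop (𝓝 κ)) →
  ∃ c : ℝ, Tendsto (fun B : ℝ => ({t | t ∈ Q ∧ g t * Φ t ≤ B}.ncard : ℝ) /
    (B * Real.log B)) atTop (𝓝 c)

open Classical in
/-- Module N1: lattice points on a hypersurface. -/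
def StmtN1 : Prop := ∀ k N D : ℕ, k + 1 ≤ N → ∃ C : ℝ, 0 ≤ C ∧
  ∀ w : Fin k → Fin N → ℤ, LinearIndependent ℤ w → ∀ P : MvPolynomial (Fin N) ℤ,
    P.totalDegree ≤ D → (∃ y ∈ lat w, MvPolynomial.eval y P ≠ 0) →
    ∀ l : ℕ, 1 ≤ l → (∀ v ∈ lat w, v ≠ 0 → l ≤ ht v) →
      ∀ Y : ℕ, ((((bx N Y).filter fun v => v ∈ lat w ∧ MvPolynomial.eval v P = 0).card : ℕ) : ℝ) ≤
        C * (1 + (Y : ℝ) / l) ^ (N - k - 1)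

open Classical in
/-- Module N2: few pairs on a hypersurface. -/
def StmtN2 : Prop := ∀ (k N : ℕ) (M : Fin k → Matrix (Fin N) (Fin N) ℤ)
  (ZR ZL : Finset (Fin N → ℤ)), 1 ≤ k → k + 3 ≤ N → 2 * k + 1 ≤ N → Side M ZR ZL →
  Side (tr M) ZL ZR → Box M → Box (tr M) → ∀ G : MvPolynomial (Fin N ⊕ Fin N) ℤ,
  (∃ x y : Fin N → ℂ, InV M G x y) → ∃ C δ : ℝ, 0 < δ ∧ ∀ A Y : ℕ, 1 ≤ A → 1 ≤ Y →
    ((((bx N A ×ˢ bx N Y).filter fun t => GX M ZR t.1 ∧ GX (tr M) ZL t.2 ∧ Inc M t.1 t.2 ∧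
      evz G (two t.1 t.2) = 0).card : ℕ) : ℝ) ≤
      C * ((A : ℝ) * Y) ^ (N - k) * ((min A Y : ℕ) : ℝ) ^ (-δ)

end Pool.Agent.T6.H81.BA
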