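import Mathlib
import Pool.Agent.T6.H81.BA.Defs

/-! The least height of a nonzero vector in a fibre. -/

namespace Pool.Agent.T6.H81.BA

open Finset Module Matrix
open Pool.Agent.H548.WM (ht bx mem_bx Rep ht_pos)
open Pool.Agent.H548.BL (rv cv Inc Smooth FinZeros tr lat PP rc norm_rc inc_iff_rv)
open Pool.Agent.H548.BK (AM AM_mulVec AM_le siz)

attribute [local instance] Matrix.normedAddCommGroup in
theorem siegelx {k N : ℕ} (hk : 1 ≤ k) (hkN : k < N) (M : Fin k → Matrix (Fin N) (Fin N) ℤ)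
    (x : Fin N → ℤ) (A : ℕ) (hA : 1 ≤ A) (hx : ht x ≤ A) : ∃ y : Fin N → ℤ, y ≠ 0 ∧ Inc M x y ∧
      (ht y : ℝ) ≤ ((N * siz M : ℝ) * A) ^ ((k : ℝ) / (N - k)) := by
  have h := Int.Matrix.exists_ne_zero_int_vec_norm_le (AM M x) (by simpa using hkN)
    (by simpa using (show 0 < k by omega))
  obtain ⟨y, hy0, hy, hn⟩ := h
  refine ⟨y, hy0, AM_mulVec.1 hy, ?_⟩
  have h1 : (ht y : ℝ) = ‖y‖ := by
    rw [← norm_rc, Pi.norm_def, Pi.norm_def]
    congr 2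
  rw [h1]
  refine hn.trans ?_
  simp only [Fintype.card_fin]
  have hsz : (1 : ℝ) ≤ siz M := by
    have : 1 ≤ siz M := by unfold siz; omega
    exact_mod_cast this
  have hA' : (1 : ℝ) ≤ A := by exact_mod_cast hA
  have hden : (0 : ℝ) < (N : ℝ) - k := by
    rw [sub_pos]; exact_mod_cast hkN
  apply Real.rpow_le_rpow
  · positivity
  · rw [mul_assoc]
    gcongr
    apply max_le
    · nlinarith
    · rw [Matrix.norm_le_iff (by positivity)]
      intro i j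
      have := AM_le M hx i j
      rw [Int.norm_eq_abs]
      exact_mod_cast this
  · positivity

theorem lamle {k N : ℕ} {M : Fin k → Matrix (Fin N) (Fin N) ℤ} {x y : Fin N → ℤ} (hy : y ≠ 0)
    (h : Inc M x y) : lam M x ≤ ht y := Nat.sInf_le ⟨y, hy, h, rfl⟩

theorem lamspec {k N : ℕ} (hk : 1 ≤ k) (hkN : k < N) (M : Fin k → Matrix (Fin N) (Fin N) ℤ)
    (x : Fin N → ℤ) : 1 ≤ lam M x ∧ ∃ y : Fin N → ℤ, y ≠ 0 ∧ Inc M x y ∧ ht y = lam M x := by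
  have hne : {n | ∃ y : Fin N → ℤ, y ≠ 0 ∧ Inc M x y ∧ ht y = n}.Nonempty := by
    obtain ⟨y, h1, h2, -⟩ := siegelx hk hkN M x (ht x + 1) (by omega) (by omega)
    exact ⟨ht y, y, h1, h2, rfl⟩
  obtain ⟨y, h1, h2, h3⟩ := Nat.sInf_mem hne
  refine ⟨?_, y, h1, h2, h3⟩
  show 1 ≤ sInf _
  rw [← h3]
  exact ht_pos h1

theorem lamsiegel {k N : ℕ} (hk : 1 ≤ k) (hkN : k < N) (M : Fin k → Matrix (Fin N) (Fin N) ℤ)
    (x : Fin N → ℤ) (A : ℕ) (hA : 1 ≤ A) (hx : ht x ≤ A) :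
      (lam M x : ℝ) ≤ ((N * siz M : ℝ) * A) ^ ((k : ℝ) / (N - k)) := by
  obtain ⟨y, h1, h2, h3⟩ := siegelx hk hkN M x A hA hx
  refine le_trans ?_ h3
  exact_mod_cast lamle h1 h2

end Pool.Agent.T6.H81.BA
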