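import Mathlib
import Pool.Agent.T6.H81.BA.Lam

/-! The asymptotic formula for the number of pairs, with fixed first factor. -/

namespace Pool.Agent.T6.H81.BA

open Finset Module Matrix
open Pool.Agent.H548.WM (ht bx mem_bx Rep ht_pos)
open Pool.Agent.H548.BL (rv cv Inc Smooth FinZeros tr lat mem_lat PP rc norm_rc inc_iff_rv rc_sub
  rc_inj orth mem_orth finrank_orth rc_dot sep_card lat_card rv_tr cv_tr rep_ne)

open Classical in
/-- The points of a lattice without short vectors in a box. -/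
theorem pack {m N : ℕ} (w : Fin m → Fin N → ℤ) (hw : LinearIndependent ℤ w) (l : ℕ)
    (hl : 1 ≤ l) (h : ∀ v ∈ lat w, v ≠ 0 → l ≤ ht v) (Y : ℕ) :
    ((((bx N Y).filter fun v => v ∈ lat w).card : ℕ) : ℝ) ≤
      2 ^ (N - m) * (1 + (Y : ℝ) / l) ^ (N - m) := by
  set P := (bx N Y).filter fun v => v ∈ lat w with hP
  have hPm : ∀ v ∈ P, ht v ≤ Y ∧ v ∈ lat w := by
    intro v hv
    rw [hP, mem_filter, mem_bx] at hv
    exact hv
  have hmem : ∀ v ∈ P, rc v ∈ orth w := by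
    intro v hv
    rw [mem_orth]
    intro i
    rw [rc_dot, mem_lat.1 (hPm v hv).2 i]
    simp
  set s : Finset (orth w) := P.attach.image fun p => ⟨rc p.1, hmem p.1 p.2⟩ with hs
  have hsc : s.card = P.card := by
    rw [hs, card_image_of_injective, card_attach]
    intro p q hpq
    simp only [Subtype.mk.injEq] at hpq
    exact Subtype.ext (rc_inj hpq)
  have hl0 : (0 : ℝ) < l := by exact_mod_cast hl
  have h1 := sep_card s (Y : ℝ) (l : ℝ) hl0 (by positivity) (by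
    intro c hc
    rw [hs, mem_image] at hc
    obtain ⟨p, -, rfl⟩ := hc
    rw [Submodule.coe_norm]
    show ‖rc p.1‖ ≤ _
    rw [norm_rc]
    exact_mod_cast (hPm p.1 p.2).1) (by
    intro c hc d hd hcd
    rw [hs, mem_image] at hc hd
    obtain ⟨p, -, rfl⟩ := hc
    obtain ⟨q, -, rfl⟩ := hd
    rw [Submodule.coe_norm]
    show (l : ℝ) ≤ ‖rc p.1 - rc q.1‖
    rw [← rc_sub, norm_rc]
    have h3 : p.1 - q.1 ≠ 0 := by
      intro h
      apply hcd
      rw [sub_eq_zero] at h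
      simp [h]
    exact_mod_cast h _ ((lat w).sub_mem (hPm p.1 p.2).2 (hPm q.1 q.2).2) h3)
  rw [hsc] at h1
  have hd : finrank ℝ (orth w) ≤ N - m := by
    have := finrank_orth hw
    rwa [Fintype.card_fin] at this
  have hq : (0 : ℝ) ≤ Y / l := by positivity
  calc (P.card : ℝ) ≤ (2 * Y / l + 1) ^ finrank ℝ (orth w) := h1
    _ ≤ (2 * Y / l + 1) ^ (N - m) := by
        apply pow_le_pow_right₀ _ hd
        have : (2 * Y / l : ℝ) = 2 * (Y / l) := by ring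
        rw [this]
        linarith
    _ ≤ (2 * (1 + (Y : ℝ) / l)) ^ (N - m) := by
        gcongr
        have : (2 * Y / l : ℝ) = 2 * (Y / l) := by ring
        rw [this]
        linarith
    _ = _ := by rw [mul_pow]

open Classical in
/-- The vectors `y` over `x`. -/
noncomputable def fib {k N : ℕ} (M : Fin k → Matrix (Fin N) (Fin N) ℤ)
    (ZL : Finset (Fin N → ℤ)) (x : Fin N → ℤ) (Y : ℕ) : Finset (Fin N → ℤ) :=
  (bx N Y).filter fun y => Rep y ∧ GX (tr M) ZL y ∧ Inc M x y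

open Classical in
theorem fib_good (hR : StmtR) {k N : ℕ} (hk : 1 ≤ k) (hN : k + 3 ≤ N) : ∃ C : ℝ, 0 ≤ C ∧
    ∀ (M : Fin k → Matrix (Fin N) (Fin N) ℤ) (ZL : Finset (Fin N → ℤ)) (x : Fin N → ℤ),
    LinearIndependent ℤ (rv M x) →
    (∀ y : Fin N → ℤ, y ≠ 0 → Inc M x y → LinearIndependent ℤ (cv M y)) →
    (∀ z ∈ ZL, LinearIndependent ℤ (Fin.cons z (rv M x) : Fin (k + 1) → Fin N → ℤ)) →
    ∃ c : ℝ, 0 ≤ c ∧ ∀ Y : ℕ, |((fib M ZL x Y).card : ℝ) - c * (Y : ℝ) ^ (N - k)| ≤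
      (C + ZL.card * 2 ^ (N - k - 1)) * (1 + (Y : ℝ) / lam M x) ^ (N - k - 1) := by
  obtain ⟨C, hC, hR⟩ := hR k N hN
  refine ⟨C, hC, fun M ZL x hx hgood hz => ?_⟩
  obtain ⟨c, hc, h⟩ := hR (rv M x) hx
  refine ⟨c, hc, fun Y => ?_⟩
  obtain ⟨hl1, -⟩ := lamspec hk (by omega : k < N) M x
  have hlam : ∀ v ∈ lat (rv M x), v ≠ 0 → lam M x ≤ ht v := by
    intro v hv hv0
    exact lamle hv0 (inc_iff_rv.2 (mem_lat.1 hv))
  have h1 := (h (lam M x) hl1 hlam).2 Y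
  set R := (bx N Y).filter fun v => v ∈ lat (rv M x) ∧ Rep v with hRdef
  have hsub1 : fib M ZL x Y ⊆ R := by
    intro y hy
    unfold fib at hy
    rw [mem_filter] at hy
    rw [hRdef, mem_filter]
    exact ⟨hy.1, mem_lat.2 (inc_iff_rv.1 hy.2.2.2), hy.2.1⟩
  have hsub2 : R ⊆ fib M ZL x Y ∪ ZL.biUnion fun z => (bx N Y).filter fun v =>
      v ∈ lat (Fin.cons z (rv M x) : Fin (k + 1) → Fin N → ℤ) := by
    intro y hy
    rw [hRdef, mem_filter] at hy
    obtain ⟨hy1, hy2, hy3⟩ := hy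
    have hinc : Inc M x y := inc_iff_rv.2 (mem_lat.1 hy2)
    have hli : LinearIndependent ℤ (rv (tr M) y) := by
      rw [rv_tr]
      exact hgood y (rep_ne hy3) hinc
    rw [mem_union]
    by_cases hall : ∀ z ∈ ZL, y ⬝ᵥ z ≠ 0
    · left
      unfold fib
      rw [mem_filter]
      exact ⟨hy1, hy3, ⟨hli, hall⟩, hinc⟩
    · right
      push Not at hall
      obtain ⟨z, hzZ, hz0⟩ := hall
      rw [mem_biUnion]
      refine ⟨z, hzZ, ?_⟩
      rw [mem_filter]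
      refine ⟨hy1, ?_⟩
      rw [mem_lat]
      intro i
      refine Fin.cases ?_ (fun i => ?_) i
      · rw [Fin.cons_zero, dotProduct_comm]
        exact hz0
      · rw [Fin.cons_succ]
        exact mem_lat.1 hy2 i
  have hc1 : ((fib M ZL x Y).card : ℝ) ≤ (R.card : ℝ) := by exact_mod_cast card_le_card hsub1
  have hc2 : (R.card : ℝ) ≤ ((fib M ZL x Y).card : ℝ) +
      ZL.card * (2 ^ (N - k - 1) * (1 + (Y : ℝ) / lam M x) ^ (N - k - 1)) := by
    have h2 := (card_le_card hsub2).trans ((card_union_le _ _).trans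
      (Nat.add_le_add_left card_biUnion_le _))
    have h3 : (R.card : ℝ) ≤ ((fib M ZL x Y).card : ℝ) + ∑ z ∈ ZL,
        ((((bx N Y).filter fun v =>
          v ∈ lat (Fin.cons z (rv M x) : Fin (k + 1) → Fin N → ℤ)).card : ℕ) : ℝ) := by
      exact_mod_cast h2
    refine h3.trans ?_
    gcongr
    rw [← nsmul_eq_mul]
    apply Finset.sum_le_card_nsmul
    intro z hzZ
    have h4 := pack (Fin.cons z (rv M x) : Fin (k + 1) → Fin N → ℤ) (hz z hzZ) (lam M x) hl1 (by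
      intro v hv hv0
      apply lamle hv0
      rw [inc_iff_rv]
      intro i
      have := mem_lat.1 hv i.succ
      rwa [Fin.cons_succ] at this) Y
    have e : N - (k + 1) = N - k - 1 := by omega
    rwa [e] at h4
  rw [abs_le] at h1 ⊢
  have h5 : (0 : ℝ) ≤ ZL.card * (2 ^ (N - k - 1) * (1 + (Y : ℝ) / lam M x) ^ (N - k - 1)) := by
    positivity
  constructor
  · nlinarith [h1.1]
  · nlinarith [h1.2]

open Classical in
theorem cnt_eq {k N : ℕ} (M : Fin k → Matrix (Fin N) (Fin N) ℤ) (ZR ZL : Finset (Fin N → ℤ))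
    (A Y : ℕ) : cnt M ZR ZL A Y =
      ∑ x ∈ (bx N A).filter fun x => Rep x ∧ GX M ZR x, (fib M ZL x Y).card := by
  unfold cnt fib
  have h1 : ((bx N A ×ˢ bx N Y).filter fun t => Rep t.1 ∧ Rep t.2 ∧ GX M ZR t.1 ∧
      GX (tr M) ZL t.2 ∧ Inc M t.1 t.2) =
      ((((bx N A).filter fun x => Rep x ∧ GX M ZR x) ×ˢ bx N Y).filter fun t =>
        Rep t.2 ∧ GX (tr M) ZL t.2 ∧ Inc M t.1 t.2) := by
    ext t
    simp only [mem_filter, mem_product]
    tauto
  rw [h1]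
  convert Pool.Agent.H548.BL.card_prod_filter ((bx N A).filter fun x => Rep x ∧ GX M ZR x) (bx N Y)
    (fun x y => Rep y ∧ GX (tr M) ZL y ∧ Inc M x y)

theorem c_main (hR : StmtR) (hE : StmtE) : StmtC := by
  classical
  intro k N M ZR ZL hk hN3 hN hside hbox
  obtain ⟨CE, δ, hCE, hδ, hδ1, hE⟩ := hE k N M hk hN hbox
  obtain ⟨CR, hCR, hgood⟩ := fib_good hR hk hN3
  obtain ⟨hs1, CP, hs2⟩ := hside
  set a := N - k with ha
  set bad := fun x : Fin N → ℤ => ∃ z ∈ ZL,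
    ¬ LinearIndependent ℤ (Fin.cons z (rv M x) : Fin (k + 1) → Fin N → ℤ) with hbad
  -- the leading coefficients
  have hc : ∀ x : Fin N → ℤ, ∃ c : ℝ, 0 ≤ c ∧ (GX M ZR x → ¬ bad x → ∀ Y : ℕ,
      |((fib M ZL x Y).card : ℝ) - c * (Y : ℝ) ^ a| ≤
      (CR + ZL.card * 2 ^ (a - 1)) * (1 + (Y : ℝ) / lam M x) ^ (a - 1)) := by
    intro x
    by_cases h : GX M ZR x ∧ ¬ bad x
    · obtain ⟨c, hc0, hc⟩ := hgood M ZL x h.1.1 (hs1 x h.1) (by
        have := h.2
        rw [hbad] at this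
        simp only at this
        push Not at this
        exact this)
      exact ⟨c, hc0, fun _ _ => hc⟩
    · refine ⟨0, le_rfl, fun h1 h2 => absurd ⟨h1, h2⟩ h⟩
  choose c hc0 hc using hc
  refine ⟨fun A => ∑ x ∈ (bx N A).filter fun x => (Rep x ∧ GX M ZR x) ∧ ¬ bad x, c x,
    (CR + ZL.card * 2 ^ (a - 1)) * CE + |CP| * (3 ^ N * 3 ^ a), δ, hδ, ?_⟩
  intro A Y hA hY hAY
  have hA' : (1 : ℝ) ≤ A := by exact_mod_cast hA
  have hA0 : (0 : ℝ) < A := by linarith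
  have hY' : (1 : ℝ) ≤ Y := by exact_mod_cast hY
  set X := (bx N A).filter fun x => Rep x ∧ GX M ZR x with hX
  have e1 : (bx N A).filter (fun x => (Rep x ∧ GX M ZR x) ∧ ¬ bad x) =
      X.filter fun x => ¬ bad x := by
    rw [hX, filter_filter]
  beta_reduce
  rw [e1]
  have e2 : (cnt M ZR ZL A Y : ℝ) = ∑ x ∈ X.filter (fun x => ¬ bad x),
      ((fib M ZL x Y).card : ℝ) + ∑ x ∈ X.filter (fun x => ¬ ¬ bad x),
      ((fib M ZL x Y).card : ℝ) := by
    rw [cnt_eq, Finset.sum_filter_add_sum_filter_not]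
    push_cast
    rfl
  rw [e2]
  have h1 : |∑ x ∈ X.filter (fun x => ¬ bad x), ((fib M ZL x Y).card : ℝ) -
      (∑ x ∈ X.filter (fun x => ¬ bad x), c x) * (Y : ℝ) ^ a| ≤
      (CR + ZL.card * 2 ^ (a - 1)) * (CE * ((A : ℝ) * Y) ^ a * (A : ℝ) ^ (-δ)) := by
    rw [Finset.sum_mul, ← Finset.sum_sub_distrib]
    refine (Finset.abs_sum_le_sum_abs _ _).trans ?_
    have h2 : ∀ x ∈ X.filter (fun x => ¬ bad x),
        |((fib M ZL x Y).card : ℝ) - c x * (Y : ℝ) ^ a| ≤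
        (CR + ZL.card * 2 ^ (a - 1)) * (1 + (Y : ℝ) / lam M x) ^ (a - 1) := by
      intro x hx
      rw [mem_filter, hX, mem_filter] at hx
      exact hc x hx.1.2.2 hx.2 Y
    refine (Finset.sum_le_sum h2).trans ?_
    rw [← Finset.mul_sum]
    have h3 := hE A Y hA hY hAY (X.filter (fun x => ¬ bad x)) (by
      intro x hx
      rw [mem_filter, hX, mem_filter, mem_bx] at hx
      exact ⟨hx.1.1, hx.1.2.2.1, hs1 x hx.1.2.2⟩)
    gcongr
  have h2 : |∑ x ∈ X.filter (fun x => ¬ ¬ bad x), ((fib M ZL x Y).card : ℝ)| ≤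
      |CP| * (3 ^ N * 3 ^ a) * (((A : ℝ) * Y) ^ a * (A : ℝ) ^ (-δ)) := by
    rw [abs_of_nonneg (Finset.sum_nonneg fun x _ => Nat.cast_nonneg _)]
    have h3 : ∀ x ∈ X.filter (fun x => ¬ ¬ bad x), ((fib M ZL x Y).card : ℝ) ≤
        3 ^ N * (3 * Y) ^ a := by
      intro x hx
      rw [mem_filter, hX, mem_filter] at hx
      have h4 := lat_card hx.1.2.2.1 Y hY
      rw [Fintype.card_fin, ← ha] at h4
      refine le_trans ?_ h4
      have h5 : fib M ZL x Y ⊆ (bx N Y).filter (· ∈ lat (rv M x)) := by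
        intro y hy
        unfold fib at hy
        rw [mem_filter] at hy ⊢
        exact ⟨hy.1, mem_lat.2 (inc_iff_rv.1 hy.2.2.2)⟩
      exact_mod_cast card_le_card h5
    have h6 : ((X.filter (fun x => ¬ ¬ bad x)).card : ℝ) ≤ |CP| * (A : ℝ) ^ (a - 1) := by
      have h7 := hs2 A hA
      have h8 : X.filter (fun x => ¬ ¬ bad x) ⊆ (bx N A).filter fun x => GX M ZR x ∧ ∃ z ∈ ZL,
          ¬ LinearIndependent ℤ (Fin.cons z (rv M x) : Fin (k + 1) → Fin N → ℤ) := by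
        intro x hx
        rw [mem_filter, hX, mem_filter] at hx
        rw [mem_filter]
        exact ⟨hx.1.1, hx.1.2.2, not_not.1 hx.2⟩
      calc ((X.filter (fun x => ¬ ¬ bad x)).card : ℝ) ≤ _ := by
            exact_mod_cast card_le_card h8
        _ ≤ CP * (A : ℝ) ^ (a - 1) := h7
        _ ≤ |CP| * (A : ℝ) ^ (a - 1) := by
            gcongr
            exact le_abs_self _
    have h9 : (A : ℝ) ^ (a - 1) ≤ (A : ℝ) ^ a * (A : ℝ) ^ (-δ) := by
      have e3 : (A : ℝ) ^ a = (A : ℝ) ^ (a - 1) * A := by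
        rw [← pow_succ]
        congr 1
        omega
      rw [e3, mul_assoc]
      apply le_mul_of_one_le_right (by positivity)
      have e4 : (A : ℝ) * (A : ℝ) ^ (-δ) = (A : ℝ) ^ (1 - δ) := by
        rw [sub_eq_add_neg, Real.rpow_add hA0, Real.rpow_one]
      rw [e4]
      exact Real.one_le_rpow hA' (by linarith)
    calc ∑ x ∈ X.filter (fun x => ¬ ¬ bad x), ((fib M ZL x Y).card : ℝ) ≤
        ∑ x ∈ X.filter (fun x => ¬ ¬ bad x), 3 ^ N * (3 * (Y : ℝ)) ^ a :=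
          Finset.sum_le_sum h3
      _ = (X.filter (fun x => ¬ ¬ bad x)).card * (3 ^ N * (3 * (Y : ℝ)) ^ a) := by
          rw [Finset.sum_const, nsmul_eq_mul]
      _ ≤ (|CP| * (A : ℝ) ^ (a - 1)) * (3 ^ N * (3 * (Y : ℝ)) ^ a) := by gcongr
      _ ≤ (|CP| * ((A : ℝ) ^ a * (A : ℝ) ^ (-δ))) * (3 ^ N * (3 * (Y : ℝ)) ^ a) := by gcongr
      _ = _ := by
          rw [mul_pow 3 (Y : ℝ), mul_pow (A : ℝ)]
          ring
  calc |∑ x ∈ X.filter (fun x => ¬ bad x), ((fib M ZL x Y).card : ℝ) +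
        ∑ x ∈ X.filter (fun x => ¬ ¬ bad x), ((fib M ZL x Y).card : ℝ) -
        (∑ x ∈ X.filter (fun x => ¬ bad x), c x) * (Y : ℝ) ^ a|
      = |(∑ x ∈ X.filter (fun x => ¬ bad x), ((fib M ZL x Y).card : ℝ) -
        (∑ x ∈ X.filter (fun x => ¬ bad x), c x) * (Y : ℝ) ^ a) +
        ∑ x ∈ X.filter (fun x => ¬ ¬ bad x), ((fib M ZL x Y).card : ℝ)| := by
        congr 1
        ring
    _ ≤ _ := abs_add_le _ _
    _ ≤ (CR + ZL.card * 2 ^ (a - 1)) * (CE * ((A : ℝ) * Y) ^ a * (A : ℝ) ^ (-δ)) +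
        |CP| * (3 ^ N * 3 ^ a) * (((A : ℝ) * Y) ^ a * (A : ℝ) ^ (-δ)) := add_le_add h1 h2
    _ = _ := by ring

end Pool.Agent.T6.H81.BA
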