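import Mathlib
import Pool.Agent.T6.H81.BA.C

/-! The asymptotic formula: assembly. -/

namespace Pool.Agent.T6.H81.BA

open Finset Module Matrix Filter Topology
open Pool.Agent.H548.WM (ht bx mem_bx Rep ht_pos)
open Pool.Agent.H548.BL (rv cv Inc Smooth FinZeros tr lat mem_lat PP rc norm_rc inc_iff_rv
  rv_tr cv_tr rep_ne inc_tr tr_tr smooth_tr finZeros_tr box finZeros_two)
open Pool.Agent.H548.BK (InV Pts two low finite_pts)
open Pool.Agent.H548.TL (evz evz_map evz_int)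

/-! ### The polynomial -/

/-- The product of the linear forms. -/
noncomputable def GP {N : ℕ} (ZR ZL : Finset (Fin N → ℤ)) : MvPolynomial (Fin N ⊕ Fin N) ℤ :=
  (∏ z ∈ ZR, ∑ i, MvPolynomial.C (z i) * MvPolynomial.X (Sum.inl i)) *
    ∏ z ∈ ZL, ∑ i, MvPolynomial.C (z i) * MvPolynomial.X (Sum.inr i)

theorem evz_GP {N : ℕ} (ZR ZL : Finset (Fin N → ℤ)) (x y : Fin N → ℤ) :
    evz (GP ZR ZL) (two x y) = (∏ z ∈ ZR, x ⬝ᵥ z) * ∏ z ∈ ZL, y ⬝ᵥ z := by
  rw [evz_int]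
  unfold GP
  rw [map_mul, map_prod, map_prod]
  congr 1
  · refine Finset.prod_congr rfl fun z _ => ?_
    rw [map_sum]
    unfold dotProduct
    refine Finset.sum_congr rfl fun i _ => ?_
    rw [map_mul, MvPolynomial.eval_C, MvPolynomial.eval_X]
    exact mul_comm _ _
  · refine Finset.prod_congr rfl fun z _ => ?_
    rw [map_sum]
    unfold dotProduct
    refine Finset.sum_congr rfl fun i _ => ?_
    rw [map_mul, MvPolynomial.eval_C, MvPolynomial.eval_X]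
    exact mul_comm _ _

theorem inV_iff {k N : ℕ} {M : Fin k → Matrix (Fin N) (Fin N) ℤ} {ZR ZL : Finset (Fin N → ℤ)}
    {x y : Fin N → ℤ} : InV M (GP ZR ZL) x y ↔ GX M ZR x ∧ GX (tr M) ZL y ∧ Inc M x y := by
  unfold InV GX
  rw [evz_GP, mul_ne_zero_iff, Finset.prod_ne_zero_iff, Finset.prod_ne_zero_iff, rv_tr]
  tauto

/-- An integer point gives a complex point. -/
theorem inV_complex {k N : ℕ} {M : Fin k → Matrix (Fin N) (Fin N) ℤ}
    {G : MvPolynomial (Fin N ⊕ Fin N) ℤ} {x y : Fin N → ℤ} (h : InV M G x y) :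
    ∃ x y : Fin N → ℂ, InV M G x y := by
  obtain ⟨h1, h2, h3, h4⟩ := h
  refine ⟨fun i => (x i : ℂ), fun i => (y i : ℂ), ?_, ?_, ?_, ?_⟩
  · intro i
    have := h1 i
    have e : (fun i => (x i : ℂ)) ⬝ᵥ cv M (fun i => (y i : ℂ)) i = ((x ⬝ᵥ cv M y i : ℤ) : ℂ) := by
      unfold dotProduct
      push_cast
      refine Finset.sum_congr rfl fun p _ => ?_
      rw [Pool.Agent.H548.BL.cv_cast]
    rw [e, this]
    simp
  · have e : rv M (fun i => (x i : ℂ)) = fun i => (algebraMap ℤ ℂ) ∘ rv M x i := by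
      funext i p
      unfold rv vecMul dotProduct
      simp
    rw [e]
    exact (linearIndependent_algebraMap_comp_iff (R := ℤ) (S := ℂ) (v := rv M x)).2 h2
  · have e : cv M (fun i => (y i : ℂ)) = fun i => (algebraMap ℤ ℂ) ∘ cv M y i := by
      funext i p
      rw [Pool.Agent.H548.BL.cv_cast]
      simp
    rw [e]
    exact (linearIndependent_algebraMap_comp_iff (R := ℤ) (S := ℂ) (v := cv M y)).2 h3
  · have e := evz_map (Int.castRingHom ℂ) G (two x y)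
    have e2 : (fun i => (Int.castRingHom ℂ) (two x y i)) =
        two (fun i => (x i : ℂ)) (fun i => (y i : ℂ)) := by
      funext i
      rcases i with i | i <;> rfl
    rw [e2] at e
    rw [← e]
    simpa using h4

/-! ### Heights -/

/-- The pairs which are counted. -/
def RR {k N : ℕ} (M : Fin k → Matrix (Fin N) (Fin N) ℤ) (ZR ZL : Finset (Fin N → ℤ))
    (t : (Fin N → ℤ) × (Fin N → ℤ)) : Prop :=
  Rep t.1 ∧ Rep t.2 ∧ GX M ZR t.1 ∧ GX (tr M) ZL t.2 ∧ Inc M t.1 t.2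

theorem RR_pos {k N : ℕ} {M : Fin k → Matrix (Fin N) (Fin N) ℤ} {ZR ZL : Finset (Fin N → ℤ)}
    {t : (Fin N → ℤ) × (Fin N → ℤ)} (h : RR M ZR ZL t) : 1 ≤ ht t.1 ∧ 1 ≤ ht t.2 :=
  ⟨ht_pos (rep_ne h.1), ht_pos (rep_ne h.2.1)⟩

open Classical in
/-- The number of the pairs with given heights. -/
noncomputable def pp {k N : ℕ} (M : Fin k → Matrix (Fin N) (Fin N) ℤ)
    (ZR ZL : Finset (Fin N → ℤ)) (i j : ℕ) : ℝ :=
  (((bx N i ×ˢ bx N j).filter fun t => RR M ZR ZL t ∧ ht t.1 = i ∧ ht t.2 = j).card : ℝ)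

theorem pp_nonneg {k N : ℕ} (M : Fin k → Matrix (Fin N) (Fin N) ℤ)
    (ZR ZL : Finset (Fin N → ℤ)) (i j : ℕ) : 0 ≤ pp M ZR ZL i j := by
  unfold pp
  positivity

open Classical in
theorem sum_pp {k N : ℕ} (M : Fin k → Matrix (Fin N) (Fin N) ℤ) (ZR ZL : Finset (Fin N → ℤ))
    (A Y : ℕ) : ∑ i ∈ Icc 1 A, ∑ j ∈ Icc 1 Y, pp M ZR ZL i j = cnt M ZR ZL A Y := by
  have h1 : cnt M ZR ZL A Y = ∑ i ∈ Icc 1 A, ∑ j ∈ Icc 1 Y,
      ((bx N i ×ˢ bx N j).filter fun t => RR M ZR ZL t ∧ ht t.1 = i ∧ ht t.2 = j).card := by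
    rw [← Finset.sum_product' (Icc 1 A) (Icc 1 Y) (fun i j =>
      ((bx N i ×ˢ bx N j).filter fun t => RR M ZR ZL t ∧ ht t.1 = i ∧ ht t.2 = j).card)]
    unfold cnt
    rw [Finset.card_eq_sum_card_fiberwise (f := fun t => (ht t.1, ht t.2)) (t := Icc 1 A ×ˢ Icc 1 Y)]
    · refine Finset.sum_congr rfl fun b hb => ?_
      rw [mem_product, mem_Icc, mem_Icc] at hb
      congr 1
      ext t
      simp only [mem_filter, mem_product, mem_bx, Prod.ext_iff]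
      unfold RR
      constructor
      · rintro ⟨⟨⟨-, -⟩, h⟩, h1, h2⟩
        exact ⟨⟨h1.le, h2.le⟩, h, h1, h2⟩
      · rintro ⟨-, h, h1, h2⟩
        exact ⟨⟨⟨h1.le.trans hb.1.2, h2.le.trans hb.2.2⟩, h⟩, h1, h2⟩
    · intro t ht'
      rw [mem_coe, mem_filter, mem_product, mem_bx, mem_bx] at ht'
      rw [mem_coe, mem_product, mem_Icc, mem_Icc]
      have := RR_pos (M := M) (ZR := ZR) (ZL := ZL) (t := t) ht'.2
      exact ⟨⟨this.1, ht'.1.1⟩, ⟨this.2, ht'.1.2⟩⟩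
  rw [h1]
  push_cast
  rfl

open Classical in
theorem sum_hyp {k N : ℕ} (M : Fin k → Matrix (Fin N) (Fin N) ℤ) (ZR ZL : Finset (Fin N → ℤ))
    (T : ℕ) : ∑ i ∈ Icc 1 T, ∑ j ∈ Icc 1 (T / i), pp M ZR ZL i j =
      ({t | RR M ZR ZL t ∧ ht t.1 * ht t.2 ≤ T}.ncard : ℝ) := by
  have h1 : {t | RR M ZR ZL t ∧ ht t.1 * ht t.2 ≤ T}.ncard = ∑ i ∈ Icc 1 T,
      ∑ j ∈ Icc 1 (T / i),
      ((bx N i ×ˢ bx N j).filter fun t => RR M ZR ZL t ∧ ht t.1 = i ∧ ht t.2 = j).card := by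
    have h2 : {t | RR M ZR ZL t ∧ ht t.1 * ht t.2 ≤ T} =
        ((((bx N T ×ˢ bx N T).filter fun t => RR M ZR ZL t ∧ ht t.1 * ht t.2 ≤ T) :
          Finset _) : Set ((Fin N → ℤ) × (Fin N → ℤ))) := by
      ext t
      rw [Set.mem_ofPred_eq, mem_coe, mem_filter, mem_product, mem_bx, mem_bx]
      constructor
      · intro h
        have h3 := RR_pos h.1
        refine ⟨⟨?_, ?_⟩, h⟩
        · exact (Nat.le_mul_of_pos_right _ h3.2).trans h.2
        · exact (Nat.le_mul_of_pos_left _ h3.1).trans h.2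
      · exact fun h => h.2
    rw [h2, Set.ncard_coe_finset]
    rw [Finset.card_eq_sum_card_fiberwise (f := fun t => ht t.1) (t := Icc 1 T)]
    · refine Finset.sum_congr rfl fun i hi => ?_
      rw [mem_Icc] at hi
      rw [Finset.card_eq_sum_card_fiberwise (f := fun t => ht t.2) (t := Icc 1 (T / i))]
      · refine Finset.sum_congr rfl fun j hj => ?_
        rw [mem_Icc, Nat.le_div_iff_mul_le (by omega)] at hj
        congr 1
        ext t
        simp only [mem_filter, mem_product, mem_bx]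
        constructor
        · rintro ⟨⟨⟨⟨-, -⟩, h, -⟩, h1⟩, h2⟩
          exact ⟨⟨h1.le, h2.le⟩, h, h1, h2⟩
        · rintro ⟨-, h, h1, h2⟩
          have hj1 : j ≤ T := (Nat.le_mul_of_pos_right _ (by omega)).trans hj.2
          refine ⟨⟨⟨⟨h1.le.trans hi.2, h2.le.trans hj1⟩, h, ?_⟩, h1⟩, h2⟩
          rw [h1, h2, mul_comm]
          exact hj.2
      · intro t ht'
        rw [mem_coe, mem_filter, mem_filter, mem_product, mem_bx, mem_bx] at ht'
        rw [mem_coe, mem_Icc, Nat.le_div_iff_mul_le (by omega)]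
        have := RR_pos ht'.1.2.1
        refine ⟨this.2, ?_⟩
        rw [← ht'.2, mul_comm]
        exact ht'.1.2.2
    · intro t ht'
      rw [mem_coe, mem_filter, mem_product, mem_bx, mem_bx] at ht'
      rw [mem_coe, mem_Icc]
      exact ⟨(RR_pos ht'.2.1).1, ht'.1.1⟩
  rw [h1]
  unfold pp
  push_cast
  rfl

/-- The height condition. -/
theorem pts_eq {k N : ℕ} (hkN : k + 1 ≤ N) (M : Fin k → Matrix (Fin N) (Fin N) ℤ)
    (ZR ZL : Finset (Fin N → ℤ)) {B : ℝ} (hB : 0 ≤ B) :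
    Pts M (GP ZR ZL) B = {t | RR M ZR ZL t ∧
      ht t.1 * ht t.2 ≤ ⌊B ^ (1 / ((N - k : ℕ) : ℝ))⌋₊} := by
  ext t
  unfold Pts RR
  rw [Set.mem_ofPred_eq, Set.mem_ofPred_eq, inV_iff]
  have ha : (0 : ℝ) < ((N - k : ℕ) : ℝ) := by
    have : 0 < N - k := by omega
    exact_mod_cast this
  have h1 : (ht t.1 : ℝ) ^ (N - k) * (ht t.2 : ℝ) ^ (N - k) ≤ B ↔
      ht t.1 * ht t.2 ≤ ⌊B ^ (1 / ((N - k : ℕ) : ℝ))⌋₊ := by
    rw [Nat.le_floor_iff (by positivity), ← mul_pow, ← Real.rpow_natCast]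
    have h2 : (0 : ℝ) ≤ (ht t.1 : ℝ) * ht t.2 := by positivity
    push_cast
    rw [one_div, Real.le_rpow_inv_iff_of_pos h2 hB ha]
  rw [h1]
  tauto

/-- The logarithms. -/
theorem tendsto_scale (a : ℕ) (ha : 1 ≤ a) (κ : ℝ) (f : ℕ → ℝ)
    (hf : Tendsto (fun T : ℕ => f T / ((T : ℝ) ^ a * Real.log T)) atTop (𝓝 (κ * a))) :
    Tendsto (fun B : ℝ => f ⌊B ^ (1 / (a : ℝ))⌋₊ / (B * Real.log B)) atTop (𝓝 κ) := by
  have ha0 : (0 : ℝ) < a := by exact_mod_cast ha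
  set e : ℝ := 1 / (a : ℝ) with he
  have he0 : 0 < e := by positivity
  have h1 : Tendsto (fun B : ℝ => B ^ e) atTop atTop := tendsto_rpow_atTop he0
  have h2 : Tendsto (fun B : ℝ => ⌊B ^ e⌋₊) atTop atTop := tendsto_nat_floor_atTop.comp h1
  have h3 : Tendsto (fun B : ℝ => (⌊B ^ e⌋₊ : ℝ) / B ^ e) atTop (𝓝 1) :=
    tendsto_nat_floor_div_atTop.comp h1
  have h4 : Tendsto (fun B : ℝ => ((⌊B ^ e⌋₊ : ℝ) / B ^ e) ^ a) atTop (𝓝 1) := by
    simpa using h3.pow a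
  -- logs
  have h5 : Tendsto (fun B : ℝ => Real.log ((⌊B ^ e⌋₊ : ℝ) / B ^ e)) atTop (𝓝 0) := by
    have := (Real.continuousAt_log (x := 1) one_ne_zero).tendsto.comp h3
    rw [Real.log_one] at this
    exact this
  have h6 : Tendsto (fun B : ℝ => Real.log ((⌊B ^ e⌋₊ : ℝ) / B ^ e) / Real.log B + e) atTop
      (𝓝 e) := by
    have := h5.div_atTop Real.tendsto_log_atTop
    simpa using this.add_const e
  have h7 := ((hf.comp h2).mul h4).mul h6
  have h8 : κ * a * 1 * e = κ := by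
    rw [he]
    field_simp
  rw [h8] at h7
  refine h7.congr' ?_
  have hev : ∀ᶠ B : ℝ in atTop, 2 ≤ ⌊B ^ e⌋₊ := h2.eventually_ge_atTop 2
  filter_upwards [hev, eventually_gt_atTop 1] with B hB1 hB2
  have hB0 : 0 < B := by linarith
  have hTe : (0 : ℝ) < B ^ e := by positivity
  have hT2 : (2 : ℝ) ≤ (⌊B ^ e⌋₊ : ℝ) := by exact_mod_cast hB1
  have hT0 : (0 : ℝ) < (⌊B ^ e⌋₊ : ℝ) := by linarith
  have hlT : 0 < Real.log (⌊B ^ e⌋₊ : ℝ) := Real.log_pos (by linarith)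
  have hlB : 0 < Real.log B := Real.log_pos hB2
  have e1 : Real.log ((⌊B ^ e⌋₊ : ℝ) / B ^ e) / Real.log B + e =
      Real.log (⌊B ^ e⌋₊ : ℝ) / Real.log B := by
    rw [Real.log_div hT0.ne' hTe.ne', Real.log_rpow hB0]
    field_simp
    ring
  have e2 : (B ^ e) ^ a = B := by
    rw [← Real.rpow_natCast, ← Real.rpow_mul hB0.le, he, one_div_mul_cancel ha0.ne', Real.rpow_one]
  show f ⌊B ^ e⌋₊ / ((⌊B ^ e⌋₊ : ℝ) ^ a * Real.log (⌊B ^ e⌋₊ : ℝ)) *
    ((⌊B ^ e⌋₊ : ℝ) / B ^ e) ^ a * _ = _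
  rw [e1, div_pow, e2]
  field_simp

/-- **The asymptotic formula**, if the degenerate vectors are known. -/
theorem main_of (hC : StmtC) (hT : StmtT) (hH : StmtH) {k N : ℕ} (hk : 1 ≤ k) (hN3 : k + 3 ≤ N)
    (hN : 2 * k + 1 ≤ N) {M : Fin k → Matrix (Fin N) (Fin N) ℤ} (hs : Smooth M)
    (hf : FinZeros M) {ZR ZL : Finset (Fin N → ℤ)} (h1 : Side M ZR ZL)
    (h2 : Side (tr M) ZL ZR) (hex : ∃ x y : Fin N → ℤ, Inc M x y ∧ GX M ZR x ∧ GX (tr M) ZL y) :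
    (∃ x y : Fin N → ℂ, InV M (GP ZR ZL) x y) ∧
    ∃ c : ℝ, 0 < c ∧ Tendsto (fun B : ℝ => ((Pts M (GP ZR ZL) B).ncard : ℝ) /
      (B * Real.log B)) atTop (𝓝 c) := by
  obtain ⟨x0, y0, hi0, hx0, hy0⟩ := hex
  have hcx := inV_complex (inV_iff.2 ⟨hx0, hy0, hi0⟩ : InV M (GP ZR ZL) x0 y0)
  refine ⟨hcx, ?_⟩
  set a := N - k with ha
  have ha1 : 1 ≤ a := by omega
  obtain ⟨S, C, δ, hδ, hS⟩ := hC k N M ZR ZL hk hN3 hN h1
    (fun ε hε => box hs hf hk (by omega) ε hε)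
  obtain ⟨S', C', δ', hδ', hS'⟩ := hC k N (tr M) ZL ZR hk hN3 hN h2
    (fun ε hε => box (smooth_tr hs) (finZeros_tr hf) hk (by omega) ε hε)
  have hcs : ∀ A Y : ℕ, cnt M ZR ZL A Y = cnt (tr M) ZL ZR Y A := by
    classical
    intro A Y
    unfold cnt
    apply Finset.card_bij (fun t _ => (t.2, t.1))
    · intro t h
      rw [mem_filter, mem_product] at h ⊢
      obtain ⟨⟨b1, b2⟩, b3, b4, b5, b6, b7⟩ := h
      refine ⟨⟨b2, b1⟩, b4, b3, b6, ?_, inc_tr.2 b7⟩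
      rw [tr_tr]
      exact b5
    · intro t _ t' _ h
      simp only [Prod.mk.injEq] at h
      exact Prod.ext h.2 h.1
    · intro t h
      refine ⟨(t.2, t.1), ?_, rfl⟩
      rw [mem_filter, mem_product] at h ⊢
      obtain ⟨⟨b1, b2⟩, b3, b4, b5, b6, b7⟩ := h
      rw [tr_tr] at b6
      exact ⟨⟨b2, b1⟩, b4, b3, b6, b5, inc_tr.1 b7⟩
  set δ0 := min δ δ' with hδ0
  set C0 := max C C' with hC0
  have hC0' : 0 ≤ C0 := by
    have h3 := hS 1 1 le_rfl le_rfl (by norm_num)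
    have h4 : 0 ≤ C := by
      have := (abs_nonneg _).trans h3
      simpa using this
    exact h4.trans (le_max_left _ _)
  have hle : ∀ (c d : ℝ) (n : ℕ) (X : ℝ), 1 ≤ n → c ≤ C0 → δ0 ≤ d → 0 ≤ X →
      c * X * (n : ℝ) ^ (-d) ≤ C0 * X * (n : ℝ) ^ (-δ0) := by
    intro c d n X hn hc hd hX
    have hn' : (1 : ℝ) ≤ n := by exact_mod_cast hn
    have h3 : (n : ℝ) ^ (-d) ≤ (n : ℝ) ^ (-δ0) :=
      Real.rpow_le_rpow_of_exponent_le hn' (by linarith)
    calc c * X * (n : ℝ) ^ (-d) ≤ C0 * X * (n : ℝ) ^ (-d) := by gcongr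
      _ ≤ _ := by gcongr
  obtain ⟨κ, K, hκ, hK⟩ := hT a (fun A Y => (cnt M ZR ZL A Y : ℝ)) S S' C0 δ0
    (lt_min hδ hδ') (by
      intro A Y hA hY hAY
      refine (hS A Y hA hY hAY).trans (hle _ _ _ _ hA (le_max_left _ _) (min_le_left _ _)
        (by positivity))) (by
      intro A Y hA hY hAY
      have h3 := hS' Y A hY hA hAY
      rw [hcs, mul_comm (A : ℝ) (Y : ℝ)]
      exact h3.trans (hle _ _ _ _ hY (le_max_right _ _) (min_le_right _ _) (by positivity)))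
  have hH' := hH a (pp M ZR ZL) κ K ha1 (pp_nonneg M ZR ZL) (by
    intro ε hε
    obtain ⟨A0, hA0⟩ := hκ ε hε
    refine ⟨A0, fun A Y hA hY => ?_⟩
    rw [sum_pp]
    exact hA0 A Y hA hY) (by
    intro A Y hA hY
    rw [sum_pp]
    exact hK A Y hA hY)
  have hlim := tendsto_scale a ha1 κ _ hH'
  have hlim' : Tendsto (fun B : ℝ => ((Pts M (GP ZR ZL) B).ncard : ℝ) /
      (B * Real.log B)) atTop (𝓝 κ) := by
    refine hlim.congr' ?_
    filter_upwards [eventually_ge_atTop 0] with B hB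
    rw [sum_hyp, pts_eq (by omega) M ZR ZL hB]
  refine ⟨κ, ?_, hlim'⟩
  obtain ⟨c, B₀, hc, hlow⟩ := low hk (by omega) hcx
  refine lt_of_lt_of_le hc (ge_of_tendsto hlim' ?_)
  filter_upwards [eventually_ge_atTop B₀, eventually_gt_atTop 1] with B hB1 hB2
  have hlB : 0 < Real.log B := Real.log_pos hB2
  rw [le_div_iff₀ (by positivity)]
  calc c * (B * Real.log B) = c * B * Real.log B := by ring
    _ ≤ _ := hlow B hB1

/-- The determinant has no rational zeros. -/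
def NoZeros {k N : ℕ} (M : Fin k → Matrix (Fin N) (Fin N) ℤ) : Prop :=
  ∀ s : Fin k → ℚ, s ≠ 0 → (∑ i, s i • (M i).map (Int.cast : ℤ → ℚ)).det ≠ 0

theorem noZeros_tr {k N : ℕ} {M : Fin k → Matrix (Fin N) (Fin N) ℤ} (h : NoZeros M) :
    NoZeros (tr M) := by
  intro s hs hd
  apply h s hs
  rw [← det_transpose] at hd
  rw [← hd]
  congr 1
  rw [transpose_sum]
  refine Finset.sum_congr rfl fun i _ => ?_
  unfold tr
  rw [transpose_smul, ← transpose_map, transpose_transpose]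

theorem li_of_noZeros {k N : ℕ} {M : Fin k → Matrix (Fin N) (Fin N) ℤ} (h : NoZeros M)
    {y : Fin N → ℤ} (hy : y ≠ 0) : LinearIndependent ℤ (cv M y) := by
  by_contra hd
  obtain ⟨s, hs0, hrel⟩ := Pool.Agent.H548.BL.exists_rel hd
  apply h s hs0
  rw [← Matrix.exists_mulVec_eq_zero_iff]
  refine ⟨fun q => (y q : ℚ), ?_, ?_⟩
  · intro h0
    apply hy
    funext q
    have := congrFun h0 q
    simpa using this
  · rw [Matrix.sum_mulVec]
    funext p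
    rw [Finset.sum_apply]
    simp only [smul_mulVec, Pi.smul_apply, smul_eq_mul, Pi.zero_apply]
    rw [← hrel p]
    refine Finset.sum_congr rfl fun i _ => ?_
    congr 1
    exact Pool.Agent.H548.BL.cv_cast M y i p

theorem side_of_noZeros {k N : ℕ} {M : Fin k → Matrix (Fin N) (Fin N) ℤ} (h : NoZeros M) :
    Side M ∅ ∅ := by
  classical
  refine ⟨fun x _ y hy _ => li_of_noZeros h hy, 0, fun A _ => ?_⟩
  simp

theorem gx_of_noZeros {k N : ℕ} {M : Fin k → Matrix (Fin N) (Fin N) ℤ} (h : NoZeros M)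
    {x : Fin N → ℤ} (hx : x ≠ 0) : GX M ∅ x := by
  refine ⟨?_, by simp⟩
  have := li_of_noZeros (noZeros_tr h) hx
  rwa [cv_tr] at this

theorem exists_of_noZeros {k N : ℕ} (hk : 1 ≤ k) (hkN : k < N)
    {M : Fin k → Matrix (Fin N) (Fin N) ℤ} (h : NoZeros M) :
    ∃ x y : Fin N → ℤ, Inc M x y ∧ GX M ∅ x ∧ GX (tr M) ∅ y := by
  have hx : (fun _ => 1 : Fin N → ℤ) ≠ 0 := by
    intro h0
    have := congrFun h0 ⟨0, by omega⟩
    simp at this
  obtain ⟨-, y, hy0, hy, -⟩ := lamspec hk hkN M (fun _ => 1)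
  exact ⟨_, y, hy, gx_of_noZeros h hx, gx_of_noZeros (noZeros_tr h) hy0⟩

theorem finZeros_of_noZeros {k N : ℕ} {M : Fin k → Matrix (Fin N) (Fin N) ℤ} (h : NoZeros M) :
    FinZeros M := ⟨∅, fun s hs hd => absurd hd (h s hs)⟩

/-- No degenerate vectors. -/
theorem main_noZeros (hC : StmtC) (hT : StmtT) (hH : StmtH) {k N : ℕ} (hk : 1 ≤ k)
    (hN3 : k + 3 ≤ N) (hN : 2 * k + 1 ≤ N) {M : Fin k → Matrix (Fin N) (Fin N) ℤ}
    (hs : Smooth M) (hf : NoZeros M) :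
    ∃ c : ℝ, 0 < c ∧ Tendsto (fun B : ℝ => ((Pts M 1 B).ncard : ℝ) /
      (B * Real.log B)) atTop (𝓝 c) := by
  have h := (main_of hC hT hH hk hN3 hN hs (finZeros_of_noZeros hf) (side_of_noZeros hf)
    (side_of_noZeros (noZeros_tr hf)) (exists_of_noZeros hk (by omega) hf)).2
  have e : GP (∅ : Finset (Fin N → ℤ)) ∅ = 1 := by
    unfold GP
    simp
  rw [e] at h
  exact h

/-- Two divisors. -/
theorem main_two (hC : StmtC) (hT : StmtT) (hH : StmtH) (hK : StmtK) {N : ℕ} (hN : 5 ≤ N)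
    {M : Fin 2 → Matrix (Fin N) (Fin N) ℤ} (hs : Smooth M) :
    ∃ ZR ZL : Finset (Fin N → ℤ), (∃ x y : Fin N → ℂ, InV M (GP ZR ZL) x y) ∧
    ∃ c : ℝ, 0 < c ∧ Tendsto (fun B : ℝ => ((Pts M (GP ZR ZL) B).ncard : ℝ) /
      (B * Real.log B)) atTop (𝓝 c) := by
  obtain ⟨ZR, ZL, h1, h2, h3⟩ := hK N M hN hs
  exact ⟨ZR, ZL, main_of hC hT hH (by norm_num) (by omega) (by omega) hs (finZeros_two hs)
    h1 h2 h3⟩

end Pool.Agent.T6.H81.BA
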