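import Mathlib
import Pool.Agent.T6.H81.BA.Defs2
import Pool.Agent.T6.H81.BA.F

/-! The asymptotic formula for all adelic heights: assembly. -/

namespace Pool.Agent.T6.H81.BA

open Finset Module Matrix Filter Topology
open Pool.Agent.H548.WM (ht bx mem_bx Rep ht_pos)
open Pool.Agent.H548.BL (rv cv Inc Smooth FinZeros tr lat mem_lat PP rc norm_rc inc_iff_rv
  rv_tr cv_tr rep_ne inc_tr tr_tr smooth_tr finZeros_tr box finZeros_two)
open Pool.Agent.H548.BK (InV Pts two low finite_pts)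
open Pool.Agent.H548.TL (evz evz_map evz_int)

/-! ### From boxes to heights -/

open Classical in
theorem sum_box {N : ℕ} (R : (Fin N → ℤ) × (Fin N → ℤ) → Prop)
    (hR : ∀ t, R t → 1 ≤ ht t.1 ∧ 1 ≤ ht t.2) (A Y : ℕ) :
    ∑ i ∈ Icc 1 A, ∑ j ∈ Icc 1 Y,
      (((bx N i ×ˢ bx N j).filter fun t => R t ∧ ht t.1 = i ∧ ht t.2 = j).card : ℝ) =
      (((bx N A ×ˢ bx N Y).filter R).card : ℝ) := by
  have h1 : ((bx N A ×ˢ bx N Y).filter R).card = ∑ i ∈ Icc 1 A, ∑ j ∈ Icc 1 Y,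
      ((bx N i ×ˢ bx N j).filter fun t => R t ∧ ht t.1 = i ∧ ht t.2 = j).card := by
    rw [← Finset.sum_product' (Icc 1 A) (Icc 1 Y) (fun i j =>
      ((bx N i ×ˢ bx N j).filter fun t => R t ∧ ht t.1 = i ∧ ht t.2 = j).card)]
    rw [Finset.card_eq_sum_card_fiberwise (f := fun t => (ht t.1, ht t.2)) (t := Icc 1 A ×ˢ Icc 1 Y)]
    · refine Finset.sum_congr rfl fun b hb => ?_
      rw [mem_product, mem_Icc, mem_Icc] at hb
      congr 1
      ext t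
      simp only [mem_filter, mem_product, mem_bx, Prod.ext_iff]
      constructor
      · rintro ⟨⟨⟨-, -⟩, h⟩, h1, h2⟩
        exact ⟨⟨h1.le, h2.le⟩, h, h1, h2⟩
      · rintro ⟨-, h, h1, h2⟩
        exact ⟨⟨⟨h1.le.trans hb.1.2, h2.le.trans hb.2.2⟩, h⟩, h1, h2⟩
    · intro t ht'
      rw [mem_coe, mem_filter, mem_product, mem_bx, mem_bx] at ht'
      rw [mem_coe, mem_product, mem_Icc, mem_Icc]
      have := hR t ht'.2
      exact ⟨⟨this.1, ht'.1.1⟩, ⟨this.2, ht'.1.2⟩⟩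
  rw [h1]
  push_cast
  rfl

open Classical in
theorem sum_hyp_box {N : ℕ} (R : (Fin N → ℤ) × (Fin N → ℤ) → Prop)
    (hR : ∀ t, R t → 1 ≤ ht t.1 ∧ 1 ≤ ht t.2) (T : ℕ) :
    ∑ i ∈ Icc 1 T, ∑ j ∈ Icc 1 (T / i),
      (((bx N i ×ˢ bx N j).filter fun t => R t ∧ ht t.1 = i ∧ ht t.2 = j).card : ℝ) =
      ({t | R t ∧ ht t.1 * ht t.2 ≤ T}.ncard : ℝ) := by
  have h1 : {t | R t ∧ ht t.1 * ht t.2 ≤ T}.ncard = ∑ i ∈ Icc 1 T,
      ∑ j ∈ Icc 1 (T / i),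
      ((bx N i ×ˢ bx N j).filter fun t => R t ∧ ht t.1 = i ∧ ht t.2 = j).card := by
    have h2 : {t | R t ∧ ht t.1 * ht t.2 ≤ T} =
        ((((bx N T ×ˢ bx N T).filter fun t => R t ∧ ht t.1 * ht t.2 ≤ T) :
          Finset _) : Set ((Fin N → ℤ) × (Fin N → ℤ))) := by
      ext t
      rw [Set.mem_ofPred_eq, mem_coe, mem_filter, mem_product, mem_bx, mem_bx]
      constructor
      · intro h
        have h3 := hR t h.1
        refine ⟨⟨?_, ?_⟩, h⟩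
        · exact (Nat.le_mul_of_pos_right _ h3.2).trans h.2
        · exact (Nat.le_mul_of_pos_left _ h3.1).trans h.2
      · exact fun h => h.2
    rw [h2, Set.ncard_coe_finset]
    rw [Finset.card_eq_sum_card_fiberwise (f := fun t => ht t.1) (t := Icc 1 T)]
    · refine Finset.sum_congr rfl fun i hi => ?_
      rw [mem_Icc] at hi
      rw [Finset.card_eq_sum_card_fiberwise (f := fun t => ht t.2) (t := Icc 1 (T / i))]
      · refine Finset.sum_congr rfl fun j hj => ?_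
        rw [mem_Icc, Nat.le_div_iff_mul_le (by omega)] at hj
        congr 1
        ext t
        simp only [mem_filter, mem_product, mem_bx]
        constructor
        · rintro ⟨⟨⟨⟨-, -⟩, h, -⟩, h1⟩, h2⟩
          exact ⟨⟨h1.le, h2.le⟩, h, h1, h2⟩
        · rintro ⟨-, h, h1, h2⟩
          have hj1 : j ≤ T := (Nat.le_mul_of_pos_right _ (by omega)).trans hj.2
          refine ⟨⟨⟨⟨h1.le.trans hi.2, h2.le.trans hj1⟩, h, ?_⟩, h1⟩, h2⟩
          rw [h1, h2, mul_comm]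
          exact hj.2
      · intro t ht'
        rw [mem_coe, mem_filter, mem_filter, mem_product, mem_bx, mem_bx] at ht'
        rw [mem_coe, mem_Icc, Nat.le_div_iff_mul_le (by omega)]
        have := hR t ht'.1.2.1
        refine ⟨this.2, ?_⟩
        rw [← ht'.2, mul_comm]
        exact ht'.1.2.2
    · intro t ht'
      rw [mem_coe, mem_filter, mem_product, mem_bx, mem_bx] at ht'
      rw [mem_coe, mem_Icc]
      exact ⟨(hR t ht'.2.1).1, ht'.1.1⟩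
  rw [h1]
  push_cast
  rfl

theorem height_iff {a : ℕ} (ha : 1 ≤ a) (n m : ℕ) {B : ℝ} (hB : 0 ≤ B) :
    (n : ℝ) ^ a * (m : ℝ) ^ a ≤ B ↔ n * m ≤ ⌊B ^ (1 / (a : ℝ))⌋₊ := by
  have ha' : (0 : ℝ) < (a : ℝ) := by exact_mod_cast ha
  rw [Nat.le_floor_iff (by positivity), ← mul_pow, ← Real.rpow_natCast]
  have h2 : (0 : ℝ) ≤ (n : ℝ) * m := by positivity
  push_cast
  rw [one_div, Real.le_rpow_inv_iff_of_pos h2 hB ha']

open Classical in
/-- The count with the naive height, from boxes. -/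
theorem asym_of_box (hH : StmtH) {N a : ℕ} (ha : 1 ≤ a)
    (R : (Fin N → ℤ) × (Fin N → ℤ) → Prop) (hR : ∀ t, R t → 1 ≤ ht t.1 ∧ 1 ≤ ht t.2)
    (κ K : ℝ)
    (h1 : ∀ ε : ℝ, 0 < ε → ∃ A0 : ℕ, ∀ A Y : ℕ, A0 ≤ A → A0 ≤ Y →
      |(((bx N A ×ˢ bx N Y).filter R).card : ℝ) - κ * ((A : ℝ) * Y) ^ a| ≤
        ε * ((A : ℝ) * Y) ^ a)
    (h2 : ∀ A Y : ℕ, 1 ≤ A → 1 ≤ Y →
      (((bx N A ×ˢ bx N Y).filter R).card : ℝ) ≤ K * ((A : ℝ) * Y) ^ a) :
    Tendsto (fun B : ℝ => ({t | R t ∧ (ht t.1 : ℝ) ^ a * (ht t.2 : ℝ) ^ a ≤ B}.ncard : ℝ) /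
      (B * Real.log B)) atTop (𝓝 κ) := by
  have hH' := hH a (fun i j =>
      (((bx N i ×ˢ bx N j).filter fun t => R t ∧ ht t.1 = i ∧ ht t.2 = j).card : ℝ)) κ K ha
    (fun i j => by positivity) (by
    intro ε hε
    obtain ⟨A0, hA0⟩ := h1 ε hε
    refine ⟨A0, fun A Y hA hY => ?_⟩
    rw [sum_box R hR]
    exact hA0 A Y hA hY) (by
    intro A Y hA hY
    rw [sum_box R hR]
    exact h2 A Y hA hY)
  have hlim := tendsto_scale a ha κ _ hH'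
  refine hlim.congr' ?_
  filter_upwards [eventually_ge_atTop 0] with B hB
  rw [sum_hyp_box R hR]
  congr 3
  ext t
  rw [Set.mem_ofPred_eq, Set.mem_ofPred_eq, height_iff ha _ _ hB]

/-! ### Cells -/

theorem cell_pos {N n : ℕ} {f : Fin n → Fin N → ℤ} {σ : Fin n → Bool} {q : ℕ}
    {r v : Fin N → ℤ} (h : Cell f σ q r v) : 1 ≤ ht v := by
  apply ht_pos
  rintro rfl
  have h1 := h.1
  have h2 : (univ.gcd (0 : Fin N → ℤ)) = 0 := Finset.gcd_eq_zero_iff.2 (by simp)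
  rw [h2] at h1
  exact zero_ne_one h1

/-- The pairs in a pair of cells. -/
def RC {k N : ℕ} (M : Fin k → Matrix (Fin N) (Fin N) ℤ) (ZR ZL : Finset (Fin N → ℤ))
    (cx cy : (Fin N → ℤ) → Prop) (t : (Fin N → ℤ) × (Fin N → ℤ)) : Prop :=
  cx t.1 ∧ cy t.2 ∧ GX M ZR t.1 ∧ GX (tr M) ZL t.2 ∧ Inc M t.1 t.2

open Classical in
theorem cntw_tr {k N : ℕ} (M : Fin k → Matrix (Fin N) (Fin N) ℤ) (ZR ZL : Finset (Fin N → ℤ))
    (cx cy : (Fin N → ℤ) → Prop) (A Y : ℕ) :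
    cntw M ZR ZL cx cy A Y = cntw (tr M) ZL ZR cy cx Y A := by
  unfold cntw
  apply Finset.card_bij (fun t _ => (t.2, t.1))
  · intro t h
    rw [mem_filter, mem_product] at h ⊢
    obtain ⟨⟨b1, b2⟩, b3, b4, b5, b6, b7⟩ := h
    refine ⟨⟨b2, b1⟩, b4, b3, b6, ?_, inc_tr.2 b7⟩
    rw [tr_tr]
    exact b5
  · intro t _ t' _ h
    simp only [Prod.mk.injEq] at h
    exact Prod.ext h.2 h.1
  · intro t h
    refine ⟨(t.2, t.1), ?_, rfl⟩
    rw [mem_filter, mem_product] at h ⊢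
    obtain ⟨⟨b1, b2⟩, b3, b4, b5, b6, b7⟩ := h
    rw [tr_tr] at b6
    exact ⟨⟨b2, b1⟩, b4, b3, b6, b5, inc_tr.1 b7⟩

/-- The data of a system for which everything is known. -/
structure Dat {k N : ℕ} (M : Fin k → Matrix (Fin N) (Fin N) ℤ) (ZR ZL : Finset (Fin N → ℤ)) :
    Prop where
  hk : 1 ≤ k
  hN3 : k + 3 ≤ N
  hN : 2 * k + 1 ≤ N
  s1 : Side M ZR ZL
  s2 : Side (tr M) ZL ZR
  b1 : Box M
  b2 : Box (tr M)
  ex : ∃ x y : Fin N → ℤ, Inc M x y ∧ GX M ZR x ∧ GX (tr M) ZL y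

/-- The asymptotic formula in a pair of cells. -/
theorem cell_asym (hC : StmtC2) (hT : StmtT) (hH : StmtH) {k N : ℕ}
    {M : Fin k → Matrix (Fin N) (Fin N) ℤ} {ZR ZL : Finset (Fin N → ℤ)} (hD : Dat M ZR ZL)
    (n : ℕ) (f : Fin n → Fin N → ℤ) (σ σ' : Fin n → Bool) (q : ℕ) (hq : 1 ≤ q)
    (r r' : Fin N → ℤ) :
    ∃ κ : ℝ, Tendsto (fun B : ℝ =>
      ({t | RC M ZR ZL (Cell f σ q r) (Cell f σ' q r') t ∧
        (ht t.1 : ℝ) ^ (N - k) * (ht t.2 : ℝ) ^ (N - k) ≤ B}.ncard : ℝ) /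
      (B * Real.log B)) atTop (𝓝 κ) := by
  classical
  obtain ⟨hk, hN3, hN, h1, h2, hb1, hb2, -⟩ := hD
  set a := N - k with ha
  have ha1 : 1 ≤ a := by omega
  obtain ⟨S, C, δ, hδ, hS⟩ := hC k N M ZR ZL hk hN3 hN h1 hb1 (Cell f σ q r) n f σ' q r' hq
  obtain ⟨S', C', δ', hδ', hS'⟩ := hC k N (tr M) ZL ZR hk hN3 hN h2 hb2 (Cell f σ' q r')
    n f σ q r hq
  set δ0 := min δ δ' with hδ0
  set C0 := max C C' with hC0
  have hC0' : 0 ≤ C0 := by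
    have h3 := hS 1 1 le_rfl le_rfl (by norm_num)
    have h4 : 0 ≤ C := by
      have := (abs_nonneg _).trans h3
      simpa using this
    exact h4.trans (le_max_left _ _)
  have hle : ∀ (c d : ℝ) (n : ℕ) (X : ℝ), 1 ≤ n → c ≤ C0 → δ0 ≤ d → 0 ≤ X →
      c * X * (n : ℝ) ^ (-d) ≤ C0 * X * (n : ℝ) ^ (-δ0) := by
    intro c d n X hn hc hd hX
    have hn' : (1 : ℝ) ≤ n := by exact_mod_cast hn
    have h3 : (n : ℝ) ^ (-d) ≤ (n : ℝ) ^ (-δ0) :=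
      Real.rpow_le_rpow_of_exponent_le hn' (by linarith)
    calc c * X * (n : ℝ) ^ (-d) ≤ C0 * X * (n : ℝ) ^ (-d) := by gcongr
      _ ≤ _ := by gcongr
  obtain ⟨κ, K, hκ, hK⟩ := hT a
    (fun A Y => (cntw M ZR ZL (Cell f σ q r) (Cell f σ' q r') A Y : ℝ)) S S' C0 δ0
    (lt_min hδ hδ') (by
      intro A Y hA hY hAY
      refine (hS A Y hA hY hAY).trans (hle _ _ _ _ hA (le_max_left _ _) (min_le_left _ _)
        (by positivity))) (by
      intro A Y hA hY hAY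
      have h3 := hS' Y A hY hA hAY
      rw [cntw_tr, mul_comm (A : ℝ) (Y : ℝ)]
      exact h3.trans (hle _ _ _ _ hY (le_max_right _ _) (min_le_right _ _) (by positivity)))
  refine ⟨κ, asym_of_box hH ha1 (RC M ZR ZL (Cell f σ q r) (Cell f σ' q r')) (by
    rintro t ⟨c1, c2, -⟩
    exact ⟨cell_pos c1, cell_pos c2⟩) κ K ?_ ?_⟩
  · intro ε hε
    obtain ⟨A0, hA0⟩ := hκ ε hε
    refine ⟨A0, fun A Y hA hY => ?_⟩
    have := hA0 A Y hA hY
    unfold cntw at this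
    unfold RC
    convert this using 6
  · intro A Y hA hY
    have := hK A Y hA hY
    unfold cntw at this
    unfold RC
    convert this using 4

/-- The primitive pairs. -/
def QQ {k N : ℕ} (M : Fin k → Matrix (Fin N) (Fin N) ℤ) (ZR ZL : Finset (Fin N → ℤ)) :
    Set ((Fin N → ℤ) × (Fin N → ℤ)) :=
  {t | univ.gcd t.1 = 1 ∧ univ.gcd t.2 = 1 ∧ GX M ZR t.1 ∧ GX (tr M) ZL t.2 ∧ Inc M t.1 t.2}

theorem gcd_ne {N : ℕ} {v : Fin N → ℤ} (h : univ.gcd v = 1) : v ≠ 0 := by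
  rintro rfl
  have h2 : (univ.gcd (0 : Fin N → ℤ)) = 0 := Finset.gcd_eq_zero_iff.2 (by simp)
  rw [h2] at h
  exact zero_ne_one h

theorem fin_aux {N a : ℕ} (ha : 1 ≤ a) (Q : Set ((Fin N → ℤ) × (Fin N → ℤ)))
    (hQ : ∀ t ∈ Q, 1 ≤ ht t.1 ∧ 1 ≤ ht t.2) (B : ℝ) :
    {t | t ∈ Q ∧ (ht t.1 : ℝ) ^ a * (ht t.2 : ℝ) ^ a ≤ B}.Finite := by
  apply (((bx N ⌊B⌋₊) ×ˢ (bx N ⌊B⌋₊)).finite_toSet).subset
  rintro t ⟨a1, a3⟩
  have n0 : (1 : ℝ) ≤ ht t.1 := by exact_mod_cast (hQ t a1).1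
  have n1 : (1 : ℝ) ≤ ht t.2 := by exact_mod_cast (hQ t a1).2
  have m0 : (ht t.1 : ℝ) ≤ (ht t.1 : ℝ) ^ a := le_self_pow₀ n0 (by omega)
  have m1 : (ht t.2 : ℝ) ≤ (ht t.2 : ℝ) ^ a := le_self_pow₀ n1 (by omega)
  rw [mem_coe, mem_product, mem_bx, mem_bx]
  constructor
  · apply Nat.le_floor
    nlinarith
  · apply Nat.le_floor
    nlinarith

/-- The asymptotic formula for primitive pairs and all heights. -/
theorem prim_asym (hC : StmtC2) (hT : StmtT) (hH : StmtH) (hZ : StmtZ) (hW : StmtW) {k N : ℕ}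
    {M : Fin k → Matrix (Fin N) (Fin N) ℤ} {ZR ZL : Finset (Fin N → ℤ)} (hD : Dat M ZR ZL)
    (ψ : (Fin N → ℝ) → (Fin N → ℝ) → ℝ) (S : Finset Nat.Primes)
    (φ : ∀ p : Nat.Primes, (Fin N → ℚ_[p]) → (Fin N → ℚ_[p]) → ℝ)
    (hψ : LF M ψ) (hφ : ∀ p ∈ S, LF M (φ p)) :
    ∃ c : ℝ, Tendsto (fun B : ℝ => ({t | t ∈ QQ M ZR ZL ∧
      ((ht t.1 : ℝ) ^ (N - k) * (ht t.2 : ℝ) ^ (N - k)) * Phi ψ S φ t.1 t.2 ≤ B}.ncard : ℝ) /
      (B * Real.log B)) atTop (𝓝 c) := by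
  obtain ⟨⟨m, m', hm, hmm⟩, hcells⟩ := hZ k N M ψ S φ hψ hφ
  have ha1 : 1 ≤ N - k := by have := hD.hN; have := hD.hk; omega
  have hQpos : ∀ t ∈ QQ M ZR ZL, 1 ≤ ht t.1 ∧ 1 ≤ ht t.2 := by
    rintro t ⟨h1, h2, -⟩
    exact ⟨ht_pos (gcd_ne h1), ht_pos (gcd_ne h2)⟩
  apply hW ((Fin N → ℤ) × (Fin N → ℤ)) (QQ M ZR ZL)
    (fun t => (ht t.1 : ℝ) ^ (N - k) * (ht t.2 : ℝ) ^ (N - k))
    (fun t => Phi ψ S φ t.1 t.2) m m' hm
  · rintro t ⟨h1, h2, -, -, h5⟩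
    exact hmm t.1 t.2 (gcd_ne h1) (gcd_ne h2) h5
  · intro t ht'
    obtain ⟨h1, h2⟩ := hQpos t ht'
    have n0 : (1 : ℝ) ≤ ht t.1 := by exact_mod_cast h1
    have n1 : (1 : ℝ) ≤ ht t.2 := by exact_mod_cast h2
    exact one_le_mul_of_one_le_of_one_le (one_le_pow₀ n0) (one_le_pow₀ n1)
  · intro B
    exact fin_aux ha1 _ hQpos B
  · intro ε hε
    obtain ⟨n, f, q, hq, hcell⟩ := hcells ε hε
    have : NeZero q := ⟨by omega⟩
    refine ⟨(Fin n → Bool) × (Fin n → Bool) × (Fin N → ZMod q) × (Fin N → ZMod q), inferInstance,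
      fun t => (fun i => decide (0 ≤ f i ⬝ᵥ t.1), fun i => decide (0 ≤ f i ⬝ᵥ t.2),
        fun j => ((t.1 j : ℤ) : ZMod q), fun j => ((t.2 j : ℤ) : ZMod q)), ?_, ?_⟩
    · rintro t ⟨h1, h2, -, -, h5⟩ t' ⟨h1', h2', -, -, h5'⟩ heq
      simp only [Prod.mk.injEq] at heq
      obtain ⟨e1, e2, e3, e4⟩ := heq
      apply hcell t.1 t.2 t'.1 t'.2 h1 h2 h1' h2' h5 h5'
      · intro j
        have := congrFun e3 j
        exact (ZMod.intCast_eq_intCast_iff_dvd_sub _ _ _).1 this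
      · intro j
        have := congrFun e4 j
        exact (ZMod.intCast_eq_intCast_iff_dvd_sub _ _ _).1 this
      · intro i
        have := congrFun e1 i
        simp only [decide_eq_decide] at this
        exact this.symm
      · intro i
        have := congrFun e2 i
        simp only [decide_eq_decide] at this
        exact this.symm
    · rintro ⟨σ, σ', ρ, ρ'⟩
      obtain ⟨κ, hκ⟩ := cell_asym hC hT hH hD n f σ σ' q hq (fun j => ((ρ j).val : ℤ))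
        (fun j => ((ρ' j).val : ℤ))
      refine ⟨κ, hκ.congr fun B => ?_⟩
      congr 3
      ext t
      rw [Set.mem_ofPred_eq, Set.mem_ofPred_eq]
      have hmod : ∀ (v : Fin N → ℤ) (ρ : Fin N → ZMod q),
          (fun j => ((v j : ℤ) : ZMod q)) = ρ ↔ ∀ j, (q : ℤ) ∣ v j - ((ρ j).val : ℤ) := by
        intro v ρ
        rw [funext_iff]
        refine forall_congr' fun j => ?_
        rw [← ZMod.intCast_eq_intCast_iff_dvd_sub]
        push_cast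
        rw [ZMod.natCast_zmod_val]
        exact eq_comm
      have hsig : ∀ (v : Fin N → ℤ) (σ : Fin n → Bool),
          (fun i => decide (0 ≤ f i ⬝ᵥ v)) = σ ↔ ∀ i, (0 ≤ f i ⬝ᵥ v ↔ σ i = true) := by
        intro v σ
        rw [funext_iff]
        refine forall_congr' fun i => ?_
        cases σ i <;> simp
      simp only [Prod.mk.injEq, hmod, hsig]
      unfold RC Cell QQ
      rw [Set.mem_ofPred_eq]
      tauto

end Pool.Agent.T6.H81.BA
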