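import Mathlib
import Pool.Agent.T6.H68.BL.Main

/-! Lattice points in translated cones: averages. -/

set_option autoImplicit false

namespace Pool.Agent.T6.H81.BA.L2

open Module MeasureTheory Metric ZSpan
open scoped ENNReal Topology Pointwise
open Pool.Agent.T6.H68.BL

section
variable {E : Type*} [NormedAddCommGroup E] [NormedSpace ℝ E] [FiniteDimensional ℝ E]
  (L : Submodule ℤ E) [DiscreteTopology L]

/-- the sign conditions -/
def Sg {n : ℕ} (f : Fin n → E →ₗ[ℝ] ℝ) (σ : Fin n → Bool) (x : E) : Prop :=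
  ∀ i, (0 ≤ f i x ↔ σ i = true)

/-- lattice points in a translated cone -/
def TD {n : ℕ} (f : Fin n → E →ₗ[ℝ] ℝ) (σ : Fin n → Bool) (u : E) (Y : ℝ) : Set E :=
  {v | v ∈ L ∧ ‖v + u‖ ≤ Y ∧ Sg f σ (v + u)}

/-- lattice points in a translated ball -/
def TB (u : E) (Y : ℝ) : Set E := {v | v ∈ L ∧ ‖v + u‖ ≤ Y}

theorem TB_finite (u : E) (Y : ℝ) : (TB L u Y).Finite := by
  apply (GG_finite L (Y + ‖u‖)).subset
  rintro v ⟨h1, h2⟩
  refine ⟨h1, ?_⟩
  have : v = (v + u) - u := by abel
  rw [this]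
  exact (norm_sub_le _ _).trans (by linarith)

theorem TD_finite {n : ℕ} (f : Fin n → E →ₗ[ℝ] ℝ) (σ : Fin n → Bool) (u : E) (Y : ℝ) :
    (TD L f σ u Y).Finite := (TB_finite L u Y).subset fun _ h => ⟨h.1, h.2.1⟩

theorem TD_le {n : ℕ} (f : Fin n → E →ₗ[ℝ] ℝ) (σ : Fin n → Bool) (u : E) (Y : ℝ) :
    (TD L f σ u Y).ncard ≤ (TB L u Y).ncard :=
  Set.ncard_le_ncard (fun _ h => ⟨h.1, h.2.1⟩) (TB_finite L u Y)

theorem TB_shift (d : ℝ) (hd : ∀ x : E, ∃ v ∈ L, ‖x - v‖ ≤ d) (u : E) (Y : ℝ) :
    (GG L (Y - d)).ncard ≤ (TB L u Y).ncard ∧ (TB L u Y).ncard ≤ (GG L (Y + d)).ncard := by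
  obtain ⟨v, hv, hvd⟩ := hd u
  have hinj : Function.Injective fun w : E => w + v := add_left_injective v
  constructor
  · have hinj' : Function.Injective fun w : E => w - v := sub_left_injective
    rw [← Set.ncard_image_of_injective _ hinj']
    apply Set.ncard_le_ncard _ (TB_finite L u Y)
    rintro _ ⟨w, hw, rfl⟩
    refine ⟨L.sub_mem hw.1 hv, ?_⟩
    have : w - v + u = w + (u - v) := by abel
    show ‖w - v + u‖ ≤ Y
    rw [this]
    have := hw.2
    exact (norm_add_le _ _).trans (by linarith)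
  · rw [← Set.ncard_image_of_injective _ hinj]
    apply Set.ncard_le_ncard _ (GG_finite L (Y + d))
    rintro _ ⟨w, hw, rfl⟩
    refine ⟨L.add_mem hw.1 hv, ?_⟩
    have : w + v = (w + u) - (u - v) := by abel
    show ‖w + v‖ ≤ Y + d
    rw [this]
    have := hw.2
    exact (norm_sub_le _ _).trans (by linarith)

theorem TB_le (u : E) (Y : ℝ) : (TB L u Y).ncard ≤ (GG L (2 * Y)).ncard := by
  rcases (TB L u Y).eq_empty_or_nonempty with h | ⟨v0, hv0⟩
  · rw [h, Set.ncard_empty]
    exact Nat.zero_le _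
  · have hinj' : Function.Injective fun w : E => w - v0 := sub_left_injective
    rw [← Set.ncard_image_of_injective _ hinj']
    apply Set.ncard_le_ncard _ (GG_finite L (2 * Y))
    rintro _ ⟨w, hw, rfl⟩
    refine ⟨L.sub_mem hw.1 hv0.1, ?_⟩
    have : w - v0 = (w + u) - (v0 + u) := by abel
    show ‖w - v0‖ ≤ 2 * Y
    rw [this]
    have h1 := hw.2
    have h2 := hv0.2
    exact (norm_sub_le _ _).trans (by linarith)

theorem TD_period {n : ℕ} (f : Fin n → E →ₗ[ℝ] ℝ) (σ : Fin n → Bool) (u w : E) (hw : w ∈ L)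
    (Y : ℝ) : (TD L f σ (u + w) Y).ncard = (TD L f σ u Y).ncard := by
  have hinj : Function.Injective fun v : E => v + w := add_left_injective w
  rw [← Set.ncard_image_of_injective _ hinj]
  congr 1
  ext v
  constructor
  · rintro ⟨z, ⟨h1, h2, h3⟩, rfl⟩
    have e : z + (u + w) = z + w + u := by abel
    rw [e] at h2 h3
    exact ⟨L.add_mem h1 hw, h2, h3⟩
  · rintro ⟨h1, h2, h3⟩
    refine ⟨v - w, ⟨L.sub_mem h1 hw, ?_, ?_⟩, by simp⟩
    · have e : v - w + (u + w) = v + u := by abel
      rw [e]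
      exact h2
    · have e : v - w + (u + w) = v + u := by abel
      rw [e]
      exact h3

variable [IsZLattice ℝ L]

theorem avgD {n : ℕ} (f : Fin n → E →ₗ[ℝ] ℝ) (σ : Fin n → Bool) :
    ∃ c : ℝ, 0 ≤ c ∧ ∀ Y : ℝ, 0 < Y →
    (∃ u : E, ((TD L f σ u Y).ncard : ℝ) ≤ c * Y ^ finrank ℝ E) ∧
      ∃ u : E, c * Y ^ finrank ℝ E ≤ ((TD L f σ u Y).ncard : ℝ) := by
  borelize E
  have hP : ProperSpace E := FiniteDimensional.proper ℝ E
  set μ : Measure E := Measure.addHaar with hμ
  have hfin : Module.Finite ℤ L := ZLattice.module_finite ℝ L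
  have hfree : Module.Free ℤ L := ZLattice.module_free ℝ L
  let b := Module.Free.chooseBasis ℤ L
  set F : Set E := fundamentalDomain (b.ofZLatticeBasis ℝ L) with hF
  have hFD : IsAddFundamentalDomain L F μ := ZLattice.isAddFundamentalDomain b μ
  have hF0 : μ F ≠ 0 := measure_fundamentalDomain_ne_zero _
  have hFt : μ F ≠ ∞ := (fundamentalDomain_isBounded _).measure_lt_top.ne
  have hFr : 0 < (μ F).toReal := ENNReal.toReal_pos hF0 hFt
  set D : ℝ → Set E := fun Y => {x | ‖x‖ ≤ Y ∧ Sg f σ x} with hD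
  have hDm : ∀ Y, MeasurableSet (D Y) := by
    intro Y
    have h1 : D Y = closedBall 0 Y ∩ ⋂ i, {x | (0 ≤ f i x ↔ σ i = true)} := by
      ext x
      rw [Set.mem_inter_iff, mem_closedBall_zero_iff, Set.mem_iInter]
      rfl
    rw [h1]
    apply measurableSet_closedBall.inter
    apply MeasurableSet.iInter
    intro i
    have hc : Continuous (f i) := (f i).continuous_of_finiteDimensional
    have h2 : MeasurableSet {x | 0 ≤ f i x} := (isClosed_le continuous_const hc).measurableSet
    cases hσ : σ i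
    · have : {x | (0 ≤ f i x ↔ false = true)} = {x | 0 ≤ f i x}ᶜ := by
        ext x
        simp
      rw [this]
      exact h2.compl
    · have : {x | (0 ≤ f i x ↔ true = true)} = {x | 0 ≤ f i x} := by
        ext x
        simp
      rw [this]
      exact h2
  have hDt : ∀ Y, μ (D Y) ≠ ∞ := by
    intro Y
    refine ((measure_mono ?_).trans_lt (isBounded_closedBall (x := (0 : E)) (r := Y)).measure_lt_top).ne
    intro x hx
    rw [mem_closedBall_zero_iff]
    exact hx.1
  have hscale : ∀ Y : ℝ, 0 < Y → (μ (D Y)).toReal = Y ^ finrank ℝ E * (μ (D 1)).toReal := by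
    intro Y hY
    have h1 : D Y = Y • D 1 := by
      ext x
      rw [Set.mem_smul_set_iff_inv_smul_mem₀ hY.ne']
      constructor
      · rintro ⟨h1, h2⟩
        refine ⟨?_, fun i => ?_⟩
        · rw [norm_smul, norm_inv, Real.norm_eq_abs, abs_of_pos hY, inv_mul_le_iff₀ hY, mul_one]
          exact h1
        · rw [map_smul, smul_eq_mul, ← h2 i]
          constructor
          · intro h
            exact (mul_nonneg_iff_of_pos_left (inv_pos.2 hY)).1 h
          · intro h
            positivity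
      · rintro ⟨h1, h2⟩
        refine ⟨?_, fun i => ?_⟩
        · rw [norm_smul, norm_inv, Real.norm_eq_abs, abs_of_pos hY, inv_mul_le_iff₀ hY,
            mul_one] at h1
          exact h1
        · have := h2 i
          rw [map_smul, smul_eq_mul, mul_nonneg_iff_of_pos_left (inv_pos.2 hY)] at this
          exact this
    rw [h1, Measure.addHaar_smul, ENNReal.toReal_mul, ENNReal.toReal_ofReal (by positivity),
      abs_of_pos (by positivity)]
  have hTD : ∀ (x : E) (Y : ℝ), {g : L | ((g : E) + x) ∈ D Y}.Finite ∧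
      {g : L | ((g : E) + x) ∈ D Y}.ncard = (TD L f σ x Y).ncard := by
    intro x Y
    have hinj : Function.Injective ((↑) : L → E) := Subtype.coe_injective
    have h1 : ((↑) : L → E) '' {g : L | ((g : E) + x) ∈ D Y} = TD L f σ x Y := by
      ext v
      constructor
      · rintro ⟨g, hg, rfl⟩
        exact ⟨g.2, hg.1, hg.2⟩
      · rintro ⟨h1, h2, h3⟩
        exact ⟨⟨v, h1⟩, ⟨h2, h3⟩, rfl⟩
    constructor
    · apply Set.Finite.of_finite_image _ hinj.injOn
      rw [h1]
      exact TD_finite L f σ x Y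
    · rw [← h1, Set.ncard_image_of_injective _ hinj]
  have hcount : ∀ Y : ℝ, μ (D Y) = ∫⁻ x in F, ((TD L f σ x Y).ncard : ℝ≥0∞) ∂μ := by
    intro Y
    have h1 : μ (D Y) = ∫⁻ x, (D Y).indicator (fun _ => (1 : ℝ≥0∞)) x ∂μ := by
      rw [lintegral_indicator (hDm Y)]
      simp
    have hinv : VAddInvariantMeasure L E μ :=
      inferInstanceAs (VAddInvariantMeasure L.toAddSubgroup E μ)
    rw [h1, hFD.lintegral_eq_tsum'', ← lintegral_tsum]
    · refine lintegral_congr fun x => ?_
      obtain ⟨h2, h3⟩ := hTD x Y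
      rw [← h3]
      rw [tsum_eq_sum (s := h2.toFinset)]
      · rw [Set.ncard_eq_toFinset_card _ h2, Finset.card_eq_sum_ones, Nat.cast_sum]
        refine Finset.sum_congr rfl fun g hg => ?_
        rw [Set.Finite.mem_toFinset] at hg
        rw [Set.indicator_of_mem]
        · simp
        · exact hg
      · intro g hg
        rw [Set.Finite.mem_toFinset] at hg
        rw [Set.indicator_of_notMem]
        exact hg
    · intro g
      have h3 : Measurable fun x : E => (g +ᵥ x : E) := by
        change Measurable fun x : E => (g : E) + x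
        fun_prop
      exact ((measurable_const.indicator (hDm Y)).comp h3).aemeasurable
  refine ⟨(μ (D 1)).toReal / (μ F).toReal, by positivity, ?_⟩
  intro Y hY
  have hval : (μ (D 1)).toReal / (μ F).toReal * Y ^ finrank ℝ E =
      (μ (D Y)).toReal / (μ F).toReal := by
    rw [hscale Y hY]
    ring
  rw [hval]
  constructor
  · by_contra hcon
    push Not at hcon
    set q := (μ (D Y)).toReal / (μ F).toReal with hq
    have hq0 : 0 ≤ q := by positivity
    have h1 : ∀ u : E, ⌊q⌋₊ + 1 ≤ (TD L f σ u Y).ncard := by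
      intro u
      have := hcon u
      rw [Nat.succ_le_iff, Nat.floor_lt hq0]
      exact this
    have h2 : ((⌊q⌋₊ + 1 : ℕ) : ℝ≥0∞) * μ F ≤ μ (D Y) := by
      rw [hcount Y, ← setLIntegral_const]
      exact lintegral_mono fun x => Nat.cast_le.2 (h1 x)
    have h3 := ENNReal.toReal_mono (hDt Y) h2
    rw [ENNReal.toReal_mul, ENNReal.toReal_natCast, ← le_div_iff₀ hFr] at h3
    have h4 := Nat.lt_floor_add_one q
    push_cast at h3
    linarith
  · by_contra hcon
    push Not at hcon
    set q := (μ (D Y)).toReal / (μ F).toReal with hq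
    have hq0 : 0 ≤ q := by positivity
    have h0 : 0 < ⌈q⌉₊ := by
      rw [Nat.ceil_pos]
      have := hcon 0
      exact lt_of_le_of_lt (Nat.cast_nonneg _) this
    have h1 : ∀ u : E, (TD L f σ u Y).ncard ≤ ⌈q⌉₊ - 1 := by
      intro u
      have := hcon u
      have h2 := Nat.lt_ceil.2 this
      omega
    have h2 : μ (D Y) ≤ ((⌈q⌉₊ - 1 : ℕ) : ℝ≥0∞) * μ F := by
      rw [hcount Y, ← setLIntegral_const]
      exact lintegral_mono fun x => Nat.cast_le.2 (h1 x)
    have h3 := ENNReal.toReal_mono (ENNReal.mul_ne_top (ENNReal.natCast_ne_top _) hFt) h2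
    rw [ENNReal.toReal_mul, ENNReal.toReal_natCast, ← div_le_iff₀ hFr] at h3
    have h4 := Nat.ceil_lt_add_one hq0
    rw [Nat.cast_sub (by omega)] at h3
    push_cast at h3
    linarith

end

end Pool.Agent.T6.H81.BA.L2
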