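import Mathlib
import Pool.Agent.T6.H81.BA.L2a

/-! Lattice points in translated cones: slabs and comparison of translates. -/

set_option autoImplicit false

namespace Pool.Agent.T6.H81.BA.L2

open Module MeasureTheory Metric ZSpan
open scoped ENNReal Topology
open Pool.Agent.T6.H68.BL

section
variable {E : Type*} [NormedAddCommGroup E] [NormedSpace ℝ E] [FiniteDimensional ℝ E]
  (L : Submodule ℤ E) [DiscreteTopology L]

/-- lattice points in a slab -/
def SB (f : E →L[ℝ] ℝ) (u : E) (Y t : ℝ) : Set E := {v | v ∈ L ∧ ‖v + u‖ ≤ Y ∧ |f (v + u)| ≤ t}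

theorem SB_finite (f : E →L[ℝ] ℝ) (u : E) (Y t : ℝ) : (SB L f u Y t).Finite :=
  (TB_finite L u Y).subset fun _ h => ⟨h.1, h.2.1⟩

theorem slab {d : ℝ} (hd : 0 < d) (hcov : ∀ x : E, ∃ v ∈ L, ‖x - v‖ ≤ d) (f : E →L[ℝ] ℝ)
    (hf : f ≠ 0) (u : E) {Y : ℝ} (hY : d ≤ Y) :
    ((SB L f u Y (‖f‖ * d)).ncard : ℝ) * (Y / (8 * d)) ≤ ((TB L u (3 * Y)).ncard : ℝ) := by
  classical
  have hfn : 0 < ‖f‖ := norm_pos_iff.2 hf
  have hY0 : 0 < Y := hd.trans_le hY
  obtain ⟨w, hw1, hw2⟩ : ∃ w : E, ‖w‖ ≤ 1 ∧ 3 / 4 * ‖f‖ ≤ f w := by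
    obtain ⟨x, hx1, hx2⟩ := f.exists_lt_apply_of_lt_opNorm (r := 3 / 4 * ‖f‖) (by linarith)
    rcases le_total 0 (f x) with h | h
    · refine ⟨x, hx1.le, ?_⟩
      rw [Real.norm_eq_abs, abs_of_nonneg h] at hx2
      exact hx2.le
    · refine ⟨-x, by rw [norm_neg]; exact hx1.le, ?_⟩
      rw [Real.norm_eq_abs, abs_of_nonpos h] at hx2
      rw [map_neg]
      exact hx2.le
  choose g hg1 hg2 using fun j : ℕ => hcov ((8 * d * j : ℝ) • w)
  set J := ⌊Y / (8 * d)⌋₊ with hJ
  have hJ1 : Y / (8 * d) < J + 1 := Nat.lt_floor_add_one _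
  have hJ2 : (J : ℝ) * (8 * d) ≤ Y := by
    have := Nat.floor_le (a := Y / (8 * d)) (by positivity)
    rwa [le_div_iff₀ (by positivity)] at this
  have hfinS := SB_finite L f u Y (‖f‖ * d)
  have hfinT := TB_finite L u (3 * Y)
  -- the `f` values
  have hfg : ∀ j : ℕ, |f (g j) - 8 * d * j * f w| ≤ ‖f‖ * d := by
    intro j
    have h1 := f.le_opNorm ((8 * d * j : ℝ) • w - g j)
    rw [map_sub, map_smul, smul_eq_mul, Real.norm_eq_abs, abs_sub_comm] at h1
    exact h1.trans (mul_le_mul_of_nonneg_left (hg2 j) hfn.le)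
  have hsep : ∀ j j' : ℕ, j < j' → ∀ v v' : E, |f (v + u)| ≤ ‖f‖ * d → |f (v' + u)| ≤ ‖f‖ * d →
      v + g j ≠ v' + g j' := by
    intro j j' hjj v v' hv hv' he
    have h1 : f (v + u) + f (g j) = f (v' + u) + f (g j') := by
      rw [← map_add, ← map_add]
      congr 1
      calc v + u + g j = v + g j + u := by abel
        _ = v' + g j' + u := by rw [he]
        _ = v' + u + g j' := by abel
    have h2 := abs_le.1 (hfg j)
    have h3 := abs_le.1 (hfg j')
    have h4 := abs_le.1 hv
    have h5 := abs_le.1 hv'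
    have h6 : (1 : ℝ) ≤ (j' : ℝ) - j := by
      have : (j : ℝ) + 1 ≤ j' := by exact_mod_cast hjj
      linarith
    have h7 : 8 * d * (3 / 4 * ‖f‖) * 1 ≤ 8 * d * f w * ((j' : ℝ) - j) := by
      apply mul_le_mul _ h6 zero_le_one
      · have : 0 ≤ f w := le_trans (by positivity) hw2
        positivity
      · exact mul_le_mul_of_nonneg_left hw2 (by positivity)
    have h8 : 0 < ‖f‖ * d := by positivity
    nlinarith
  have hcard : (J + 1) * (SB L f u Y (‖f‖ * d)).ncard ≤ (TB L u (3 * Y)).ncard := by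
    rw [Set.ncard_eq_toFinset_card _ hfinS, Set.ncard_eq_toFinset_card _ hfinT]
    calc (J + 1) * hfinS.toFinset.card = (Finset.range (J + 1) ×ˢ hfinS.toFinset).card := by
          rw [Finset.card_product, Finset.card_range]
      _ ≤ _ := by
        apply Finset.card_le_card_of_injOn (fun p : ℕ × E => p.2 + g p.1)
        · rintro ⟨j, v⟩ hp
          rw [Finset.mem_coe, Finset.mem_product, Finset.mem_range, Set.Finite.mem_toFinset] at hp
          rw [Finset.mem_coe, Set.Finite.mem_toFinset]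
          obtain ⟨hj, hv1, hv2, hv3⟩ := hp
          refine ⟨L.add_mem hv1 (hg1 j), ?_⟩
          show ‖v + g j + u‖ ≤ 3 * Y
          have h1 : ‖g j‖ ≤ 8 * d * j + d := by
            have h2 : g j = (8 * d * j : ℝ) • w - ((8 * d * j : ℝ) • w - g j) := by abel
            rw [h2]
            refine (norm_sub_le _ _).trans (add_le_add ?_ (hg2 j))
            rw [norm_smul, Real.norm_eq_abs, abs_of_nonneg (by positivity)]
            calc 8 * d * (j : ℝ) * ‖w‖ ≤ 8 * d * (j : ℝ) * 1 :=
                  mul_le_mul_of_nonneg_left hw1 (by positivity)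
              _ = _ := mul_one _
          have h3 : (j : ℝ) ≤ J := by
            have : j ≤ J := by simpa using Nat.lt_succ_iff.1 hj
            exact_mod_cast this
          have h4 : 8 * d * (j : ℝ) ≤ J * (8 * d) := by
            rw [mul_comm (J : ℝ)]
            exact mul_le_mul_of_nonneg_left h3 (by positivity)
          have h5 : v + g j + u = (v + u) + g j := by abel
          rw [h5]
          refine (norm_add_le _ _).trans ?_
          have hv2' : ‖v + u‖ ≤ Y := hv2
          linarith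
        · rintro ⟨j, v⟩ hp ⟨j', v'⟩ hp' he
          rw [Finset.mem_coe, Finset.mem_product, Finset.mem_range,
            Set.Finite.mem_toFinset] at hp hp'
          obtain ⟨hj, hv1, hv2, hv3⟩ := hp
          obtain ⟨hj', hv1', hv2', hv3'⟩ := hp'
          have he' : v + g j = v' + g j' := he
          rcases lt_trichotomy j j' with h | h | h
          · exact absurd he' (hsep j j' h v v' hv3 hv3')
          · subst h
            have : v = v' := add_right_cancel he'
            rw [this]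
          · exact absurd he'.symm (hsep j' j h v' v hv3' hv3)
  have hcast : ((J : ℝ) + 1) * ((SB L f u Y (‖f‖ * d)).ncard : ℝ) ≤
      ((TB L u (3 * Y)).ncard : ℝ) := by exact_mod_cast hcard
  refine le_trans ?_ hcast
  rw [mul_comm]
  exact mul_le_mul_of_nonneg_right hJ1.le (Nat.cast_nonneg _)

theorem compare {n : ℕ} (f : Fin n → E →ₗ[ℝ] ℝ) (σ : Fin n → Bool) {d : ℝ} (hd : 0 < d)
    (hcov : ∀ x : E, ∃ v ∈ L, ‖x - v‖ ≤ d) (u u' : E) (huu : ‖u - u'‖ ≤ d) {Y : ℝ}
    (hY : 4 * d ≤ Y) {c : ℝ} {a : ℕ}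
    (hn : ∀ Y : ℝ, 0 ≤ Y → ((GG L (Y - d)).ncard : ℝ) ≤ c * Y ^ a ∧
      c * Y ^ a ≤ ((GG L (Y + d)).ncard : ℝ)) :
    ((TD L f σ u Y).ncard : ℝ) ≤ (TD L f σ u' Y).ncard +
      (c * (Y + 2 * d) ^ a - c * (Y - 3 * d) ^ a + n * (8 * d / Y * (c * (3 * Y + 2 * d) ^ a))) := by
  classical
  have hY0 : 0 < Y := by linarith
  set F : Fin n → E →L[ℝ] ℝ := fun i => LinearMap.toContinuousLinearMap (f i) with hF
  have hFf : ∀ i x, F i x = f i x := fun i x => rfl
  set S : Fin n → Set E := fun i => if F i = 0 then ∅ else SB L (F i) u Y (‖F i‖ * d) with hS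
  have hSfin : ∀ i, (S i).Finite := by
    intro i
    simp only [hS]
    split_ifs
    · exact Set.finite_empty
    · exact SB_finite L _ _ _ _
  have hTBY : TB L u (Y - d) ⊆ TB L u Y := fun v hv => ⟨hv.1, hv.2.trans (by linarith)⟩
  have hsub : TD L f σ u Y ⊆ TD L f σ u' Y ∪ ((TB L u Y \ TB L u (Y - d)) ∪
      ⋃ i ∈ (Finset.univ : Finset (Fin n)), S i) := by
    rintro v ⟨hv1, hv2, hv3⟩
    by_cases h1 : ‖v + u'‖ ≤ Y
    · by_cases h2 : Sg f σ (v + u')
      · exact Or.inl ⟨hv1, h1, h2⟩
      · right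
        right
        have h3 : ∃ i, ¬ (0 ≤ f i (v + u') ↔ σ i = true) := not_forall.1 h2
        obtain ⟨i, hi⟩ := h3
        rw [Set.mem_iUnion₂]
        refine ⟨i, Finset.mem_univ _, ?_⟩
        have h4 : ¬ (0 ≤ f i (v + u') ↔ 0 ≤ f i (v + u)) := by
          rw [hv3 i]
          exact hi
        have hne : F i ≠ 0 := by
          intro h0
          apply h4
          rw [← hFf, ← hFf, h0]
          simp
        simp only [hS, if_neg hne]
        refine ⟨hv1, hv2, ?_⟩
        have h5 : |f i (v + u) - f i (v + u')| ≤ ‖F i‖ * d := by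
          have h6 := (F i).le_opNorm (u - u')
          rw [Real.norm_eq_abs] at h6
          have h7 : f i (v + u) - f i (v + u') = F i (u - u') := by
            rw [hFf, ← map_sub]
            congr 1
            abel
          rw [h7]
          exact h6.trans (mul_le_mul_of_nonneg_left huu (norm_nonneg _))
        rw [hFf]
        have h8 := abs_le.1 h5
        rcases le_or_gt 0 (f i (v + u)) with h | h
        · have h' : f i (v + u') < 0 := by
            by_contra hcon
            push Not at hcon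
            exact h4 ⟨fun _ => h, fun _ => hcon⟩
          rw [abs_le]
          constructor <;> linarith
        · have h' : 0 ≤ f i (v + u') := by
            by_contra hcon
            push Not at hcon
            apply h4
            constructor
            · intro h9
              exact absurd h9 (not_le.2 hcon)
            · intro h9
              exact absurd h9 (not_le.2 h)
          rw [abs_le]
          constructor <;> linarith
    · right
      left
      refine ⟨⟨hv1, hv2⟩, ?_⟩
      rintro ⟨-, h2⟩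
      apply h1
      have h3 : v + u' = (v + u) - (u - u') := by abel
      rw [h3]
      exact (norm_sub_le _ _).trans (by linarith)
  have hUfin : (⋃ i ∈ (Finset.univ : Finset (Fin n)), S i).Finite :=
    Finset.finite_toSet _ |>.biUnion fun i _ => hSfin i
  have h1 := Set.ncard_le_ncard hsub
    ((TD_finite L f σ u' Y).union (((TB_finite L u Y).sdiff).union hUfin))
  have h2 := Set.ncard_union_le (TD L f σ u' Y) ((TB L u Y \ TB L u (Y - d)) ∪
      ⋃ i ∈ (Finset.univ : Finset (Fin n)), S i)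
  have h3 := Set.ncard_union_le (TB L u Y \ TB L u (Y - d))
      (⋃ i ∈ (Finset.univ : Finset (Fin n)), S i)
  have h4 := Finset.set_ncard_biUnion_le (Finset.univ : Finset (Fin n)) S
  have h5 := Set.ncard_sdiff_add_ncard_of_subset hTBY (TB_finite L u Y)
  have h6 : ((TB L u Y \ TB L u (Y - d)).ncard : ℝ) ≤ c * (Y + 2 * d) ^ a - c * (Y - 3 * d) ^ a := by
    have h7 : ((TB L u Y \ TB L u (Y - d)).ncard : ℝ) + ((TB L u (Y - d)).ncard : ℝ) =
        ((TB L u Y).ncard : ℝ) := by exact_mod_cast h5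
    have h8 := (TB_shift L d hcov u Y).2
    have h9 := (TB_shift L d hcov u (Y - d)).1
    have h10 := (hn (Y + 2 * d) (by linarith)).1
    have h11 := (hn (Y - 3 * d) (by linarith)).2
    rw [show Y + 2 * d - d = Y + d by ring] at h10
    rw [show Y - 3 * d + d = Y - d - d by ring] at h11
    have h8' : ((TB L u Y).ncard : ℝ) ≤ ((GG L (Y + d)).ncard : ℝ) := by exact_mod_cast h8
    have h9' : ((GG L (Y - d - d)).ncard : ℝ) ≤ ((TB L u (Y - d)).ncard : ℝ) := by
      exact_mod_cast h9
    linarith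
  have hT3 : ((TB L u (3 * Y)).ncard : ℝ) ≤ c * (3 * Y + 2 * d) ^ a := by
    have h8 := (TB_shift L d hcov u (3 * Y)).2
    have h10 := (hn (3 * Y + 2 * d) (by linarith)).1
    rw [show 3 * Y + 2 * d - d = 3 * Y + d by ring] at h10
    have h8' : ((TB L u (3 * Y)).ncard : ℝ) ≤ ((GG L (3 * Y + d)).ncard : ℝ) := by
      exact_mod_cast h8
    linarith
  have hT0 : 0 ≤ c * (3 * Y + 2 * d) ^ a := (Nat.cast_nonneg _).trans hT3
  have h7 : ∀ i, ((S i).ncard : ℝ) ≤ 8 * d / Y * (c * (3 * Y + 2 * d) ^ a) := by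
    intro i
    by_cases h0 : F i = 0
    · simp only [hS, if_pos h0, Set.ncard_empty, Nat.cast_zero]
      positivity
    · simp only [hS, if_neg h0]
      have h8 := (slab L hd hcov (F i) h0 u (Y := Y) (by linarith)).trans hT3
      have h9 : ((SB L (F i) u Y (‖F i‖ * d)).ncard : ℝ) =
          8 * d / Y * (((SB L (F i) u Y (‖F i‖ * d)).ncard : ℝ) * (Y / (8 * d))) := by
        field_simp
      rw [h9]
      exact mul_le_mul_of_nonneg_left h8 (by positivity)
  have h8 : ((∑ i : Fin n, (S i).ncard : ℕ) : ℝ) ≤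
      n * (8 * d / Y * (c * (3 * Y + 2 * d) ^ a)) := by
    rw [Nat.cast_sum]
    refine (Finset.sum_le_card_nsmul _ _ _ fun i _ => h7 i).trans ?_
    rw [Finset.card_univ, Fintype.card_fin, nsmul_eq_mul]
  have h9 : ((TD L f σ u Y).ncard : ℝ) ≤ ((TD L f σ u' Y).ncard : ℝ) +
      (((TB L u Y \ TB L u (Y - d)).ncard : ℝ) + ((∑ i : Fin n, (S i).ncard : ℕ) : ℝ)) := by
    have : (TD L f σ u Y).ncard ≤ (TD L f σ u' Y).ncard +
      ((TB L u Y \ TB L u (Y - d)).ncard + ∑ i : Fin n, (S i).ncard) := by omega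
    exact_mod_cast this
  linarith

end

end Pool.Agent.T6.H81.BA.L2
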