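import Mathlib
import Pool.Agent.T6.H81.BA.Defs2
import Pool.Agent.T6.H81.BA.L2b

/-!
# Module L2: lattice points in translated cones
-/

set_option autoImplicit false

namespace Pool.Agent.T6.H81.BA.L2

open Module MeasureTheory Metric ZSpan
open scoped ENNReal Topology
open Pool.Agent.T6.H68.BL

theorem hpow (m : ℕ) : ∀ x y : ℝ, 0 ≤ y → y ≤ x →
    x ^ (m + 1) - y ^ (m + 1) ≤ (x - y) * ((m + 1 : ℕ) * x ^ m) := by
  intro x y hy hxy
  rw [← Commute.geom_sum₂_mul (Commute.all x y) (m + 1)]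
  rw [mul_comm]
  refine mul_le_mul_of_nonneg_left ?_ (by linarith)
  refine (Finset.sum_le_card_nsmul _ _ (x ^ m) ?_).trans ?_
  · intro i hi
    rw [Finset.mem_range] at hi
    have h1 : x ^ i * y ^ (m + 1 - 1 - i) ≤ x ^ i * x ^ (m + 1 - 1 - i) :=
      mul_le_mul_of_nonneg_left (pow_le_pow_left₀ hy hxy _) (pow_nonneg (hy.trans hxy) i)
    refine h1.trans ?_
    rw [← pow_add]
    apply le_of_eq
    congr 1
    omega
  · rw [Finset.card_range, nsmul_eq_mul]

/-- the constant for large radii -/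
noncomputable def K0 (m n : ℕ) : ℝ :=
  (5 * ((m + 1 : ℕ) : ℝ) ^ 2 * 2 ^ m + n * (8 * 4 ^ (m + 1) * ((m + 1 : ℕ) : ℝ))) *
    ((8 * ((m + 1 : ℕ) : ℝ) + 1) ^ (m + 1) * 2 ^ m)

/-- the constant for small radii -/
noncomputable def K1 (m : ℕ) : ℝ :=
  4 ^ m + (32 * ((m + 1 : ℕ) : ℝ) + 1) ^ (m + 1) * 2 ^ m

/-- the constant -/
noncomputable def K2 (m n : ℕ) : ℝ := K0 m n + K1 m * 2 ^ m

theorem main (m n : ℕ) {E : Type*} [NormedAddCommGroup E] [NormedSpace ℝ E]
    [FiniteDimensional ℝ E] (L : Submodule ℤ E) [DiscreteTopology L] [IsZLattice ℝ L]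
    (hE : finrank ℝ E = m + 1) (f : Fin n → E →ₗ[ℝ] ℝ) (σ : Fin n → Bool) :
    ∃ c : ℝ, 0 ≤ c ∧ ∀ l : ℝ, 0 < l → (∀ v ∈ L, v ≠ 0 → l ≤ ‖v‖) →
      c * l ^ (m + 1) ≤ K2 m n ∧
      ∀ (u : E) (Y : ℝ), 0 ≤ Y →
        |((TD L f σ u Y).ncard : ℝ) - c * Y ^ (m + 1)| ≤ K2 m n * (1 + Y / l) ^ m := by
  obtain ⟨c, hc, havg⟩ := avg L
  obtain ⟨R, hR, ⟨v1, hv1, hv1ne, hv1R⟩, hcov, hsub⟩ := exists_R L (by omega)
  obtain ⟨cD, hcD, hD⟩ := avgD L f σ
  rw [hE] at havg hcov hsub hD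
  refine ⟨cD, hcD, fun l hl hsep => ?_⟩
  have ha0 : (1 : ℝ) ≤ ((m + 1 : ℕ) : ℝ) := by
    have : 1 ≤ m + 1 := by omega
    exact_mod_cast this
  have hlR : l ≤ R := by
    rw [← hv1R]
    exact hsep v1 hv1 hv1ne
  set d : ℝ := ((m + 1 : ℕ) : ℝ) * R with hd
  have hd0 : 0 < d := by positivity
  have hRd : R ≤ d := by
    rw [hd]
    nlinarith
  -- small radii
  have hsmall : ∀ r : ℝ, 0 ≤ r → r < R → ((GG L r).ncard : ℝ) ≤ (2 * r / l + 1) ^ m := by
    intro r hr0 hr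
    obtain ⟨W, hW, hWr⟩ := hsub r hr
    refine (count_sub L W hl hsep hr0 hWr).trans ?_
    refine pow_le_pow_right₀ ?_ (by omega)
    have : 0 ≤ 2 * r / l := by positivity
    linarith
  set C1 : ℝ := (8 * ((m + 1 : ℕ) : ℝ) + 1) ^ (m + 1) * 2 ^ m with hC1
  have hC1pos : 0 ≤ C1 := by positivity
  have hhalf : ((GG L (R / 2)).ncard : ℝ) ≤ (R / l + 1) ^ m := by
    have h := hsmall (R / 2) (by positivity) (by linarith)
    have e : 2 * (R / 2) / l = R / l := by ring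
    rwa [e] at h
  have hRl : 1 ≤ R / l := by
    rw [le_div_iff₀ hl]
    linarith
  -- `c R l ^ m ≤ C1`
  have hcR : c * R * l ^ m ≤ C1 := by
    have h1 := (havg d hcov d hd0.le).2
    have h2 := doubling L (r := R / 2) (Y := d + d) (by positivity) (by positivity)
    rw [hE] at h2
    have e : 2 * (d + d) / (R / 2) + 1 = 8 * ((m + 1 : ℕ) : ℝ) + 1 := by
      rw [hd]
      field_simp
      ring
    rw [e] at h2
    have h3 : (R / l + 1) ^ m ≤ (2 * (R / l)) ^ m := by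
      refine pow_le_pow_left₀ (by positivity) (by linarith) m
    have h4 : c * d ^ (m + 1) ≤ C1 * (R / l) ^ m := by
      calc c * d ^ (m + 1) ≤ ((GG L (d + d)).ncard : ℝ) := h1
        _ ≤ (8 * ((m + 1 : ℕ) : ℝ) + 1) ^ (m + 1) * ((GG L (R / 2)).ncard : ℝ) := h2
        _ ≤ (8 * ((m + 1 : ℕ) : ℝ) + 1) ^ (m + 1) * (2 * (R / l)) ^ m :=
            mul_le_mul_of_nonneg_left (hhalf.trans h3) (by positivity)
        _ = C1 * (R / l) ^ m := by
            rw [hC1, mul_pow]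
            ring
    have h5 : R ^ (m + 1) ≤ d ^ (m + 1) := pow_le_pow_left₀ hR.le hRd _
    have h6 : c * R ^ (m + 1) ≤ C1 * (R / l) ^ m :=
      (mul_le_mul_of_nonneg_left h5 hc).trans h4
    have hRm : 0 < R ^ m := by positivity
    have hlm : 0 < l ^ m := by positivity
    rw [div_pow] at h6
    have h7 : c * R ^ (m + 1) * l ^ m ≤ C1 * R ^ m := by
      have := mul_le_mul_of_nonneg_right h6 hlm.le
      have e2 : C1 * (R ^ m / l ^ m) * l ^ m = C1 * R ^ m := by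
        field_simp
      rwa [e2] at this
    have h8 : (c * R * l ^ m) * R ^ m ≤ C1 * R ^ m := by
      calc (c * R * l ^ m) * R ^ m = c * R ^ (m + 1) * l ^ m := by ring
        _ ≤ _ := h7
    exact le_of_mul_le_mul_right h8 hRm
  have hclY : ∀ Y : ℝ, 0 ≤ Y → c * R * Y ^ m ≤ C1 * (1 + Y / l) ^ m := by
    intro Y hY
    have h1 : c * R * Y ^ m = (c * R * l ^ m) * (Y / l) ^ m := by
      rw [div_pow]
      field_simp
    rw [h1]
    refine mul_le_mul hcR ?_ (by positivity) hC1pos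
    exact pow_le_pow_left₀ (by positivity) (by linarith) m
  have hK0 : 0 ≤ K0 m n := by
    unfold K0
    positivity
  have hK1 : 0 ≤ K1 m := by
    unfold K1
    positivity
  have hK12 : K1 m ≤ K2 m n := by
    unfold K2
    have : (1 : ℝ) ≤ 2 ^ m := one_le_pow₀ (by norm_num)
    nlinarith
  have hK02 : K0 m n ≤ K2 m n := by
    unfold K2
    have : 0 ≤ K1 m * 2 ^ m := by positivity
    linarith
  -- small radii: `Y < 4 d`
  have hsm : ∀ (u : E) (Y : ℝ), 0 ≤ Y → Y < 4 * d →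
      ((TD L f σ u Y).ncard : ℝ) ≤ K1 m * (1 + Y / l) ^ m := by
    intro u Y hY hYd
    have h1 : ((TD L f σ u Y).ncard : ℝ) ≤ ((GG L (2 * Y)).ncard : ℝ) := by
      exact_mod_cast (TD_le L f σ u Y).trans (TB_le L u Y)
    refine h1.trans ?_
    have hX0 : 0 ≤ (1 + Y / l) ^ m := by positivity
    rcases lt_or_ge (2 * Y) R with h2 | h2
    · refine (hsmall (2 * Y) (by positivity) h2).trans ?_
      have h3 : (2 * (2 * Y) / l + 1) ^ m ≤ 4 ^ m * (1 + Y / l) ^ m := by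
        rw [← mul_pow]
        apply pow_le_pow_left₀ (by positivity)
        have : 2 * (2 * Y) / l = 4 * (Y / l) := by ring
        rw [this]
        linarith
      refine h3.trans ?_
      apply mul_le_mul_of_nonneg_right _ hX0
      unfold K1
      have : 0 ≤ (32 * ((m + 1 : ℕ) : ℝ) + 1) ^ (m + 1) * 2 ^ m := by positivity
      linarith
    · have h3 := doubling L (r := R / 2) (Y := 2 * Y) (by positivity) (by positivity)
      rw [hE] at h3
      have h4 : (2 * (2 * Y) / (R / 2) + 1) ^ (m + 1) ≤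
          (32 * ((m + 1 : ℕ) : ℝ) + 1) ^ (m + 1) := by
        apply pow_le_pow_left₀ (by positivity)
        have h5 : 2 * (2 * Y) / (R / 2) ≤ 32 * ((m + 1 : ℕ) : ℝ) := by
          rw [div_le_iff₀ (by positivity)]
          rw [hd] at hYd
          nlinarith
        linarith
      have h5 : (R / l + 1) ^ m ≤ 2 ^ m * (1 + Y / l) ^ m := by
        rw [← mul_pow]
        apply pow_le_pow_left₀ (by positivity)
        have h6 : R / l ≤ 2 * Y / l := div_le_div_of_nonneg_right h2 hl.le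
        have h7 : 2 * Y / l = 2 * (Y / l) := by ring
        rw [h7] at h6
        linarith
      calc ((GG L (2 * Y)).ncard : ℝ) ≤
          (2 * (2 * Y) / (R / 2) + 1) ^ (m + 1) * ((GG L (R / 2)).ncard : ℝ) := h3
        _ ≤ (32 * ((m + 1 : ℕ) : ℝ) + 1) ^ (m + 1) * (2 ^ m * (1 + Y / l) ^ m) :=
            mul_le_mul h4 (hhalf.trans h5) (Nat.cast_nonneg _) (by positivity)
        _ = ((32 * ((m + 1 : ℕ) : ℝ) + 1) ^ (m + 1) * 2 ^ m) * (1 + Y / l) ^ m := by ring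
        _ ≤ K1 m * (1 + Y / l) ^ m := by
            apply mul_le_mul_of_nonneg_right _ hX0
            unfold K1
            have : (0 : ℝ) ≤ 4 ^ m := by positivity
            linarith
  -- large radii
  have hlarge : ∀ (u u' : E) (Y : ℝ), 4 * d ≤ Y →
      ((TD L f σ u Y).ncard : ℝ) ≤ (TD L f σ u' Y).ncard + K0 m n * (1 + Y / l) ^ m := by
    intro u u' Y hY
    have hY0 : 0 < Y := by linarith
    obtain ⟨v, hv, hvd⟩ := hcov (u - u')
    have h1 : ‖u - (u' + v)‖ ≤ d := by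
      rw [← sub_sub]
      exact hvd
    have h2 := compare L f σ hd0 hcov u (u' + v) h1 hY (c := c) (a := m + 1)
      (fun Y hY => havg d hcov Y hY)
    rw [TD_period L f σ u' v hv Y] at h2
    refine h2.trans ?_
    apply add_le_add_right
    have h3 := hclY Y hY0.le
    have h4 : c * (Y + 2 * d) ^ (m + 1) - c * (Y - 3 * d) ^ (m + 1) ≤
        5 * ((m + 1 : ℕ) : ℝ) ^ 2 * 2 ^ m * (C1 * (1 + Y / l) ^ m) := by
      have h5 := hpow m (Y + 2 * d) (Y - 3 * d) (by linarith) (by linarith)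
      have h6 : (Y + 2 * d) ^ m ≤ 2 ^ m * Y ^ m := by
        rw [← mul_pow]
        exact pow_le_pow_left₀ (by linarith) (by linarith) m
      calc c * (Y + 2 * d) ^ (m + 1) - c * (Y - 3 * d) ^ (m + 1)
          = c * ((Y + 2 * d) ^ (m + 1) - (Y - 3 * d) ^ (m + 1)) := by ring
        _ ≤ c * ((Y + 2 * d - (Y - 3 * d)) * (((m + 1 : ℕ) : ℝ) * (Y + 2 * d) ^ m)) :=
            mul_le_mul_of_nonneg_left h5 hc
        _ ≤ c * ((Y + 2 * d - (Y - 3 * d)) * (((m + 1 : ℕ) : ℝ) * (2 ^ m * Y ^ m))) := by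
            apply mul_le_mul_of_nonneg_left _ hc
            apply mul_le_mul_of_nonneg_left _ (by linarith)
            exact mul_le_mul_of_nonneg_left h6 (by linarith)
        _ = 5 * ((m + 1 : ℕ) : ℝ) ^ 2 * 2 ^ m * (c * R * Y ^ m) := by
            rw [hd]
            ring
        _ ≤ _ := mul_le_mul_of_nonneg_left h3 (by positivity)
    have h5 : 8 * d / Y * (c * (3 * Y + 2 * d) ^ (m + 1)) ≤
        8 * 4 ^ (m + 1) * ((m + 1 : ℕ) : ℝ) * (C1 * (1 + Y / l) ^ m) := by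
      have h6 : (3 * Y + 2 * d) ^ (m + 1) ≤ 4 ^ (m + 1) * Y ^ (m + 1) := by
        rw [← mul_pow]
        exact pow_le_pow_left₀ (by linarith) (by linarith) _
      calc 8 * d / Y * (c * (3 * Y + 2 * d) ^ (m + 1))
          ≤ 8 * d / Y * (c * (4 ^ (m + 1) * Y ^ (m + 1))) := by
            apply mul_le_mul_of_nonneg_left _ (by positivity)
            exact mul_le_mul_of_nonneg_left h6 hc
        _ = 8 * 4 ^ (m + 1) * ((m + 1 : ℕ) : ℝ) * (c * R * Y ^ m) := by
            rw [hd]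
            field_simp
            ring
        _ ≤ _ := mul_le_mul_of_nonneg_left h3 (by positivity)
    have h6 : (n : ℝ) * (8 * d / Y * (c * (3 * Y + 2 * d) ^ (m + 1))) ≤
        n * (8 * 4 ^ (m + 1) * ((m + 1 : ℕ) : ℝ) * (C1 * (1 + Y / l) ^ m)) :=
      mul_le_mul_of_nonneg_left h5 (Nat.cast_nonneg _)
    have h7 : K0 m n * (1 + Y / l) ^ m =
        5 * ((m + 1 : ℕ) : ℝ) ^ 2 * 2 ^ m * (C1 * (1 + Y / l) ^ m) +
        n * (8 * 4 ^ (m + 1) * ((m + 1 : ℕ) : ℝ) * (C1 * (1 + Y / l) ^ m)) := by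
      unfold K0
      rw [hC1]
      ring
    rw [h7]
    linarith
  have hmain : ∀ (u : E) (Y : ℝ), 0 ≤ Y → Y < 4 * d →
      |((TD L f σ u Y).ncard : ℝ) - cD * Y ^ (m + 1)| ≤ K1 m * (1 + Y / l) ^ m := by
    intro u Y hY h4
    have h1 := hsm u Y hY h4
    have h2 : cD * Y ^ (m + 1) ≤ K1 m * (1 + Y / l) ^ m := by
      rcases hY.eq_or_lt with h | h
      · rw [← h, zero_pow (by omega), mul_zero]
        positivity
      · obtain ⟨u1, hu1⟩ := (hD Y h).2
        exact hu1.trans (hsm u1 Y hY h4)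
    have h3 : 0 ≤ cD * Y ^ (m + 1) := by positivity
    have h5 : (0 : ℝ) ≤ ((TD L f σ u Y).ncard : ℝ) := Nat.cast_nonneg _
    rw [abs_le]
    constructor <;> linarith
  refine ⟨?_, fun u Y hY => ?_⟩
  · have h1 := hmain 0 l hl.le (by linarith)
    rw [div_self hl.ne'] at h1
    have h2 := hsm 0 l hl.le (by linarith)
    obtain ⟨u1, hu1⟩ := (hD l hl).2
    have h3 := hsm u1 l hl.le (by linarith)
    rw [div_self hl.ne'] at h3
    have h4 : (1 + 1 : ℝ) ^ m = 2 ^ m := by norm_num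
    rw [h4] at h3
    unfold K2
    linarith
  · have hX0 : 0 ≤ (1 + Y / l) ^ m := by positivity
    rcases lt_or_ge Y (4 * d) with h4 | h4
    · exact (hmain u Y hY h4).trans (mul_le_mul_of_nonneg_right hK12 hX0)
    · have hY0 : 0 < Y := by linarith
      obtain ⟨⟨u0, hu0⟩, ⟨u1, hu1⟩⟩ := hD Y hY0
      have h1 := hlarge u u0 Y h4
      have h2 := hlarge u1 u Y h4
      have h3 := mul_le_mul_of_nonneg_right hK02 hX0
      rw [abs_le]
      constructor <;> linarith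

end Pool.Agent.T6.H81.BA.L2

namespace Pool.Agent.T6.H81.BA

open Module

theorem l2 : StmtL2 := by
  intro a n ha
  obtain ⟨m, rfl⟩ : ∃ m, a = m + 1 := ⟨a - 1, by omega⟩
  refine ⟨L2.K2 m n, ?_, ?_⟩
  · unfold L2.K2 L2.K0 L2.K1
    positivity
  · intro E _ _ _ L _ _ hE f σ
    obtain ⟨c, hc, h⟩ := L2.main m n L hE f σ
    refine ⟨c, hc, fun l hl hsep => ?_⟩
    obtain ⟨h1, h2⟩ := h l hl hsep
    refine ⟨h1, fun u Y hY => ⟨L2.TD_finite L f σ u Y, ?_⟩⟩
    rw [Nat.add_sub_cancel]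
    exact h2 u Y hY

end Pool.Agent.T6.H81.BA
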