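import Mathlib
import Pool.Agent.T6.H81.BA.Defs2
import Pool.Agent.T6.H57.BA.R2a
import Pool.Agent.T6.H57.BA.R2c

set_option autoImplicit false

/-! Module R2: primitive vectors in cells of the lattice `lat w`. -/

namespace Pool.Agent.T6.H81.BA

open Finset Module Matrix
open Pool.Agent.H548.WM (ht bx mem_bx Rep)
open Pool.Agent.H548.BL (lat mem_lat rc orth)
open Pool.Agent.T6.H52.BA Pool.Agent.T6.H57.BA

open Classical in
theorem cell_card {k N n q : ℕ} {w : Fin k → Fin N → ℤ} {f : Fin n → Fin N → ℤ}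
    {σ : Fin n → Bool} {r : Fin N → ℤ} (Y : ℕ) :
    ((bx N Y).filter fun v => v ∈ lat w ∧ Cell f σ q r v) =
      (nc w f σ q r Y).filter fun v => gd v = 1 := by
  ext v
  rw [mem_filter, mem_filter, mem_nc, mem_bx]
  unfold Cell Cl
  rw [gd_one]
  constructor
  · rintro ⟨h1, h2, h3, h4, h5⟩
    refine ⟨⟨h1, ⟨h2, h4, h5⟩, ?_⟩, h3⟩
    rintro rfl
    have h6 : univ.gcd (0 : Fin N → ℤ) = 0 := by
      rw [Finset.gcd_eq_zero_iff]
      intro i _
      rfl
    rw [h6] at h3
    exact zero_ne_one h3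
  · rintro ⟨⟨h1, ⟨h2, h4, h5⟩, -⟩, h3⟩
    exact ⟨h1, h2, h3, h4, h5⟩

open Classical in
theorem card_cl_nc {k N n q : ℕ} {w : Fin k → Fin N → ℤ} {f : Fin n → Fin N → ℤ}
    {σ : Fin n → Bool} {r : Fin N → ℤ} (Y : ℕ) :
    |(((bx N Y).filter fun v => Cl w f σ q r v).card : ℝ) - ((nc w f σ q r Y).card : ℝ)| ≤ 1 := by
  have h1 : nc w f σ q r Y ⊆ (bx N Y).filter fun v => Cl w f σ q r v := by
    intro v hv
    rw [mem_nc] at hv
    rw [mem_filter, mem_bx]
    exact ⟨hv.1, hv.2.1⟩
  have h2 : ((bx N Y).filter fun v => Cl w f σ q r v) ⊆ insert 0 (nc w f σ q r Y) := by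
    intro v hv
    rw [mem_filter, mem_bx] at hv
    rw [mem_insert, mem_nc]
    by_cases h : v = 0
    · exact Or.inl h
    · exact Or.inr ⟨hv.1, hv.2, h⟩
  have h3 := card_le_card h1
  have h4 := (card_le_card h2).trans (card_insert_le _ _)
  have h3' : ((nc w f σ q r Y).card : ℝ) ≤
      (((bx N Y).filter fun v => Cl w f σ q r v).card : ℝ) := by exact_mod_cast h3
  have h4' : (((bx N Y).filter fun v => Cl w f σ q r v).card : ℝ) ≤
      ((nc w f σ q r Y).card : ℝ) + 1 := by exact_mod_cast h4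
  rw [abs_le]
  constructor <;> linarith

theorem r2 (hL2 : StmtL2) : StmtR2 := by
  intro k N n q hkN hq
  classical
  obtain ⟨C0, hC0, h0⟩ := hL2 (N - k) n (by omega)
  set a := N - k with ha
  have ha3 : 3 ≤ a := by omega
  refine ⟨2 * (C0 * 2 ^ (a - 1) + 1), by positivity, fun w hw f σ r => ?_⟩
  have h2a : (1 : ℝ) ≤ 2 ^ (a - 1) := one_le_pow₀ (by norm_num)
  by_cases hB : (∃ v0 ∈ lat w, ∀ j, (q : ℤ) ∣ v0 j - r j) ∧
      (∀ p : ℕ, p.Prime → p ∣ q → ¬ ∀ j, (p : ℤ) ∣ r j)
  swap
  · -- no vectors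
    refine ⟨0, le_rfl, fun l hl hlow => ⟨by rw [zero_mul]; positivity, fun Y => ?_⟩⟩
    have h1 : ((bx N Y).filter fun v => v ∈ lat w ∧ Cell f σ q r v) = ∅ := by
      rw [Finset.eq_empty_iff_forall_notMem]
      intro v hv
      rw [mem_filter] at hv
      obtain ⟨_, h2, h3, h4, h5⟩ := hv
      apply hB
      refine ⟨⟨v, h2, h4⟩, fun p hp hpq hpr => ?_⟩
      have h6 : ∀ j, (p : ℤ) ∣ v j := fun j => by
        have h7 : v j = (v j - r j) + r j := by ring
        rw [h7]
        exact dvd_add ((Int.natCast_dvd_natCast.2 hpq).trans (h4 j)) (hpr j)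
      have h8 : (p : ℤ) ∣ univ.gcd v := Finset.dvd_gcd fun i _ => h6 i
      rw [h3] at h8
      have h9 := Int.eq_one_of_dvd_one (by positivity) h8
      have := hp.one_lt
      omega
    rw [h1, card_empty, Nat.cast_zero, zero_mul, sub_zero, abs_zero]
    positivity
  obtain ⟨⟨v0, hv0, hvr⟩, hpr⟩ := hB
  have := zlat w hw
  obtain ⟨c1, hc1, h1⟩ := h0 (orth w) (LL w) (finrank_eq w hw) (FF w f) σ
  set χ : ℕ → ℝ := fun d => if d.Coprime q then 1 else 0 with hχdef
  have hχ : ∀ d, |χ d| ≤ 1 := by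
    intro d
    simp only [hχdef]
    split_ifs <;> simp
  have hχ1 : χ 1 = 1 := by
    simp only [hχdef]
    rw [if_pos (Nat.coprime_one_left q)]
  have hM0 : 0 ≤ MX χ a := MX_nonneg hχ hχ1 (by omega)
  have hM2 : MX χ a ≤ 2 := MX_le hχ (by omega)
  have hq1 : (1 : ℝ) ≤ q := by exact_mod_cast hq
  have hq0 : (0 : ℝ) < q := by linarith
  set c0 : ℝ := c1 / (q : ℝ) ^ a with hc0def
  have hc0 : 0 ≤ c0 := by positivity
  have hc01 : c0 ≤ c1 := div_le_self hc1 (one_le_pow₀ hq1)
  refine ⟨c0 * MX χ a, by positivity, fun l hl hlow => ?_⟩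
  have hl0 : (0 : ℝ) < l := by exact_mod_cast hl
  obtain ⟨h2, h3⟩ := h1 l hl0 (by
    intro e he hne
    obtain ⟨v, hv, hve⟩ := mem_LL.1 he
    rw [norm_LL hve]
    have hv0 : v ≠ 0 := by
      rintro rfl
      apply hne
      apply Subtype.ext
      rw [← hve]
      funext i
      simp [rc]
    exact_mod_cast hlow v hv hv0)
  have h2' : c0 * (l : ℝ) ^ a ≤ C0 :=
    (mul_le_mul_of_nonneg_right hc01 (by positivity)).trans h2
  have hcl : 0 ≤ c0 * (l : ℝ) ^ a := by positivity
  refine ⟨?_, fun Y => ?_⟩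
  · calc c0 * MX χ a * (l : ℝ) ^ a = (c0 * (l : ℝ) ^ a) * MX χ a := by ring
      _ ≤ (c0 * (l : ℝ) ^ a) * 2 := by gcongr
      _ ≤ 2 * (C0 * 2 ^ (a - 1) + 1) := by nlinarith
  · -- the counting functions
    set A : ℕ → ℝ := fun d => (((nc w f σ q r Y).filter fun v => d ∣ gd v).card : ℝ) with hA
    have hA0 : ∀ d, Y < d → A d = 0 := by
      intro d hd
      simp only [hA]
      rw [Nat.cast_eq_zero, card_eq_zero, Finset.eq_empty_iff_forall_notMem]
      intro v hv
      rw [mem_filter, mem_nc] at hv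
      have h5 := gd_ne hv.1.2.2
      have h6 := gd_le hv.1.2.2
      have h7 := Nat.le_of_dvd (by omega) hv.2
      omega
    have hbound : ∀ d : ℕ, 1 ≤ d → |A d - χ d * (c0 * ((Y : ℝ) / d) ^ a)| ≤
        (C0 * 2 ^ (a - 1) + 1) * ((Y : ℝ) / d / l) ^ (a - 1) := by
      intro d hd
      have hd0 : (0 : ℝ) < d := by exact_mod_cast hd
      by_cases hcop : d.Coprime q
      swap
      · simp only [hA, hχdef]
        rw [nc_not_coprime hpr Y hcop, if_neg hcop, Nat.cast_zero, zero_mul, sub_zero, abs_zero]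
        positivity
      have hχd : χ d = 1 := by
        simp only [hχdef]
        rw [if_pos hcop]
      obtain ⟨e, b, heb⟩ := Nat.isCoprime_iff_coprime.2 hcop
      have he : (q : ℤ) ∣ d * e - 1 := ⟨-b, by linear_combination heb⟩
      have hAd : A d = ((nc w f σ q (e • r) (Y / d)).card : ℝ) := by
        simp only [hA]
        rw [nc_div Y hd he]
      set t : ℝ := (Y : ℝ) / d with ht
      have ht0 : 0 ≤ t := by positivity
      have hfl : ⌊t⌋₊ = Y / d := Nat.floor_div_eq_div Y d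
      rw [hχd, one_mul, hAd]
      by_cases hlt : t < l
      · have h4 : Y / d < l := by
          rw [← hfl]
          exact (Nat.floor_lt ht0).2 hlt
        have h5 : nc w f σ q (e • r) (Y / d) = ∅ := by
          rw [Finset.eq_empty_iff_forall_notMem]
          intro v hv
          rw [mem_nc] at hv
          have := hlow v hv.2.1.1 hv.2.2
          omega
        rw [h5, card_empty, Nat.cast_zero, zero_sub, abs_neg, abs_of_nonneg (by positivity)]
        have h6 : t ^ a = (l : ℝ) ^ a * (t / l) ^ a := by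
          rw [← mul_pow, mul_div_cancel₀ _ hl0.ne']
        have h7 : (t / l) ^ a ≤ (t / l) ^ (a - 1) := by
          apply pow_le_pow_of_le_one (by positivity) _ (Nat.sub_le a 1)
          rw [div_le_one hl0]
          exact hlt.le
        calc c0 * t ^ a = (c0 * (l : ℝ) ^ a) * (t / l) ^ a := by rw [h6]; ring
          _ ≤ C0 * (t / l) ^ (a - 1) := by gcongr
          _ ≤ (C0 * 2 ^ (a - 1) + 1) * (t / l) ^ (a - 1) := by
            gcongr
            nlinarith
      · have hge : (l : ℝ) ≤ t := not_lt.1 hlt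
        have h4 : 1 ≤ t / l := (one_le_div hl0).2 hge
        -- the class of `e • v0`
        have hu0 : e • v0 ∈ lat w := by
          rw [mem_lat]
          intro i
          rw [dotProduct_smul, mem_lat.1 hv0 i, smul_zero]
        have hur : ∀ j, (q : ℤ) ∣ (e • v0) j - (e • r) j := by
          intro j
          rw [Pi.smul_apply, Pi.smul_apply, smul_eq_mul, smul_eq_mul, ← mul_sub]
          exact (hvr j).mul_left _
        have h5 := (h3 ((q : ℝ)⁻¹ • (⟨rc (e • v0), rc_mem hu0⟩ : orth w)) (t / q)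
          (by positivity)).2
        rw [ncard_cl hq hu0 hur ht0, hfl] at h5
        have h6 := card_cl_nc (w := w) (f := f) (σ := σ) (q := q) (r := e • r) (Y / d)
        have h7 : c1 * (t / q) ^ a = c0 * t ^ a := by
          rw [hc0def, div_pow]
          ring
        rw [h7] at h5
        have h8 : (1 + t / q / l) ^ (a - 1) ≤ 2 ^ (a - 1) * (t / l) ^ (a - 1) := by
          rw [← mul_pow]
          have h9 : t / q / l ≤ t / l := by
            apply div_le_div_of_nonneg_right (div_le_self ht0 hq1) hl0.le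
          gcongr
          linarith
        have h10 : (1 : ℝ) ≤ (t / l) ^ (a - 1) := one_le_pow₀ h4
        set x1 : ℝ := ((nc w f σ q (e • r) (Y / d)).card : ℝ) with hx1
        set x2 : ℝ := (((bx N (Y / d)).filter fun v => Cl w f σ q (e • r) v).card : ℝ) with hx2
        have h11 : |x1 - c0 * t ^ a| ≤ |x2 - c0 * t ^ a| + |x2 - x1| := by
          have : x1 - c0 * t ^ a = (x2 - c0 * t ^ a) - (x2 - x1) := by ring
          rw [this]
          exact abs_sub _ _
        calc |x1 - c0 * t ^ a| ≤ C0 * (1 + t / q / l) ^ (a - 1) + 1 := h11.trans (by linarith)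
          _ ≤ C0 * (2 ^ (a - 1) * (t / l) ^ (a - 1)) + (t / l) ^ (a - 1) := by gcongr
          _ = _ := by ring
    have h5 := mainX ha3 hχ (by positivity) A hl0 Y hA0 hbound
    have h6 : ∑ d ∈ Icc 1 Y, (ArithmeticFunction.moebius d : ℝ) * A d =
        ((((bx N Y).filter fun v => v ∈ lat w ∧ Cell f σ q r v).card : ℕ) : ℝ) := by
      have h7 := moebX (w := w) (f := f) (σ := σ) (q := q) r Y
      have h8 := congrArg (Int.cast : ℤ → ℝ) h7
      push_cast at h8
      rw [cell_card, ← h8]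
    rw [h6] at h5
    have h10 : ((Y : ℝ) / l) ^ (a - 1) ≤ (1 + (Y : ℝ) / l) ^ (a - 1) := by
      gcongr
      linarith
    exact h5.trans (mul_le_mul_of_nonneg_left h10 (by positivity))

end Pool.Agent.T6.H81.BA
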