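import Mathlib
import Pool.Agent.T6.H81.BA.Defs2

/-! Module Z: the local factors are bounded, and almost constant on small cells. -/

namespace Pool.Agent.T6.H81.BA

open Finset Module Matrix Filter Topology
open Pool.Agent.H548.WM (ht bx mem_bx Rep)
open Pool.Agent.H548.BL (rv cv Inc Smooth FinZeros tr lat PP rc)

section general

variable {K : Type} [NormedField K] {k N : ℕ}

theorem Inc_smul (M : Fin k → Matrix (Fin N) (Fin N) ℤ) {x y : Fin N → K} (h : Inc M x y)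
    (s t : K) : Inc M (s • x) (t • y) := by
  intro i
  have h1 := h i
  unfold cv at h1 ⊢
  rw [mulVec_smul, smul_dotProduct, dotProduct_smul, h1]
  simp

theorem Inc_cast [CharZero K] (M : Fin k → Matrix (Fin N) (Fin N) ℤ) {x y : Fin N → ℤ}
    (h : Inc M x y) : Inc M (fun i => (x i : K)) (fun i => (y i : K)) := by
  intro i
  have h1 := h i
  have h2 := congrArg (Int.cast : ℤ → K) h1
  unfold cv at h2 ⊢
  simp only [dotProduct, mulVec, map_apply, Int.cast_id] at h2 ⊢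
  push_cast at h2
  exact h2

/-- the compact set of the normalised points -/
def KK (M : Fin k → Matrix (Fin N) (Fin N) ℤ) : Set ((Fin N → K) × (Fin N → K)) :=
  {t | ‖t.1‖ = 1 ∧ ‖t.2‖ = 1 ∧ Inc M t.1 t.2}

theorem isCompact_KK [ProperSpace K] (M : Fin k → Matrix (Fin N) (Fin N) ℤ) :
    IsCompact (KK (K := K) M) := by
  have h1 : IsCompact ((Metric.sphere (0 : Fin N → K) 1) ×ˢ (Metric.sphere (0 : Fin N → K) 1)) :=
    (isCompact_sphere _ _).prod (isCompact_sphere _ _)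
  refine h1.of_isClosed_subset ?_ ?_
  · have h2 : KK (K := K) M = {t | ‖t.1‖ = 1} ∩ ({t | ‖t.2‖ = 1} ∩
        ⋂ i : Fin k, {t | t.1 ⬝ᵥ cv M t.2 i = 0}) := by
      ext t
      simp only [KK, Set.mem_ofPred_eq, Set.mem_inter_iff, Set.mem_iInter]
      rfl
    rw [h2]
    refine (isClosed_eq (continuous_norm.comp continuous_fst) continuous_const).inter
      ((isClosed_eq (continuous_norm.comp continuous_snd) continuous_const).inter
        (isClosed_iInter fun i => isClosed_eq ?_ continuous_const))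
    unfold cv
    exact Continuous.dotProduct continuous_fst (Continuous.matrix_mulVec continuous_const
      continuous_snd)
  · intro t ht
    obtain ⟨h3, h4, _⟩ := ht
    exact ⟨by simpa using h3, by simpa using h4⟩

theorem KK_sub (M : Fin k → Matrix (Fin N) (Fin N) ℤ) :
    KK (K := K) M ⊆ {t | t.1 ≠ 0 ∧ t.2 ≠ 0 ∧ Inc M t.1 t.2} := by
  rintro ⟨x, y⟩ ⟨h1, h2, h3⟩
  refine ⟨?_, ?_, h3⟩
  · intro h; simp only at h h1; rw [h] at h1; simp at h1
  · intro h; simp only at h h2; rw [h] at h2; simp at h2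

theorem exists_scale1 (x : Fin N → K) (hx : x ≠ 0) : ∃ s : K, s ≠ 0 ∧ ‖s • x‖ = 1 := by
  obtain ⟨j, hj⟩ : ∃ j, x j ≠ 0 := by
    by_contra hcon
    push Not at hcon
    exact hx (funext hcon)
  have : Nonempty (Fin N) := ⟨j⟩
  obtain ⟨i, hi⟩ := Finite.exists_max fun i => ‖x i‖
  have h0 : x i ≠ 0 := by
    intro h
    have := hi j
    rw [h, norm_zero] at this
    exact hj (norm_le_zero_iff.1 this)
  have h1 : ‖x‖ = ‖x i‖ :=
    le_antisymm ((pi_norm_le_iff_of_nonneg (norm_nonneg _)).2 hi) (norm_le_pi_norm x i)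
  refine ⟨(x i)⁻¹, inv_ne_zero h0, ?_⟩
  rw [norm_smul, h1, norm_inv, inv_mul_cancel₀ (norm_ne_zero_iff.2 h0)]

theorem LF_bound [ProperSpace K] {M : Fin k → Matrix (Fin N) (Fin N) ℤ}
    {φ : (Fin N → K) → (Fin N → K) → ℝ} (h : LF M φ) :
    ∃ m m' : ℝ, 0 < m ∧ m ≤ m' ∧ ∀ x y, x ≠ 0 → y ≠ 0 → Inc M x y → m ≤ φ x y ∧ φ x y ≤ m' := by
  obtain ⟨h1, h2, h3⟩ := h
  have hc := h1.mono (KK_sub M)
  have key : ∃ m m' : ℝ, 0 < m ∧ m ≤ m' ∧ ∀ t ∈ KK (K := K) M, m ≤ φ t.1 t.2 ∧ φ t.1 t.2 ≤ m' := by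
    rcases (KK (K := K) M).eq_empty_or_nonempty with he | hne
    · exact ⟨1, 1, one_pos, le_rfl, fun t ht => by rw [he] at ht; exact ht.elim⟩
    · obtain ⟨t0, ht0, hmin⟩ := (isCompact_KK M).exists_isMinOn hne hc
      obtain ⟨t1, ht1, hmax⟩ := (isCompact_KK M).exists_isMaxOn hne hc
      have hs := KK_sub M ht0
      exact ⟨φ t0.1 t0.2, φ t1.1 t1.2, h2 _ _ hs.1 hs.2.1 hs.2.2, hmax ht0,
        fun t ht => ⟨hmin ht, hmax ht⟩⟩
  obtain ⟨m, m', hm, hmm, hb⟩ := key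
  refine ⟨m, m', hm, hmm, fun x y hx hy hxy => ?_⟩
  obtain ⟨s, hs, hs1⟩ := exists_scale1 x hx
  obtain ⟨t, ht, ht1⟩ := exists_scale1 y hy
  have := hb (s • x, t • y) ⟨hs1, ht1, Inc_smul M hxy s t⟩
  simp only at this
  rwa [h3 x y hx hy hxy s t hs ht] at this

theorem LF_unif [ProperSpace K] {M : Fin k → Matrix (Fin N) (Fin N) ℤ}
    {φ : (Fin N → K) → (Fin N → K) → ℝ} (h : LF M φ) {ε : ℝ} (hε : 0 < ε) :
    ∃ δ : ℝ, 0 < δ ∧ ∀ x y x' y', x ≠ 0 → y ≠ 0 → x' ≠ 0 → y' ≠ 0 → Inc M x y → Inc M x' y' →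
      ∀ s t s' t' : K, s ≠ 0 → t ≠ 0 → s' ≠ 0 → t' ≠ 0 → ‖s • x‖ = 1 → ‖t • y‖ = 1 →
      ‖s' • x'‖ = 1 → ‖t' • y'‖ = 1 → ‖s' • x' - s • x‖ < δ → ‖t' • y' - t • y‖ < δ →
      φ x' y' ≤ (1 + ε) * φ x y := by
  obtain ⟨m, m', hm, hmm, hb⟩ := LF_bound h
  obtain ⟨h1, h2, h3⟩ := h
  have hc := h1.mono (KK_sub M)
  have hu := (isCompact_KK M).uniformContinuousOn_of_continuous hc
  rw [Metric.uniformContinuousOn_iff] at hu
  obtain ⟨δ, hδ, hu⟩ := hu (ε * m) (by positivity)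
  refine ⟨δ, hδ, ?_⟩
  intro x y x' y' hx hy hx' hy' hxy hxy' s t s' t' hs ht hs' ht' hs1 ht1 hs1' ht1' hd1 hd2
  have h4 := hu (s' • x', t' • y') ⟨hs1', ht1', Inc_smul M hxy' s' t'⟩ (s • x, t • y)
    ⟨hs1, ht1, Inc_smul M hxy s t⟩ (by
      rw [Prod.dist_eq, dist_eq_norm, dist_eq_norm]
      exact max_lt hd1 hd2)
  simp only at h4
  rw [h3 x y hx hy hxy s t hs ht, h3 x' y' hx' hy' hxy' s' t' hs' ht', Real.dist_eq] at h4
  have h5 := (abs_lt.1 h4).2
  have h6 := (hb x y hx hy hxy).1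
  nlinarith

end general

theorem floor_close {t : ℕ} {a a' : ℝ} (ha : |a| ≤ t) (ha' : |a'| ≤ t)
    (h : ∀ s : ℤ, |s| ≤ t → ((s : ℝ) ≤ a' ↔ (s : ℝ) ≤ a)) : |a' - a| ≤ 1 := by
  have key : ∀ u v : ℝ, |u| ≤ t → |v| ≤ t → (∀ s : ℤ, |s| ≤ t → ((s : ℝ) ≤ u → (s : ℝ) ≤ v)) →
      u ≤ v + 1 := by
    intro u v hu hv huv
    have h1 : |⌊u⌋| ≤ (t : ℤ) := by
      rw [abs_le] at hu ⊢
      constructor
      · rw [Int.le_floor]; push_cast; exact hu.1
      · have h2 := (Int.floor_le u).trans hu.2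
        exact_mod_cast h2
    have h3 := huv _ h1 (Int.floor_le u)
    have h4 := Int.lt_floor_add_one u
    linarith
  rw [abs_le]
  constructor
  · have := key a a' ha ha' fun s hs => (h s hs).2
    linarith
  · have := key a' a ha' ha fun s hs => (h s hs).1
    linarith

/-- The cells cut out by all the forms with bounded coefficients. -/
theorem cells {N t : ℕ} (ht : 2 ≤ t) {x x' : Fin N → ℤ} (hx : x ≠ 0)
    (h : ∀ v ∈ bx N t, (0 ≤ v ⬝ᵥ x' ↔ 0 ≤ v ⬝ᵥ x)) (hx' : x' ≠ 0) :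
    ∃ s s' : ℝ, s ≠ 0 ∧ s' ≠ 0 ∧ ‖s • (fun i => (x i : ℝ))‖ = 1 ∧
      ‖s' • (fun i => (x' i : ℝ))‖ = 1 ∧
      ‖s' • (fun i => (x' i : ℝ)) - s • (fun i => (x i : ℝ))‖ ≤ 1 / t := by
  obtain ⟨j0, hj0⟩ : ∃ j, x j ≠ 0 := by
    by_contra hcon
    push Not at hcon
    exact hx (funext hcon)
  obtain ⟨j1, hj1⟩ : ∃ j, x' j ≠ 0 := by
    by_contra hcon
    push Not at hcon
    exact hx' (funext hcon)
  have : Nonempty (Fin N) := ⟨j0⟩
  obtain ⟨i, hi⟩ := Finite.exists_max fun i => |x i|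
  have hi0 : x i ≠ 0 := by
    intro h0
    have := hi j0
    rw [h0, abs_zero] at this
    exact hj0 (abs_nonpos_iff.1 this)
  -- the sign
  obtain ⟨η, hη, hηx⟩ : ∃ η : ℤ, (η = 1 ∨ η = -1) ∧ η * x i = |x i| := by
    rcases le_total 0 (x i) with h0 | h0
    · exact ⟨1, Or.inl rfl, by rw [one_mul, abs_of_nonneg h0]⟩
    · exact ⟨-1, Or.inr rfl, by rw [neg_one_mul, abs_of_nonpos h0]⟩
  have ht' : (2 : ℤ) ≤ t := by exact_mod_cast ht
  have hη1 : |η| = 1 := by rcases hη with rfl | rfl <;> simp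
  -- the forms
  have hform : ∀ (j : Fin N) (a b : ℤ), |a| ≤ t → |b| ≤ t → (i = j → |a + b| ≤ t) →
      (0 ≤ a * x' i + b * x' j ↔ 0 ≤ a * x i + b * x j) := by
    intro j a b ha hb hab
    have h1 := h (Pi.single i a + Pi.single j b) (by
      unfold bx
      rw [Fintype.mem_piFinset]
      intro l
      rw [mem_Icc, ← abs_le, Pi.add_apply, Pi.single_apply, Pi.single_apply]
      by_cases h1 : l = i
      · by_cases h2 : l = j
        · rw [if_pos h1, if_pos h2]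
          exact hab (h1.symm.trans h2)
        · rw [if_pos h1, if_neg h2, add_zero]
          exact ha
      · by_cases h2 : l = j
        · rw [if_neg h1, if_pos h2, zero_add]
          exact hb
        · rw [if_neg h1, if_neg h2, add_zero, abs_zero]
          omega)
    simpa [add_dotProduct, single_dotProduct] using h1
  have hA : ∀ j, |x' j| ≤ η * x' i := by
    intro j
    have h2 : ∀ σ : ℤ, |σ| = 1 → σ * x' j ≤ η * x' i := by
      intro σ hσ
      have h3 := (hform j η (-σ) (by rw [hη1]; omega) (by rw [abs_neg, hσ]; omega)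
        (fun _ => by
          have := abs_add_le η (-σ)
          rw [abs_neg, hσ, hη1] at this
          omega)).2 (by
            have h4 : σ * x j ≤ |x i| := by
              calc σ * x j ≤ |σ * x j| := le_abs_self _
                _ = |x j| := by rw [abs_mul, hσ, one_mul]
                _ ≤ |x i| := hi j
            rw [hηx]
            linarith)
      linarith
    rw [abs_le]
    have h5 := h2 1 (by simp)
    have h6 := h2 (-1) (by simp)
    constructor <;> linarith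
  have hH'0 : 0 < η * x' i := lt_of_lt_of_le (abs_pos.2 hj1) (hA j1)
  have hH0 : 0 < η * x i := by rw [hηx]; exact abs_pos.2 hi0
  have hA0 : ∀ j, |x j| ≤ η * x i := fun j => by rw [hηx]; exact hi j
  set H : ℝ := ((η * x i : ℤ) : ℝ) with hH
  set H' : ℝ := ((η * x' i : ℤ) : ℝ) with hH'
  have hHp : 0 < H := by rw [hH]; exact_mod_cast hH0
  have hHp' : 0 < H' := by rw [hH']; exact_mod_cast hH'0
  have hb : ∀ j, |(x j : ℝ)| ≤ H := fun j => by rw [hH]; exact_mod_cast hA0 j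
  have hb' : ∀ j, |(x' j : ℝ)| ≤ H' := fun j => by rw [hH']; exact_mod_cast hA j
  have hη1' : |(η : ℝ)| = 1 := by exact_mod_cast hη1
  have hbi : |(x i : ℝ)| = H := by
    rw [hH]; push_cast
    have : (η : ℝ) * x i = |(η : ℝ) * x i| := by
      rw [abs_of_pos]; exact_mod_cast hH0
    rw [this, abs_mul, hη1', one_mul]
  have hbi' : |(x' i : ℝ)| = H' := by
    rw [hH']; push_cast
    have : (η : ℝ) * x' i = |(η : ℝ) * x' i| := by
      rw [abs_of_pos]; exact_mod_cast hH'0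
    rw [this, abs_mul, hη1', one_mul]
  have hn : ‖(fun i => (x i : ℝ))‖ = H := by
    apply le_antisymm
    · exact (pi_norm_le_iff_of_nonneg hHp.le).2 fun j => hb j
    · rw [← hbi]; exact norm_le_pi_norm (fun i => (x i : ℝ)) i
  have hn' : ‖(fun i => (x' i : ℝ))‖ = H' := by
    apply le_antisymm
    · exact (pi_norm_le_iff_of_nonneg hHp'.le).2 fun j => hb' j
    · rw [← hbi']; exact norm_le_pi_norm (fun i => (x' i : ℝ)) i
  refine ⟨H⁻¹, H'⁻¹, (inv_pos.2 hHp).ne', (inv_pos.2 hHp').ne', ?_, ?_, ?_⟩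
  · rw [norm_smul, hn, Real.norm_eq_abs, abs_of_pos (inv_pos.2 hHp), inv_mul_cancel₀ hHp.ne']
  · rw [norm_smul, hn', Real.norm_eq_abs, abs_of_pos (inv_pos.2 hHp'), inv_mul_cancel₀ hHp'.ne']
  · have htp : (0 : ℝ) < t := by
      have : 0 < t := by omega
      exact_mod_cast this
    rw [pi_norm_le_iff_of_nonneg (by positivity)]
    intro j
    simp only [Pi.sub_apply, Pi.smul_apply, smul_eq_mul, Real.norm_eq_abs]
    by_cases hij : i = j
    · subst hij
      have e1 : H⁻¹ * (x i : ℝ) = η := by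
        have : H = η * x i := by rw [hH]; push_cast; ring
        have e2 : (η : ℝ) * η = 1 := by
          rcases hη with rfl | rfl <;> norm_num
        rw [inv_mul_eq_iff_eq_mul₀ hHp.ne', this]
        linear_combination (-(x i : ℝ)) * e2
      have e1' : H'⁻¹ * (x' i : ℝ) = η := by
        have : H' = η * x' i := by rw [hH']; push_cast; ring
        have e2 : (η : ℝ) * η = 1 := by
          rcases hη with rfl | rfl <;> norm_num
        rw [inv_mul_eq_iff_eq_mul₀ hHp'.ne', this]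
        linear_combination (-(x' i : ℝ)) * e2
      rw [e1, e1', sub_self, abs_zero]
      positivity
    · have h7 : |(t : ℝ) * (x' j / H') - t * (x j / H)| ≤ 1 := by
        apply floor_close (t := t)
        · rw [abs_mul, abs_of_pos htp, abs_div, abs_of_pos hHp]
          have : |(x j : ℝ)| / H ≤ 1 := (div_le_one hHp).2 (hb j)
          nlinarith
        · rw [abs_mul, abs_of_pos htp, abs_div, abs_of_pos hHp']
          have : |(x' j : ℝ)| / H' ≤ 1 := (div_le_one hHp').2 (hb' j)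
          nlinarith
        · intro s hs
          have h8 := hform j (-(s * η)) t (by rw [abs_neg, abs_mul, hη1, mul_one]; exact hs)
            (by rw [Nat.abs_cast]) (fun hij' => absurd hij' hij)
          have e3 : ∀ (z : ℤ) (w : ℤ) (W : ℝ), W = ((η * w : ℤ) : ℝ) → 0 < W →
              ((s : ℝ) ≤ t * (z / W) ↔ 0 ≤ -(s * η) * w + t * z) := by
            intro z w W hW hWp
            rw [mul_div_assoc', le_div_iff₀ hWp, hW]
            rw [← sub_nonneg]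
            have : (t : ℝ) * z - s * ((η * w : ℤ) : ℝ) = ((-(s * η) * w + t * z : ℤ) : ℝ) := by
              push_cast; ring
            rw [this]
            exact Int.cast_nonneg_iff
          rw [e3 (x' j) (x' i) H' hH' hHp', e3 (x j) (x i) H hH hHp]
          exact h8
      have h9 : H'⁻¹ * (x' j : ℝ) - H⁻¹ * (x j : ℝ) =
          (1 / t) * ((t : ℝ) * (x' j / H') - t * (x j / H)) := by
        field_simp
      rw [h9, abs_mul, abs_of_pos (by positivity : (0:ℝ) < 1 / t)]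
      exact mul_le_of_le_one_right (by positivity) h7

theorem ne_zero_of_gcd {N : ℕ} {x : Fin N → ℤ} (h : univ.gcd x = 1) : x ≠ 0 := by
  rintro rfl
  have h1 : univ.gcd (0 : Fin N → ℤ) = 0 := by
    rw [Finset.gcd_eq_zero_iff]
    intro i _
    rfl
  rw [h1] at h
  exact zero_ne_one h

theorem cast_ne_zero {N : ℕ} {K : Type} [NormedField K] [CharZero K] {x : Fin N → ℤ}
    (h : x ≠ 0) : (fun i => (x i : K)) ≠ 0 := by
  intro h1
  apply h
  funext i
  have := congrFun h1 i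
  simpa using this

/-- primitive vectors have `p`-adic norm one -/
theorem padic_norm_prim {N : ℕ} (p : Nat.Primes) {x : Fin N → ℤ} (h : univ.gcd x = 1) :
    ‖(fun i => (x i : ℚ_[p]))‖ = 1 := by
  apply le_antisymm
  · rw [pi_norm_le_iff_of_nonneg zero_le_one]
    exact fun i => Padic.norm_int_le_one _
  · by_contra hcon
    push Not at hcon
    have h1 : ∀ i, ((p : ℕ) : ℤ) ∣ x i := fun i => by
      rw [← Padic.norm_intCast_lt_one_iff (p := (p : ℕ))]
      exact lt_of_le_of_lt (norm_le_pi_norm (fun i => (x i : ℚ_[p])) i) hcon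
    have h2 : ((p : ℕ) : ℤ) ∣ univ.gcd x := Finset.dvd_gcd fun i _ => h1 i
    rw [h] at h2
    have h3 := Int.eq_one_of_dvd_one (by positivity) h2
    have h4 := p.2.one_lt
    omega

theorem padic_cell {k N : ℕ} {M : Fin k → Matrix (Fin N) (Fin N) ℤ} (p : Nat.Primes)
    {φ : (Fin N → ℚ_[p]) → (Fin N → ℚ_[p]) → ℝ} (h : LF M φ) {ε : ℝ} (hε : 0 < ε) :
    ∃ e : ℕ, ∀ x y x' y' : Fin N → ℤ, univ.gcd x = 1 → univ.gcd y = 1 → univ.gcd x' = 1 →
      univ.gcd y' = 1 → Inc M x y → Inc M x' y' →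
      (∀ j, (((p : ℕ) ^ e : ℕ) : ℤ) ∣ x' j - x j) → (∀ j, (((p : ℕ) ^ e : ℕ) : ℤ) ∣ y' j - y j) →
      φ (fun i => (x' i : ℚ_[p])) (fun i => (y' i : ℚ_[p])) ≤
        (1 + ε) * φ (fun i => (x i : ℚ_[p])) (fun i => (y i : ℚ_[p])) := by
  obtain ⟨δ, hδ, H⟩ := LF_unif h hε
  have hp1 : (1 : ℝ) < (p : ℕ) := by exact_mod_cast p.2.one_lt
  obtain ⟨e, he⟩ := exists_pow_lt_of_lt_one hδ (inv_lt_one_of_one_lt₀ hp1)
  refine ⟨e, ?_⟩
  intro x y x' y' hx hy hx' hy' hxy hxy' h1 h2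
  have hd : ∀ u v : Fin N → ℤ, (∀ j, (((p : ℕ) ^ e : ℕ) : ℤ) ∣ u j - v j) →
      ‖(1 : ℚ_[p]) • (fun i => (u i : ℚ_[p])) - (1 : ℚ_[p]) • (fun i => (v i : ℚ_[p]))‖ < δ := by
    intro u v huv
    refine lt_of_le_of_lt ?_ he
    rw [pi_norm_le_iff_of_nonneg (by positivity)]
    intro j
    have h3 := huv j
    rw [one_smul, one_smul, Pi.sub_apply]
    have h4 := (Padic.norm_int_le_pow_iff_dvd (p := (p : ℕ)) (u j - v j) e).2 (by
      exact_mod_cast h3)
    push_cast at h4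
    refine h4.trans (le_of_eq ?_)
    rw [_root_.zpow_neg, zpow_natCast, inv_pow]
  exact H _ _ _ _ (cast_ne_zero (ne_zero_of_gcd hx)) (cast_ne_zero (ne_zero_of_gcd hy))
    (cast_ne_zero (ne_zero_of_gcd hx')) (cast_ne_zero (ne_zero_of_gcd hy')) (Inc_cast M hxy)
    (Inc_cast M hxy') 1 1 1 1 one_ne_zero one_ne_zero one_ne_zero one_ne_zero
    (by rw [one_smul]; exact padic_norm_prim p hx) (by rw [one_smul]; exact padic_norm_prim p hy)
    (by rw [one_smul]; exact padic_norm_prim p hx')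
    (by rw [one_smul]; exact padic_norm_prim p hy') (hd x' x h1) (hd y' y h2)

theorem z : StmtZ := by
  intro k N M ψ S φ hψ hφ
  constructor
  · obtain ⟨m, m', hm, hmm, hb⟩ := LF_bound hψ
    have h1 : ∀ p : Nat.Primes, p ∈ S → ∃ c c' : ℝ, 0 < c ∧ c ≤ c' ∧ ∀ x y, x ≠ 0 → y ≠ 0 →
        Inc M x y → c ≤ φ p x y ∧ φ p x y ≤ c' := fun p hp => LF_bound (hφ p hp)
    choose! c c' hc hcc hb' using h1
    refine ⟨m * ∏ p ∈ S, c p, m' * ∏ p ∈ S, c' p, mul_pos hm (prod_pos hc), ?_⟩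
    intro x y hx hy hxy
    have h2 := hb _ _ (cast_ne_zero hx) (cast_ne_zero hy) (Inc_cast M hxy)
    have h3 : ∀ p ∈ S, c p ≤ φ p (fun i => (x i : ℚ_[p])) (fun i => (y i : ℚ_[p])) ∧
        φ p (fun i => (x i : ℚ_[p])) (fun i => (y i : ℚ_[p])) ≤ c' p := fun p hp =>
      hb' p hp _ _ (cast_ne_zero hx) (cast_ne_zero hy) (Inc_cast M hxy)
    have h4 : ∏ p ∈ S, c p ≤ ∏ p ∈ S, φ p (fun i => (x i : ℚ_[p])) (fun i => (y i : ℚ_[p])) :=
      prod_le_prod (fun p hp => (hc p hp).le) fun p hp => (h3 p hp).1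
    have h5 : ∏ p ∈ S, φ p (fun i => (x i : ℚ_[p])) (fun i => (y i : ℚ_[p])) ≤ ∏ p ∈ S, c' p :=
      prod_le_prod (fun p hp => ((hc p hp).le.trans (h3 p hp).1)) fun p hp => (h3 p hp).2
    have h6 : 0 < ∏ p ∈ S, c p := prod_pos hc
    unfold Phi
    exact ⟨mul_le_mul h2.1 h4 h6.le (hm.le.trans h2.1),
      mul_le_mul h2.2 h5 (h6.le.trans h4) ((hm.le.trans h2.1).trans h2.2)⟩
  · intro ε hε
    -- the factor
    obtain ⟨ε', hε', hεε⟩ : ∃ ε' : ℝ, 0 < ε' ∧ (1 + ε') ^ (S.card + 1) ≤ 1 + ε := by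
      have h1 : Tendsto (fun u : ℝ => (1 + u) ^ (S.card + 1)) (𝓝[>] 0) (𝓝 ((1 + 0) ^ (S.card + 1))) :=
        ((continuous_const.add continuous_id).pow _).continuousAt.tendsto.mono_left
          nhdsWithin_le_nhds
      rw [add_zero, one_pow] at h1
      have h2 := h1.eventually_le_const (by linarith : (1 : ℝ) < 1 + ε)
      have h3 : ∀ᶠ u : ℝ in 𝓝[>] 0, 0 < u := eventually_mem_nhdsWithin
      obtain ⟨u, hu1, hu2⟩ := (h3.and h2).exists
      exact ⟨u, hu1, hu2⟩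
    obtain ⟨δ, hδ, H⟩ := LF_unif hψ hε'
    obtain ⟨t0, ht0⟩ := exists_nat_gt (1 / δ)
    set t : ℕ := t0 + 2 with ht
    have htδ : (1 : ℝ) / t < δ := by
      have h1 : (1 : ℝ) / δ < t := by
        refine ht0.trans_le ?_
        rw [ht]; push_cast; linarith
      have h2 : (0 : ℝ) < t := lt_trans (by positivity) h1
      rw [div_lt_iff₀ h2]
      rw [div_lt_iff₀ hδ] at h1
      linarith
    have h1 : ∀ p : Nat.Primes, p ∈ S → ∃ e : ℕ, ∀ x y x' y' : Fin N → ℤ, univ.gcd x = 1 →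
      univ.gcd y = 1 → univ.gcd x' = 1 → univ.gcd y' = 1 → Inc M x y → Inc M x' y' →
      (∀ j, (((p : ℕ) ^ e : ℕ) : ℤ) ∣ x' j - x j) → (∀ j, (((p : ℕ) ^ e : ℕ) : ℤ) ∣ y' j - y j) →
      φ p (fun i => (x' i : ℚ_[p])) (fun i => (y' i : ℚ_[p])) ≤
        (1 + ε') * φ p (fun i => (x i : ℚ_[p])) (fun i => (y i : ℚ_[p])) :=
      fun p hp => padic_cell p (hφ p hp) hε'
    choose! e he using h1
    refine ⟨(bx N t).card, fun i => ((bx N t).equivFin.symm i : Fin N → ℤ),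
      ∏ p ∈ S, (p : ℕ) ^ e p, ?_, ?_⟩
    · exact Nat.one_le_iff_ne_zero.2 (prod_ne_zero_iff.2 fun p _ => pow_ne_zero _ p.2.ne_zero)
    intro x y x' y' hx hy hx' hy' hxy hxy' hqx hqy hsx hsy
    have hx0 := ne_zero_of_gcd hx
    have hy0 := ne_zero_of_gcd hy
    have hx0' := ne_zero_of_gcd hx'
    have hy0' := ne_zero_of_gcd hy'
    have hcell : ∀ u u' : Fin N → ℤ, (∀ i : Fin (bx N t).card,
        (0 ≤ ((bx N t).equivFin.symm i : Fin N → ℤ) ⬝ᵥ u' ↔
          0 ≤ ((bx N t).equivFin.symm i : Fin N → ℤ) ⬝ᵥ u)) →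
        ∀ v ∈ bx N t, (0 ≤ v ⬝ᵥ u' ↔ 0 ≤ v ⬝ᵥ u) := by
      intro u u' h2 v hv
      have h3 := h2 ((bx N t).equivFin ⟨v, hv⟩)
      rwa [Equiv.symm_apply_apply] at h3
    obtain ⟨s, s', hs, hs', hs1, hs1', hds⟩ := cells (by omega : 2 ≤ t) hx0 (hcell x x' hsx) hx0'
    obtain ⟨r, r', hr, hr', hr1, hr1', hdr⟩ := cells (by omega : 2 ≤ t) hy0 (hcell y y' hsy) hy0'
    have h4 := H _ _ _ _ (cast_ne_zero hx0) (cast_ne_zero hy0) (cast_ne_zero hx0')
      (cast_ne_zero hy0') (Inc_cast M hxy) (Inc_cast M hxy') s r s' r' hs hr hs' hr' hs1 hr1 hs1'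
      hr1' (hds.trans_lt htδ) (hdr.trans_lt htδ)
    have h5 : ∀ p ∈ S, φ p (fun i => (x' i : ℚ_[p])) (fun i => (y' i : ℚ_[p])) ≤
        (1 + ε') * φ p (fun i => (x i : ℚ_[p])) (fun i => (y i : ℚ_[p])) := by
      intro p hp
      have h6 : (((p : ℕ) ^ e p : ℕ) : ℤ) ∣ ((∏ p ∈ S, (p : ℕ) ^ e p : ℕ) : ℤ) :=
        Int.natCast_dvd_natCast.2 (dvd_prod_of_mem (fun p : Nat.Primes => (p : ℕ) ^ e p) hp)
      exact he p hp x y x' y' hx hy hx' hy' hxy hxy' (fun j => h6.trans (hqx j))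
        fun j => h6.trans (hqy j)
    have hpos : ∀ (u v : Fin N → ℤ), u ≠ 0 → v ≠ 0 → Inc M u v → ∀ p ∈ S,
        0 < φ p (fun i => (u i : ℚ_[p])) (fun i => (v i : ℚ_[p])) := fun u v hu hv huv p hp =>
      (hφ p hp).2.1 _ _ (cast_ne_zero hu) (cast_ne_zero hv) (Inc_cast M huv)
    have hpos' : ∀ (u v : Fin N → ℤ), u ≠ 0 → v ≠ 0 → Inc M u v →
        0 < ψ (fun i => (u i : ℝ)) (fun i => (v i : ℝ)) := fun u v hu hv huv =>
      hψ.2.1 _ _ (cast_ne_zero hu) (cast_ne_zero hv) (Inc_cast M huv)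
    have h7 : ∏ p ∈ S, φ p (fun i => (x' i : ℚ_[p])) (fun i => (y' i : ℚ_[p])) ≤
        (1 + ε') ^ S.card * ∏ p ∈ S, φ p (fun i => (x i : ℚ_[p])) (fun i => (y i : ℚ_[p])) := by
      rw [← prod_const, ← prod_mul_distrib]
      exact prod_le_prod (fun p hp => (hpos x' y' hx0' hy0' hxy' p hp).le) h5
    have h8 : 0 < ∏ p ∈ S, φ p (fun i => (x i : ℚ_[p])) (fun i => (y i : ℚ_[p])) :=
      prod_pos (hpos x y hx0 hy0 hxy)
    have h9 : 0 < ∏ p ∈ S, φ p (fun i => (x' i : ℚ_[p])) (fun i => (y' i : ℚ_[p])) :=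
      prod_pos (hpos x' y' hx0' hy0' hxy')
    have h10 := hpos' x y hx0 hy0 hxy
    unfold Phi
    calc _ ≤ ((1 + ε') * ψ (fun i => (x i : ℝ)) (fun i => (y i : ℝ))) *
          ((1 + ε') ^ S.card *
            ∏ p ∈ S, φ p (fun i => (x i : ℚ_[p])) (fun i => (y i : ℚ_[p]))) :=
          mul_le_mul h4 h7 h9.le (by positivity)
      _ = (1 + ε') ^ (S.card + 1) * (ψ (fun i => (x i : ℝ)) (fun i => (y i : ℝ)) *
            ∏ p ∈ S, φ p (fun i => (x i : ℚ_[p])) (fun i => (y i : ℚ_[p]))) := by ring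
      _ ≤ _ := mul_le_mul_of_nonneg_right hεε (by positivity)

end Pool.Agent.T6.H81.BA
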