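import Mathlib
import Pool.Agent.T6.H81.BA.Defs2
import Pool.Agent.T6.H68.BL.Main
import Pool.Agent.T6.H52.BA.R3

/-!
Module N1: lattice points on a hypersurface.
-/

namespace Pool.Agent.T6.H81.BA

open Finset Module Matrix
open Pool.Agent.H548.WM (ht bx mem_bx Rep)
open Pool.Agent.H548.BL (rv cv Inc Smooth FinZeros tr lat mem_lat PP rc orth mem_orth)
open Pool.Agent.T6.H68.BL (GG GG_finite count_sub doubling)
open Pool.Agent.T6.H52.BA (rc_mem rc_inj LL mem_LL norm_LL finrank_eq zlat ncard_LL)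

namespace NN

section
variable {E : Type*} [NormedAddCommGroup E] [NormedSpace ℝ E] [FiniteDimensional ℝ E]
  (L : Submodule ℤ E) [DiscreteTopology L]

/-- The largest successive minimum. -/
theorem exists_R [IsZLattice ℝ L] (ha : 0 < finrank ℝ E) : ∃ R : ℝ, 0 < R ∧
    (∃ v ∈ L, v ≠ 0 ∧ ‖v‖ = R) ∧ Submodule.span ℝ (GG L R) = ⊤ ∧
    ∀ r < R, ∃ W : Submodule ℝ E, finrank ℝ W < finrank ℝ E ∧ ∀ v ∈ GG L r, v ∈ W := by
  classical
  have hne : (⊥ : Submodule ℝ E) ≠ ⊤ := by
    intro h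
    have h1 := finrank_top ℝ E
    rw [← h, finrank_bot] at h1
    omega
  let Sp : ℝ → Prop := fun r => Submodule.span ℝ (GG L r) = ⊤
  have hSp : ∀ {r r' : ℝ}, GG L r ⊆ GG L r' → Sp r → Sp r' := by
    intro r r' h h1
    have h2 := Submodule.span_mono (R := ℝ) h
    rw [show Submodule.span ℝ (GG L r) = ⊤ from h1] at h2
    exact top_le_iff.1 h2
  have hSpne : ∀ {r : ℝ}, Sp r → ∃ v ∈ GG L r, v ≠ 0 := by
    intro r h
    by_contra hcon
    push Not at hcon
    apply hne
    rw [← show Submodule.span ℝ (GG L r) = ⊤ from h, eq_comm, Submodule.span_eq_bot]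
    exact hcon
  have hmaxn : ∀ {r : ℝ}, Sp r → ∃ v ∈ GG L r, Sp ‖v‖ := by
    intro r h
    obtain ⟨v, hv, _⟩ := hSpne h
    obtain ⟨u, hu, humax⟩ := Finset.exists_max_image (GG_finite L r).toFinset (fun v => ‖v‖)
      ⟨v, by rwa [Set.Finite.mem_toFinset]⟩
    rw [Set.Finite.mem_toFinset] at hu
    refine ⟨u, hu, hSp ?_ h⟩
    intro w hw
    exact ⟨hw.1, humax w (by rwa [Set.Finite.mem_toFinset])⟩
  obtain ⟨r0, hr0⟩ : ∃ r, Sp r := by
    have hfin : Module.Finite ℤ L := ZLattice.module_finite ℝ L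
    have hfree : Module.Free ℤ L := ZLattice.module_free ℝ L
    let b := Module.Free.chooseBasis ℤ L
    let b' := b.ofZLatticeBasis ℝ L
    refine ⟨∑ i, ‖b' i‖, ?_⟩
    have h1 : Set.range b' ⊆ GG L (∑ i, ‖b' i‖) := by
      rintro _ ⟨i, rfl⟩
      refine ⟨?_, Finset.single_le_sum (f := fun i => ‖b' i‖) (fun i _ => norm_nonneg _)
        (Finset.mem_univ i)⟩
      rw [Basis.ofZLatticeBasis_apply]
      exact (b i).2
    have h2 := Submodule.span_mono (R := ℝ) h1
    rw [b'.span_eq] at h2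
    exact top_le_iff.1 h2
  obtain ⟨v0, hv0, hv0S⟩ := hmaxn hr0
  obtain ⟨v1, hv1, hmin⟩ := Finset.exists_min_image
    ((GG_finite L r0).toFinset.filter fun v => Sp ‖v‖) (fun v => ‖v‖)
    ⟨v0, by rw [Finset.mem_filter, Set.Finite.mem_toFinset]; exact ⟨hv0, hv0S⟩⟩
  rw [Finset.mem_filter, Set.Finite.mem_toFinset] at hv1
  obtain ⟨hv1G, hv1S⟩ := hv1
  have hv1ne : v1 ≠ 0 := by
    rintro rfl
    obtain ⟨u, hu, hune⟩ := hSpne hv1S
    rw [norm_zero] at hu
    exact hune (norm_le_zero_iff.1 hu.2)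
  refine ⟨‖v1‖, norm_pos_iff.2 hv1ne, ⟨v1, hv1G.1, hv1ne, rfl⟩, hv1S, ?_⟩
  intro r hr
  refine ⟨Submodule.span ℝ (GG L r), ?_, fun v hv => Submodule.subset_span hv⟩
  refine Submodule.finrank_lt fun hS => ?_
  have hSr : Sp r := hS
  obtain ⟨u, hu, huS⟩ := hmaxn hSr
  have hv1r0 := hv1G.2
  have h1 := hmin u (by
    rw [Finset.mem_filter, Set.Finite.mem_toFinset]
    exact ⟨⟨hu.1, hu.2.trans (hr.le.trans hv1r0)⟩, huS⟩)
  have h2 := hu.2
  linarith

/-- A basis of the space, of short vectors of the lattice. -/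
theorem exists_basis {R : ℝ} (hR : Submodule.span ℝ (GG L R) = ⊤) {a : ℕ}
    (ha : finrank ℝ E = a) : ∃ b : Basis (Fin a) ℝ E, ∀ i, b i ∈ L ∧ ‖b i‖ ≤ R := by
  obtain ⟨B, hBsub, hBspan, hBli⟩ := exists_linearIndependent ℝ (GG L R)
  have hBfin : B.Finite := (GG_finite L R).subset hBsub
  have hBf : Fintype B := hBfin.fintype
  have hspan : ⊤ ≤ Submodule.span ℝ (Set.range ((↑) : B → E)) := by
    rw [Subtype.range_coe, hBspan, hR]
  let bb : Basis B ℝ E := Basis.mk hBli hspan
  have hbb : ∀ i, bb i = (i : E) := fun i => by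
    change Basis.mk hBli hspan i = _
    rw [Basis.mk_apply]
  have hcard : Fintype.card B = a := by
    rw [← ha]
    exact (finrank_eq_card_basis bb).symm
  let e : B ≃ Fin a := Fintype.equivFinOfCardEq hcard
  refine ⟨bb.reindex e, fun i => ?_⟩
  rw [Basis.reindex_apply, hbb]
  exact hBsub (e.symm i).2

open Classical in
/-- Double counting. -/
theorem count_zero {a D K : ℕ} (hK : 1 ≤ K) (b : Fin a → E) (hb : ∀ i, b i ∈ L) {R : ℝ}
    (hbR : ∀ i, ‖b i‖ ≤ R) (Z : E → Prop)
    (hZ : ∀ z ∈ L, ((Fintype.piFinset fun _ : Fin a => Finset.Ico (0 : ℤ) K).filter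
      fun c => Z (z + ∑ i, c i • b i)).card * K ≤ D * K ^ a) (Y : ℝ) :
    {v : E | v ∈ L ∧ ‖v‖ ≤ Y ∧ Z v}.ncard * K ≤ D * (GG L (Y + a * K * R)).ncard := by
  have hfin := GG_finite L Y
  have hfin' := GG_finite L (Y + a * K * R)
  set Bx := Fintype.piFinset fun _ : Fin a => Finset.Ico (0 : ℤ) K with hBx
  have hBxc : Bx.card = K ^ a := by
    rw [hBx, Fintype.card_piFinset_const, Int.card_Ico]
    simp
  set G := hfin.toFinset.filter Z with hG
  set G' := hfin'.toFinset with hG'
  have hset : {v : E | v ∈ L ∧ ‖v‖ ≤ Y ∧ Z v}.ncard = G.card := by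
    rw [← Set.ncard_coe_finset]
    congr 1
    ext v
    rw [hG, Finset.mem_coe, Finset.mem_filter, Set.Finite.mem_toFinset]
    constructor
    · rintro ⟨h1, h2, h3⟩
      exact ⟨⟨h1, h2⟩, h3⟩
    · rintro ⟨⟨h1, h2⟩, h3⟩
      exact ⟨h1, h2, h3⟩
  have hset' : (GG L (Y + a * K * R)).ncard = G'.card := Set.ncard_eq_toFinset_card _ hfin'
  rw [hset, hset']
  have hinj : (G ×ˢ Bx).card ≤ ((G' ×ˢ Bx).filter fun t => Z (t.1 + ∑ i, t.2 i • b i)).card := by
    apply Finset.card_le_card_of_injOn (fun t => (t.1 - ∑ i, t.2 i • b i, t.2))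
    · rintro ⟨v, c⟩ hvc
      rw [Finset.mem_coe, Finset.mem_product, hG, Finset.mem_filter, Set.Finite.mem_toFinset] at hvc
      obtain ⟨⟨⟨hvL, hvY⟩, hvZ⟩, hc⟩ := hvc
      rw [Finset.mem_coe, Finset.mem_filter, Finset.mem_product, hG', Set.Finite.mem_toFinset]
      refine ⟨⟨⟨L.sub_mem hvL (L.sum_mem fun i _ => L.smul_mem _ (hb i)), ?_⟩, hc⟩, ?_⟩
      · refine (norm_sub_le _ _).trans (add_le_add hvY ?_)
        refine (norm_sum_le _ _).trans ?_
        have h1 : ∀ i ∈ (Finset.univ : Finset (Fin a)), ‖c i • b i‖ ≤ K * R := by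
          intro i _
          rw [hBx, Fintype.mem_piFinset] at hc
          have h2 := Finset.mem_Ico.1 (hc i)
          have h3 : ‖c i • b i‖ = |(c i : ℝ)| * ‖b i‖ := by
            rw [← Int.cast_smul_eq_zsmul ℝ, norm_smul, Real.norm_eq_abs]
          rw [h3]
          have h4 : |(c i : ℝ)| ≤ K := by
            rw [abs_of_nonneg (by exact_mod_cast h2.1)]
            exact_mod_cast h2.2.le
          exact mul_le_mul h4 (hbR i) (norm_nonneg _) (Nat.cast_nonneg _)
        refine (Finset.sum_le_card_nsmul _ _ _ h1).trans ?_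
        rw [Finset.card_univ, Fintype.card_fin, nsmul_eq_mul]
        linarith
      · show Z (v - ∑ i, c i • b i + ∑ i, c i • b i)
        rw [sub_add_cancel]
        exact hvZ
    · rintro ⟨v, c⟩ _ ⟨v', c'⟩ _ h
      simp only [Prod.mk.injEq] at h
      obtain ⟨h1, rfl⟩ := h
      exact Prod.ext (sub_left_injective h1) rfl
  have hsum : ((G' ×ˢ Bx).filter fun t => Z (t.1 + ∑ i, t.2 i • b i)).card =
      ∑ z ∈ G', (Bx.filter fun c => Z (z + ∑ i, c i • b i)).card := by
    rw [Finset.card_filter, Finset.sum_product]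
    refine Finset.sum_congr rfl fun z _ => ?_
    rw [Finset.card_filter]
  have h1 : (G ×ˢ Bx).card * K ≤ G'.card * (D * K ^ a) := by
    calc (G ×ˢ Bx).card * K ≤ (∑ z ∈ G', (Bx.filter fun c => Z (z + ∑ i, c i • b i)).card) * K := by
          rw [← hsum]
          exact Nat.mul_le_mul_right _ hinj
      _ = ∑ z ∈ G', (Bx.filter fun c => Z (z + ∑ i, c i • b i)).card * K := by
          rw [Finset.sum_mul]
      _ ≤ ∑ z ∈ G', D * K ^ a := by
          refine Finset.sum_le_sum fun z hz => hZ z ?_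
          rw [hG', Set.Finite.mem_toFinset] at hz
          exact hz.1
      _ = _ := by
          rw [Finset.sum_const, smul_eq_mul]
  rw [Finset.card_product, hBxc] at h1
  have h2 : 0 < K ^ a := by positivity
  have h3 : (G.card * K) * K ^ a ≤ (D * G'.card) * K ^ a := by
    calc (G.card * K) * K ^ a = G.card * K ^ a * K := by ring
      _ ≤ G'.card * (D * K ^ a) := h1
      _ = _ := by ring
  exact Nat.le_of_mul_le_mul_right h3 h2

/-- The bound, in terms of the lattice. -/
theorem bound [IsZLattice ℝ L] {a : ℕ} (ha : finrank ℝ E = a) (ha1 : 1 ≤ a) (D : ℕ)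
    (Z : E → Prop)
    (hZ : ∀ b : Basis (Fin a) ℝ E, (∀ i, b i ∈ L) → ∀ z ∈ L, ∀ K : ℕ, 1 ≤ K →
      ∃ S : Finset (Fin a → ℤ), (∀ c : Fin a → ℤ, (∀ i, 0 ≤ c i ∧ c i < K) →
        Z (z + ∑ i, c i • b i) → c ∈ S) ∧ S.card * K ≤ D * K ^ a)
    {l : ℝ} (hl : 0 < l) (hsep : ∀ v ∈ L, v ≠ 0 → l ≤ ‖v‖) {Y : ℝ} (hY : 0 ≤ Y) :
    (({v : E | v ∈ L ∧ ‖v‖ ≤ Y ∧ Z v}.ncard : ℕ) : ℝ) ≤
      (2 ^ (a - 1) + (4 * a + 1) ^ a + 2 * a * D * 9 ^ a * 2 ^ (a - 1)) * (1 + Y / l) ^ (a - 1) := by
  classical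
  obtain ⟨R, hR, ⟨v1, hv1, hv1ne, hv1R⟩, hspan, hsub⟩ := exists_R L (by omega)
  obtain ⟨b, hb⟩ := exists_basis L hspan ha
  have hlR : l ≤ R := by
    rw [← hv1R]
    exact hsep v1 hv1 hv1ne
  have ha0 : (1 : ℝ) ≤ a := by exact_mod_cast ha1
  obtain ⟨m, rfl⟩ : ∃ m, a = m + 1 := ⟨a - 1, by omega⟩
  rw [Nat.add_sub_cancel]
  set aa : ℝ := ((m + 1 : ℕ) : ℝ) with haa
  set X : ℝ := (1 + Y / l) ^ m with hX
  have hXpos : 0 ≤ X := by positivity
  have hle : (({v : E | v ∈ L ∧ ‖v‖ ≤ Y ∧ Z v}.ncard : ℕ) : ℝ) ≤ ((GG L Y).ncard : ℝ) := by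
    have : {v : E | v ∈ L ∧ ‖v‖ ≤ Y ∧ Z v}.ncard ≤ (GG L Y).ncard :=
      Set.ncard_le_ncard (fun v hv => ⟨hv.1, hv.2.1⟩) (GG_finite L Y)
    exact_mod_cast this
  have hsmall : ∀ r : ℝ, 0 ≤ r → r < R → ((GG L r).ncard : ℝ) ≤ (2 * r / l + 1) ^ m := by
    intro r hr0 hr
    obtain ⟨W, hW, hWr⟩ := hsub r hr
    refine (count_sub L W hl hsep hr0 hWr).trans ?_
    refine pow_le_pow_right₀ ?_ (by omega)
    have : 0 ≤ 2 * r / l := by positivity
    linarith
  have hhalf : ((GG L (R / 2)).ncard : ℝ) ≤ (R / l + 1) ^ m := by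
    have h := hsmall (R / 2) (by positivity) (by linarith)
    have e : 2 * (R / 2) / l = R / l := by ring
    rwa [e] at h
  have hA : (0 : ℝ) ≤ 2 ^ m * X := by positivity
  have hB : (0 : ℝ) ≤ (4 * aa + 1) ^ (m + 1) * X := by positivity
  have hC : (0 : ℝ) ≤ 2 * aa * D * 9 ^ (m + 1) * 2 ^ m * X := by positivity
  have hgoal : (2 ^ m + (4 * aa + 1) ^ (m + 1) + 2 * aa * D * 9 ^ (m + 1) * 2 ^ m) * X =
      2 ^ m * X + (4 * aa + 1) ^ (m + 1) * X + 2 * aa * D * 9 ^ (m + 1) * 2 ^ m * X := by ring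
  rw [hgoal]
  rcases lt_or_ge Y R with hYR | hYR
  · have h1 : ((GG L Y).ncard : ℝ) ≤ 2 ^ m * X := by
      refine (hsmall Y hY hYR).trans ?_
      rw [hX, ← mul_pow]
      refine pow_le_pow_left₀ (by positivity) ?_ m
      have : 2 * Y / l = 2 * (Y / l) := by ring
      rw [this]
      linarith
    linarith
  · rcases lt_or_ge Y (aa * R) with hYd | hYd
    · have h1 : ((GG L Y).ncard : ℝ) ≤ (4 * aa + 1) ^ (m + 1) * X := by
        have h2 := doubling L (r := R / 2) (Y := Y) (by positivity) hY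
        rw [ha] at h2
        refine h2.trans (mul_le_mul ?_ ?_ (Nat.cast_nonneg _) (by positivity))
        · refine pow_le_pow_left₀ (by positivity) ?_ _
          have h5 : 2 * Y / (R / 2) ≤ 4 * aa := by
            rw [div_le_iff₀ (by positivity)]
            nlinarith
          linarith
        · refine hhalf.trans ?_
          rw [hX]
          refine pow_le_pow_left₀ (by positivity) ?_ m
          have h6 : R / l ≤ Y / l := div_le_div_of_nonneg_right hYR hl.le
          linarith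
      linarith
    · -- the main case
      set K : ℕ := ⌊Y / (aa * R)⌋₊ with hK
      have haR : 0 < aa * R := by positivity
      have hK1 : 1 ≤ K := by
        rw [hK, Nat.one_le_floor_iff]
        rw [le_div_iff₀ haR]
        linarith
      have hKle : (K : ℝ) ≤ Y / (aa * R) := Nat.floor_le (by positivity)
      have hKge : Y / (2 * aa * R) ≤ K := by
        have h1 : Y / (aa * R) < K + 1 := Nat.lt_floor_add_one _
        have h2 : (1 : ℝ) ≤ K := by exact_mod_cast hK1
        have h3 : Y / (2 * aa * R) = (Y / (aa * R)) / 2 := by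
          field_simp
        rw [h3]
        linarith
      have h1 := count_zero L hK1 b (fun i => (hb i).1) (fun i => (hb i).2) Z (D := D) (by
        intro z hz
        obtain ⟨S, hS, hSc⟩ := hZ b (fun i => (hb i).1) z hz K hK1
        refine le_trans (Nat.mul_le_mul_right _ (Finset.card_le_card ?_)) hSc
        intro c hc
        rw [Finset.mem_filter, Fintype.mem_piFinset] at hc
        exact hS c (fun i => Finset.mem_Ico.1 (hc.1 i)) hc.2) Y
      have h2 : Y + aa * K * R ≤ 2 * Y := by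
        have : aa * K * R ≤ Y := by
          have h3 : (K : ℝ) * (aa * R) ≤ Y := by
            rwa [le_div_iff₀ haR] at hKle
          linarith
        linarith
      have h3 : (GG L (Y + aa * K * R)).ncard ≤ (GG L (2 * Y)).ncard :=
        Pool.Agent.T6.H68.BL.ncard_mono L h2
      have h4 := doubling L (r := R / 2) (Y := 2 * Y) (by positivity) (by positivity)
      rw [ha] at h4
      have hY0 : 0 < Y := lt_of_lt_of_le hR hYR
      have hYR' : 1 ≤ Y / R := by
        rw [le_div_iff₀ hR]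
        linarith
      have h5 : 2 * (2 * Y) / (R / 2) + 1 ≤ 9 * (Y / R) := by
        have : 2 * (2 * Y) / (R / 2) = 8 * (Y / R) := by
          field_simp
          ring
        rw [this]
        linarith
      have h6 : ((GG L (2 * Y)).ncard : ℝ) ≤ (9 * (Y / R)) ^ (m + 1) * (2 * (R / l)) ^ m := by
        refine h4.trans (mul_le_mul ?_ ?_ (Nat.cast_nonneg _) (by positivity))
        · exact pow_le_pow_left₀ (by positivity) h5 _
        · refine hhalf.trans (pow_le_pow_left₀ (by positivity) ?_ m)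
          have : 1 ≤ R / l := by
            rw [le_div_iff₀ hl]
            linarith
          linarith
      set n : ℝ := (({v : E | v ∈ L ∧ ‖v‖ ≤ Y ∧ Z v}.ncard : ℕ) : ℝ) with hn
      have hn0 : 0 ≤ n := Nat.cast_nonneg _
      have h7 : n * (Y / (2 * aa * R)) ≤ D * ((9 * (Y / R)) ^ (m + 1) * (2 * (R / l)) ^ m) := by
        calc n * (Y / (2 * aa * R)) ≤ n * K := mul_le_mul_of_nonneg_left hKge hn0
          _ ≤ D * ((GG L (Y + aa * K * R)).ncard : ℝ) := by
              have h1' := (Nat.cast_le (α := ℝ)).2 h1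
              rw [Nat.cast_mul, Nat.cast_mul] at h1'
              exact h1'
          _ ≤ D * ((GG L (2 * Y)).ncard : ℝ) := by
              gcongr
          _ ≤ _ := by gcongr
      have h8 : n ≤ 2 * aa * D * 9 ^ (m + 1) * 2 ^ m * (Y / l) ^ m := by
        have h9 : 0 < Y / (2 * aa * R) := by positivity
        have h10 : D * ((9 * (Y / R)) ^ (m + 1) * (2 * (R / l)) ^ m) =
            (2 * aa * D * 9 ^ (m + 1) * 2 ^ m * (Y / l) ^ m) * (Y / (2 * aa * R)) := by
          rw [mul_pow, mul_pow, pow_succ (Y / R) m]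
          have h11 : (Y / R) ^ m * (R / l) ^ m = (Y / l) ^ m := by
            rw [← mul_pow]
            congr 1
            field_simp
          rw [← h11]
          field_simp
        rw [h10] at h7
        exact le_of_mul_le_mul_right h7 h9
      have h12 : (Y / l) ^ m ≤ X := by
        rw [hX]
        refine pow_le_pow_left₀ (by positivity) (by linarith) m
      have h13 : 2 * aa * D * 9 ^ (m + 1) * 2 ^ m * (Y / l) ^ m ≤
          2 * aa * D * 9 ^ (m + 1) * 2 ^ m * X := by
        gcongr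
      linarith

end

/-- The restriction of a polynomial to an affine lattice. -/
noncomputable def sub {N a : ℕ} (P : MvPolynomial (Fin N) ℤ) (z : Fin N → ℤ)
    (β : Fin a → Fin N → ℤ) : MvPolynomial (Fin a) ℤ :=
  MvPolynomial.aeval (fun j => MvPolynomial.C (z j) + ∑ i, MvPolynomial.C (β i j) *
    MvPolynomial.X i) P

theorem eval_sub {N a : ℕ} (P : MvPolynomial (Fin N) ℤ) (z : Fin N → ℤ)
    (β : Fin a → Fin N → ℤ) {R : Type*} [CommRing R] (c : Fin a → R) :
    MvPolynomial.aeval c (sub P z β) =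
      MvPolynomial.aeval (fun j => (z j : R) + ∑ i, (β i j : R) * c i) P := by
  unfold sub
  have h := MvPolynomial.comp_aeval (R := ℤ)
    (fun j => MvPolynomial.C (z j) + ∑ i, MvPolynomial.C (β i j) * MvPolynomial.X i)
    (MvPolynomial.aeval c : MvPolynomial (Fin a) ℤ →ₐ[ℤ] R)
  have h2 := congrArg (fun φ => φ P) h
  simp only [AlgHom.comp_apply] at h2
  rw [h2]
  have h3 : (fun i => (MvPolynomial.aeval c) (MvPolynomial.C (z i) +
      ∑ i_1, MvPolynomial.C (β i_1 i) * MvPolynomial.X i_1 : MvPolynomial (Fin a) ℤ)) =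
      fun j => (z j : R) + ∑ i, (β i j : R) * c i := by
    funext j
    simp
  rw [h3]

theorem totalDegree_lin {N a : ℕ} (z : Fin N → ℤ) (β : Fin a → Fin N → ℤ) (j : Fin N) :
    (MvPolynomial.C (z j) + ∑ i, MvPolynomial.C (β i j) * MvPolynomial.X i :
      MvPolynomial (Fin a) ℤ).totalDegree ≤ 1 := by
  refine (MvPolynomial.totalDegree_add _ _).trans (max_le ?_ ?_)
  · rw [MvPolynomial.totalDegree_C]
    omega
  · refine (MvPolynomial.totalDegree_finsetSum _ _).trans (Finset.sup_le fun i _ => ?_)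
    refine (MvPolynomial.totalDegree_mul _ _).trans ?_
    rw [MvPolynomial.totalDegree_C, zero_add]
    exact (MvPolynomial.totalDegree_X i).le

theorem totalDegree_sub {N a : ℕ} (P : MvPolynomial (Fin N) ℤ) (z : Fin N → ℤ)
    (β : Fin a → Fin N → ℤ) : (sub P z β).totalDegree ≤ P.totalDegree := by
  unfold sub
  rw [MvPolynomial.aeval_def, MvPolynomial.eval₂_eq']
  refine (MvPolynomial.totalDegree_finsetSum _ _).trans (Finset.sup_le fun d hd => ?_)
  refine (MvPolynomial.totalDegree_mul _ _).trans ?_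
  have h1 : (algebraMap ℤ (MvPolynomial (Fin a) ℤ) (MvPolynomial.coeff d P)).totalDegree = 0 :=
    MvPolynomial.totalDegree_C _
  rw [h1, zero_add]
  refine (MvPolynomial.totalDegree_finsetProd _ _).trans ?_
  have h2 : ∑ j, d j ≤ P.totalDegree := by
    have h3 := MvPolynomial.le_totalDegree hd
    rwa [Finsupp.sum_fintype _ _ (fun _ => rfl)] at h3
  refine le_trans (Finset.sum_le_sum fun j _ => ?_) h2
  refine (MvPolynomial.totalDegree_pow _ _).trans ?_
  have := totalDegree_lin z β j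
  nlinarith

end NN

open NN in
theorem n1 : StmtN1 := by
  intro k N D hkN
  classical
  set a := N - k with ha
  have ha1 : 1 ≤ a := by omega
  refine ⟨2 ^ (a - 1) + (4 * a + 1) ^ a + 2 * a * D * 9 ^ a * 2 ^ (a - 1), by positivity,
    fun w hw P hP hne l hl hlow Y => ?_⟩
  have := zlat w hw
  have hfr : finrank ℝ (orth w) = a := finrank_eq w hw
  have hl0 : (0 : ℝ) < l := by exact_mod_cast hl
  set Z : orth w → Prop := fun v => ∃ u : Fin N → ℤ, rc u = v.1 ∧ MvPolynomial.eval u P = 0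
    with hZdef
  have hsep : ∀ v ∈ LL w, v ≠ 0 → (l : ℝ) ≤ ‖v‖ := by
    intro e he hne'
    obtain ⟨v, hv, hve⟩ := mem_LL.1 he
    rw [norm_LL hve]
    have hv0 : v ≠ 0 := by
      rintro rfl
      apply hne'
      apply Subtype.ext
      rw [← hve]
      funext i
      simp [rc]
    exact_mod_cast hlow v hv hv0
  obtain ⟨y0, hy0, hy0P⟩ := hne
  have hmain := bound (LL w) hfr ha1 D Z (by
    intro b hb z hz K hK
    choose β hβ hβb using fun i => mem_LL.1 (hb i)
    obtain ⟨ζ, hζ, hζz⟩ := mem_LL.1 hz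
    set Q := NN.sub P ζ β with hQ
    refine ⟨(Fintype.piFinset fun _ : Fin a => Finset.Ico (0 : ℤ) K).filter
      fun c => MvPolynomial.eval c Q = 0, ?_, ?_⟩
    · rintro c hc ⟨u, hu, huP⟩
      rw [Finset.mem_filter, Fintype.mem_piFinset]
      refine ⟨fun i => Finset.mem_Ico.2 (hc i), ?_⟩
      have h1 : u = fun j => ζ j + ∑ i, β i j * c i := by
        apply rc_inj
        rw [hu]
        show (z + ∑ i, c i • b i : orth w).1 = _
        funext j
        rw [Submodule.coe_add, Submodule.coe_sum, Pi.add_apply, Finset.sum_apply, ← hζz]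
        have h2 : ∀ i, ((c i • b i : orth w) : Fin N → ℝ) j = (β i j : ℝ) * (c i : ℝ) := by
          intro i
          have h3 := congrFun (hβb i) j
          show (c i • (b i : Fin N → ℝ)) j = _
          rw [Pi.smul_apply, ← h3, zsmul_eq_mul, mul_comm]
          rfl
        simp only [h2]
        simp [rc]
      have h2 := eval_sub P ζ β c
      rw [MvPolynomial.aeval_eq_eval, MvPolynomial.aeval_eq_eval] at h2
      have h3 : MvPolynomial.eval c Q = MvPolynomial.eval (fun j => ζ j + ∑ i, β i j * c i) P := by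
        simpa using h2
      rw [h3, ← h1]
      exact huP
    · have hQ0 : Q ≠ 0 := by
        intro h0
        set e : orth w := ⟨rc y0, rc_mem hy0⟩ - z with he
        have h1 := eval_sub P ζ β (fun i => b.repr e i)
        rw [← hQ, h0, map_zero] at h1
        have h2 : (fun j => (ζ j : ℝ) + ∑ i, (β i j : ℝ) * b.repr e i) = fun j => (y0 j : ℝ) := by
          funext j
          have h3 := congrArg (fun v : orth w => (v : Fin N → ℝ) j) (b.sum_repr e)
          simp only [Submodule.coe_sum, Finset.sum_apply, Submodule.coe_smul, Pi.smul_apply,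
            smul_eq_mul] at h3
          have h4 : (e : Fin N → ℝ) j = (y0 j : ℝ) - (ζ j : ℝ) := by
            rw [he, Submodule.coe_sub, Pi.sub_apply, ← hζz]
            rfl
          rw [h4] at h3
          have h5 : ∑ i, (β i j : ℝ) * b.repr e i = ∑ i, b.repr e i * (b i : Fin N → ℝ) j := by
            refine Finset.sum_congr rfl fun i _ => ?_
            rw [mul_comm, ← hβb i]
            rfl
          rw [h5, h3]
          ring
        rw [h2] at h1
        have h6 : MvPolynomial.aeval (fun j => (y0 j : ℝ)) P = ((MvPolynomial.eval y0 P : ℤ) : ℝ) := by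
          have h7 := MvPolynomial.aeval_algebraMap_apply (A := ℤ) ℝ y0 P
          have h8 : (algebraMap ℤ ℝ ∘ y0) = fun j => (y0 j : ℝ) := rfl
          rw [h8] at h7
          rw [h7]
          simp
        rw [h6] at h1
        apply hy0P
        exact_mod_cast h1.symm
      have h1 := MvPolynomial.schwartz_zippel_totalDegree hQ0 (Finset.Ico (0 : ℤ) K)
      rw [Int.card_Ico, sub_zero, Int.toNat_natCast] at h1
      have hK0 : (0 : ℚ≥0) < K := by exact_mod_cast hK
      rw [div_le_div_iff₀ (by positivity) hK0] at h1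
      have h2 : ((Fintype.piFinset fun _ : Fin a => Finset.Ico (0 : ℤ) K).filter
        fun c => MvPolynomial.eval c Q = 0).card * K ≤ Q.totalDegree * K ^ a := by
        exact_mod_cast h1
      exact h2.trans (Nat.mul_le_mul_right _ ((totalDegree_sub P ζ β).trans hP)))
    hl0 hsep (Y := (Y : ℝ)) (Nat.cast_nonneg _)
  have hcard : ((bx N Y).filter fun v => v ∈ lat w ∧ MvPolynomial.eval v P = 0).card =
      {v : orth w | v ∈ LL w ∧ ‖v‖ ≤ (Y : ℝ) ∧ Z v}.ncard := by
    rw [← Set.ncard_coe_finset]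
    refine Set.ncard_congr
      (fun v hv => ⟨rc v, rc_mem (mem_filter.1 (mem_coe.1 hv)).2.1⟩) ?_ ?_ ?_
    · intro v hv
      rw [mem_coe, mem_filter, mem_bx] at hv
      refine ⟨mem_LL.2 ⟨v, hv.2.1, rfl⟩, ?_, v, rfl, hv.2.2⟩
      rw [norm_LL rfl]
      exact_mod_cast hv.1
    · intro u v hu hv h
      exact rc_inj (Subtype.mk.inj h)
    · rintro e ⟨h1, h2, u, hu, huP⟩
      obtain ⟨v, hv, hve⟩ := mem_LL.1 h1
      have huv : u = v := rc_inj (hu.trans hve.symm)
      subst huv
      refine ⟨u, ?_, Subtype.ext hve⟩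
      rw [mem_coe, mem_filter, mem_bx]
      refine ⟨?_, hv, huP⟩
      rw [norm_LL hve] at h2
      exact_mod_cast h2
  rw [hcard]
  exact hmain

end Pool.Agent.T6.H81.BA
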