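import Mathlib
import Pool.Agent.T6.H81.BA.Defs2
import Pool.Agent.T6.H81.BA.C

/-! The asymptotic formula for the number of pairs in cells, with fixed first factor. -/

namespace Pool.Agent.T6.H81.BA

open Finset Module Matrix
open Pool.Agent.H548.WM (ht bx mem_bx Rep ht_pos)
open Pool.Agent.H548.BL (rv cv Inc Smooth FinZeros tr lat mem_lat PP rc norm_rc inc_iff_rv rc_sub
  rc_inj orth mem_orth finrank_orth rc_dot sep_card lat_card rv_tr cv_tr rep_ne)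

theorem cell_ne {N n : ℕ} {f : Fin n → Fin N → ℤ} {σ : Fin n → Bool} {q : ℕ}
    {r v : Fin N → ℤ} (h : Cell f σ q r v) : v ≠ 0 := by
  rintro rfl
  have h1 := h.1
  have h2 : (univ.gcd (0 : Fin N → ℤ)) = 0 := Finset.gcd_eq_zero_iff.2 (by simp)
  rw [h2] at h1
  exact zero_ne_one h1

open Classical in
/-- The vectors `y` over `x`. -/
noncomputable def fibw {k N : ℕ} (M : Fin k → Matrix (Fin N) (Fin N) ℤ)
    (ZL : Finset (Fin N → ℤ)) (cy : (Fin N → ℤ) → Prop) (x : Fin N → ℤ) (Y : ℕ) :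
    Finset (Fin N → ℤ) :=
  (bx N Y).filter fun y => cy y ∧ GX (tr M) ZL y ∧ Inc M x y

open Classical in
theorem fibw_good (hR : StmtR2) {k N n q : ℕ} (hk : 1 ≤ k) (hN : k + 3 ≤ N) (hq : 1 ≤ q) :
    ∃ C : ℝ, 0 ≤ C ∧ ∀ (M : Fin k → Matrix (Fin N) (Fin N) ℤ) (ZL : Finset (Fin N → ℤ))
    (f : Fin n → Fin N → ℤ) (σ : Fin n → Bool) (r : Fin N → ℤ) (x : Fin N → ℤ),
    LinearIndependent ℤ (rv M x) →
    (∀ y : Fin N → ℤ, y ≠ 0 → Inc M x y → LinearIndependent ℤ (cv M y)) →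
    (∀ z ∈ ZL, LinearIndependent ℤ (Fin.cons z (rv M x) : Fin (k + 1) → Fin N → ℤ)) →
    ∃ c : ℝ, 0 ≤ c ∧ ∀ Y : ℕ,
      |((fibw M ZL (Cell f σ q r) x Y).card : ℝ) - c * (Y : ℝ) ^ (N - k)| ≤
      (C + ZL.card * 2 ^ (N - k - 1)) * (1 + (Y : ℝ) / lam M x) ^ (N - k - 1) := by
  obtain ⟨C, hC, hR⟩ := hR k N n q hN hq
  refine ⟨C, hC, fun M ZL f σ r x hx hgood hz => ?_⟩
  obtain ⟨c, hc, h⟩ := hR (rv M x) hx f σ r
  refine ⟨c, hc, fun Y => ?_⟩
  obtain ⟨hl1, -⟩ := lamspec hk (by omega : k < N) M x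
  have hlam : ∀ v ∈ lat (rv M x), v ≠ 0 → lam M x ≤ ht v := by
    intro v hv hv0
    exact lamle hv0 (inc_iff_rv.2 (mem_lat.1 hv))
  have h1 := (h (lam M x) hl1 hlam).2 Y
  set R := (bx N Y).filter fun v => v ∈ lat (rv M x) ∧ Cell f σ q r v with hRdef
  have hsub1 : fibw M ZL (Cell f σ q r) x Y ⊆ R := by
    intro y hy
    unfold fibw at hy
    rw [mem_filter] at hy
    rw [hRdef, mem_filter]
    exact ⟨hy.1, mem_lat.2 (inc_iff_rv.1 hy.2.2.2), hy.2.1⟩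
  have hsub2 : R ⊆ fibw M ZL (Cell f σ q r) x Y ∪ ZL.biUnion fun z => (bx N Y).filter fun v =>
      v ∈ lat (Fin.cons z (rv M x) : Fin (k + 1) → Fin N → ℤ) := by
    intro y hy
    rw [hRdef, mem_filter] at hy
    obtain ⟨hy1, hy2, hy3⟩ := hy
    have hinc : Inc M x y := inc_iff_rv.2 (mem_lat.1 hy2)
    have hli : LinearIndependent ℤ (rv (tr M) y) := by
      rw [rv_tr]
      exact hgood y (cell_ne hy3) hinc
    rw [mem_union]
    by_cases hall : ∀ z ∈ ZL, y ⬝ᵥ z ≠ 0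
    · left
      unfold fibw
      rw [mem_filter]
      exact ⟨hy1, hy3, ⟨hli, hall⟩, hinc⟩
    · right
      push Not at hall
      obtain ⟨z, hzZ, hz0⟩ := hall
      rw [mem_biUnion]
      refine ⟨z, hzZ, ?_⟩
      rw [mem_filter]
      refine ⟨hy1, ?_⟩
      rw [mem_lat]
      intro i
      refine Fin.cases ?_ (fun i => ?_) i
      · rw [Fin.cons_zero, dotProduct_comm]
        exact hz0
      · rw [Fin.cons_succ]
        exact mem_lat.1 hy2 i
  have hc1 : ((fibw M ZL (Cell f σ q r) x Y).card : ℝ) ≤ (R.card : ℝ) := by exact_mod_cast card_le_card hsub1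
  have hc2 : (R.card : ℝ) ≤ ((fibw M ZL (Cell f σ q r) x Y).card : ℝ) +
      ZL.card * (2 ^ (N - k - 1) * (1 + (Y : ℝ) / lam M x) ^ (N - k - 1)) := by
    have h2 := (card_le_card hsub2).trans ((card_union_le _ _).trans
      (Nat.add_le_add_left card_biUnion_le _))
    have h3 : (R.card : ℝ) ≤ ((fibw M ZL (Cell f σ q r) x Y).card : ℝ) + ∑ z ∈ ZL,
        ((((bx N Y).filter fun v =>
          v ∈ lat (Fin.cons z (rv M x) : Fin (k + 1) → Fin N → ℤ)).card : ℕ) : ℝ) := by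
      exact_mod_cast h2
    refine h3.trans ?_
    gcongr
    rw [← nsmul_eq_mul]
    apply Finset.sum_le_card_nsmul
    intro z hzZ
    have h4 := pack (Fin.cons z (rv M x) : Fin (k + 1) → Fin N → ℤ) (hz z hzZ) (lam M x) hl1 (by
      intro v hv hv0
      apply lamle hv0
      rw [inc_iff_rv]
      intro i
      have := mem_lat.1 hv i.succ
      rwa [Fin.cons_succ] at this) Y
    have e : N - (k + 1) = N - k - 1 := by omega
    rwa [e] at h4
  rw [abs_le] at h1 ⊢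
  have h5 : (0 : ℝ) ≤ ZL.card * (2 ^ (N - k - 1) * (1 + (Y : ℝ) / lam M x) ^ (N - k - 1)) := by
    positivity
  constructor
  · nlinarith [h1.1]
  · nlinarith [h1.2]

open Classical in
theorem cntw_eq {k N : ℕ} (M : Fin k → Matrix (Fin N) (Fin N) ℤ) (ZR ZL : Finset (Fin N → ℤ))
    (cx cy : (Fin N → ℤ) → Prop) (A Y : ℕ) : cntw M ZR ZL cx cy A Y =
      ∑ x ∈ (bx N A).filter fun x => cx x ∧ GX M ZR x, (fibw M ZL cy x Y).card := by
  unfold cntw fibw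
  have h1 : ((bx N A ×ˢ bx N Y).filter fun t => cx t.1 ∧ cy t.2 ∧ GX M ZR t.1 ∧
      GX (tr M) ZL t.2 ∧ Inc M t.1 t.2) =
      ((((bx N A).filter fun x => cx x ∧ GX M ZR x) ×ˢ bx N Y).filter fun t =>
        cy t.2 ∧ GX (tr M) ZL t.2 ∧ Inc M t.1 t.2) := by
    ext t
    simp only [mem_filter, mem_product]
    tauto
  rw [h1]
  convert Pool.Agent.H548.BL.card_prod_filter ((bx N A).filter fun x => cx x ∧ GX M ZR x) (bx N Y)
    (fun x y => cy y ∧ GX (tr M) ZL y ∧ Inc M x y)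

theorem c2_main (hR : StmtR2) (hE : StmtE) : StmtC2 := by
  classical
  intro k N M ZR ZL hk hN3 hN hside hbox cx n f σ q r hq
  obtain ⟨CE, δ, hCE, hδ, hδ1, hE⟩ := hE k N M hk hN hbox
  obtain ⟨CR, hCR, hgood⟩ := fibw_good (n := n) (q := q) hR hk hN3 hq
  obtain ⟨hs1, CP, hs2⟩ := hside
  set a := N - k with ha
  set bad := fun x : Fin N → ℤ => ∃ z ∈ ZL,
    ¬ LinearIndependent ℤ (Fin.cons z (rv M x) : Fin (k + 1) → Fin N → ℤ) with hbad
  -- the leading coefficients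
  have hc : ∀ x : Fin N → ℤ, ∃ c : ℝ, 0 ≤ c ∧ (GX M ZR x → ¬ bad x → ∀ Y : ℕ,
      |((fibw M ZL (Cell f σ q r) x Y).card : ℝ) - c * (Y : ℝ) ^ a| ≤
      (CR + ZL.card * 2 ^ (a - 1)) * (1 + (Y : ℝ) / lam M x) ^ (a - 1)) := by
    intro x
    by_cases h : GX M ZR x ∧ ¬ bad x
    · obtain ⟨c, hc0, hc⟩ := hgood M ZL f σ r x h.1.1 (hs1 x h.1) (by
        have := h.2
        rw [hbad] at this
        simp only at this
        push Not at this
        exact this)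
      exact ⟨c, hc0, fun _ _ => hc⟩
    · refine ⟨0, le_rfl, fun h1 h2 => absurd ⟨h1, h2⟩ h⟩
  choose c hc0 hc using hc
  refine ⟨fun A => ∑ x ∈ (bx N A).filter fun x => (cx x ∧ GX M ZR x) ∧ ¬ bad x, c x,
    (CR + ZL.card * 2 ^ (a - 1)) * CE + |CP| * (3 ^ N * 3 ^ a), δ, hδ, ?_⟩
  intro A Y hA hY hAY
  have hA' : (1 : ℝ) ≤ A := by exact_mod_cast hA
  have hA0 : (0 : ℝ) < A := by linarith
  have hY' : (1 : ℝ) ≤ Y := by exact_mod_cast hY
  set X := (bx N A).filter fun x => cx x ∧ GX M ZR x with hX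
  have e1 : (bx N A).filter (fun x => (cx x ∧ GX M ZR x) ∧ ¬ bad x) =
      X.filter fun x => ¬ bad x := by
    rw [hX, filter_filter]
  beta_reduce
  rw [e1]
  have e2 : (cntw M ZR ZL cx (Cell f σ q r) A Y : ℝ) = ∑ x ∈ X.filter (fun x => ¬ bad x),
      ((fibw M ZL (Cell f σ q r) x Y).card : ℝ) + ∑ x ∈ X.filter (fun x => ¬ ¬ bad x),
      ((fibw M ZL (Cell f σ q r) x Y).card : ℝ) := by
    rw [cntw_eq, Finset.sum_filter_add_sum_filter_not]
    push_cast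
    rfl
  rw [e2]
  have h1 : |∑ x ∈ X.filter (fun x => ¬ bad x), ((fibw M ZL (Cell f σ q r) x Y).card : ℝ) -
      (∑ x ∈ X.filter (fun x => ¬ bad x), c x) * (Y : ℝ) ^ a| ≤
      (CR + ZL.card * 2 ^ (a - 1)) * (CE * ((A : ℝ) * Y) ^ a * (A : ℝ) ^ (-δ)) := by
    rw [Finset.sum_mul, ← Finset.sum_sub_distrib]
    refine (Finset.abs_sum_le_sum_abs _ _).trans ?_
    have h2 : ∀ x ∈ X.filter (fun x => ¬ bad x),
        |((fibw M ZL (Cell f σ q r) x Y).card : ℝ) - c x * (Y : ℝ) ^ a| ≤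
        (CR + ZL.card * 2 ^ (a - 1)) * (1 + (Y : ℝ) / lam M x) ^ (a - 1) := by
      intro x hx
      rw [mem_filter, hX, mem_filter] at hx
      exact hc x hx.1.2.2 hx.2 Y
    refine (Finset.sum_le_sum h2).trans ?_
    rw [← Finset.mul_sum]
    have h3 := hE A Y hA hY hAY (X.filter (fun x => ¬ bad x)) (by
      intro x hx
      rw [mem_filter, hX, mem_filter, mem_bx] at hx
      exact ⟨hx.1.1, hx.1.2.2.1, hs1 x hx.1.2.2⟩)
    gcongr
  have h2 : |∑ x ∈ X.filter (fun x => ¬ ¬ bad x), ((fibw M ZL (Cell f σ q r) x Y).card : ℝ)| ≤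
      |CP| * (3 ^ N * 3 ^ a) * (((A : ℝ) * Y) ^ a * (A : ℝ) ^ (-δ)) := by
    rw [abs_of_nonneg (Finset.sum_nonneg fun x _ => Nat.cast_nonneg _)]
    have h3 : ∀ x ∈ X.filter (fun x => ¬ ¬ bad x), ((fibw M ZL (Cell f σ q r) x Y).card : ℝ) ≤
        3 ^ N * (3 * Y) ^ a := by
      intro x hx
      rw [mem_filter, hX, mem_filter] at hx
      have h4 := lat_card hx.1.2.2.1 Y hY
      rw [Fintype.card_fin, ← ha] at h4
      refine le_trans ?_ h4
      have h5 : fibw M ZL (Cell f σ q r) x Y ⊆ (bx N Y).filter (· ∈ lat (rv M x)) := by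
        intro y hy
        unfold fibw at hy
        rw [mem_filter] at hy ⊢
        exact ⟨hy.1, mem_lat.2 (inc_iff_rv.1 hy.2.2.2)⟩
      exact_mod_cast card_le_card h5
    have h6 : ((X.filter (fun x => ¬ ¬ bad x)).card : ℝ) ≤ |CP| * (A : ℝ) ^ (a - 1) := by
      have h7 := hs2 A hA
      have h8 : X.filter (fun x => ¬ ¬ bad x) ⊆ (bx N A).filter fun x => GX M ZR x ∧ ∃ z ∈ ZL,
          ¬ LinearIndependent ℤ (Fin.cons z (rv M x) : Fin (k + 1) → Fin N → ℤ) := by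
        intro x hx
        rw [mem_filter, hX, mem_filter] at hx
        rw [mem_filter]
        exact ⟨hx.1.1, hx.1.2.2, not_not.1 hx.2⟩
      calc ((X.filter (fun x => ¬ ¬ bad x)).card : ℝ) ≤ _ := by
            exact_mod_cast card_le_card h8
        _ ≤ CP * (A : ℝ) ^ (a - 1) := h7
        _ ≤ |CP| * (A : ℝ) ^ (a - 1) := by
            gcongr
            exact le_abs_self _
    have h9 : (A : ℝ) ^ (a - 1) ≤ (A : ℝ) ^ a * (A : ℝ) ^ (-δ) := by
      have e3 : (A : ℝ) ^ a = (A : ℝ) ^ (a - 1) * A := by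
        rw [← pow_succ]
        congr 1
        omega
      rw [e3, mul_assoc]
      apply le_mul_of_one_le_right (by positivity)
      have e4 : (A : ℝ) * (A : ℝ) ^ (-δ) = (A : ℝ) ^ (1 - δ) := by
        rw [sub_eq_add_neg, Real.rpow_add hA0, Real.rpow_one]
      rw [e4]
      exact Real.one_le_rpow hA' (by linarith)
    calc ∑ x ∈ X.filter (fun x => ¬ ¬ bad x), ((fibw M ZL (Cell f σ q r) x Y).card : ℝ) ≤
        ∑ x ∈ X.filter (fun x => ¬ ¬ bad x), 3 ^ N * (3 * (Y : ℝ)) ^ a :=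
          Finset.sum_le_sum h3
      _ = (X.filter (fun x => ¬ ¬ bad x)).card * (3 ^ N * (3 * (Y : ℝ)) ^ a) := by
          rw [Finset.sum_const, nsmul_eq_mul]
      _ ≤ (|CP| * (A : ℝ) ^ (a - 1)) * (3 ^ N * (3 * (Y : ℝ)) ^ a) := by gcongr
      _ ≤ (|CP| * ((A : ℝ) ^ a * (A : ℝ) ^ (-δ))) * (3 ^ N * (3 * (Y : ℝ)) ^ a) := by gcongr
      _ = _ := by
          rw [mul_pow 3 (Y : ℝ), mul_pow (A : ℝ)]
          ring
  calc |∑ x ∈ X.filter (fun x => ¬ bad x), ((fibw M ZL (Cell f σ q r) x Y).card : ℝ) +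
        ∑ x ∈ X.filter (fun x => ¬ ¬ bad x), ((fibw M ZL (Cell f σ q r) x Y).card : ℝ) -
        (∑ x ∈ X.filter (fun x => ¬ bad x), c x) * (Y : ℝ) ^ a|
      = |(∑ x ∈ X.filter (fun x => ¬ bad x), ((fibw M ZL (Cell f σ q r) x Y).card : ℝ) -
        (∑ x ∈ X.filter (fun x => ¬ bad x), c x) * (Y : ℝ) ^ a) +
        ∑ x ∈ X.filter (fun x => ¬ ¬ bad x), ((fibw M ZL (Cell f σ q r) x Y).card : ℝ)| := by
        congr 1
        ring
    _ ≤ _ := abs_add_le _ _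
    _ ≤ (CR + ZL.card * 2 ^ (a - 1)) * (CE * ((A : ℝ) * Y) ^ a * (A : ℝ) ^ (-δ)) +
        |CP| * (3 ^ N * 3 ^ a) * (((A : ℝ) * Y) ^ a * (A : ℝ) ^ (-δ)) := add_le_add h1 h2
    _ = _ := by ring

end Pool.Agent.T6.H81.BA
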