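import Mathlib
import Pool.Agent.T6.H81.BA.Defs

/-! Module E: the sum of the error terms. -/

namespace Pool.Agent.T6.H81.BA

open Finset Module Matrix Filter Topology
open Pool.Agent.H548.WM (ht bx mem_bx Rep le_ht' exists_ht card_bx_le)
open Pool.Agent.H548.BL (rv cv Inc Smooth FinZeros tr lat PP rc inc_iff_rv)

/-- A short vector in the fibre (Siegel's lemma). -/
theorem siegel {k N : ℕ} (M : Fin k → Matrix (Fin N) (Fin N) ℤ) (hk : 1 ≤ k) (hkN : k < N) :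
    ∃ D : ℝ, 1 ≤ D ∧ ∀ (A : ℕ) (x : Fin N → ℤ), 1 ≤ A → ht x ≤ A →
      ∃ y : Fin N → ℤ, y ≠ 0 ∧ Inc M x y ∧ (ht y : ℝ) ≤ (D * A) ^ ((k : ℝ) / ((N - k : ℕ) : ℝ)) := by
  classical
  set D1 : ℝ := ∑ i, ∑ j, ∑ p, |((M i p j : ℤ) : ℝ)| with hD1
  have hD1n : 0 ≤ D1 := by
    rw [hD1]
    exact Finset.sum_nonneg fun i _ => Finset.sum_nonneg fun j _ => Finset.sum_nonneg fun p _ =>
      abs_nonneg _
  have hN1 : (1 : ℝ) ≤ N := by exact_mod_cast (by omega : 1 ≤ N)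
  refine ⟨N * (D1 + 1), by nlinarith, fun A x hA hx => ?_⟩
  have hA1 : (1 : ℝ) ≤ A := by exact_mod_cast hA
  set W : Matrix (Fin k) (Fin N) ℤ := Matrix.of (rv M x) with hW
  letI : NormedAddCommGroup (Matrix (Fin k) (Fin N) ℤ) := Matrix.normedAddCommGroup
  obtain ⟨y, hy0, hy1, hy2⟩ := Int.Matrix.exists_ne_zero_int_vec_norm_le W
    (by simpa using hkN) (by rw [Fintype.card_fin]; omega)
  refine ⟨y, hy0, ?_, ?_⟩
  · rw [inc_iff_rv]
    intro i
    exact congrFun hy1 i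
  · obtain ⟨i0, hi0⟩ := exists_ht (by omega : 0 < N) y
    have h1 : (ht y : ℝ) ≤ ‖y‖ := by
      have h2 : (ht y : ℝ) = ‖y i0‖ := by
        rw [Int.norm_eq_abs, ← Int.cast_abs, hi0]
        simp
      rw [h2]
      exact norm_le_pi_norm y i0
    have hWn : ‖W‖ ≤ A * D1 := by
      rw [Matrix.norm_le_iff (by positivity)]
      intro i j
      rw [Int.norm_eq_abs]
      have h3 : ((W i j : ℤ) : ℝ) = ∑ p, (x p : ℝ) * (M i p j : ℝ) := by
        rw [hW]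
        simp only [Matrix.of_apply, rv, Matrix.vecMul, dotProduct, Matrix.map_apply]
        push_cast
        rfl
      rw [h3]
      calc |∑ p, (x p : ℝ) * (M i p j : ℝ)| ≤ ∑ p, |(x p : ℝ) * (M i p j : ℝ)| :=
            Finset.abs_sum_le_sum_abs _ _
        _ ≤ ∑ p, (A : ℝ) * |(M i p j : ℝ)| := by
            refine Finset.sum_le_sum fun p _ => ?_
            rw [abs_mul]
            refine mul_le_mul_of_nonneg_right ?_ (abs_nonneg _)
            have h4 := le_ht' x p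
            have h5 : |(x p : ℝ)| ≤ (ht x : ℝ) := by
              rw [← Int.cast_abs]
              exact_mod_cast h4
            exact h5.trans (by exact_mod_cast hx)
        _ = A * ∑ p, |(M i p j : ℝ)| := by rw [Finset.mul_sum]
        _ ≤ A * D1 := by
            refine mul_le_mul_of_nonneg_left ?_ (by positivity)
            have h6 : ∑ p, |(M i p j : ℝ)| ≤ ∑ j, ∑ p, |(M i p j : ℝ)| :=
              Finset.single_le_sum (f := fun j => ∑ p, |(M i p j : ℝ)|)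
                (fun j _ => Finset.sum_nonneg fun p _ => abs_nonneg _) (Finset.mem_univ j)
            have h7 : ∑ j, ∑ p, |(M i p j : ℝ)| ≤ D1 :=
              Finset.single_le_sum (f := fun i => ∑ j, ∑ p, |(M i p j : ℝ)|)
                (fun i _ => Finset.sum_nonneg fun j _ => Finset.sum_nonneg fun p _ =>
                  abs_nonneg _) (Finset.mem_univ i)
            exact h6.trans h7
    have hmax : max 1 ‖W‖ ≤ A * (D1 + 1) := by
      rw [max_le_iff]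
      constructor
      · nlinarith
      · nlinarith
    have he : ((N - k : ℕ) : ℝ) = (N : ℝ) - k := by
      rw [Nat.cast_sub hkN.le]
    have hpos : (0 : ℝ) ≤ (k : ℝ) / ((N : ℝ) - k) := by
      apply div_nonneg (by positivity)
      have : (k : ℝ) < N := by exact_mod_cast hkN
      linarith
    have hy3 : ‖y‖ ≤ ((N : ℝ) * max 1 ‖W‖) ^ ((k : ℝ) / ((N : ℝ) - k)) := by
      simpa using hy2
    rw [he]
    refine h1.trans (hy3.trans ?_)
    apply Real.rpow_le_rpow (by positivity) _ hpos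
    calc (N : ℝ) * max 1 ‖W‖ ≤ N * (A * (D1 + 1)) := by gcongr
      _ = N * (D1 + 1) * A := by ring

theorem lam_spec {k N : ℕ} (M : Fin k → Matrix (Fin N) (Fin N) ℤ) {x y0 : Fin N → ℤ}
    (h0 : y0 ≠ 0) (h1 : Inc M x y0) :
    (∃ y : Fin N → ℤ, y ≠ 0 ∧ Inc M x y ∧ ht y = lam M x) ∧ lam M x ≤ ht y0 ∧ 1 ≤ lam M x := by
  have hne : {n | ∃ y : Fin N → ℤ, y ≠ 0 ∧ Inc M x y ∧ ht y = n}.Nonempty := ⟨ht y0, y0, h0, h1, rfl⟩
  have h2 : ∃ y : Fin N → ℤ, y ≠ 0 ∧ Inc M x y ∧ ht y = lam M x := Nat.sInf_mem hne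
  refine ⟨h2, Nat.sInf_le ⟨y0, h0, h1, rfl⟩, ?_⟩
  obtain ⟨y, hy0, -, hy2⟩ := h2
  rw [← hy2]
  exact Pool.Agent.H548.WM.ht_pos hy0

open Classical in
theorem count_le {k N : ℕ} (M : Fin k → Matrix (Fin N) (Fin N) ℤ) (hk : 1 ≤ k) (hkN : k < N)
    (A n : ℕ) (hA : 1 ≤ A) (X : Finset (Fin N → ℤ))
    (hX : ∀ x ∈ X, ht x ≤ A ∧ LinearIndependent ℤ (rv M x) ∧
      ∀ y : Fin N → ℤ, y ≠ 0 → Inc M x y → LinearIndependent ℤ (cv M y)) :
    (X.filter fun x => lam M x ≤ n).card ≤ (PP M A n).card := by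
  obtain ⟨D, hD, hS⟩ := siegel M hk hkN
  have hex : ∀ x : Fin N → ℤ, ∃ y : Fin N → ℤ, x ∈ X → y ≠ 0 ∧ Inc M x y ∧ ht y = lam M x := by
    intro x
    by_cases hx : x ∈ X
    · obtain ⟨y0, h0, h1, -⟩ := hS A x hA (hX x hx).1
      obtain ⟨y, hy⟩ := (lam_spec M h0 h1).1
      exact ⟨y, fun _ => hy⟩
    · exact ⟨0, fun h => absurd h hx⟩
  choose f hf using hex
  apply Finset.card_le_card_of_injOn (fun x => (x, f x))
  · intro x hx
    rw [mem_coe, mem_filter] at hx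
    obtain ⟨h1, h2, h3⟩ := hf x hx.1
    obtain ⟨h4, h5, h6⟩ := hX x hx.1
    rw [mem_coe]
    unfold PP
    rw [mem_filter, mem_product, mem_filter, mem_bx, mem_bx]
    exact ⟨⟨⟨h4, h5⟩, by rw [h3]; exact hx.2⟩, h2, h6 _ h1 h2⟩
  · intro x _ x' _ h
    exact (Prod.ext_iff.1 h).1

theorem real_bound (k a : ℕ) (hk : 1 ≤ k) (hka : k + 1 ≤ a) (A D Λ ε : ℝ) (hA : 1 ≤ A) (hD : 1 ≤ D)
    (hΛ : Λ = (D * A) ^ ((k : ℝ) / (a : ℝ))) (hε : ε = 1 / (4 * ((k : ℝ) + 1))) :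
    Λ * (2 * A * Λ) ^ ε ≤ 2 * D ^ 2 * (A ^ (1 : ℝ) * A ^ (-ε)) := by
  have hk0 : (0 : ℝ) < (k : ℝ) + 1 := by positivity
  have hA0 : 0 < A := by linarith
  have hD0 : 0 < D := by linarith
  have ha0 : (0 : ℝ) < a := by
    have : (1 : ℝ) ≤ a := by exact_mod_cast (by omega : 1 ≤ a)
    linarith
  have hε0 : 0 < ε := by rw [hε]; positivity
  have hε1 : ε ≤ 1 := by
    rw [hε, div_le_one (by positivity)]
    linarith
  have hq1 : (k : ℝ) / a ≤ (k : ℝ) / (k + 1) := by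
    apply div_le_div_of_nonneg_left (by positivity) hk0
    exact_mod_cast hka
  have hq2 : (k : ℝ) / (k + 1) ≤ 1 := by
    rw [div_le_one hk0]
    linarith
  have hq0 : 0 ≤ (k : ℝ) / a := by positivity
  have hL0 : 0 < Λ := by rw [hΛ]; positivity
  have hL1 : Λ ≤ D * A ^ ((k : ℝ) / (k + 1)) := by
    rw [hΛ, Real.mul_rpow hD0.le hA0.le]
    apply mul_le_mul _ _ (by positivity) hD0.le
    · calc D ^ ((k : ℝ) / a) ≤ D ^ (1 : ℝ) :=
          Real.rpow_le_rpow_of_exponent_le hD (hq1.trans hq2)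
        _ = D := Real.rpow_one _
    · exact Real.rpow_le_rpow_of_exponent_le hA hq1
  have hL2 : Λ ≤ D * A := by
    refine hL1.trans ?_
    gcongr
    calc A ^ ((k : ℝ) / (k + 1)) ≤ A ^ (1 : ℝ) := Real.rpow_le_rpow_of_exponent_le hA hq2
      _ = A := Real.rpow_one _
  have h3 : (2 * A * Λ) ^ ε ≤ 2 * D * A ^ (2 * ε) := by
    calc (2 * A * Λ) ^ ε ≤ ((2 * D) * (A * A)) ^ ε := by
          apply Real.rpow_le_rpow (by positivity) _ hε0.le
          nlinarith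
      _ = (2 * D) ^ ε * (A * A) ^ ε := Real.mul_rpow (by positivity) (by positivity)
      _ ≤ (2 * D) ^ (1 : ℝ) * (A * A) ^ ε := by
          gcongr
          · linarith
      _ = 2 * D * A ^ (2 * ε) := by
          rw [Real.rpow_one, two_mul ε, Real.rpow_add hA0, Real.mul_rpow hA0.le hA0.le]
  calc Λ * (2 * A * Λ) ^ ε ≤ (D * A ^ ((k : ℝ) / (k + 1))) * (2 * D * A ^ (2 * ε)) := by
        apply mul_le_mul hL1 h3 (by positivity) (by positivity)
    _ = 2 * D ^ 2 * A ^ ((k : ℝ) / (k + 1) + 2 * ε) := by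
        rw [Real.rpow_add hA0]
        ring
    _ ≤ 2 * D ^ 2 * A ^ (1 + -ε) := by
        apply mul_le_mul_of_nonneg_left _ (by positivity)
        apply Real.rpow_le_rpow_of_exponent_le hA
        rw [hε]
        have h5 : (k : ℝ) / (k + 1) = 1 - 1 / (k + 1) := by
          field_simp
          ring
        have h6 : 1 / (4 * ((k : ℝ) + 1)) = (1 / (k + 1)) / 4 := by
          field_simp
        have h7 : 0 < 1 / ((k : ℝ) + 1) := by positivity
        rw [h5, h6]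
        linarith
    _ = 2 * D ^ 2 * (A ^ (1 : ℝ) * A ^ (-ε)) := by
        rw [Real.rpow_add hA0]

theorem e : StmtE := by
  classical
  intro k N M hk hN hPP
  set a : ℕ := N - k with ha
  have hka : k + 1 ≤ a := by omega
  have hkN : k < N := by omega
  set ε : ℝ := 1 / (4 * ((k : ℝ) + 1)) with hε
  have hε0 : 0 < ε := by rw [hε]; positivity
  have hε1 : ε ≤ 1 := by
    rw [hε, div_le_one (by positivity)]
    have : (0 : ℝ) ≤ k := by positivity
    linarith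
  obtain ⟨K, hK0, hK⟩ := hPP ε hε0
  obtain ⟨D, hD, hS⟩ := siegel M hk hkN
  refine ⟨2 ^ (a - 1) * (3 ^ N * 2 ^ a + K * 2 ^ (a + 1) * (2 * D ^ 2) * 2), ε, by positivity, hε0,
    hε1, ?_⟩
  intro A Y hA hY hAY X hX
  have hA1 : (1 : ℝ) ≤ A := by exact_mod_cast hA
  have hY1 : (1 : ℝ) ≤ Y := by exact_mod_cast hY
  have hAY' : (A : ℝ) ≤ 2 * Y := by exact_mod_cast hAY
  have hA0 : (0 : ℝ) < A := by linarith
  have hY0 : (0 : ℝ) < Y := by linarith
  set Λ : ℝ := (D * A) ^ ((k : ℝ) / (a : ℝ)) with hΛ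
  have hDA : 1 ≤ D * A := by nlinarith
  have hΛ1 : 1 ≤ Λ := by
    rw [hΛ]
    exact Real.one_le_rpow hDA (by positivity)
  have hlam : ∀ x ∈ X, 1 ≤ lam M x ∧ (lam M x : ℝ) ≤ Λ := by
    intro x hx
    obtain ⟨y0, h0, h1, h2⟩ := hS A x hA (hX x hx).1
    obtain ⟨-, h3, h4⟩ := lam_spec M h0 h1
    exact ⟨h4, le_trans (by exact_mod_cast h3) h2⟩
  -- the powers of `A` and `Y`
  have hAm : (A : ℝ) ^ (-(1 : ℝ)) ≤ (A : ℝ) ^ (-ε) :=
    Real.rpow_le_rpow_of_exponent_le hA1 (by linarith)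
  have hAm0 : (0 : ℝ) < (A : ℝ) ^ (-ε) := by positivity
  -- the number of elements
  have hcard : (X.card : ℝ) ≤ 3 ^ N * 2 ^ a * (((A : ℝ) * Y) ^ a * (A : ℝ) ^ (-ε)) := by
    have h1 : X.card ≤ (bx N A).card := by
      apply Finset.card_le_card
      intro x hx
      rw [mem_bx]
      exact (hX x hx).1
    have h2 : (X.card : ℝ) ≤ (3 * (A : ℝ)) ^ N :=
      le_trans (by exact_mod_cast h1) (card_bx_le N hA)
    have h3 : (A : ℝ) ^ k ≤ 2 ^ a * (Y : ℝ) ^ a * (A : ℝ) ^ (-ε) := by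
      calc (A : ℝ) ^ k ≤ (A : ℝ) ^ (a - 1) := pow_le_pow_right₀ hA1 (by omega)
        _ = (A : ℝ) ^ a * (A : ℝ) ^ (-(1 : ℝ)) := by
            rw [Real.rpow_neg_one]
            field_simp
            rw [← pow_succ]
            congr 1
            omega
        _ ≤ (2 * (Y : ℝ)) ^ a * (A : ℝ) ^ (-ε) := by gcongr
        _ = 2 ^ a * (Y : ℝ) ^ a * (A : ℝ) ^ (-ε) := by rw [mul_pow]
    have hNa : N = a + k := by omega
    calc (X.card : ℝ) ≤ (3 * (A : ℝ)) ^ N := h2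
      _ = 3 ^ N * ((A : ℝ) ^ a * (A : ℝ) ^ k) := by
          rw [mul_pow]
          congr 1
          rw [← pow_add, ← hNa]
      _ ≤ 3 ^ N * ((A : ℝ) ^ a * (2 ^ a * (Y : ℝ) ^ a * (A : ℝ) ^ (-ε))) := by gcongr
      _ = 3 ^ N * 2 ^ a * (((A : ℝ) * Y) ^ a * (A : ℝ) ^ (-ε)) := by
          rw [mul_pow]
          ring
  -- the dyadic decomposition
  set J : ℕ := Nat.log 2 ⌊Λ⌋₊ with hJ
  have hfl : 1 ≤ ⌊Λ⌋₊ := by
    rw [Nat.one_le_floor_iff]
    exact hΛ1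
  have hJ2 : ((2 : ℝ) ^ J) ≤ Λ := by
    have h1 : 2 ^ J ≤ ⌊Λ⌋₊ := Nat.pow_log_le_self 2 (by omega)
    have h2 : ((2 : ℝ) ^ J) ≤ (⌊Λ⌋₊ : ℝ) := by exact_mod_cast h1
    exact h2.trans (Nat.floor_le (by linarith))
  have hlog : ∀ x ∈ X, Nat.log 2 (lam M x) ∈ Finset.range (J + 1) := by
    intro x hx
    rw [Finset.mem_range]
    have h1 : lam M x ≤ ⌊Λ⌋₊ := Nat.le_floor (hlam x hx).2
    have h2 := Nat.log_mono_right (b := 2) h1
    omega
  have hsum : ∑ x ∈ X, ((Y : ℝ) / lam M x) ^ (a - 1) ≤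
      K * 2 ^ (a + 1) * (2 * D ^ 2) * 2 * (((A : ℝ) * Y) ^ a * (A : ℝ) ^ (-ε)) := by
    rw [← Finset.sum_fiberwise_of_maps_to hlog]
    have hfib : ∀ j ∈ Finset.range (J + 1),
        ∑ x ∈ X.filter (fun x => Nat.log 2 (lam M x) = j), ((Y : ℝ) / lam M x) ^ (a - 1) ≤
          K * 2 ^ a * (Y : ℝ) ^ (a - 1) * (A : ℝ) ^ a * (2 * A * Λ) ^ ε * 2 ^ j := by
      intro j hj
      rw [Finset.mem_range] at hj
      have h2j : (0 : ℝ) < 2 ^ j := by positivity
      have h2jL : (2 : ℝ) ^ j ≤ Λ :=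
        (pow_le_pow_right₀ (by norm_num) (by omega)).trans hJ2
      have h1 : ∀ x ∈ X.filter (fun x => Nat.log 2 (lam M x) = j),
          ((Y : ℝ) / lam M x) ^ (a - 1) ≤ ((Y : ℝ) / 2 ^ j) ^ (a - 1) := by
        intro x hx
        rw [mem_filter] at hx
        have h2 : 2 ^ j ≤ lam M x := by
          rw [← hx.2]
          exact Nat.pow_log_le_self 2 (by have := (hlam x hx.1).1; omega)
        have h3 : (2 : ℝ) ^ j ≤ (lam M x : ℝ) := by exact_mod_cast h2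
        gcongr
      have h4 : (X.filter (fun x => Nat.log 2 (lam M x) = j)).card ≤
          (PP M A (2 ^ (j + 1))).card := by
        refine le_trans (Finset.card_le_card ?_) (count_le M hk hkN A (2 ^ (j + 1)) hA X hX)
        intro x hx
        rw [mem_filter] at hx ⊢
        refine ⟨hx.1, ?_⟩
        rw [← hx.2]
        exact (Nat.lt_pow_succ_log_self (by norm_num) _).le
      have h5 := hK A (2 ^ (j + 1)) hA Nat.one_le_two_pow
      push_cast at h5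
      have h6 : ((X.filter (fun x => Nat.log 2 (lam M x) = j)).card : ℝ) ≤
          K * ((A : ℝ) * 2 ^ (j + 1)) ^ a * ((A : ℝ) * 2 ^ (j + 1)) ^ ε :=
        le_trans (by exact_mod_cast h4) h5
      have h7 : ((A : ℝ) * 2 ^ (j + 1)) ^ ε ≤ (2 * A * Λ) ^ ε := by
        apply Real.rpow_le_rpow (by positivity) _ hε0.le
        rw [pow_succ]
        nlinarith
      calc ∑ x ∈ X.filter (fun x => Nat.log 2 (lam M x) = j), ((Y : ℝ) / lam M x) ^ (a - 1)
          ≤ ∑ x ∈ X.filter (fun x => Nat.log 2 (lam M x) = j), ((Y : ℝ) / 2 ^ j) ^ (a - 1) :=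
            Finset.sum_le_sum h1
        _ = ((X.filter (fun x => Nat.log 2 (lam M x) = j)).card : ℝ) *
            ((Y : ℝ) / 2 ^ j) ^ (a - 1) := by rw [Finset.sum_const, nsmul_eq_mul]
        _ ≤ (K * ((A : ℝ) * 2 ^ (j + 1)) ^ a * (2 * A * Λ) ^ ε) *
            ((Y : ℝ) / 2 ^ j) ^ (a - 1) := by
            refine mul_le_mul_of_nonneg_right (h6.trans ?_) (by positivity)
            gcongr
        _ = K * 2 ^ a * (Y : ℝ) ^ (a - 1) * (A : ℝ) ^ a * (2 * A * Λ) ^ ε * 2 ^ j := by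
            rw [div_pow, mul_pow, pow_succ, mul_pow]
            have h8 : ((2 : ℝ) ^ j) ^ a = ((2 : ℝ) ^ j) ^ (a - 1) * 2 ^ j := by
              rw [← pow_succ]
              congr 1
              omega
            rw [h8]
            field_simp
    calc ∑ j ∈ Finset.range (J + 1),
          ∑ x ∈ X.filter (fun x => Nat.log 2 (lam M x) = j), ((Y : ℝ) / lam M x) ^ (a - 1)
        ≤ ∑ j ∈ Finset.range (J + 1),
          K * 2 ^ a * (Y : ℝ) ^ (a - 1) * (A : ℝ) ^ a * (2 * A * Λ) ^ ε * 2 ^ j :=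
          Finset.sum_le_sum hfib
      _ = K * 2 ^ a * (Y : ℝ) ^ (a - 1) * (A : ℝ) ^ a * (2 * A * Λ) ^ ε *
          ∑ j ∈ Finset.range (J + 1), (2 : ℝ) ^ j := by rw [Finset.mul_sum]
      _ ≤ K * 2 ^ a * (Y : ℝ) ^ (a - 1) * (A : ℝ) ^ a * (2 * A * Λ) ^ ε * (2 * Λ) := by
          refine mul_le_mul_of_nonneg_left ?_ (by positivity)
          have h9 : ∑ j ∈ Finset.range (J + 1), (2 : ℝ) ^ j = 2 ^ (J + 1) - 1 := by
            rw [geom_sum_eq (by norm_num)]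
            norm_num
          rw [h9, pow_succ]
          linarith
      _ = K * 2 ^ (a + 1) * (Y : ℝ) ^ (a - 1) * (A : ℝ) ^ a * (Λ * (2 * A * Λ) ^ ε) := by
          rw [pow_succ]
          ring
      _ ≤ K * 2 ^ (a + 1) * (Y : ℝ) ^ (a - 1) * (A : ℝ) ^ a *
          (2 * D ^ 2 * ((A : ℝ) ^ (1 : ℝ) * (A : ℝ) ^ (-ε))) := by
          refine mul_le_mul_of_nonneg_left ?_ (by positivity)
          exact real_bound k a hk hka A D Λ ε hA1 hD hΛ hε
      _ = K * 2 ^ (a + 1) * (2 * D ^ 2) * ((Y : ℝ) ^ (a - 1) * A) * (A : ℝ) ^ a *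
          (A : ℝ) ^ (-ε) := by
          rw [Real.rpow_one]
          ring
      _ ≤ K * 2 ^ (a + 1) * (2 * D ^ 2) * (2 * (Y : ℝ) ^ a) * (A : ℝ) ^ a *
          (A : ℝ) ^ (-ε) := by
          have h10 : (Y : ℝ) ^ (a - 1) * A ≤ 2 * (Y : ℝ) ^ a := by
            calc (Y : ℝ) ^ (a - 1) * A ≤ (Y : ℝ) ^ (a - 1) * (2 * Y) := by gcongr
              _ = 2 * ((Y : ℝ) ^ (a - 1) * Y) := by ring
              _ = 2 * (Y : ℝ) ^ a := by
                  rw [← pow_succ]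
                  congr 2
                  omega
          gcongr
      _ = K * 2 ^ (a + 1) * (2 * D ^ 2) * 2 * (((A : ℝ) * Y) ^ a * (A : ℝ) ^ (-ε)) := by
          rw [mul_pow]
          ring
  have hpt : ∀ x ∈ X, (1 + (Y : ℝ) / lam M x) ^ (a - 1) ≤
      2 ^ (a - 1) * (1 + ((Y : ℝ) / lam M x) ^ (a - 1)) := by
    intro x _
    have h1 := add_pow_le (a := (1 : ℝ)) (b := (Y : ℝ) / lam M x) (by norm_num) (by positivity)
      (a - 1)
    rw [one_pow] at h1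
    refine h1.trans ?_
    refine mul_le_mul_of_nonneg_right ?_ (by positivity)
    exact pow_le_pow_right₀ (by norm_num) (by omega)
  calc ∑ x ∈ X, (1 + (Y : ℝ) / lam M x) ^ (a - 1)
      ≤ ∑ x ∈ X, 2 ^ (a - 1) * (1 + ((Y : ℝ) / lam M x) ^ (a - 1)) := Finset.sum_le_sum hpt
    _ = 2 ^ (a - 1) * ((X.card : ℝ) + ∑ x ∈ X, ((Y : ℝ) / lam M x) ^ (a - 1)) := by
        rw [← Finset.mul_sum, Finset.sum_add_distrib, Finset.sum_const, nsmul_eq_mul, mul_one]
    _ ≤ 2 ^ (a - 1) * (3 ^ N * 2 ^ a * (((A : ℝ) * Y) ^ a * (A : ℝ) ^ (-ε)) +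
        K * 2 ^ (a + 1) * (2 * D ^ 2) * 2 * (((A : ℝ) * Y) ^ a * (A : ℝ) ^ (-ε))) := by
        refine mul_le_mul_of_nonneg_left (add_le_add hcard hsum) (by positivity)
    _ = 2 ^ (a - 1) * (3 ^ N * 2 ^ a + K * 2 ^ (a + 1) * (2 * D ^ 2) * 2) *
        ((A : ℝ) * Y) ^ a * (A : ℝ) ^ (-ε) := by ring

end Pool.Agent.T6.H81.BA
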