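import Mathlib
import Pool.Agent.T6.H81.BA.F2
import Pool.Agent.T6.H52.BA.R2

/-! The asymptotic formula for all adelic heights: assembly, second part. -/

namespace Pool.Agent.T6.H81.BA

open Finset Module Matrix Filter Topology
open Pool.Agent.H548.WM (ht bx mem_bx Rep ht_pos)
open Pool.Agent.H548.BL (rv cv Inc Smooth FinZeros tr lat mem_lat PP rc norm_rc inc_iff_rv
  rv_tr cv_tr rep_ne inc_tr tr_tr smooth_tr finZeros_tr box finZeros_two)
open Pool.Agent.H548.BK (InV Pts two low finite_pts)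
open Pool.Agent.H548.TL (evz evz_map evz_int)
open Pool.Agent.T6.H52.BA (ht_neg gd gd_one gd_neg rep_or' rep_neg')

/-! ### Signs -/

theorem half_count {α : Type*} (P : Set α) (hf : P.Finite) (ι : α → α) (hι : ∀ t, ι (ι t) = t)
    (hP : ∀ t ∈ P, ι t ∈ P) (r : α → Prop) (hr : ∀ t ∈ P, r t ∨ r (ι t))
    (hr' : ∀ t ∈ P, r t → r (ι t) → False) : P.ncard = 2 * {t | t ∈ P ∧ r t}.ncard := by
  have hinj : Function.Injective ι := fun x y h => by rw [← hι x, h, hι]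
  have h1 : P = {t | t ∈ P ∧ r t} ∪ ι '' {t | t ∈ P ∧ r t} := by
    ext t
    constructor
    · intro ht
      rcases hr t ht with h | h
      · exact Or.inl ⟨ht, h⟩
      · exact Or.inr ⟨ι t, ⟨hP t ht, h⟩, hι t⟩
    · rintro (h | ⟨s, hs, rfl⟩)
      · exact h.1
      · exact hP s hs.1
  have hf1 : {t | t ∈ P ∧ r t}.Finite := hf.subset fun t h => h.1
  have hd : Disjoint {t | t ∈ P ∧ r t} (ι '' {t | t ∈ P ∧ r t}) := by
    rw [Set.disjoint_left]
    rintro t ⟨h1, h2⟩ ⟨s, ⟨h3, h4⟩, rfl⟩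
    exact hr' s h3 h4 h2
  have h2 := Set.ncard_union_eq hd hf1 (hf1.image ι)
  rw [← h1, Set.ncard_image_of_injective _ hinj] at h2
  omega

theorem quarter_count {N : ℕ} (P : Set ((Fin N → ℤ) × (Fin N → ℤ))) (hf : P.Finite)
    (h1 : ∀ t ∈ P, univ.gcd t.1 = 1 ∧ univ.gcd t.2 = 1) (h2 : ∀ t ∈ P, (-t.1, t.2) ∈ P)
    (h3 : ∀ t ∈ P, (t.1, -t.2) ∈ P) :
    P.ncard = 4 * {t | t ∈ P ∧ Rep t.1 ∧ Rep t.2}.ncard := by
  have e1 := half_count P hf (fun t => (-t.1, t.2)) (fun t => by simp) h2 (fun t => Rep t.1)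
    (fun t ht => rep_or' (gd_one.2 (h1 t ht).1)) (fun t _ h h' => rep_neg' h h')
  have e2 := half_count {t | t ∈ P ∧ Rep t.1} (hf.subset fun t h => h.1)
    (fun t => (t.1, -t.2)) (fun t => by simp) (fun t ht => ⟨h3 t ht.1, ht.2⟩)
    (fun t => Rep t.2) (fun t ht => rep_or' (gd_one.2 (h1 t ht.1).2))
    (fun t _ h h' => rep_neg' h h')
  rw [e1, e2]
  have e3 : {t | t ∈ {t | t ∈ P ∧ Rep t.1} ∧ Rep t.2} = {t | t ∈ P ∧ Rep t.1 ∧ Rep t.2} := by
    ext t
    simp only [Set.mem_ofPred_eq]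
    tauto
  rw [e3]
  ring

theorem rv_neg {R : Type*} [CommRing R] {k N : ℕ} (M : Fin k → Matrix (Fin N) (Fin N) ℤ)
    (x : Fin N → R) : rv M (-x) = -rv M x := by
  funext i
  unfold rv
  rw [neg_vecMul]
  rfl

theorem gx_neg {k N : ℕ} {M : Fin k → Matrix (Fin N) (Fin N) ℤ} {Z : Finset (Fin N → ℤ)}
    {x : Fin N → ℤ} (h : GX M Z x) : GX M Z (-x) := by
  obtain ⟨h1, h2⟩ := h
  refine ⟨?_, fun z hz => ?_⟩
  · rw [rv_neg]
    have h3 := h1.units_smul (fun _ => (-1 : ℤˣ))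
    convert h3 using 1
    funext i
    show -rv M x i = (-1 : ℤˣ) • rv M x i
    rw [Units.smul_def]
    simp
  · rw [neg_dotProduct]
    exact neg_ne_zero.2 (h2 z hz)

theorem inc_neg_left {R : Type*} [CommRing R] {k N : ℕ} {M : Fin k → Matrix (Fin N) (Fin N) ℤ}
    {x y : Fin N → R} (h : Inc M x y) : Inc M (-x) y := by
  intro i
  rw [neg_dotProduct, h i, neg_zero]

theorem inc_neg_right {R : Type*} [CommRing R] {k N : ℕ} {M : Fin k → Matrix (Fin N) (Fin N) ℤ}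
    {x y : Fin N → R} (h : Inc M x y) : Inc M x (-y) := by
  rw [← inc_tr] at h ⊢
  exact inc_neg_left h

theorem gcd_neg {N : ℕ} {v : Fin N → ℤ} (h : univ.gcd v = 1) : univ.gcd (-v) = 1 := by
  rw [← gd_one, gd_neg, gd_one]
  exact h

theorem inc_cast {K : Type} [Field K] {k N : ℕ} {M : Fin k → Matrix (Fin N) (Fin N) ℤ}
    {x y : Fin N → ℤ} (h : Inc M x y) : Inc M (fun i => (x i : K)) (fun i => (y i : K)) := by
  intro i
  have e : (fun i => (x i : K)) ⬝ᵥ cv M (fun i => (y i : K)) i = ((x ⬝ᵥ cv M y i : ℤ) : K) := by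
    unfold dotProduct
    push_cast
    refine Finset.sum_congr rfl fun p _ => ?_
    rw [Pool.Agent.H548.BL.cv_cast]
  rw [e, h i]
  simp

theorem cast_ne {K : Type} [Field K] [CharZero K] {N : ℕ} {x : Fin N → ℤ} (h : x ≠ 0) :
    (fun i => (x i : K)) ≠ 0 := by
  intro h0
  apply h
  funext i
  have := congrFun h0 i
  simpa using this

theorem Phi_neg_left {k N : ℕ} {M : Fin k → Matrix (Fin N) (Fin N) ℤ}
    {ψ : (Fin N → ℝ) → (Fin N → ℝ) → ℝ} {S : Finset Nat.Primes}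
    {φ : ∀ p : Nat.Primes, (Fin N → ℚ_[p]) → (Fin N → ℚ_[p]) → ℝ}
    (hψ : LF M ψ) (hφ : ∀ p ∈ S, LF M (φ p)) {x y : Fin N → ℤ} (hx : x ≠ 0) (hy : y ≠ 0)
    (h : Inc M x y) : Phi ψ S φ (-x) y = Phi ψ S φ x y := by
  unfold Phi
  congr 1
  · have := hψ.2.2 _ _ (cast_ne hx) (cast_ne hy) (inc_cast h) (-1) 1 (by norm_num) (by norm_num)
    rw [← this]
    congr 1
    · funext i
      simp
    · funext i
      simp
  · refine Finset.prod_congr rfl fun p hp => ?_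
    have := (hφ p hp).2.2 _ _ (cast_ne hx) (cast_ne hy) (inc_cast h) (-1) 1 (by norm_num)
      (by norm_num)
    rw [← this]
    congr 1
    · funext i
      simp
    · funext i
      simp

theorem Phi_neg_right {k N : ℕ} {M : Fin k → Matrix (Fin N) (Fin N) ℤ}
    {ψ : (Fin N → ℝ) → (Fin N → ℝ) → ℝ} {S : Finset Nat.Primes}
    {φ : ∀ p : Nat.Primes, (Fin N → ℚ_[p]) → (Fin N → ℚ_[p]) → ℝ}
    (hψ : LF M ψ) (hφ : ∀ p ∈ S, LF M (φ p)) {x y : Fin N → ℤ} (hx : x ≠ 0) (hy : y ≠ 0)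
    (h : Inc M x y) : Phi ψ S φ x (-y) = Phi ψ S φ x y := by
  unfold Phi
  congr 1
  · have := hψ.2.2 _ _ (cast_ne hx) (cast_ne hy) (inc_cast h) 1 (-1) (by norm_num) (by norm_num)
    rw [← this]
    congr 1
    · funext i
      simp
    · funext i
      simp
  · refine Finset.prod_congr rfl fun p hp => ?_
    have := (hφ p hp).2.2 _ _ (cast_ne hx) (cast_ne hy) (inc_cast h) 1 (-1) (by norm_num)
      (by norm_num)
    rw [← this]
    congr 1
    · funext i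
      simp
    · funext i
      simp

/-- The value of a product of polynomials. -/
theorem evz_mul' {R : Type*} [CommRing R] {σ : Type*} (p q : MvPolynomial σ ℤ) (v : σ → R) :
    evz (p * q) v = evz p v * evz q v := by
  unfold evz
  rw [MvPolynomial.eval₂_mul]

/-- The points which are counted. -/
def AA {k N : ℕ} (M : Fin k → Matrix (Fin N) (Fin N) ℤ) (G : MvPolynomial (Fin N ⊕ Fin N) ℤ)
    (ψ : (Fin N → ℝ) → (Fin N → ℝ) → ℝ) (S : Finset Nat.Primes)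
    (φ : ∀ p : Nat.Primes, (Fin N → ℚ_[p]) → (Fin N → ℚ_[p]) → ℝ) (B : ℝ) :
    Set ((Fin N → ℤ) × (Fin N → ℤ)) :=
  {t | Rep t.1 ∧ Rep t.2 ∧ InV M G t.1 t.2 ∧
    (ht t.1 : ℝ) ^ (N - k) * (ht t.2 : ℝ) ^ (N - k) * Phi ψ S φ t.1 t.2 ≤ B}

/-- **The asymptotic formula** for all adelic heights and all open subsets. -/
theorem main2 (hC : StmtC2) (hT : StmtT) (hH : StmtH) (hZ : StmtZ) (hW : StmtW) (hN2 : StmtN2)
    {k N : ℕ} {M : Fin k → Matrix (Fin N) (Fin N) ℤ} {ZR ZL : Finset (Fin N → ℤ)}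
    (hD : Dat M ZR ZL) (ψ : (Fin N → ℝ) → (Fin N → ℝ) → ℝ) (S : Finset Nat.Primes)
    (φ : ∀ p : Nat.Primes, (Fin N → ℚ_[p]) → (Fin N → ℚ_[p]) → ℝ)
    (hψ : LF M ψ) (hφ : ∀ p ∈ S, LF M (φ p)) :
    ∃ c : ℝ, 0 < c ∧ ∀ G1 : MvPolynomial (Fin N ⊕ Fin N) ℤ,
      (∃ x y : Fin N → ℂ, InV M (GP ZR ZL * G1) x y) →
      Tendsto (fun B : ℝ => ((AA M (GP ZR ZL * G1) ψ S φ B).ncard : ℝ) / (B * Real.log B))
        atTop (𝓝 c) := by
  classical
  obtain ⟨c0, hc0⟩ := prim_asym hC hT hH hZ hW hD ψ S φ hψ hφ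
  obtain ⟨⟨m, m', hm, hmm⟩, -⟩ := hZ k N M ψ S φ hψ hφ
  have hk1 := hD.hk
  have hkN := hD.hN
  have ha1 : 1 ≤ N - k := by omega
  set a := N - k with ha
  -- normalised vectors
  have hfin : ∀ B : ℝ, {t | t ∈ QQ M ZR ZL ∧
      ((ht t.1 : ℝ) ^ a * (ht t.2 : ℝ) ^ a) * Phi ψ S φ t.1 t.2 ≤ B}.Finite := by
    intro B
    apply (fin_aux ha1 (QQ M ZR ZL) (fun t h => ⟨ht_pos (gcd_ne h.1), ht_pos (gcd_ne h.2.1)⟩)
      (B / m)).subset
    rintro t ⟨h1, h2⟩
    refine ⟨h1, ?_⟩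
    rw [le_div_iff₀ hm]
    refine le_trans ?_ h2
    have := (hmm t.1 t.2 (gcd_ne h1.1) (gcd_ne h1.2.1) h1.2.2.2.2).1
    gcongr
  have hq : ∀ B : ℝ, ({t | t ∈ QQ M ZR ZL ∧
      ((ht t.1 : ℝ) ^ a * (ht t.2 : ℝ) ^ a) * Phi ψ S φ t.1 t.2 ≤ B}.ncard : ℝ) =
      4 * ((AA M (GP ZR ZL) ψ S φ B).ncard : ℝ) := by
    intro B
    have h1 := quarter_count _ (hfin B) (fun t ht => ⟨ht.1.1, ht.1.2.1⟩) (by
      rintro t ⟨⟨b1, b2, b3, b4, b5⟩, b6⟩
      refine ⟨⟨gcd_neg b1, b2, gx_neg b3, b4, inc_neg_left b5⟩, ?_⟩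
      show ((ht (-t.1) : ℝ) ^ a * (ht t.2 : ℝ) ^ a) * Phi ψ S φ (-t.1) t.2 ≤ B
      rw [ht_neg, Phi_neg_left hψ hφ (gcd_ne b1) (gcd_ne b2) b5]
      exact b6) (by
      rintro t ⟨⟨b1, b2, b3, b4, b5⟩, b6⟩
      refine ⟨⟨b1, gcd_neg b2, b3, gx_neg b4, inc_neg_right b5⟩, ?_⟩
      show ((ht t.1 : ℝ) ^ a * (ht (-t.2) : ℝ) ^ a) * Phi ψ S φ t.1 (-t.2) ≤ B
      rw [ht_neg, Phi_neg_right hψ hφ (gcd_ne b1) (gcd_ne b2) b5]
      exact b6)
    rw [h1]
    push_cast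
    congr 3
    ext t
    unfold AA QQ
    simp only [Set.mem_ofPred_eq, inV_iff]
    constructor
    · rintro ⟨⟨⟨-, -, h1, h2, h3⟩, h4⟩, h5, h6⟩
      exact ⟨h5, h6, ⟨h1, h2, h3⟩, h4⟩
    · rintro ⟨h5, h6, ⟨h1, h2, h3⟩, h4⟩
      exact ⟨⟨⟨h5.1, h6.1, h1, h2, h3⟩, h4⟩, h5, h6⟩
  have hlim0 : Tendsto (fun B : ℝ => ((AA M (GP ZR ZL) ψ S φ B).ncard : ℝ) / (B * Real.log B))
      atTop (𝓝 (c0 / 4)) := by
    have := hc0.div_const 4
    refine this.congr fun B => ?_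
    rw [hq]
    ring
  have hlim : ∀ G1 : MvPolynomial (Fin N ⊕ Fin N) ℤ,
      (∃ x y : Fin N → ℂ, InV M (GP ZR ZL * G1) x y) →
      Tendsto (fun B : ℝ => ((AA M (GP ZR ZL * G1) ψ S φ B).ncard : ℝ) / (B * Real.log B))
        atTop (𝓝 (c0 / 4)) := by
    intro G1 hex
    obtain ⟨C, δ, hδ, hN2'⟩ := hN2 k N M ZR ZL hD.hk hD.hN3 hD.hN hD.s1 hD.s2 hD.b1 hD.b2
      (GP ZR ZL * G1) hex
    obtain ⟨R, hR⟩ : ∃ R : (Fin N → ℤ) × (Fin N → ℤ) → Prop, ∀ t, R t ↔ (Rep t.1 ∧ Rep t.2 ∧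
      GX M ZR t.1 ∧ GX (tr M) ZL t.2 ∧ Inc M t.1 t.2 ∧
        evz (GP ZR ZL * G1) (two t.1 t.2) = 0) := ⟨_, fun t => Iff.rfl⟩
    have hbd : ∀ A Y : ℕ, 1 ≤ A → 1 ≤ Y → (((bx N A ×ˢ bx N Y).filter R).card : ℝ) ≤
        |C| * ((A : ℝ) * Y) ^ a * ((min A Y : ℕ) : ℝ) ^ (-δ) := by
      intro A Y hA hY
      have h1 := hN2' A Y hA hY
      have h2 : ((bx N A ×ˢ bx N Y).filter R) ⊆ (bx N A ×ˢ bx N Y).filter fun t =>
          GX M ZR t.1 ∧ GX (tr M) ZL t.2 ∧ Inc M t.1 t.2 ∧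
            evz (GP ZR ZL * G1) (two t.1 t.2) = 0 := by
        intro t ht
        rw [mem_filter, hR] at ht
        rw [mem_filter]
        exact ⟨ht.1, ht.2.2.2⟩
      calc (((bx N A ×ˢ bx N Y).filter R).card : ℝ) ≤ _ := by
            exact_mod_cast card_le_card h2
        _ ≤ C * ((A : ℝ) * Y) ^ a * ((min A Y : ℕ) : ℝ) ^ (-δ) := h1
        _ ≤ |C| * ((A : ℝ) * Y) ^ a * ((min A Y : ℕ) : ℝ) ^ (-δ) := by
            gcongr
            exact le_abs_self C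
    have hbad := asym_of_box hH ha1 R (by
      intro t hRt
      obtain ⟨h1, h2, -⟩ := (hR t).1 hRt
      exact ⟨ht_pos (rep_ne h1), ht_pos (rep_ne h2)⟩) 0 |C| (by
      intro ε hε
      have h1 : Tendsto (fun n : ℕ => |C| * (n : ℝ) ^ (-δ)) atTop (𝓝 0) := by
        have := ((tendsto_rpow_neg_atTop hδ).comp tendsto_natCast_atTop_atTop).const_mul |C|
        simpa using this
      obtain ⟨A0, hA0⟩ := (h1.eventually (gt_mem_nhds hε)).exists_forall_of_atTop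
      refine ⟨max A0 1, fun A Y hA hY => ?_⟩
      have hA1 : 1 ≤ A := (le_max_right _ _).trans hA
      have hY1 : 1 ≤ Y := (le_max_right _ _).trans hY
      have h2 := hbd A Y hA1 hY1
      have h3 := hA0 (min A Y) (le_min ((le_max_left _ _).trans hA) ((le_max_left _ _).trans hY))
      rw [zero_mul, sub_zero, abs_of_nonneg (by positivity)]
      calc _ ≤ |C| * ((A : ℝ) * Y) ^ a * ((min A Y : ℕ) : ℝ) ^ (-δ) := h2
        _ = (|C| * ((min A Y : ℕ) : ℝ) ^ (-δ)) * ((A : ℝ) * Y) ^ a := by ring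
        _ ≤ ε * ((A : ℝ) * Y) ^ a := by gcongr) (by
      intro A Y hA hY
      refine (hbd A Y hA hY).trans ?_
      apply mul_le_of_le_one_right (by positivity)
      apply Real.rpow_le_one_of_one_le_of_nonpos
      · have : 1 ≤ min A Y := le_min hA hY
        exact_mod_cast this
      · linarith)
    -- the difference
    have hbad' : Tendsto (fun B : ℝ => ({t | R t ∧ (ht t.1 : ℝ) ^ a * (ht t.2 : ℝ) ^ a ≤
        B / m}.ncard : ℝ) / (B * Real.log B)) atTop (𝓝 0) := by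
      have h1 : Tendsto (fun B : ℝ => B / m) atTop atTop :=
        Filter.Tendsto.atTop_div_const hm tendsto_id
      have h2 := hbad.comp h1
      have h3 : Tendsto (fun B : ℝ => (B / m * Real.log (B / m)) / (B * Real.log B)) atTop
          (𝓝 (1 / m)) := by
        have h4 : Tendsto (fun B : ℝ => (1 - Real.log m / Real.log B) / m) atTop
            (𝓝 ((1 - 0) / m)) :=
          ((tendsto_const_nhds.sub (tendsto_const_nhds.div_atTop Real.tendsto_log_atTop))).div_const m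
        rw [sub_zero] at h4
        refine h4.congr' ?_
        filter_upwards [eventually_gt_atTop 1] with B hB
        have hB0 : 0 < B := by linarith
        have hlB : 0 < Real.log B := Real.log_pos hB
        rw [Real.log_div hB0.ne' hm.ne']
        field_simp
      have h5 := h2.mul h3
      rw [zero_mul] at h5
      refine h5.congr' ?_
      filter_upwards [eventually_gt_atTop (max 1 m)] with B hB
      have hB1 : 1 < B := (le_max_left _ _).trans_lt hB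
      have hBm : m < B := (le_max_right _ _).trans_lt hB
      have hlB : 0 < Real.log B := Real.log_pos hB1
      have hlm : 0 < Real.log (B / m) := Real.log_pos (by rwa [lt_div_iff₀ hm, one_mul])
      have hBm0 : 0 < B / m := by positivity
      show _ / (B / m * Real.log (B / m)) * _ = _
      rw [div_mul_div_comm, mul_comm (B / m * Real.log (B / m)) (B * Real.log B),
        mul_div_mul_right _ _ (by positivity)]
    -- squeeze
    have hup : ∀ B : ℝ, ((AA M (GP ZR ZL * G1) ψ S φ B).ncard : ℝ) ≤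
        ((AA M (GP ZR ZL) ψ S φ B).ncard : ℝ) := by
      intro B
      have hf : (AA M (GP ZR ZL) ψ S φ B).Finite := by
        apply (hfin B).subset
        rintro t ⟨h1, h2, h3, h4⟩
        have h5 := inV_iff.1 h3
        exact ⟨⟨h1.1, h2.1, h5.1, h5.2.1, h5.2.2⟩, h4⟩
      have hsub : AA M (GP ZR ZL * G1) ψ S φ B ⊆ AA M (GP ZR ZL) ψ S φ B := by
        rintro t ⟨h1, h2, ⟨h3, h4, h5, h6⟩, h7⟩
        rw [evz_mul'] at h6
        exact ⟨h1, h2, ⟨h3, h4, h5, left_ne_zero_of_mul h6⟩, h7⟩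
      exact_mod_cast Set.ncard_le_ncard hsub hf
    have hlo : ∀ B : ℝ, ((AA M (GP ZR ZL) ψ S φ B).ncard : ℝ) ≤
        ((AA M (GP ZR ZL * G1) ψ S φ B).ncard : ℝ) +
        ({t | R t ∧ (ht t.1 : ℝ) ^ a * (ht t.2 : ℝ) ^ a ≤ B / m}.ncard : ℝ) := by
      intro B
      have hf2 : {t | R t ∧ (ht t.1 : ℝ) ^ a * (ht t.2 : ℝ) ^ a ≤ B / m}.Finite := by
        apply (fin_aux ha1 {t | R t} (fun t h => ⟨ht_pos (rep_ne ((hR t).1 h).1),
          ht_pos (rep_ne ((hR t).1 h).2.1)⟩) (B / m)).subset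
        exact fun t h => h
      have hf1 : (AA M (GP ZR ZL * G1) ψ S φ B).Finite := by
        apply (hfin B).subset
        rintro t ⟨h1, h2, ⟨h3, h4, h5, h6⟩, h7⟩
        rw [evz_mul'] at h6
        have h8 : InV M (GP ZR ZL) t.1 t.2 := ⟨h3, h4, h5, left_ne_zero_of_mul h6⟩
        have h9 := inV_iff.1 h8
        exact ⟨⟨h1.1, h2.1, h9.1, h9.2.1, h9.2.2⟩, h7⟩
      have hsub : AA M (GP ZR ZL) ψ S φ B ⊆ AA M (GP ZR ZL * G1) ψ S φ B ∪
          {t | R t ∧ (ht t.1 : ℝ) ^ a * (ht t.2 : ℝ) ^ a ≤ B / m} := by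
        rintro t ⟨h1, h2, h3, h4⟩
        by_cases hz : evz (GP ZR ZL * G1) (two t.1 t.2) = 0
        · right
          have h5 := inV_iff.1 h3
          refine ⟨(hR t).2 ⟨h1, h2, h5.1, h5.2.1, h5.2.2, hz⟩, ?_⟩
          rw [le_div_iff₀ hm]
          refine le_trans ?_ h4
          have := (hmm t.1 t.2 (rep_ne h1) (rep_ne h2) h3.1).1
          gcongr
        · left
          exact ⟨h1, h2, ⟨h3.1, h3.2.1, h3.2.2.1, hz⟩, h4⟩
      have h6 := (Set.ncard_le_ncard hsub (hf1.union hf2)).trans (Set.ncard_union_le _ _)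
      exact_mod_cast h6
    have hlow' : Tendsto (fun B : ℝ => ((AA M (GP ZR ZL) ψ S φ B).ncard : ℝ) /
        (B * Real.log B) - ({t | R t ∧ (ht t.1 : ℝ) ^ a * (ht t.2 : ℝ) ^ a ≤
        B / m}.ncard : ℝ) / (B * Real.log B)) atTop (𝓝 (c0 / 4)) := by
      have := hlim0.sub hbad'
      rwa [sub_zero] at this
    refine tendsto_of_tendsto_of_tendsto_of_le_of_le' hlow' hlim0 ?_ ?_
    · filter_upwards [eventually_gt_atTop 1] with B hB
      have hlB : 0 < Real.log B := Real.log_pos hB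
      have hB0 : 0 < B * Real.log B := by positivity
      rw [← sub_div]
      gcongr
      have := hlo B
      linarith
    · filter_upwards [eventually_gt_atTop 1] with B hB
      have hlB : 0 < Real.log B := Real.log_pos hB
      have hB0 : 0 < B * Real.log B := by positivity
      exact div_le_div_of_nonneg_right (hup B) hB0.le
  -- positivity
  refine ⟨c0 / 4, ?_, hlim⟩
  obtain ⟨x0, y0, hi0, hx0, hy0⟩ := hD.ex
  have hcx := inV_complex (inV_iff.2 ⟨hx0, hy0, hi0⟩ : InV M (GP ZR ZL) x0 y0)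
  obtain ⟨c, B₀, hc, hlow⟩ := low hD.hk (by omega) hcx
  have hx0' : x0 ≠ 0 := by
    rintro rfl
    have h1 := hx0.1.ne_zero (⟨0, hk1⟩ : Fin k)
    apply h1
    unfold rv
    rw [zero_vecMul]
  have hm' : 0 < m' := by
    have hy0' : y0 ≠ 0 := by
      rintro rfl
      have h1 := hy0.1.ne_zero (⟨0, hk1⟩ : Fin k)
      apply h1
      unfold rv
      rw [zero_vecMul]
    have := hmm x0 y0 hx0' hy0' hi0
    linarith [this.1, this.2]
  have hpos : 0 < c / (2 * m') := by positivity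
  refine lt_of_lt_of_le hpos (ge_of_tendsto hlim0 ?_)
  have hlog : ∀ᶠ B : ℝ in atTop, Real.log B / 2 ≤ Real.log (B / m') := by
    have h1 : Tendsto (fun B : ℝ => Real.log B) atTop atTop := Real.tendsto_log_atTop
    filter_upwards [h1.eventually_ge_atTop (2 * Real.log m'), eventually_gt_atTop 0] with B hB hB0
    rw [Real.log_div hB0.ne' hm'.ne']
    linarith
  filter_upwards [eventually_ge_atTop (B₀ * m'), eventually_gt_atTop 1, hlog] with B hB1 hB2 hB3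
  have hlB : 0 < Real.log B := Real.log_pos hB2
  have hB0 : 0 < B := by linarith
  rw [le_div_iff₀ (by positivity)]
  have h1 := hlow (B / m') (by rwa [le_div_iff₀ hm'])
  have hsub : Pts M (GP ZR ZL) (B / m') ⊆ AA M (GP ZR ZL) ψ S φ B := by
    rintro t ⟨h1, h2, h3, h4⟩
    refine ⟨h1, h2, h3, ?_⟩
    rw [le_div_iff₀ hm'] at h4
    refine le_trans ?_ h4
    have := (hmm t.1 t.2 (rep_ne h1) (rep_ne h2) h3.1).2
    gcongr
  have hf : (AA M (GP ZR ZL) ψ S φ B).Finite := by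
    apply (hfin B).subset
    rintro t ⟨h1, h2, h3, h4⟩
    have h5 := inV_iff.1 h3
    exact ⟨⟨h1.1, h2.1, h5.1, h5.2.1, h5.2.2⟩, h4⟩
  have h2 : ((Pts M (GP ZR ZL) (B / m')).ncard : ℝ) ≤ ((AA M (GP ZR ZL) ψ S φ B).ncard : ℝ) := by
    exact_mod_cast Set.ncard_le_ncard hsub hf
  calc c / (2 * m') * (B * Real.log B) = c * (B / m') * (Real.log B / 2) := by
        field_simp
    _ ≤ c * (B / m') * Real.log (B / m') := by gcongr
    _ ≤ _ := h1
    _ ≤ _ := h2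

end Pool.Agent.T6.H81.BA
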