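import Mathlib
import Pool.Agent.T6.H81.BA.Defs

namespace Pool.Agent.T6.H81.BA

open Finset Filter Topology

namespace HH

/-- The sum over a box with real side lengths. -/
noncomputable def G (p : ℕ → ℕ → ℝ) (x y : ℝ) : ℝ :=
  ∑ i ∈ Ioc 0 ⌊x⌋₊, ∑ j ∈ Ioc 0 ⌊y⌋₊, p i j

lemma Icc_one (n : ℕ) : Icc 1 n = Ioc 0 n := by
  ext x; simp only [mem_Icc, mem_Ioc]; omega

lemma G_nonneg (p : ℕ → ℕ → ℝ) (hp : ∀ i j, 0 ≤ p i j) (x y : ℝ) : 0 ≤ G p x y :=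
  sum_nonneg fun i _ => sum_nonneg fun j _ => hp i j

lemma G_mono (p : ℕ → ℕ → ℝ) (hp : ∀ i j, 0 ≤ p i j) (x x' y : ℝ) (h : x ≤ x') :
    G p x y ≤ G p x' y := by
  unfold G
  apply sum_le_sum_of_subset_of_nonneg
  · intro i hi
    rw [mem_Ioc] at hi ⊢
    exact ⟨hi.1, hi.2.trans (Nat.floor_mono h)⟩
  · intro i _ _
    exact sum_nonneg fun j _ => hp i j

lemma G_le (a : ℕ) (p : ℕ → ℕ → ℝ) (K : ℝ) (hp : ∀ i j, 0 ≤ p i j) (_ha : 1 ≤ a)
    (hK : ∀ A Y : ℕ, 1 ≤ A → 1 ≤ Y →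
      ∑ i ∈ Icc 1 A, ∑ j ∈ Icc 1 Y, p i j ≤ K * ((A : ℝ) * Y) ^ a) (x y : ℝ) (hx : 0 ≤ x)
    (hy : 0 ≤ y) : G p x y ≤ K * (x * y) ^ a := by
  have hK0 : 0 ≤ K := by
    have := hK 1 1 le_rfl le_rfl
    simp at this
    exact (hp 1 1).trans this
  rcases Nat.eq_zero_or_pos ⌊x⌋₊ with h0 | h0
  · unfold G; rw [h0]; simp only [Ioc_self, sum_empty]; positivity
  rcases Nat.eq_zero_or_pos ⌊y⌋₊ with h1 | h1
  · unfold G; rw [h1]; simp only [Ioc_self, sum_empty, sum_const_zero]; positivity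
  have h := hK ⌊x⌋₊ ⌊y⌋₊ h0 h1
  rw [Icc_one, Icc_one] at h
  refine h.trans ?_
  apply mul_le_mul_of_nonneg_left _ hK0
  apply pow_le_pow_left₀ (by positivity)
  exact mul_le_mul (Nat.floor_le hx) (Nat.floor_le hy) (by positivity) hx

lemma kappa_nonneg (a : ℕ) (p : ℕ → ℕ → ℝ) (κ : ℝ) (hp : ∀ i j, 0 ≤ p i j)
    (hF : ∀ ε : ℝ, 0 < ε → ∃ A0 : ℕ, ∀ A Y : ℕ, A0 ≤ A → A0 ≤ Y →
      |∑ i ∈ Icc 1 A, ∑ j ∈ Icc 1 Y, p i j - κ * ((A : ℝ) * Y) ^ a| ≤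
        ε * ((A : ℝ) * Y) ^ a) : 0 ≤ κ := by
  by_contra hneg
  push Not at hneg
  obtain ⟨A0, h⟩ := hF (-κ / 2) (by linarith)
  have h1 := (abs_le.1 (h (A0 + 1) (A0 + 1) (by omega) (by omega))).2
  have h2 : 0 ≤ ∑ i ∈ Icc 1 (A0 + 1), ∑ j ∈ Icc 1 (A0 + 1), p i j :=
    sum_nonneg fun i _ => sum_nonneg fun j _ => hp i j
  have h3 : 0 < (((A0 + 1 : ℕ) : ℝ) * ((A0 + 1 : ℕ) : ℝ)) ^ a := by positivity
  nlinarith

lemma G_asymp (a : ℕ) (p : ℕ → ℕ → ℝ) (κ : ℝ) (hp : ∀ i j, 0 ≤ p i j)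
    (hF : ∀ ε : ℝ, 0 < ε → ∃ A0 : ℕ, ∀ A Y : ℕ, A0 ≤ A → A0 ≤ Y →
      |∑ i ∈ Icc 1 A, ∑ j ∈ Icc 1 Y, p i j - κ * ((A : ℝ) * Y) ^ a| ≤
        ε * ((A : ℝ) * Y) ^ a) (ε : ℝ) (hε : 0 < ε) :
    ∃ X0 : ℝ, 1 ≤ X0 ∧ ∀ x y : ℝ, X0 ≤ x → X0 ≤ y →
      |G p x y - κ * (x * y) ^ a| ≤ ε * (x * y) ^ a := by
  have hκ := kappa_nonneg a p κ hp hF
  obtain ⟨A0, h⟩ := hF (ε / 2) (by linarith)
  set X0 : ℝ := max (max 2 ((A0 : ℝ) + 1)) (4 * a * κ / ε) with hX0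
  have b1 : (2 : ℝ) ≤ X0 := (le_max_left _ _).trans (le_max_left _ _)
  have b2 : (A0 : ℝ) + 1 ≤ X0 := (le_max_right _ _).trans (le_max_left _ _)
  have b3 : 4 * a * κ / ε ≤ X0 := le_max_right _ _
  refine ⟨X0, by linarith, fun x y hx hy => ?_⟩
  have hx2 : 2 ≤ x := b1.trans hx
  have hy2 : 2 ≤ y := b1.trans hy
  have hx0 : 0 < x := by linarith
  have hy0 : 0 < y := by linarith
  have hX00 : 0 < X0 := by linarith
  have fx : x - 1 ≤ (⌊x⌋₊ : ℝ) := (Nat.sub_one_lt_floor x).le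
  have fy : y - 1 ≤ (⌊y⌋₊ : ℝ) := (Nat.sub_one_lt_floor y).le
  have fx' : (⌊x⌋₊ : ℝ) ≤ x := Nat.floor_le hx0.le
  have fy' : (⌊y⌋₊ : ℝ) ≤ y := Nat.floor_le hy0.le
  have hA : A0 ≤ ⌊x⌋₊ := by
    apply Nat.le_floor; linarith
  have hY : A0 ≤ ⌊y⌋₊ := by
    apply Nat.le_floor; linarith
  have h1 := h _ _ hA hY
  rw [Icc_one, Icc_one] at h1
  change |G p x y - _| ≤ _ at h1
  have hle : ((⌊x⌋₊ : ℝ) * (⌊y⌋₊ : ℝ)) ^ a ≤ (x * y) ^ a := by
    apply pow_le_pow_left₀ (by positivity)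
    exact mul_le_mul fx' fy' (by positivity) hx0.le
  have hge : (1 - a * (2 / X0)) * (x * y) ^ a ≤ ((⌊x⌋₊ : ℝ) * (⌊y⌋₊ : ℝ)) ^ a := by
    have e1 : x * y * (1 + -(2 / X0)) ≤ (⌊x⌋₊ : ℝ) * (⌊y⌋₊ : ℝ) := by
      have e2 : (x - 1) * (y - 1) ≤ (⌊x⌋₊ : ℝ) * (⌊y⌋₊ : ℝ) :=
        mul_le_mul fx fy (by linarith) (by positivity)
      have e3 : x ≤ x * y / X0 := by
        rw [le_div_iff₀ hX00]; nlinarith
      have e4 : y ≤ x * y / X0 := by
        rw [le_div_iff₀ hX00]; nlinarith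
      have e5 : x * y * (1 + -(2 / X0)) = x * y - x * y / X0 - x * y / X0 := by ring
      rw [e5]
      nlinarith
    have e6 : (-2 : ℝ) ≤ -(2 / X0) := by
      have : 2 / X0 ≤ 1 := by rw [div_le_one hX00]; exact b1
      linarith
    have e7 := one_add_mul_le_pow e6 a
    have e8 : 0 ≤ 1 + -(2 / X0) := by
      have : 2 / X0 ≤ 1 := by rw [div_le_one hX00]; exact b1
      linarith
    calc (1 - a * (2 / X0)) * (x * y) ^ a = (1 + a * -(2 / X0)) * (x * y) ^ a := by ring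
      _ ≤ (1 + -(2 / X0)) ^ a * (x * y) ^ a := by
          apply mul_le_mul_of_nonneg_right e7 (by positivity)
      _ = (x * y * (1 + -(2 / X0))) ^ a := by rw [mul_pow (x * y), mul_comm]
      _ ≤ _ := pow_le_pow_left₀ (by positivity) e1 a
  have hsmall : κ * (a * (2 / X0)) ≤ ε / 2 := by
    rw [div_le_iff₀ hε] at b3
    have : κ * (a * (2 / X0)) = (2 * a * κ) / X0 := by ring
    rw [this, div_le_iff₀ hX00]
    nlinarith
  have hxy : 0 < (x * y) ^ a := by positivity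
  have d1 : |κ * ((⌊x⌋₊ : ℝ) * (⌊y⌋₊ : ℝ)) ^ a - κ * (x * y) ^ a| ≤ ε / 2 * (x * y) ^ a := by
    rw [abs_le]
    constructor
    · have := mul_le_mul_of_nonneg_left hge hκ
      have h5 := mul_le_mul_of_nonneg_right hsmall hxy.le
      nlinarith
    · have := mul_le_mul_of_nonneg_left hle hκ
      nlinarith
  have d2 : G p x y - κ * (x * y) ^ a = (G p x y - κ * ((⌊x⌋₊ : ℝ) * (⌊y⌋₊ : ℝ)) ^ a) +
      (κ * ((⌊x⌋₊ : ℝ) * (⌊y⌋₊ : ℝ)) ^ a - κ * (x * y) ^ a) := by ring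
  rw [d2]
  refine (abs_add_le _ _).trans ?_
  have h6 : ε / 2 * ((⌊x⌋₊ : ℝ) * (⌊y⌋₊ : ℝ)) ^ a ≤ ε / 2 * (x * y) ^ a :=
    mul_le_mul_of_nonneg_left hle (by linarith)
  linarith

/-- The sum over the region under the hyperbola, with `i ≤ n`. -/
noncomputable def Q (p : ℕ → ℕ → ℝ) (T n : ℕ) : ℝ := ∑ i ∈ Ioc 0 n, ∑ j ∈ Ioc 0 (T / i), p i j

lemma Q_up (p : ℕ → ℕ → ℝ) (hp : ∀ i j, 0 ≤ p i j) (T : ℕ) (u v : ℝ) (hu : 0 < u) (huv : u ≤ v) :
    Q p T ⌊v⌋₊ - Q p T ⌊u⌋₊ ≤ G p v (T / u) - G p u (T / u) := by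
  have hfl : ⌊u⌋₊ ≤ ⌊v⌋₊ := Nat.floor_mono huv
  unfold Q G
  rw [← sum_Ioc_consecutive _ (Nat.zero_le _) hfl,
    ← sum_Ioc_consecutive (fun i => ∑ j ∈ Ioc 0 ⌊(T : ℝ) / u⌋₊, p i j) (Nat.zero_le _) hfl]
  simp only [add_sub_cancel_left]
  apply sum_le_sum
  intro i hi
  rw [mem_Ioc] at hi
  have hui : u < i := Nat.lt_of_floor_lt hi.1
  apply sum_le_sum_of_subset_of_nonneg
  · intro j hj
    rw [mem_Ioc] at hj ⊢
    refine ⟨hj.1, hj.2.trans ?_⟩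
    apply Nat.le_floor
    refine Nat.cast_div_le.trans ?_
    exact div_le_div_of_nonneg_left (by positivity) hu hui.le
  · intro j _ _
    exact hp i j

lemma Q_lo (p : ℕ → ℕ → ℝ) (hp : ∀ i j, 0 ≤ p i j) (T : ℕ) (u v : ℝ) (hu : 0 < u) (huv : u ≤ v) :
    G p v (T / v) - G p u (T / v) ≤ Q p T ⌊v⌋₊ - Q p T ⌊u⌋₊ := by
  have hfl : ⌊u⌋₊ ≤ ⌊v⌋₊ := Nat.floor_mono huv
  have hv : 0 < v := hu.trans_le huv
  unfold Q G
  rw [← sum_Ioc_consecutive (fun i => ∑ j ∈ Ioc 0 (T / i), p i j) (Nat.zero_le _) hfl,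
    ← sum_Ioc_consecutive (fun i => ∑ j ∈ Ioc 0 ⌊(T : ℝ) / v⌋₊, p i j) (Nat.zero_le _) hfl]
  simp only [add_sub_cancel_left]
  apply sum_le_sum
  intro i hi
  rw [mem_Ioc] at hi
  have hiv : (i : ℝ) ≤ v := (Nat.le_floor_iff hv.le).1 hi.2
  have hi0 : 0 < i := by omega
  apply sum_le_sum_of_subset_of_nonneg
  · intro j hj
    rw [mem_Ioc] at hj ⊢
    refine ⟨hj.1, hj.2.trans ?_⟩
    rw [Nat.le_div_iff_mul_le hi0]
    have h1 : ((⌊(T : ℝ) / v⌋₊ : ℕ) : ℝ) ≤ T / v := Nat.floor_le (by positivity)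
    have h2 : ((⌊(T : ℝ) / v⌋₊ : ℕ) : ℝ) * i ≤ T := by
      calc ((⌊(T : ℝ) / v⌋₊ : ℕ) : ℝ) * i ≤ T / v * v := by
            apply mul_le_mul h1 hiv (by positivity) (by positivity)
        _ = T := by field_simp
    exact_mod_cast h2
  · intro j _ _
    exact hp i j

lemma Q_sum_up (p : ℕ → ℕ → ℝ) (hp : ∀ i j, 0 ≤ p i j) (T : ℕ) (r : ℝ) (hr : 1 < r) (m : ℕ) :
    Q p T ⌊r ^ m⌋₊ ≤ ∑ s ∈ range (m + 1),
      (G p (r ^ s) (T / (r ^ s / r)) - G p (r ^ s / r) (T / (r ^ s / r))) := by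
  have hr0 : 0 < r := by linarith
  induction m with
  | zero =>
    have h := Q_up p hp T (1 / r) 1 (by positivity) (by rw [div_le_one hr0]; exact hr.le)
    have h0 : ⌊(1 : ℝ) / r⌋₊ = 0 := by
      rw [Nat.floor_eq_zero, div_lt_one hr0]; exact hr
    have h1 : Q p T ⌊(1 : ℝ) / r⌋₊ = 0 := by rw [h0]; simp [Q]
    rw [h1, sub_zero] at h
    simpa using h
  | succ m ih =>
    rw [sum_range_succ]
    have hpos : 0 < r ^ m := by positivity
    have h := Q_up p hp T (r ^ m) (r ^ (m + 1)) hpos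
      (pow_le_pow_right₀ hr.le (Nat.le_succ m))
    have h1 : r ^ (m + 1) / r = r ^ m := by rw [pow_succ]; field_simp
    rw [h1]
    linarith

lemma Q_sum_lo (p : ℕ → ℕ → ℝ) (hp : ∀ i j, 0 ≤ p i j) (T : ℕ) (r : ℝ) (hr : 1 < r) (m : ℕ) :
    ∑ s ∈ range (m + 1), (G p (r ^ s) (T / r ^ s) - G p (r ^ s / r) (T / r ^ s)) ≤
      Q p T ⌊r ^ m⌋₊ := by
  have hr0 : 0 < r := by linarith
  induction m with
  | zero =>
    have h := Q_lo p hp T (1 / r) 1 (by positivity) (by rw [div_le_one hr0]; exact hr.le)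
    have h0 : ⌊(1 : ℝ) / r⌋₊ = 0 := by
      rw [Nat.floor_eq_zero, div_lt_one hr0]; exact hr
    have h1 : Q p T ⌊(1 : ℝ) / r⌋₊ = 0 := by rw [h0]; simp [Q]
    rw [h1, sub_zero] at h
    simpa using h
  | succ m ih =>
    rw [sum_range_succ]
    have hpos : 0 < r ^ m := by positivity
    have h := Q_lo p hp T (r ^ m) (r ^ (m + 1)) hpos
      (pow_le_pow_right₀ hr.le (Nat.le_succ m))
    have h1 : r ^ (m + 1) / r = r ^ m := by rw [pow_succ]; field_simp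
    rw [h1]
    linarith

lemma ind_sum (m s0 : ℕ) : ∑ s ∈ range (m + 1), (if s < s0 then (1 : ℝ) else 0) ≤ s0 := by
  rw [sum_ite, sum_const_zero, add_zero, sum_const, nsmul_eq_mul, mul_one]
  have : ((range (m + 1)).filter fun s => s < s0).card ≤ (range s0).card := by
    apply card_le_card
    intro s hs
    rw [mem_filter] at hs
    exact mem_range.2 hs.2
  rw [card_range] at this
  exact_mod_cast this

lemma ind_sum' (m s0 : ℕ) : ∑ s ∈ range (m + 1), (if m - s < s0 then (1 : ℝ) else 0) ≤ s0 := by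
  have h := sum_range_reflect (fun s => if s < s0 then (1 : ℝ) else 0) (m + 1)
  simp only [Nat.add_sub_cancel] at h
  rw [h]
  exact ind_sum m s0

lemma Q_mono (p : ℕ → ℕ → ℝ) (hp : ∀ i j, 0 ≤ p i j) (T n n' : ℕ) (h : n ≤ n') :
    Q p T n ≤ Q p T n' := by
  unfold Q
  apply sum_le_sum_of_subset_of_nonneg
  · intro i hi
    rw [mem_Ioc] at hi ⊢
    exact ⟨hi.1, hi.2.trans h⟩
  · intro i _ _
    exact sum_nonneg fun j _ => hp i j

lemma upper (a : ℕ) (p : ℕ → ℕ → ℝ) (κ K : ℝ) (ha : 1 ≤ a) (hp : ∀ i j, 0 ≤ p i j)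
    (hF : ∀ ε : ℝ, 0 < ε → ∃ A0 : ℕ, ∀ A Y : ℕ, A0 ≤ A → A0 ≤ Y →
      |∑ i ∈ Icc 1 A, ∑ j ∈ Icc 1 Y, p i j - κ * ((A : ℝ) * Y) ^ a| ≤
        ε * ((A : ℝ) * Y) ^ a)
    (hK : ∀ A Y : ℕ, 1 ≤ A → 1 ≤ Y →
      ∑ i ∈ Icc 1 A, ∑ j ∈ Icc 1 Y, p i j ≤ K * ((A : ℝ) * Y) ^ a)
    (ε : ℝ) (hε : 0 < ε) (r : ℝ) (hr : 1 < r) :
    ∃ D : ℝ, ∀ (T m : ℕ), 1 ≤ T → r ^ m ≤ T * r → (T : ℝ) ≤ r ^ m →
      Q p T T ≤ ((m + 1) * (κ * (r ^ a - 1) + 2 * ε * r ^ a) + D) * (T : ℝ) ^ a := by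
  have hκ := kappa_nonneg a p κ hp hF
  have hK0 : 0 ≤ K := by
    have := hK 1 1 le_rfl le_rfl
    simp at this
    exact (hp 1 1).trans this
  have hr0 : 0 < r := by linarith
  have hra : 1 ≤ r ^ a := one_le_pow₀ hr.le
  obtain ⟨X0, hX1, hX⟩ := G_asymp a p κ hp hF ε hε
  obtain ⟨s0, hs0⟩ := pow_unbounded_of_one_lt (X0 * r) hr
  have hX0r : X0 ≤ X0 * r := by nlinarith
  set c : ℝ := κ * (r ^ a - 1) + 2 * ε * r ^ a with hc
  have hc0 : 0 ≤ c := by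
    have : 0 ≤ r ^ a - 1 := by linarith
    positivity
  refine ⟨2 * s0 * (K * r ^ a), fun T m hT hm1 hm2 => ?_⟩
  have hT0 : (0 : ℝ) < T := by exact_mod_cast hT
  have hTa : 0 < (T : ℝ) ^ a := by positivity
  have hfl : T ≤ ⌊r ^ m⌋₊ := Nat.le_floor hm2
  refine (Q_mono p hp T T _ hfl).trans ?_
  refine (Q_sum_up p hp T r hr m).trans ?_
  have hterm : ∀ s ∈ range (m + 1),
      (G p (r ^ s) (T / (r ^ s / r)) - G p (r ^ s / r) (T / (r ^ s / r))) ≤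
      c * (T : ℝ) ^ a + K * r ^ a * (T : ℝ) ^ a * (if s < s0 then (1 : ℝ) else 0) +
        K * r ^ a * (T : ℝ) ^ a * (if m - s < s0 then (1 : ℝ) else 0) := by
    intro s hs
    have hsm : s ≤ m := by rw [mem_range] at hs; omega
    have hrs : 0 < r ^ s := by positivity
    have hprod : r ^ s * (T / (r ^ s / r)) = T * r := by field_simp
    have hprod2 : r ^ s / r * (T / (r ^ s / r)) = T := by field_simp
    have hDD : 0 ≤ K * r ^ a * (T : ℝ) ^ a := by positivity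
    by_cases hgood : s0 ≤ s ∧ s0 ≤ m - s
    · have g1 : X0 * r ≤ r ^ s := hs0.le.trans (pow_le_pow_right₀ hr.le hgood.1)
      have g2 : X0 ≤ r ^ s / r := by rw [le_div_iff₀ hr0]; exact g1
      have g3 : X0 ≤ r ^ s := hX0r.trans g1
      have g4 : X0 ≤ T / (r ^ s / r) := by
        have e1 : (T : ℝ) / (r ^ s / r) = T * r / r ^ s := by field_simp
        have e2 : r ^ m = r ^ s * r ^ (m - s) := by rw [← pow_add]; congr 1; omega
        rw [e1, le_div_iff₀ hrs]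
        have e3 : X0 ≤ r ^ (m - s) :=
          (hX0r.trans hs0.le).trans (pow_le_pow_right₀ hr.le hgood.2)
        nlinarith
      have g5 := (abs_le.1 (hX _ _ g3 g4)).2
      have g6 := (abs_le.1 (hX _ _ g2 g4)).1
      rw [hprod, mul_pow] at g5
      rw [hprod2] at g6
      have i1 : (0 : ℝ) ≤ (if s < s0 then (1 : ℝ) else 0) := by split_ifs <;> norm_num
      have i2 : (0 : ℝ) ≤ (if m - s < s0 then (1 : ℝ) else 0) := by split_ifs <;> norm_num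
      have i3 := mul_nonneg hDD i1
      have i4 := mul_nonneg hDD i2
      have i5 : ε * (T : ℝ) ^ a ≤ ε * ((T : ℝ) ^ a * r ^ a) := by
        apply mul_le_mul_of_nonneg_left _ hε.le
        nlinarith
      have i6 : c * (T : ℝ) ^ a = κ * ((T : ℝ) ^ a * r ^ a) - κ * (T : ℝ) ^ a +
        2 * (ε * ((T : ℝ) ^ a * r ^ a)) := by rw [hc]; ring
      linarith
    · have g1 : G p (r ^ s) (T / (r ^ s / r)) ≤ K * r ^ a * (T : ℝ) ^ a := by
        have := G_le a p K hp ha hK (r ^ s) (T / (r ^ s / r)) hrs.le (by positivity)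
        rw [hprod, mul_pow] at this
        linarith
      have g2 := G_nonneg p hp (r ^ s / r) (T / (r ^ s / r))
      have g3 : 1 ≤ (if s < s0 then (1 : ℝ) else 0) + (if m - s < s0 then (1 : ℝ) else 0) := by
        by_cases h1 : s < s0
        · rw [if_pos h1]; split_ifs <;> norm_num
        · have h2 : m - s < s0 := by
            by_contra h2
            exact hgood ⟨by omega, by omega⟩
          rw [if_neg h1, if_pos h2]; norm_num
      have g4 := mul_le_mul_of_nonneg_left g3 hDD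
      have g5 : 0 ≤ c * (T : ℝ) ^ a := by positivity
      linarith
  refine (sum_le_sum hterm).trans ?_
  rw [sum_add_distrib, sum_add_distrib, sum_const, card_range, nsmul_eq_mul, ← mul_sum, ← mul_sum]
  have j1 := ind_sum m s0
  have j2 := ind_sum' m s0
  have hDD : 0 ≤ K * r ^ a * (T : ℝ) ^ a := by positivity
  have j3 := mul_le_mul_of_nonneg_left j1 hDD
  have j4 := mul_le_mul_of_nonneg_left j2 hDD
  push_cast
  nlinarith

lemma lower (a : ℕ) (p : ℕ → ℕ → ℝ) (κ : ℝ) (hp : ∀ i j, 0 ≤ p i j)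
    (hF : ∀ ε : ℝ, 0 < ε → ∃ A0 : ℕ, ∀ A Y : ℕ, A0 ≤ A → A0 ≤ Y →
      |∑ i ∈ Icc 1 A, ∑ j ∈ Icc 1 Y, p i j - κ * ((A : ℝ) * Y) ^ a| ≤
        ε * ((A : ℝ) * Y) ^ a)
    (ε : ℝ) (hε : 0 < ε) (r : ℝ) (hr : 1 < r) :
    ∃ D : ℝ, ∀ (T m : ℕ), 1 ≤ T → r ^ m ≤ T →
      ((m + 1) * (κ * (1 - (r ^ a)⁻¹) - 2 * ε) - D) * (T : ℝ) ^ a ≤ Q p T T := by
  have hκ := kappa_nonneg a p κ hp hF
  have hr0 : 0 < r := by linarith
  have hra : 1 ≤ r ^ a := one_le_pow₀ hr.le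
  have hrai : (r ^ a)⁻¹ ≤ 1 := inv_le_one_of_one_le₀ hra
  have hrai0 : 0 < (r ^ a)⁻¹ := by positivity
  obtain ⟨X0, hX1, hX⟩ := G_asymp a p κ hp hF ε hε
  obtain ⟨s0, hs0⟩ := pow_unbounded_of_one_lt (X0 * r) hr
  have hX0r : X0 ≤ X0 * r := by nlinarith
  set c : ℝ := κ * (1 - (r ^ a)⁻¹) - 2 * ε with hc
  have hcκ : c ≤ κ := by
    have : 0 ≤ κ * (r ^ a)⁻¹ := by positivity
    rw [hc]; nlinarith
  refine ⟨2 * s0 * κ, fun T m hT hm1 => ?_⟩
  have hT0 : (0 : ℝ) < T := by exact_mod_cast hT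
  have hTa : 0 < (T : ℝ) ^ a := by positivity
  have hfl : ⌊r ^ m⌋₊ ≤ T := by
    have := Nat.floor_mono hm1
    rwa [Nat.floor_natCast] at this
  refine le_trans ?_ (Q_mono p hp T _ T hfl)
  refine le_trans ?_ (Q_sum_lo p hp T r hr m)
  have hterm : ∀ s ∈ range (m + 1),
      c * (T : ℝ) ^ a - κ * (T : ℝ) ^ a * (if s < s0 then (1 : ℝ) else 0) -
        κ * (T : ℝ) ^ a * (if m - s < s0 then (1 : ℝ) else 0) ≤
      (G p (r ^ s) (T / r ^ s) - G p (r ^ s / r) (T / r ^ s)) := by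
    intro s hs
    have hsm : s ≤ m := by rw [mem_range] at hs; omega
    have hrs : 0 < r ^ s := by positivity
    have hprod : r ^ s * (T / r ^ s) = T := by field_simp
    have hprod2 : r ^ s / r * (T / r ^ s) = T / r := by field_simp
    have hDD : 0 ≤ κ * (T : ℝ) ^ a := by positivity
    by_cases hgood : s0 ≤ s ∧ s0 ≤ m - s
    · have g1 : X0 * r ≤ r ^ s := hs0.le.trans (pow_le_pow_right₀ hr.le hgood.1)
      have g2 : X0 ≤ r ^ s / r := by rw [le_div_iff₀ hr0]; exact g1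
      have g3 : X0 ≤ r ^ s := hX0r.trans g1
      have g4 : X0 ≤ T / r ^ s := by
        have e2 : r ^ m = r ^ s * r ^ (m - s) := by rw [← pow_add]; congr 1; omega
        rw [le_div_iff₀ hrs]
        have e3 : X0 ≤ r ^ (m - s) :=
          (hX0r.trans hs0.le).trans (pow_le_pow_right₀ hr.le hgood.2)
        nlinarith
      have g5 := (abs_le.1 (hX _ _ g3 g4)).1
      have g6 := (abs_le.1 (hX _ _ g2 g4)).2
      rw [hprod] at g5
      rw [hprod2, div_pow, div_eq_mul_inv ((T : ℝ) ^ a)] at g6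
      have i1 : (0 : ℝ) ≤ (if s < s0 then (1 : ℝ) else 0) := by split_ifs <;> norm_num
      have i2 : (0 : ℝ) ≤ (if m - s < s0 then (1 : ℝ) else 0) := by split_ifs <;> norm_num
      have i3 := mul_nonneg hDD i1
      have i4 := mul_nonneg hDD i2
      have i5 : ε * ((T : ℝ) ^ a * (r ^ a)⁻¹) ≤ ε * (T : ℝ) ^ a := by
        apply mul_le_mul_of_nonneg_left _ hε.le
        nlinarith
      have i6 : c * (T : ℝ) ^ a = κ * (T : ℝ) ^ a - κ * ((T : ℝ) ^ a * (r ^ a)⁻¹) -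
        2 * (ε * (T : ℝ) ^ a) := by rw [hc]; ring
      linarith
    · have g2 := G_mono p hp (r ^ s / r) (r ^ s) (T / r ^ s)
        (div_le_self hrs.le hr.le)
      have g3 : 1 ≤ (if s < s0 then (1 : ℝ) else 0) + (if m - s < s0 then (1 : ℝ) else 0) := by
        by_cases h1 : s < s0
        · rw [if_pos h1]; split_ifs <;> norm_num
        · have h2 : m - s < s0 := by
            by_contra h2
            exact hgood ⟨by omega, by omega⟩
          rw [if_neg h1, if_pos h2]; norm_num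
      have g4 := mul_le_mul_of_nonneg_left g3 hDD
      have g5 : c * (T : ℝ) ^ a ≤ κ * (T : ℝ) ^ a :=
        mul_le_mul_of_nonneg_right hcκ hTa.le
      linarith
  refine le_trans ?_ (sum_le_sum hterm)
  rw [sum_sub_distrib, sum_sub_distrib, sum_const, card_range, nsmul_eq_mul, ← mul_sum, ← mul_sum]
  have j1 := ind_sum m s0
  have j2 := ind_sum' m s0
  have hDD : 0 ≤ κ * (T : ℝ) ^ a := by positivity
  have j3 := mul_le_mul_of_nonneg_left j1 hDD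
  have j4 := mul_le_mul_of_nonneg_left j2 hDD
  push_cast
  nlinarith

end HH

open HH in
theorem h : StmtH := by
  intro a p κ K ha hp hF hK
  have hκ := kappa_nonneg a p κ hp hF
  have ha0 : (0 : ℝ) < a := by exact_mod_cast ha
  rw [Metric.tendsto_atTop']
  intro η hη
  -- choose `h`
  obtain ⟨h, hh0, hh1, hh2⟩ : ∃ h : ℝ, 0 < h ∧ a * h ≤ 1 ∧ κ * (a ^ 2 * h) ≤ η / 8 := by
    refine ⟨min (1 / (a : ℝ)) (η / (8 * (κ + 1) * a ^ 2)), ?_, ?_, ?_⟩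
    · apply lt_min <;> positivity
    · calc (a : ℝ) * min (1 / (a : ℝ)) (η / (8 * (κ + 1) * a ^ 2)) ≤ a * (1 / (a : ℝ)) :=
          mul_le_mul_of_nonneg_left (min_le_left _ _) ha0.le
        _ = 1 := by field_simp
    · calc κ * ((a : ℝ) ^ 2 * min (1 / (a : ℝ)) (η / (8 * (κ + 1) * a ^ 2))) ≤
          (κ + 1) * ((a : ℝ) ^ 2 * (η / (8 * (κ + 1) * a ^ 2))) := by
            apply mul_le_mul (by linarith) _ _ (by linarith)
            · exact mul_le_mul_of_nonneg_left (min_le_right _ _) (by positivity)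
            · have : (0 : ℝ) ≤ min (1 / (a : ℝ)) (η / (8 * (κ + 1) * a ^ 2)) :=
                le_min (by positivity) (by positivity)
              positivity
        _ = η / 8 := by field_simp
  set r := Real.exp h with hr
  have hr1 : 1 < r := Real.one_lt_exp_iff.2 hh0
  have hr0 : 0 < r := Real.exp_pos h
  have hra : 1 ≤ r ^ a := one_le_pow₀ hr1.le
  have hrae : r ^ a = Real.exp (a * h) := by rw [hr, ← Real.exp_nat_mul]
  have hab : |(a : ℝ) * h| ≤ 1 := by rw [abs_of_pos (by positivity)]; exact hh1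
  have hab' : |(-(a * h) : ℝ)| ≤ 1 := by rw [abs_neg]; exact hab
  have b1 : r ^ a - 1 ≤ a * h + (a * h) ^ 2 := by
    have := (abs_le.1 (Real.abs_exp_sub_one_sub_id_le hab)).2
    rw [hrae]; linarith
  have b2 : a * h - (a * h) ^ 2 ≤ 1 - (r ^ a)⁻¹ := by
    have := (abs_le.1 (Real.abs_exp_sub_one_sub_id_le hab')).2
    rw [hrae, ← Real.exp_neg]
    nlinarith
  -- choose `ε`
  obtain ⟨ε, hε, hε1⟩ : ∃ ε : ℝ, 0 < ε ∧ 2 * ε * r ^ a / h ≤ η / 8 := by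
    refine ⟨η / 8 * h / (2 * r ^ a), by positivity, ?_⟩
    apply le_of_eq; field_simp
  have hε2 : 2 * ε / h ≤ η / 8 := by
    refine le_trans ?_ hε1
    apply div_le_div_of_nonneg_right _ hh0.le
    nlinarith
  obtain ⟨D1, hD1⟩ := upper a p κ K ha hp hF hK ε hε r hr1
  obtain ⟨D2, hD2⟩ := lower a p κ hp hF ε hε r hr1
  set c1 : ℝ := κ * (r ^ a - 1) + 2 * ε * r ^ a with hc1
  set c2 : ℝ := κ * (1 - (r ^ a)⁻¹) - 2 * ε with hc2
  have hc10 : 0 ≤ c1 := by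
    have : 0 ≤ r ^ a - 1 := by linarith
    positivity
  have u1 : c1 / h ≤ κ * a + η / 4 := by
    have e1 : c1 / h = κ * ((r ^ a - 1) / h) + 2 * ε * r ^ a / h := by rw [hc1]; ring
    have e2 : (r ^ a - 1) / h ≤ a + a ^ 2 * h := by
      rw [div_le_iff₀ hh0]; nlinarith
    rw [e1]
    have e3 := mul_le_mul_of_nonneg_left e2 hκ
    nlinarith
  have u2 : κ * a - η / 4 ≤ c2 / h := by
    have e1 : c2 / h = κ * ((1 - (r ^ a)⁻¹) / h) - 2 * ε / h := by rw [hc2]; ring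
    have e2 : a - a ^ 2 * h ≤ (1 - (r ^ a)⁻¹) / h := by
      rw [le_div_iff₀ hh0]; nlinarith
    rw [e1]
    have e3 := mul_le_mul_of_nonneg_left e2 hκ
    nlinarith
  -- `T` large
  have hlog : Tendsto (fun T : ℕ => Real.log T) atTop atTop :=
    Real.tendsto_log_atTop.comp tendsto_natCast_atTop_atTop
  set W : ℝ := 4 * (2 * c1 + |D1| + |c2| + |D2| + 1) / η with hW
  obtain ⟨T0, hT0⟩ := (((hlog.eventually (eventually_ge_atTop (max W 1))).and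
    (eventually_ge_atTop 2))).exists_forall_of_atTop
  refine ⟨T0, fun T hT => ?_⟩
  obtain ⟨hT1, hT2⟩ := hT0 T hT.le
  have hTpos : (0 : ℝ) < T := by
    have : 0 < T := by omega
    exact_mod_cast this
  set ℓ := Real.log T with hℓ
  have hℓW : W ≤ ℓ := (le_max_left _ _).trans hT1
  have hℓ1 : 1 ≤ ℓ := (le_max_right _ _).trans hT1
  have hℓ0 : 0 < ℓ := by linarith
  have hTa : 0 < (T : ℝ) ^ a := by positivity
  have hpowexp : ∀ m : ℕ, r ^ m = Real.exp (m * h) := by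
    intro m; rw [hr, ← Real.exp_nat_mul]
  have hTe : (T : ℝ) = Real.exp ℓ := (Real.exp_log hTpos).symm
  have hQ : (∑ i ∈ Icc 1 T, ∑ j ∈ Icc 1 (T / i), p i j) = Q p T T := by
    unfold Q
    rw [Icc_one]
    apply sum_congr rfl
    intro i _
    rw [Icc_one]
  rw [hQ, Real.dist_eq]
  -- upper
  have hup : Q p T T / ((T : ℝ) ^ a * ℓ) ≤ κ * a + η / 2 := by
    set m := ⌈ℓ / h⌉₊ with hm
    have m1 : ℓ / h ≤ m := Nat.le_ceil _
    have m2 : (m : ℝ) < ℓ / h + 1 := Nat.ceil_lt_add_one (by positivity)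
    have m1' : ℓ ≤ m * h := by rwa [div_le_iff₀ hh0] at m1
    have m2' : m * h ≤ ℓ + h := by
      have : (m : ℝ) * h ≤ (ℓ / h + 1) * h := mul_le_mul_of_nonneg_right m2.le hh0.le
      have e : (ℓ / h + 1) * h = ℓ + h := by field_simp
      linarith
    have k1 : r ^ m ≤ T * r := by
      rw [hpowexp, hTe, hr, ← Real.exp_add]
      exact Real.exp_le_exp.2 m2'
    have k2 : (T : ℝ) ≤ r ^ m := by
      rw [hpowexp, hTe]
      exact Real.exp_le_exp.2 m1'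
    have k3 := hD1 T m (by omega) k1 k2
    rw [div_le_iff₀ (by positivity)]
    refine k3.trans ?_
    have k4 : ((m : ℝ) + 1) * c1 + D1 ≤ (κ * a + η / 2) * ℓ := by
      have k5 : ((m : ℝ) + 1) * c1 ≤ (ℓ / h + 2) * c1 :=
        mul_le_mul_of_nonneg_right (by linarith) hc10
      have k6 : (ℓ / h + 2) * c1 = (c1 / h) * ℓ + 2 * c1 := by ring
      have k7 : (c1 / h) * ℓ ≤ (κ * a + η / 4) * ℓ := mul_le_mul_of_nonneg_right u1 hℓ0.le
      have k8 : 2 * c1 + D1 ≤ η / 4 * ℓ := by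
        have k9 : 4 * (2 * c1 + |D1| + |c2| + |D2| + 1) ≤ ℓ * η := by
          rw [hW, div_le_iff₀ hη] at hℓW; exact hℓW
        have := le_abs_self D1
        have := abs_nonneg c2
        have := abs_nonneg D2
        nlinarith
      linarith
    calc (((m : ℝ) + 1) * c1 + D1) * (T : ℝ) ^ a
        ≤ ((κ * a + η / 2) * ℓ) * (T : ℝ) ^ a := mul_le_mul_of_nonneg_right k4 hTa.le
      _ = _ := by ring
  have hlo : κ * a - η / 2 ≤ Q p T T / ((T : ℝ) ^ a * ℓ) := by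
    set m := ⌊ℓ / h⌋₊ with hm
    have m1 : (m : ℝ) ≤ ℓ / h := Nat.floor_le (by positivity)
    have m2 : ℓ / h < (m : ℝ) + 1 := Nat.lt_floor_add_one _
    have m1' : m * h ≤ ℓ := by rwa [le_div_iff₀ hh0] at m1
    have k1 : r ^ m ≤ T := by
      rw [hpowexp, hTe]
      exact Real.exp_le_exp.2 m1'
    have k3 := hD2 T m (by omega) k1
    rw [le_div_iff₀ (by positivity)]
    refine le_trans ?_ k3
    have k4 : (κ * a - η / 2) * ℓ ≤ ((m : ℝ) + 1) * c2 - D2 := by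
      have k5 : |((m : ℝ) + 1 - ℓ / h) * c2| ≤ |c2| := by
        rw [abs_mul]
        have : |(m : ℝ) + 1 - ℓ / h| ≤ 1 := by
          rw [abs_le]; constructor <;> linarith
        calc |(m : ℝ) + 1 - ℓ / h| * |c2| ≤ 1 * |c2| :=
              mul_le_mul_of_nonneg_right this (abs_nonneg _)
          _ = |c2| := one_mul _
      have k5' := (abs_le.1 k5).1
      have k6 : ((m : ℝ) + 1) * c2 = (c2 / h) * ℓ + ((m : ℝ) + 1 - ℓ / h) * c2 := by ring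
      have k7 : (κ * a - η / 4) * ℓ ≤ (c2 / h) * ℓ := mul_le_mul_of_nonneg_right u2 hℓ0.le
      have k8 : |c2| + D2 ≤ η / 4 * ℓ := by
        have k9 : 4 * (2 * c1 + |D1| + |c2| + |D2| + 1) ≤ ℓ * η := by
          rw [hW, div_le_iff₀ hη] at hℓW; exact hℓW
        have := le_abs_self D2
        have := abs_nonneg D1
        nlinarith
      linarith
    calc (κ * a - η / 2) * ((T : ℝ) ^ a * ℓ) = ((κ * a - η / 2) * ℓ) * (T : ℝ) ^ a := by ring
      _ ≤ (((m : ℝ) + 1) * c2 - D2) * (T : ℝ) ^ a := mul_le_mul_of_nonneg_right k4 hTa.le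
      _ = _ := by ring
  rw [abs_lt]
  constructor <;> linarith

end Pool.Agent.T6.H81.BA
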