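import Mathlib
import Pool.Agent.T6.H81.BA.Defs

/-!
Module K: for `k = 2` the degenerate vectors lie in finitely many subspaces of dimension two.
-/

namespace Pool.Agent.T6.H81.BA

open Finset Module Matrix
open Pool.Agent.H548.WM (ht bx mem_bx Rep)
open Pool.Agent.H548.BL (rv cv Inc Smooth FinZeros tr rc pm finZeros_two exists_det not_smooth
  exists_rel cv_cast cv_tr rv_tr inc_iff_rv tr_tr smooth_tr finZeros_tr inc_tr)

namespace KK

/-- The rational vector of an integer vector. -/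
def qc {N : ℕ} (v : Fin N → ℤ) : Fin N → ℚ := fun i => (v i : ℚ)

theorem qc_dot {N : ℕ} (v w : Fin N → ℤ) : qc v ⬝ᵥ qc w = ((v ⬝ᵥ w : ℤ) : ℚ) := by
  unfold qc dotProduct
  push_cast
  rfl

theorem qc_inj {N : ℕ} {v w : Fin N → ℤ} (h : qc v = qc w) : v = w := by
  funext i
  have := congrFun h i
  unfold qc at this
  exact_mod_cast this

theorem qc_zero {N : ℕ} : qc (0 : Fin N → ℤ) = 0 := by
  funext i
  simp [qc]

theorem qc_ne {N : ℕ} {v : Fin N → ℤ} (h : v ≠ 0) : qc v ≠ 0 := by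
  intro h0
  exact h (qc_inj (h0.trans qc_zero.symm))

theorem cv_qc {k N : ℕ} (M : Fin k → Matrix (Fin N) (Fin N) ℤ) (v : Fin N → ℤ) (i : Fin k) :
    cv M (qc v) i = qc (cv M v i) := by
  funext p
  exact cv_cast M v i p

theorem rv_qc {k N : ℕ} (M : Fin k → Matrix (Fin N) (Fin N) ℤ) (v : Fin N → ℤ) (i : Fin k) :
    rv M (qc v) i = qc (rv M v i) := by
  have h := cv_qc (tr M) v i
  rwa [cv_tr, cv_tr] at h

/-- The complex vector of a rational vector. -/
noncomputable def cq {N : ℕ} (v : Fin N → ℚ) : Fin N → ℂ := fun i => (v i : ℂ)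

theorem cv_cq {k N : ℕ} (M : Fin k → Matrix (Fin N) (Fin N) ℤ) (v : Fin N → ℚ) (i : Fin k) :
    cv M (cq v) i = cq (cv M v i) := by
  funext p
  unfold cv cq mulVec dotProduct
  push_cast
  refine Finset.sum_congr rfl fun q _ => ?_
  simp

theorem rv_cq {k N : ℕ} (M : Fin k → Matrix (Fin N) (Fin N) ℤ) (v : Fin N → ℚ) (i : Fin k) :
    rv M (cq v) i = cq (rv M v i) := by
  have h := cv_cq (tr M) v i
  rwa [cv_tr, cv_tr] at h

theorem cq_dot {N : ℕ} (v w : Fin N → ℚ) : cq v ⬝ᵥ cq w = ((v ⬝ᵥ w : ℚ) : ℂ) := by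
  unfold cq dotProduct
  push_cast
  rfl

theorem cq_zero {N : ℕ} {v : Fin N → ℚ} (h : cq v = 0) : v = 0 := by
  funext i
  have := congrFun h i
  unfold cq at this
  simpa using this

theorem cq_lin {N : ℕ} (s : Fin 2 → ℚ) (v : Fin 2 → Fin N → ℚ) :
    ∑ i, cq s i • cq (v i) = cq (∑ i, s i • v i) := by
  funext p
  unfold cq
  simp [Fin.sum_univ_two]

theorem cq_of_zero {N : ℕ} : cq (0 : Fin N → ℚ) = 0 := by
  funext i
  simp [cq]

/-- No degenerate rational points. -/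
theorem rat_smooth {N : ℕ} {M : Fin 2 → Matrix (Fin N) (Fin N) ℤ} (hs : Smooth M)
    {x y : Fin N → ℚ} (hx : x ≠ 0) (hy : y ≠ 0) (hinc : Inc M x y) {s : Fin 2 → ℚ}
    (h1 : ∑ i, s i • cv M y i = 0) (h2 : ∑ i, s i • rv M x i = 0) : s = 0 := by
  apply cq_zero
  refine not_smooth hs (x := cq x) (y := cq y) (fun h => hx (cq_zero h))
    (fun h => hy (cq_zero h)) ?_ ?_ ?_
  · intro i
    rw [cv_cq, cq_dot, hinc i]
    simp
  · simp only [cv_cq]
    rw [cq_lin s (fun i => cv M y i), h1, cq_of_zero]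
  · simp only [rv_cq]
    rw [cq_lin s (fun i => rv M x i), h2, cq_of_zero]

theorem pm_mulVec {K : Type*} [Field K] {N : ℕ} (M : Fin 2 → Matrix (Fin N) (Fin N) ℤ)
    (s : Fin 2 → K) (v : Fin N → K) : pm M s *ᵥ v = ∑ i, s i • cv M v i := by
  unfold pm cv
  rw [Matrix.sum_mulVec]
  refine Finset.sum_congr rfl fun i _ => ?_
  rw [smul_mulVec]

theorem vecMul_pm {K : Type*} [Field K] {N : ℕ} (M : Fin 2 → Matrix (Fin N) (Fin N) ℤ)
    (s : Fin 2 → K) (v : Fin N → K) : v ᵥ* pm M s = ∑ i, s i • rv M v i := by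
  unfold pm rv
  rw [Matrix.vecMul_sum]
  refine Finset.sum_congr rfl fun i _ => ?_
  rw [vecMul_smul]

theorem det_of_cv {N : ℕ} {M : Fin 2 → Matrix (Fin N) (Fin N) ℤ} {s : Fin 2 → ℚ}
    {y : Fin N → ℚ} (hy : y ≠ 0) (h : ∑ i, s i • cv M y i = 0) : (pm M s).det = 0 := by
  rw [← Matrix.exists_mulVec_eq_zero_iff]
  exact ⟨y, hy, by rw [pm_mulVec]; exact h⟩

theorem det_of_rv {N : ℕ} {M : Fin 2 → Matrix (Fin N) (Fin N) ℤ} {s : Fin 2 → ℚ}
    {x : Fin N → ℚ} (hx : x ≠ 0) (h : ∑ i, s i • rv M x i = 0) : (pm M s).det = 0 := by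
  rw [← Matrix.exists_vecMul_eq_zero_iff]
  exact ⟨x, hx, by rw [vecMul_pm]; exact h⟩

theorem ne_zero_two {s : Fin 2 → ℚ} (h : s ≠ 0) : s 0 ≠ 0 ∨ s 1 ≠ 0 := by
  by_contra hcon
  push Not at hcon
  apply h
  funext i
  fin_cases i
  · exact hcon.1
  · exact hcon.2

/-- The line orthogonal to a vector of the plane. -/
theorem line {s a b : Fin 2 → ℚ} (hs : s ≠ 0) (ha : a ≠ 0) (h1 : s 0 * a 0 + s 1 * a 1 = 0)
    (h2 : s 0 * b 0 + s 1 * b 1 = 0) : ∃ c : ℚ, b = c • a := by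
  have h3 : a 0 * b 1 - a 1 * b 0 = 0 := by
    rcases ne_zero_two hs with h | h
    · have : s 0 * (a 0 * b 1 - a 1 * b 0) = 0 := by
        linear_combination b 1 * h1 - a 1 * h2
      rcases mul_eq_zero.1 this with h' | h'
      · exact absurd h' h
      · exact h'
    · have : s 1 * (a 0 * b 1 - a 1 * b 0) = 0 := by
        linear_combination a 0 * h2 - b 0 * h1
      rcases mul_eq_zero.1 this with h' | h'
      · exact absurd h' h
      · exact h'
  rcases ne_zero_two ha with h | h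
  · refine ⟨b 0 / a 0, ?_⟩
    funext i
    fin_cases i
    · show b 0 = b 0 / a 0 * a 0
      field_simp
    · show b 1 = b 0 / a 0 * a 1
      field_simp
      linear_combination h3
  · refine ⟨b 1 / a 1, ?_⟩
    funext i
    fin_cases i
    · show b 0 = b 1 / a 1 * a 0
      field_simp
      linear_combination -h3
    · show b 1 = b 1 / a 1 * a 1
      field_simp

/-- The kernel has dimension at most one. -/
theorem ker_one {N : ℕ} {M : Fin 2 → Matrix (Fin N) (Fin N) ℤ} (hs : Smooth M)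
    {s : Fin 2 → ℚ} (hs0 : s ≠ 0) {y y' : Fin N → ℚ} (hy : y ≠ 0)
    (h : ∑ i, s i • cv M y i = 0) (h' : ∑ i, s i • cv M y' i = 0) : ∃ c : ℚ, y' = c • y := by
  obtain ⟨x, hx, hx0⟩ := Matrix.exists_vecMul_eq_zero_iff.2 (det_of_cv hy h)
  rw [vecMul_pm] at hx0
  have hdot : ∀ v : Fin N → ℚ, s 0 * (rv M x 0 ⬝ᵥ v) + s 1 * (rv M x 1 ⬝ᵥ v) = 0 := by
    intro v
    have h1 : (∑ i, s i • rv M x i) ⬝ᵥ v = 0 := by
      rw [hx0, zero_dotProduct]
    rw [Fin.sum_univ_two, add_dotProduct, smul_dotProduct, smul_dotProduct] at h1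
    exact h1
  have ha0 : (fun i : Fin 2 => rv M x i ⬝ᵥ y) ≠ 0 := by
    intro h0
    exact hs0 (rat_smooth hs hx hy (inc_iff_rv.2 (congrFun h0)) h hx0)
  obtain ⟨c, hc⟩ := line (b := fun i : Fin 2 => rv M x i ⬝ᵥ y') hs0 ha0 (hdot y) (hdot y')
  refine ⟨c, ?_⟩
  by_contra hne
  have hy2 : y' - c • y ≠ 0 := sub_ne_zero.2 hne
  refine hs0 (rat_smooth hs hx hy2 (inc_iff_rv.2 ?_) ?_ hx0)
  · intro i
    rw [dotProduct_sub, dotProduct_smul]
    have := congrFun hc i
    simp only [Pi.smul_apply] at this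
    rw [this, sub_self]
  · have h3 : ∀ i, cv M (y' - c • y) i = cv M y' i - c • cv M y i := by
      intro i
      unfold cv
      rw [mulVec_sub, mulVec_smul]
    simp only [h3]
    have h4 : ∑ i, s i • (cv M y' i - c • cv M y i) =
        (∑ i, s i • cv M y' i) - c • ∑ i, s i • cv M y i := by
      rw [Finset.smul_sum, ← Finset.sum_sub_distrib]
      refine Finset.sum_congr rfl fun i _ => ?_
      rw [smul_sub, smul_comm]
    rw [h4, h, h', smul_zero, sub_zero]

/-- The left kernel has dimension at most one. -/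
theorem ker_one' {N : ℕ} {M : Fin 2 → Matrix (Fin N) (Fin N) ℤ} (hs : Smooth M)
    {s : Fin 2 → ℚ} (hs0 : s ≠ 0) {x x' : Fin N → ℚ} (hx : x ≠ 0)
    (h : ∑ i, s i • rv M x i = 0) (h' : ∑ i, s i • rv M x' i = 0) : ∃ c : ℚ, x' = c • x := by
  refine ker_one (smooth_tr hs) hs0 hx ?_ ?_
  · rw [cv_tr]; exact h
  · rw [cv_tr]; exact h'

theorem not_both {N : ℕ} {M : Fin 2 → Matrix (Fin N) (Fin N) ℤ} (hs : Smooth M)
    {w : Fin N → ℚ} (hw : w ≠ 0) : ¬ ∀ i, rv M w i = 0 := by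
  intro h
  obtain ⟨s, -, hdet⟩ := exists_det hs
  apply hdet
  rw [← Matrix.exists_vecMul_eq_zero_iff]
  refine ⟨cq w, fun h0 => hw (cq_zero h0), ?_⟩
  rw [vecMul_pm]
  refine Finset.sum_eq_zero fun i _ => ?_
  rw [rv_cq, h i, cq_of_zero, smul_zero]

/-- Clearing denominators. -/
theorem clear {N : ℕ} (x : Fin N → ℚ) : ∃ (d : ℚ) (w : Fin N → ℤ), d ≠ 0 ∧ qc w = d • x := by
  obtain ⟨b, hb⟩ := IsLocalization.exist_integer_multiples_of_finite (nonZeroDivisors ℤ) x
  choose w hw using hb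
  refine ⟨((b : ℤ) : ℚ), w, ?_, ?_⟩
  · have := nonZeroDivisors.coe_ne_zero b
    exact_mod_cast this
  · funext i
    have := hw i
    simp only [Pi.smul_apply, smul_eq_mul, qc]
    simpa using this

/-- The left kernels of the degenerate matrices. -/
def Good {N : ℕ} (M : Fin 2 → Matrix (Fin N) (Fin N) ℤ)
    (F : Finset ((Fin N → ℤ) × (Fin N → ℤ))) : Prop :=
  (∀ f ∈ F, f.1 ≠ 0 ∧ f.2 ≠ 0 ∧ ∃ t β : Fin 2 → ℚ, t ≠ 0 ∧ β ≠ 0 ∧ t 0 * β 0 + t 1 * β 1 = 0 ∧
    ∀ i, rv M (qc f.1) i = β i • qc f.2) ∧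
  ∀ t : Fin 2 → ℚ, t ≠ 0 → (pm M t).det = 0 → ∃ f ∈ F, ∃ β : Fin 2 → ℚ, β ≠ 0 ∧
    t 0 * β 0 + t 1 * β 1 = 0 ∧ ∀ i, rv M (qc f.1) i = β i • qc f.2

theorem exists_pair {N : ℕ} {M : Fin 2 → Matrix (Fin N) (Fin N) ℤ} (hs : Smooth M)
    {t : Fin 2 → ℚ} (ht : t ≠ 0) (hdet : (pm M t).det = 0) :
    ∃ f : (Fin N → ℤ) × (Fin N → ℤ), f.1 ≠ 0 ∧ f.2 ≠ 0 ∧ ∃ β : Fin 2 → ℚ, β ≠ 0 ∧
      t 0 * β 0 + t 1 * β 1 = 0 ∧ ∀ i, rv M (qc f.1) i = β i • qc f.2 := by
  obtain ⟨x, hx, hx0⟩ := Matrix.exists_vecMul_eq_zero_iff.2 hdet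
  rw [vecMul_pm] at hx0
  obtain ⟨d, w, hd, hw⟩ := clear x
  have hw0 : w ≠ 0 := by
    intro h
    rw [h, qc_zero] at hw
    rcases smul_eq_zero.1 hw.symm with h1 | h1
    · exact hd h1
    · exact hx h1
  have hrel : t 0 • rv M (qc w) 0 + t 1 • rv M (qc w) 1 = 0 := by
    rw [hw]
    have h3 : ∀ i, rv M (d • x) i = d • rv M x i := by
      intro i
      unfold rv
      rw [smul_vecMul]
    rw [h3, h3]
    rw [Fin.sum_univ_two] at hx0
    rw [smul_comm, smul_comm (t 1), ← smul_add, hx0, smul_zero]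
  by_cases h0 : rv M w 0 = 0
  · have h1 : rv M w 1 ≠ 0 := by
      intro h1
      refine not_both hs (qc_ne hw0) fun i => ?_
      rw [rv_qc]
      fin_cases i
      · show qc (rv M w 0) = 0
        rw [h0, qc_zero]
      · show qc (rv M w 1) = 0
        rw [h1, qc_zero]
    have ht1 : t 1 = 0 := by
      rw [rv_qc, rv_qc, h0, qc_zero, smul_zero, zero_add] at hrel
      rcases smul_eq_zero.1 hrel with h2 | h2
      · exact h2
      · exact absurd h2 (qc_ne h1)
    refine ⟨(w, rv M w 1), hw0, h1, ![0, 1], ?_, ?_, ?_⟩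
    · intro h
      have := congrFun h 1
      simp at this
    · simp [ht1]
    · intro i
      fin_cases i
      · show rv M (qc w) 0 = (0 : ℚ) • _
        rw [rv_qc, h0, qc_zero, zero_smul]
      · show rv M (qc w) 1 = (1 : ℚ) • _
        rw [rv_qc, one_smul]
  · have ht1 : t 1 ≠ 0 := by
      intro ht1
      rw [ht1, zero_smul, add_zero, rv_qc] at hrel
      rcases smul_eq_zero.1 hrel with h2 | h2
      · apply ht
        funext i
        fin_cases i
        · exact h2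
        · exact ht1
      · exact qc_ne h0 h2
    refine ⟨(w, rv M w 0), hw0, h0, ![1, -(t 0 / t 1)], ?_, ?_, ?_⟩
    · intro h
      have := congrFun h 0
      simp at this
    · simp only [Matrix.cons_val_zero, Matrix.cons_val_one]
      field_simp
      ring
    · intro i
      fin_cases i
      · show rv M (qc w) 0 = (1 : ℚ) • _
        rw [rv_qc, one_smul]
      · show rv M (qc w) 1 = (-(t 0 / t 1) : ℚ) • qc (rv M w 0)
        rw [← rv_qc]
        have h5 : t 1 • rv M (qc w) 1 = -(t 0 • rv M (qc w) 0) := by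
          rw [eq_neg_iff_add_eq_zero, add_comm]
          exact hrel
        have h6 : rv M (qc w) 1 = (t 1)⁻¹ • (t 1 • rv M (qc w) 1) := by
          rw [smul_smul, inv_mul_cancel₀ ht1, one_smul]
        rw [h6, h5, smul_neg, smul_smul, neg_smul]
        congr 2
        field_simp

theorem exists_good {N : ℕ} {M : Fin 2 → Matrix (Fin N) (Fin N) ℤ} (hs : Smooth M) :
    ∃ F, Good M F := by
  classical
  obtain ⟨S, hS⟩ := finZeros_two hs
  set S' := S.filter fun t => t ≠ 0 ∧ (pm M t).det = 0 with hS'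
  have hex : ∀ t : S', ∃ f : (Fin N → ℤ) × (Fin N → ℤ), f.1 ≠ 0 ∧ f.2 ≠ 0 ∧
      ∃ β : Fin 2 → ℚ, β ≠ 0 ∧ t.1 0 * β 0 + t.1 1 * β 1 = 0 ∧
      ∀ i, rv M (qc f.1) i = β i • qc f.2 := by
    rintro ⟨t, ht⟩
    rw [hS', mem_filter] at ht
    exact exists_pair hs ht.2.1 ht.2.2
  choose f hf1 hf2 β hβ0 hβ1 hβ2 using hex
  refine ⟨Finset.univ.image f, ?_, ?_⟩
  · intro g hg
    rw [mem_image] at hg
    obtain ⟨t, -, rfl⟩ := hg
    have ht := mem_filter.1 t.2
    exact ⟨hf1 t, hf2 t, t.1, β t, ht.2.1, hβ0 t, hβ1 t, hβ2 t⟩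
  · intro t ht hdet
    obtain ⟨t', ht', c, hc⟩ := hS t ht hdet
    have hc0 : c ≠ 0 := by
      intro h
      rw [h, zero_smul] at hc
      exact ht hc
    have ht'0 : t' ≠ 0 := by
      intro h
      rw [h, smul_zero] at hc
      exact ht hc
    have hpm : pm M t = c • pm M t' := by
      rw [hc]
      unfold pm
      rw [Finset.smul_sum]
      refine Finset.sum_congr rfl fun i _ => ?_
      rw [Pi.smul_apply, smul_assoc]
    have hdet' : (pm M t').det = 0 := by
      rw [hpm, det_smul] at hdet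
      rcases mul_eq_zero.1 hdet with h | h
      · exact absurd h (pow_ne_zero _ hc0)
      · exact h
    have hmem : t' ∈ S' := by
      rw [hS', mem_filter]
      exact ⟨ht', ht'0, hdet'⟩
    refine ⟨f ⟨t', hmem⟩, mem_image_of_mem _ (mem_univ _), β ⟨t', hmem⟩, hβ0 _, ?_, hβ2 _⟩
    rw [hc]
    have := hβ1 ⟨t', hmem⟩
    simp only [Pi.smul_apply, smul_eq_mul]
    linear_combination c * this

theorem sum_prop {N : ℕ} {s β : Fin 2 → ℚ} {r : Fin 2 → Fin N → ℚ} {z : Fin N → ℚ}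
    (h : ∀ i, r i = β i • z) : ∑ i, s i • r i = (s 0 * β 0 + s 1 * β 1) • z := by
  rw [Fin.sum_univ_two, h 0, h 1, smul_smul, smul_smul, add_smul]

theorem side1 {N : ℕ} {M : Fin 2 → Matrix (Fin N) (Fin N) ℤ} (hs : Smooth M)
    {F' : Finset ((Fin N → ℤ) × (Fin N → ℤ))} (hF' : Good (tr M) F')
    (x : Fin N → ℤ) (hx : ∀ z ∈ F'.image Prod.snd, x ⬝ᵥ z ≠ 0) (y : Fin N → ℤ) (hy : y ≠ 0)
    (hinc : Inc M x y) : LinearIndependent ℤ (cv M y) := by
  by_contra hdep
  obtain ⟨s, hs0, hrel⟩ := exists_rel hdep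
  have hrel' : ∑ i, s i • cv M (qc y) i = 0 := by
    funext p
    rw [Finset.sum_apply]
    rw [Pi.zero_apply, ← hrel p]
    refine Finset.sum_congr rfl fun i _ => ?_
    rw [cv_qc]
    rfl
  have hdet : (pm (tr M) s).det = 0 := by
    refine det_of_rv (qc_ne hy) ?_
    rw [rv_tr]
    exact hrel'
  obtain ⟨f, hf, β, hβ0, hβ1, hβ2⟩ := hF'.2 s hs0 hdet
  rw [rv_tr] at hβ2
  obtain ⟨c, hc⟩ := ker_one hs hs0 (qc_ne hy) hrel' (y' := qc f.1) (by
    rw [sum_prop hβ2, hβ1, zero_smul])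
  have h1 : ∀ i, β i * ((x ⬝ᵥ f.2 : ℤ) : ℚ) = 0 := by
    intro i
    have h2 : qc x ⬝ᵥ cv M (qc f.1) i = 0 := by
      rw [hc]
      have h3 : cv M (c • qc y) i = c • cv M (qc y) i := by
        unfold cv
        rw [mulVec_smul]
      rw [h3, dotProduct_smul, cv_qc, qc_dot, hinc i]
      simp
    rw [hβ2 i, dotProduct_smul, qc_dot, smul_eq_mul] at h2
    exact h2
  have h4 : ((x ⬝ᵥ f.2 : ℤ) : ℚ) ≠ 0 := by
    exact_mod_cast hx f.2 (mem_image_of_mem _ hf)
  apply hβ0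
  funext i
  rcases mul_eq_zero.1 (h1 i) with h | h
  · exact h
  · exact absurd h h4

theorem li_iff {k N : ℕ} {w : Fin k → Fin N → ℤ} :
    LinearIndependent ℤ w ↔ LinearIndependent ℚ (fun i => qc (w i)) :=
  (linearIndependent_algebraMap_comp_iff (R := ℤ) (S := ℚ) (v := w)).symm

theorem side2 {N : ℕ} {M : Fin 2 → Matrix (Fin N) (Fin N) ℤ} (hs : Smooth M)
    {F : Finset ((Fin N → ℤ) × (Fin N → ℤ))} (hF : Good M F)
    (x : Fin N → ℤ) (hx : LinearIndependent ℤ (rv M x)) (z : Fin N → ℤ)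
    (hz : z ∈ F.image Prod.snd)
    (hdep : ¬ LinearIndependent ℤ (Fin.cons z (rv M x) : Fin (2 + 1) → Fin N → ℤ)) :
    ∃ f ∈ F, ∃ f' ∈ F, ∃ c c' : ℚ, qc x = c • qc f.1 + c' • qc f'.1 := by
  rw [mem_image] at hz
  obtain ⟨f, hf, rfl⟩ := hz
  obtain ⟨hf1, hf2, t, β, ht0, hβ0, hβ1, hβ2⟩ := hF.1 f hf
  -- the relation
  obtain ⟨u, hu0, hu⟩ := exists_rel hdep
  have hu' : u 0 • qc f.2 + ∑ i : Fin 2, u i.succ • rv M (qc x) i = 0 := by
    funext p
    have h := hu p
    rw [Fin.sum_univ_succ] at h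
    simp only [Fin.cons_zero, Fin.cons_succ] at h
    rw [Pi.add_apply, Finset.sum_apply, Pi.zero_apply, ← h]
    simp only [Pi.smul_apply, smul_eq_mul, rv_qc]
    rfl
  have hxi : LinearIndependent ℚ (fun i => rv M (qc x) i) := by
    have := li_iff.1 hx
    simpa only [rv_qc] using this
  have hu00 : u 0 ≠ 0 := by
    intro h0
    rw [h0, zero_smul, zero_add] at hu'
    have h1 := Fintype.linearIndependent_iff.1 hxi _ hu'
    apply hu0
    funext i
    refine Fin.cases h0 (fun j => h1 j) i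
  -- z is a combination
  set a : Fin 2 → ℚ := fun i => -(u 0)⁻¹ * u i.succ with ha
  have hza : ∑ i, a i • rv M (qc x) i = qc f.2 := by
    have h1 : ∑ i, a i • rv M (qc x) i = (-(u 0)⁻¹) • ∑ i : Fin 2, u i.succ • rv M (qc x) i := by
      rw [Finset.smul_sum]
      refine Finset.sum_congr rfl fun i _ => ?_
      rw [ha, smul_smul]
    rw [h1]
    have h2 : ∑ i : Fin 2, u i.succ • rv M (qc x) i = -(u 0 • qc f.2) := by
      rw [eq_neg_iff_add_eq_zero, add_comm]
      exact hu'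
    rw [h2, smul_neg, neg_smul, neg_neg, smul_smul, inv_mul_cancel₀ hu00, one_smul]
  have ha0 : a ≠ 0 := by
    intro h
    rw [h] at hza
    simp only [Pi.zero_apply, zero_smul, Finset.sum_const_zero] at hza
    exact qc_ne hf2 hza.symm
  set g : ℚ := a 0 * β 0 + a 1 * β 1 with hg
  have hwa : ∑ i, a i • rv M (qc f.1) i = g • qc f.2 := sum_prop hβ2
  by_cases hg0 : g = 0
  · exfalso
    -- a is proportional to t
    obtain ⟨c, hc⟩ := line (s := β) (a := t) (b := a) hβ0 ht0 (by linear_combination hβ1)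
      (by linear_combination hg0)
    have hc0 : c ≠ 0 := by
      intro h
      rw [h, zero_smul] at hc
      exact ha0 hc
    have hwt : ∑ i, t i • rv M (qc f.1) i = 0 := by
      rw [sum_prop hβ2, hβ1, zero_smul]
    obtain ⟨v, hv, hv0⟩ := Matrix.exists_mulVec_eq_zero_iff.2 (det_of_rv (qc_ne hf1) hwt)
    rw [pm_mulVec] at hv0
    have hva : ∑ i, a i • cv M v i = 0 := by
      have : ∑ i, a i • cv M v i = c • ∑ i, t i • cv M v i := by
        rw [Finset.smul_sum]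
        refine Finset.sum_congr rfl fun i _ => ?_
        rw [hc, Pi.smul_apply, smul_assoc]
      rw [this, hv0, smul_zero]
    have hzv : qc f.2 ⬝ᵥ v = 0 := by
      rw [← hza, sum_dotProduct]
      have h1 : ∀ i, (a i • rv M (qc x) i) ⬝ᵥ v = qc x ⬝ᵥ (a i • cv M v i) := by
        intro i
        rw [smul_dotProduct, dotProduct_smul]
        unfold rv cv
        rw [dotProduct_mulVec]
      rw [Finset.sum_congr rfl fun i _ => h1 i, ← dotProduct_sum, hva, dotProduct_zero]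
    refine ht0 (rat_smooth hs (qc_ne hf1) hv (inc_iff_rv.2 ?_) hv0 hwt)
    intro i
    rw [hβ2 i, smul_dotProduct, hzv, smul_zero]
  · -- the difference
    have hlin : ∀ (b : ℚ) (p q : Fin N → ℚ) i, rv M (b • p - q) i = b • rv M p i - rv M q i := by
      intro b p q i
      unfold rv
      rw [sub_vecMul, smul_vecMul]
    have hud : ∑ i, a i • rv M (g • qc x - qc f.1) i = 0 := by
      have h1 : ∑ i, a i • rv M (g • qc x - qc f.1) i =
          g • (∑ i, a i • rv M (qc x) i) - ∑ i, a i • rv M (qc f.1) i := by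
        rw [Finset.smul_sum, ← Finset.sum_sub_distrib]
        refine Finset.sum_congr rfl fun i _ => ?_
        rw [hlin, smul_sub, smul_comm]
      rw [h1, hza, hwa, sub_self]
    have hne : g • qc x - qc f.1 ≠ 0 := by
      intro h0
      have h1 : qc x = g⁻¹ • qc f.1 := by
        have h2 : qc f.1 = g • qc x := (sub_eq_zero.1 h0).symm
        rw [h2, smul_smul, inv_mul_cancel₀ hg0, one_smul]
      have h3 : ∑ i, t i • rv M (qc x) i = 0 := by
        have h4 : ∀ i, rv M (qc x) i = (g⁻¹ * β i) • qc f.2 := by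
          intro i
          have h5 : rv M (g⁻¹ • qc f.1) i = g⁻¹ • rv M (qc f.1) i := by
            unfold rv
            rw [smul_vecMul]
          rw [h1, h5, hβ2 i, smul_smul]
        rw [sum_prop h4]
        have h5 : t 0 * (g⁻¹ * β 0) + t 1 * (g⁻¹ * β 1) = 0 := by
          linear_combination g⁻¹ * hβ1
        rw [h5, zero_smul]
      exact ht0 (funext (Fintype.linearIndependent_iff.1 hxi _ h3))
    obtain ⟨f', hf', β', hβ'0, hβ'1, hβ'2⟩ := hF.2 a ha0 (det_of_rv hne hud)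
    have hf'1 : qc f'.1 ≠ 0 := qc_ne (hF.1 f' hf').1
    obtain ⟨c, hc⟩ := ker_one' hs ha0 hf'1 (x' := g • qc x - qc f.1) (by
      rw [sum_prop hβ'2, hβ'1, zero_smul]) hud
    refine ⟨f, hf, f', hf', g⁻¹, g⁻¹ * c, ?_⟩
    have h2 : g • qc x = qc f.1 + c • qc f'.1 := by
      rw [← hc]
      abel
    have h3 : qc x = g⁻¹ • (g • qc x) := by
      rw [smul_smul, inv_mul_cancel₀ hg0, one_smul]
    rw [h3, h2, smul_add, smul_smul]

/-- The integer vectors in a plane. -/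
noncomputable def pl {N : ℕ} (v w : Fin N → ℤ) : AddSubgroup (Fin N → ℤ) where
  carrier := {x | rc x ∈ Submodule.span ℝ (Set.range ![rc v, rc w])}
  add_mem' := by
    intro a b ha hb
    have h : rc (a + b) = rc a + rc b := by
      funext i
      simp [rc]
    show rc (a + b) ∈ Submodule.span ℝ (Set.range ![rc v, rc w])
    rw [h]
    exact Submodule.add_mem _ ha hb
  zero_mem' := by
    have h : rc (0 : Fin N → ℤ) = 0 := by
      funext i
      simp [rc]
    show rc 0 ∈ Submodule.span ℝ (Set.range ![rc v, rc w])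
    rw [h]
    exact Submodule.zero_mem _
  neg_mem' := by
    intro a ha
    have h : rc (-a) = -rc a := by
      funext i
      simp [rc]
    show rc (-a) ∈ Submodule.span ℝ (Set.range ![rc v, rc w])
    rw [h]
    exact Submodule.neg_mem _ ha

theorem mem_pl {N : ℕ} {x v w : Fin N → ℤ} {c c' : ℚ} (h : qc x = c • qc v + c' • qc w) :
    x ∈ pl v w := by
  show rc x ∈ Submodule.span ℝ (Set.range ![rc v, rc w])
  have h1 : rc x = (c : ℝ) • rc v + (c' : ℝ) • rc w := by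
    funext i
    have h2 := congrFun h i
    simp only [qc, rc, Pi.add_apply, Pi.smul_apply, smul_eq_mul] at h2 ⊢
    have h3 : (((x i : ℤ) : ℚ) : ℝ) = ((c * (v i : ℚ) + c' * (w i : ℚ) : ℚ) : ℝ) := by
      rw [h2]
    push_cast at h3
    exact h3
  rw [h1]
  refine Submodule.add_mem _ (Submodule.smul_mem _ _ (Submodule.subset_span ⟨0, rfl⟩))
    (Submodule.smul_mem _ _ (Submodule.subset_span ⟨1, rfl⟩))

open Classical in
theorem card_pl {N : ℕ} (v w : Fin N → ℤ) (A : ℕ) (hA : 1 ≤ A) :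
    (((bx N A).filter (· ∈ pl v w)).card : ℝ) ≤ 3 ^ N * (9 * (A : ℝ) ^ 2) := by
  have hfr : finrank ℝ (Submodule.span ℝ (Set.range ![rc v, rc w])) ≤ 2 := by
    have h := finrank_range_le_card (R := ℝ) ![rc v, rc w]
    rw [Fintype.card_fin] at h
    exact h
  have h1 := Pool.Agent.H548.BL.doubling (pl v w) _ hfr (fun x hx => hx) A 1 le_rfl hA
  have h2 : (((bx N 1).filter (· ∈ pl v w)).card : ℝ) ≤ 3 ^ N := by
    have h3 := Finset.card_filter_le (bx N 1) (· ∈ pl v w)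
    have h4 := Pool.Agent.H548.WM.card_bx_le N (X := 1) le_rfl
    have h5 : (((bx N 1).filter (· ∈ pl v w)).card : ℝ) ≤ ((bx N 1).card : ℝ) := by
      exact_mod_cast h3
    calc (((bx N 1).filter (· ∈ pl v w)).card : ℝ) ≤ (bx N 1).card := h5
      _ ≤ (3 * ((1 : ℕ) : ℝ)) ^ N := h4
      _ = 3 ^ N := by norm_num
  calc (((bx N A).filter (· ∈ pl v w)).card : ℝ) ≤ _ := h1
    _ ≤ (3 * A / ((1 : ℕ) : ℝ)) ^ 2 * 3 ^ N := by gcongr
    _ = _ := by
      rw [Nat.cast_one, div_one]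
      ring

theorem side {N : ℕ} {M : Fin 2 → Matrix (Fin N) (Fin N) ℤ} (hN : 5 ≤ N) (hs : Smooth M)
    {F F' : Finset ((Fin N → ℤ) × (Fin N → ℤ))} (hF : Good M F) (hF' : Good (tr M) F') :
    Side M (F'.image Prod.snd) (F.image Prod.snd) := by
  classical
  refine ⟨fun x hx y hy hinc => side1 hs hF' x hx.2 y hy hinc, ?_⟩
  refine ⟨(F.card : ℝ) * F.card * (3 ^ N * 9), fun A hA => ?_⟩
  have hsub : ((bx N A).filter fun x => GX M (F'.image Prod.snd) x ∧ ∃ z ∈ F.image Prod.snd,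
      ¬ LinearIndependent ℤ (Fin.cons z (rv M x) : Fin (2 + 1) → Fin N → ℤ)) ⊆
      (F ×ˢ F).biUnion fun f => (bx N A).filter (· ∈ pl f.1.1 f.2.1) := by
    intro x hx
    rw [mem_filter] at hx
    obtain ⟨hxA, hxg, z, hz, hdep⟩ := hx
    obtain ⟨f, hf, f', hf', c, c', hc⟩ := side2 hs hF x hxg.1 z hz hdep
    rw [mem_biUnion]
    refine ⟨(f, f'), mem_product.2 ⟨hf, hf'⟩, ?_⟩
    rw [mem_filter]
    exact ⟨hxA, mem_pl hc⟩
  have h1 := (card_le_card hsub).trans card_biUnion_le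
  have h2 : ((∑ f ∈ F ×ˢ F, ((bx N A).filter (· ∈ pl f.1.1 f.2.1)).card : ℕ) : ℝ) ≤
      ∑ f ∈ F ×ˢ F, 3 ^ N * (9 * (A : ℝ) ^ 2) := by
    push_cast
    exact Finset.sum_le_sum fun f _ => card_pl f.1.1 f.2.1 A hA
  have h3 : (A : ℝ) ^ 2 ≤ (A : ℝ) ^ (N - 2 - 1) :=
    pow_le_pow_right₀ (by exact_mod_cast hA) (by omega)
  have h4 := (Nat.cast_le (α := ℝ)).2 h1
  refine h4.trans (h2.trans ?_)
  rw [Finset.sum_const, card_product, nsmul_eq_mul]
  push_cast
  calc (F.card : ℝ) * F.card * (3 ^ N * (9 * (A : ℝ) ^ 2)) =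
      (F.card : ℝ) * F.card * (3 ^ N * 9) * (A : ℝ) ^ 2 := by ring
    _ ≤ _ := by gcongr

/-- A subspace which is not contained in finitely many subspaces has an integer vector outside of
them. -/
theorem avoid {N : ℕ} (W : Submodule ℚ (Fin N → ℚ)) (P : Finset (Submodule ℚ (Fin N → ℚ)))
    (h : ∀ p ∈ P, ¬ W ≤ p) : ∃ x : Fin N → ℤ, qc x ∈ W ∧ ∀ p ∈ P, qc x ∉ p := by
  classical
  have h1 : (⊤ : Submodule ℚ W) ∉ P.image fun p => p.comap W.subtype := by
    intro h2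
    rw [mem_image] at h2
    obtain ⟨p, hp, hpt⟩ := h2
    apply h p hp
    intro x hx
    have h3 : (⟨x, hx⟩ : W) ∈ p.comap W.subtype := by
      rw [hpt]
      exact Submodule.mem_top
    exact h3
  have h2 := Subspace.biUnion_ne_univ_of_top_notMem h1
  rw [Set.ne_univ_iff_exists_notMem] at h2
  obtain ⟨x, hx⟩ := h2
  obtain ⟨d, w, hd, hw⟩ := clear x.1
  refine ⟨w, ?_, ?_⟩
  · rw [hw]
    exact W.smul_mem _ x.2
  · intro p hp hwp
    apply hx
    rw [Set.mem_iUnion₂]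
    refine ⟨p.comap W.subtype, mem_image_of_mem _ hp, ?_⟩
    show x.1 ∈ p
    have : x.1 = d⁻¹ • qc w := by
      rw [hw, smul_smul, inv_mul_cancel₀ hd, one_smul]
    rw [this]
    exact p.smul_mem _ hwp

/-- The rational vectors orthogonal to an integer vector. -/
def perp {N : ℕ} (z : Fin N → ℤ) : Submodule ℚ (Fin N → ℚ) where
  carrier := {x | qc z ⬝ᵥ x = 0}
  add_mem' := by
    intro a b ha hb
    show qc z ⬝ᵥ (a + b) = 0
    rw [dotProduct_add, ha, hb, add_zero]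
  zero_mem' := dotProduct_zero _
  smul_mem' := by
    intro c a ha
    show qc z ⬝ᵥ (c • a) = 0
    rw [dotProduct_smul, ha, smul_zero]

theorem mem_perp {N : ℕ} {z : Fin N → ℤ} {x : Fin N → ℚ} : x ∈ perp z ↔ qc z ⬝ᵥ x = 0 := Iff.rfl

theorem perp_ne {N : ℕ} {z : Fin N → ℤ} (hz : z ≠ 0) : ¬ (⊤ : Submodule ℚ (Fin N → ℚ)) ≤ perp z := by
  intro h
  have h1 : ∀ x, qc z ⬝ᵥ x = 0 := fun x => h Submodule.mem_top
  exact qc_ne hz (dotProduct_eq_zero _ h1)

theorem span_ne {N : ℕ} (hN : 5 ≤ N) (v w : Fin N → ℚ) :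
    ¬ (⊤ : Submodule ℚ (Fin N → ℚ)) ≤ Submodule.span ℚ (Set.range ![v, w]) := by
  intro h
  have h1 := Submodule.finrank_mono h
  rw [finrank_top, finrank_fintype_fun_eq_card, Fintype.card_fin] at h1
  have h2 := finrank_range_le_card (R := ℚ) ![v, w]
  have h3 : Set.finrank ℚ (Set.range ![v, w]) =
    finrank ℚ (Submodule.span ℚ (Set.range ![v, w])) := rfl
  rw [h3] at h2
  simp at h2
  omega

theorem span_mem {N : ℕ} {x v w : Fin N → ℚ} {c c' : ℚ} (h : x = c • v + c' • w) :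
    x ∈ Submodule.span ℚ (Set.range ![v, w]) := by
  rw [h]
  exact Submodule.add_mem _ (Submodule.smul_mem _ _ (Submodule.subset_span ⟨0, rfl⟩))
    (Submodule.smul_mem _ _ (Submodule.subset_span ⟨1, rfl⟩))

end KK

open KK in
theorem k : StmtK := by
  classical
  intro N M hN hs
  obtain ⟨F, hF⟩ := exists_good hs
  obtain ⟨F', hF'⟩ := exists_good (smooth_tr hs)
  refine ⟨F'.image Prod.snd, F.image Prod.snd, side hN hs hF hF', ?_, ?_⟩
  · refine side hN (smooth_tr hs) hF' ?_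
    rw [tr_tr]
    exact hF
  -- the vector x
  obtain ⟨x, -, hx⟩ := avoid (⊤ : Submodule ℚ (Fin N → ℚ))
    (insert ⊥ ((F'.image fun f => perp f.2) ∪ (F ×ˢ F).image fun f =>
      Submodule.span ℚ (Set.range ![qc f.1.1, qc f.2.1]))) (by
    intro p hp
    rw [mem_insert, mem_union, mem_image, mem_image] at hp
    rcases hp with rfl | ⟨f, hf, rfl⟩ | ⟨f, hf, rfl⟩
    · intro h
      exact span_ne hN 0 0 (h.trans bot_le)
    · exact perp_ne (hF'.1 f hf).2.1
    · exact span_ne hN _ _)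
  have hx0 : qc x ≠ 0 := by
    have := hx ⊥ (mem_insert_self _ _)
    rwa [Submodule.mem_bot] at this
  have hxp : ∀ f ∈ F', x ⬝ᵥ f.2 ≠ 0 := by
    intro f hf h0
    have h1 := hx (perp f.2) (mem_insert_of_mem (mem_union_left _ (mem_image_of_mem _ hf)))
    apply h1
    rw [mem_perp, qc_dot, dotProduct_comm, h0]
    simp
  have hxs : ∀ f ∈ F, ∀ f' ∈ F, ∀ c c' : ℚ, qc x ≠ c • qc f.1 + c' • qc f'.1 := by
    intro f hf f' hf' c c' h0
    have h1 := hx (Submodule.span ℚ (Set.range ![qc f.1, qc f'.1]))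
      (mem_insert_of_mem (mem_union_right _ (mem_image.2 ⟨(f, f'), mem_product.2 ⟨hf, hf'⟩, rfl⟩)))
    exact h1 (span_mem h0)
  have hxi : LinearIndependent ℤ (rv M x) := by
    by_contra hdep
    obtain ⟨s, hs0, hrel⟩ := Pool.Agent.H548.BL.exists_rel hdep
    have hrel' : ∑ i, s i • rv M (qc x) i = 0 := by
      funext p
      rw [Finset.sum_apply]
      rw [Pi.zero_apply, ← hrel p]
      refine Finset.sum_congr rfl fun i _ => ?_
      rw [rv_qc]
      rfl
    obtain ⟨f, hf, β, hβ0, hβ1, hβ2⟩ := hF.2 s hs0 (det_of_rv hx0 hrel')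
    obtain ⟨c, hc⟩ := ker_one' hs hs0 (qc_ne (hF.1 f hf).1) (x' := qc x) (by
      rw [sum_prop hβ2, hβ1, zero_smul]) hrel'
    exact hxs f hf f hf c 0 (by rw [hc, zero_smul, add_zero])
  have hcons : ∀ f ∈ F, LinearIndependent ℤ
      (Fin.cons f.2 (rv M x) : Fin (2 + 1) → Fin N → ℤ) := by
    intro f hf
    by_contra hdep
    obtain ⟨f1, hf1, f2, hf2, c, c', hc⟩ :=
      side2 hs hF x hxi f.2 (mem_image_of_mem _ hf) hdep
    exact hxs f1 hf1 f2 hf2 c c' hc
  -- the vector y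
  set W : Submodule ℚ (Fin N → ℚ) := perp (rv M x 0) ⊓ perp (rv M x 1) with hW
  have hWp : ∀ z : Fin N → ℤ, LinearIndependent ℤ (Fin.cons z (rv M x) : Fin (2 + 1) → Fin N → ℤ) →
      ¬ W ≤ perp z := by
    intro z hz hle
    let L : (Fin N → ℤ) → ((Fin N → ℚ) →ₗ[ℚ] ℚ) := fun z =>
      { toFun := fun v => qc z ⬝ᵥ v
        map_add' := fun a b => dotProduct_add _ _ _
        map_smul' := fun c a => by rw [dotProduct_smul]; rfl }
    have h1 : L z ∈ Submodule.span ℚ (Set.range fun i : Fin 2 => L (rv M x i)) := by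
      apply mem_span_of_iInf_ker_le_ker
      intro v hv
      rw [Submodule.mem_iInf] at hv
      show v ∈ perp z
      apply hle
      exact ⟨hv 0, hv 1⟩
    rw [Submodule.mem_span_range_iff_exists_fun] at h1
    obtain ⟨c, hc⟩ := h1
    have h2 : qc z = ∑ i, c i • qc (rv M x i) := by
      have h3 : ∀ v, (∑ i, c i • qc (rv M x i)) ⬝ᵥ v = qc z ⬝ᵥ v := by
        intro v
        have h4 := congrArg (fun l => l v) hc
        simp only [LinearMap.sum_apply, LinearMap.smul_apply] at h4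
        rw [sum_dotProduct]
        simp only [smul_dotProduct]
        exact h4
      exact (dotProduct_eq _ _ h3).symm
    have h5 := Fintype.linearIndependent_iff.1 (li_iff.1 hz) (Fin.cons (-1) c) (by
      rw [Fin.sum_univ_succ]
      simp only [Fin.cons_zero, Fin.cons_succ]
      rw [← h2, neg_smul, one_smul, neg_add_cancel]) 0
    simp at h5
  obtain ⟨y, hyW, hy⟩ := avoid W (insert ⊥ (F.image fun f => perp f.2)) (by
    intro p hp
    rw [mem_insert, mem_image] at hp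
    rcases hp with rfl | ⟨f, hf, rfl⟩
    · intro h
      -- the dimension of W
      have h1 : ∃ v : Fin N → ℚ, v ≠ 0 ∧ v ∈ W := by
        have h2 := LinearMap.ker_ne_bot_of_finrank_lt
          (f := (Matrix.of fun i : Fin 2 => qc (rv M x i)).mulVecLin) (by
            rw [finrank_fintype_fun_eq_card, finrank_fintype_fun_eq_card, Fintype.card_fin,
              Fintype.card_fin]
            omega)
        obtain ⟨v, hv, hv0⟩ := Submodule.exists_mem_ne_zero_of_ne_bot h2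
        rw [LinearMap.mem_ker, Matrix.mulVecLin_apply] at hv
        exact ⟨v, hv0, congrFun hv 0, congrFun hv 1⟩
      obtain ⟨v, hv0, hv⟩ := h1
      exact hv0 ((Submodule.mem_bot ℚ).1 (h hv))
    · exact hWp f.2 (hcons f hf))
  have hy0 : y ≠ 0 := by
    intro h0
    apply hy ⊥ (mem_insert_self _ _)
    rw [h0, qc_zero]
    exact Submodule.zero_mem _
  have hinc : Inc M x y := by
    rw [inc_iff_rv]
    have h1 : ∀ i : Fin 2, qc (rv M x i) ⬝ᵥ qc y = 0 := by
      intro i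
      fin_cases i
      · exact hyW.1
      · exact hyW.2
    intro i
    have h2 := h1 i
    rw [qc_dot] at h2
    exact_mod_cast h2
  refine ⟨x, y, hinc, ⟨hxi, ?_⟩, ?_, ?_⟩
  · intro z hz
    rw [mem_image] at hz
    obtain ⟨f, hf, rfl⟩ := hz
    exact hxp f hf
  · rw [rv_tr]
    refine side1 hs hF' x ?_ y hy0 hinc
    intro z hz
    rw [mem_image] at hz
    obtain ⟨f, hf, rfl⟩ := hz
    exact hxp f hf
  · intro z hz
    rw [mem_image] at hz
    obtain ⟨f, hf, rfl⟩ := hz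
    intro h0
    apply hy (perp f.2) (mem_insert_of_mem (mem_image_of_mem _ hf))
    rw [mem_perp, qc_dot, dotProduct_comm, h0]
    simp

end Pool.Agent.T6.H81.BA
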