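import Mathlib
import Pool.Agent.T6.H81.BA.Defs

namespace Pool.Agent.T6.H81.BA

open Finset Filter Topology

/-- Two functions which are close to each other at comparable arguments converge to the same
limit. -/
theorem t_lim (f g : ℕ → ℝ) (C δ : ℝ) (hδ : 0 < δ) (hC : 0 ≤ C)
    (h : ∀ A Y : ℕ, 1 ≤ A → 1 ≤ Y → A ≤ 2 * Y → Y ≤ 2 * A →
      |f A - g Y| ≤ C * ((A : ℝ) ^ (-δ) + (Y : ℝ) ^ (-δ))) :
    ∃ κ D : ℝ, 0 ≤ D ∧ (∀ A : ℕ, 1 ≤ A → |f A - κ| ≤ D * (A : ℝ) ^ (-δ)) ∧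
      ∀ A : ℕ, 1 ≤ A → |g A - κ| ≤ D * (A : ℝ) ^ (-δ) := by
  have mono : ∀ A B : ℕ, 1 ≤ A → A ≤ B → (B : ℝ) ^ (-δ) ≤ (A : ℝ) ^ (-δ) := by
    intro A B hA hAB
    apply Real.rpow_le_rpow_of_nonpos _ _ (by linarith)
    · exact_mod_cast hA
    · exact_mod_cast hAB
  have key : ∀ A B : ℕ, 1 ≤ A → A ≤ B → B ≤ 2 * A → |f B - f A| ≤ 4 * C * (A : ℝ) ^ (-δ) := by
    intro A B hA hAB hB
    have h1 := h A A hA hA (by omega) (by omega)
    have h2 := h B A (by omega) hA hB (by omega)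
    have h3 := mono A B hA hAB
    have h4 : f B - f A = (f B - g A) - (f A - g A) := by ring
    rw [h4]
    refine (abs_sub _ _).trans ?_
    nlinarith
  set r : ℝ := (2 : ℝ) ^ (-δ) with hr
  have hr0 : 0 < r := Real.rpow_pos_of_pos (by norm_num) _
  have hr1 : r < 1 := Real.rpow_lt_one_of_one_lt_of_neg (by norm_num) (by linarith)
  have hpow : ∀ n : ℕ, ((2 ^ n : ℕ) : ℝ) ^ (-δ) = r ^ n := by
    intro n
    push_cast
    rw [hr, ← Real.rpow_natCast, ← Real.rpow_natCast, ← Real.rpow_mul (by norm_num),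
      ← Real.rpow_mul (by norm_num), mul_comm]
  have hgeo : ∀ n : ℕ, dist (f (2 ^ n)) (f (2 ^ (n + 1))) ≤ 4 * C * r ^ n := by
    intro n
    have := key (2 ^ n) (2 ^ (n + 1)) Nat.one_le_two_pow (by rw [pow_succ]; omega)
      (by rw [pow_succ]; omega)
    rw [hpow] at this
    rw [dist_comm, Real.dist_eq]
    exact this
  have hcau := cauchySeq_of_le_geometric r (4 * C) hr1 hgeo
  obtain ⟨κ, hκ⟩ := cauchySeq_tendsto_of_complete hcau
  have hdist := dist_le_of_le_geometric_of_tendsto r (4 * C) hr1 hgeo hκ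
  have hr1' : 0 < 1 - r := by linarith
  set D1 : ℝ := (4 * C + 4 * C / (1 - r)) * (2 : ℝ) ^ δ with hD1
  have hD1n : 0 ≤ D1 := by positivity
  have hf : ∀ A : ℕ, 1 ≤ A → |f A - κ| ≤ D1 * (A : ℝ) ^ (-δ) := by
    intro A hA
    have hn1 : 2 ^ Nat.log 2 A ≤ A := Nat.pow_log_le_self 2 (by omega)
    have hn2 : A < 2 ^ (Nat.log 2 A + 1) := Nat.lt_pow_succ_log_self (by norm_num) A
    set n := Nat.log 2 A
    have h1 := key (2 ^ n) A Nat.one_le_two_pow hn1 (by rw [pow_succ] at hn2; omega)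
    rw [hpow] at h1
    have h2 := hdist n
    rw [Real.dist_eq] at h2
    have h3 : f A - κ = (f A - f (2 ^ n)) + (f (2 ^ n) - κ) := by ring
    have h4 : |f A - κ| ≤ (4 * C + 4 * C / (1 - r)) * r ^ n := by
      rw [h3]
      refine (abs_add_le _ _).trans ?_
      have : 4 * C * r ^ n / (1 - r) = 4 * C / (1 - r) * r ^ n := by ring
      rw [this] at h2
      linarith
    refine h4.trans ?_
    rw [hD1, mul_assoc]
    apply mul_le_mul_of_nonneg_left _ (by positivity)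
    rw [← hpow n]
    have h5 : (2 : ℝ) ^ δ * (A : ℝ) ^ (-δ) = ((A : ℝ) / 2) ^ (-δ) := by
      rw [Real.div_rpow (by positivity) (by norm_num), Real.rpow_neg (by norm_num : (0:ℝ) ≤ 2) δ,
        div_inv_eq_mul, mul_comm]
    rw [h5]
    apply Real.rpow_le_rpow_of_nonpos _ _ (by linarith)
    · have : (0 : ℝ) < A := by exact_mod_cast hA
      positivity
    · have : (A : ℝ) ≤ 2 * ((2 ^ n : ℕ) : ℝ) := by
        have h6 : A ≤ 2 * 2 ^ n := by rw [pow_succ] at hn2; omega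
        exact_mod_cast h6
      linarith
  refine ⟨κ, D1 + 2 * C, by positivity, ?_, ?_⟩
  · intro A hA
    refine (hf A hA).trans ?_
    have : 0 ≤ (A : ℝ) ^ (-δ) := by positivity
    nlinarith
  · intro A hA
    have h1 := h A A hA hA (by omega) (by omega)
    have h2 := hf A hA
    have h3 : g A - κ = (f A - κ) - (f A - g A) := by ring
    rw [h3]
    refine (abs_sub _ _).trans ?_
    linarith

theorem t : StmtT := by
  intro a P S S' C δ hδ h1 h2
  have hC : 0 ≤ C := by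
    have := h1 1 1 le_rfl le_rfl (by norm_num)
    simp at this
    exact (abs_nonneg _).trans this
  have e1 : ∀ A Y : ℕ, 1 ≤ A → 1 ≤ Y → A ≤ 2 * Y →
      |P A Y / ((A : ℝ) * Y) ^ a - S A / (A : ℝ) ^ a| ≤ C * (A : ℝ) ^ (-δ) := by
    intro A Y hA hY hAY
    have hA' : (0 : ℝ) < A := by exact_mod_cast hA
    have hY' : (0 : ℝ) < Y := by exact_mod_cast hY
    have hp : 0 < ((A : ℝ) * Y) ^ a := by positivity
    have h := h1 A Y hA hY hAY
    have he : P A Y / ((A : ℝ) * Y) ^ a - S A / (A : ℝ) ^ a =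
        (P A Y - S A * (Y : ℝ) ^ a) / ((A : ℝ) * Y) ^ a := by
      rw [mul_pow]; field_simp
    rw [he, abs_div, abs_of_pos hp, div_le_iff₀ hp]
    linarith
  have e2 : ∀ A Y : ℕ, 1 ≤ A → 1 ≤ Y → Y ≤ 2 * A →
      |P A Y / ((A : ℝ) * Y) ^ a - S' Y / (Y : ℝ) ^ a| ≤ C * (Y : ℝ) ^ (-δ) := by
    intro A Y hA hY hAY
    have hA' : (0 : ℝ) < A := by exact_mod_cast hA
    have hY' : (0 : ℝ) < Y := by exact_mod_cast hY
    have hp : 0 < ((A : ℝ) * Y) ^ a := by positivity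
    have h := h2 A Y hA hY hAY
    have he : P A Y / ((A : ℝ) * Y) ^ a - S' Y / (Y : ℝ) ^ a =
        (P A Y - S' Y * (A : ℝ) ^ a) / ((A : ℝ) * Y) ^ a := by
      rw [mul_pow]; field_simp
    rw [he, abs_div, abs_of_pos hp, div_le_iff₀ hp]
    linarith
  obtain ⟨κ, D, hD, hf, hg⟩ := t_lim (fun A => S A / (A : ℝ) ^ a) (fun Y => S' Y / (Y : ℝ) ^ a)
    C δ hδ hC (by
      intro A Y hA hY hAY hYA
      have h3 := e1 A Y hA hY hAY
      have h4 := e2 A Y hA hY hYA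
      have h5 : S A / (A : ℝ) ^ a - S' Y / (Y : ℝ) ^ a =
        (P A Y / ((A : ℝ) * Y) ^ a - S' Y / (Y : ℝ) ^ a) -
          (P A Y / ((A : ℝ) * Y) ^ a - S A / (A : ℝ) ^ a) := by ring
      rw [h5]
      refine (abs_sub _ _).trans ?_
      linarith)
  -- the error
  have herr : ∀ A Y : ℕ, 1 ≤ A → 1 ≤ Y → ∀ m : ℕ, 1 ≤ m → m ≤ A → m ≤ Y →
      |P A Y - κ * ((A : ℝ) * Y) ^ a| ≤ (C + D) * (m : ℝ) ^ (-δ) * ((A : ℝ) * Y) ^ a := by
    intro A Y hA hY m hm hmA hmY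
    have hA' : (0 : ℝ) < A := by exact_mod_cast hA
    have hY' : (0 : ℝ) < Y := by exact_mod_cast hY
    have hp : 0 < ((A : ℝ) * Y) ^ a := by positivity
    have mA : (A : ℝ) ^ (-δ) ≤ (m : ℝ) ^ (-δ) := by
      apply Real.rpow_le_rpow_of_nonpos _ _ (by linarith)
      · exact_mod_cast hm
      · exact_mod_cast hmA
    have mY : (Y : ℝ) ^ (-δ) ≤ (m : ℝ) ^ (-δ) := by
      apply Real.rpow_le_rpow_of_nonpos _ _ (by linarith)
      · exact_mod_cast hm
      · exact_mod_cast hmY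
    have hdiv : |P A Y / ((A : ℝ) * Y) ^ a - κ| ≤ (C + D) * (m : ℝ) ^ (-δ) := by
      rcases le_total A Y with hle | hle
      · have h3 := e1 A Y hA hY (by omega)
        have h4 := hf A hA
        have h5 : P A Y / ((A : ℝ) * Y) ^ a - κ =
          (P A Y / ((A : ℝ) * Y) ^ a - S A / (A : ℝ) ^ a) + (S A / (A : ℝ) ^ a - κ) := by ring
        rw [h5]
        refine (abs_add_le _ _).trans ?_
        nlinarith
      · have h3 := e2 A Y hA hY (by omega)
        have h4 := hg Y hY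
        have h5 : P A Y / ((A : ℝ) * Y) ^ a - κ =
          (P A Y / ((A : ℝ) * Y) ^ a - S' Y / (Y : ℝ) ^ a) + (S' Y / (Y : ℝ) ^ a - κ) := by ring
        rw [h5]
        refine (abs_add_le _ _).trans ?_
        nlinarith
    have he : P A Y - κ * ((A : ℝ) * Y) ^ a = (P A Y / ((A : ℝ) * Y) ^ a - κ) *
        ((A : ℝ) * Y) ^ a := by
      field_simp
    rw [he, abs_mul, abs_of_pos hp]
    exact mul_le_mul_of_nonneg_right hdiv hp.le
  refine ⟨κ, κ + (C + D), ?_, ?_⟩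
  · intro ε hε
    have hlim : Tendsto (fun m : ℕ => (C + D) * (m : ℝ) ^ (-δ)) atTop (𝓝 0) := by
      have h3 : Tendsto (fun m : ℕ => (m : ℝ) ^ (-δ)) atTop (𝓝 0) :=
        (tendsto_rpow_neg_atTop hδ).comp tendsto_natCast_atTop_atTop
      simpa using h3.const_mul (C + D)
    obtain ⟨m, hm, hm1⟩ := ((hlim.eventually (ge_mem_nhds hε)).and
      (eventually_ge_atTop 1)).exists
    refine ⟨m, fun A Y hA hY => ?_⟩
    have hp : 0 ≤ ((A : ℝ) * Y) ^ a := by positivity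
    refine (herr A Y (by omega) (by omega) m hm1 hA hY).trans ?_
    exact mul_le_mul_of_nonneg_right hm hp
  · intro A Y hA hY
    have h3 := herr A Y hA hY 1 le_rfl hA hY
    simp only [Nat.cast_one, Real.one_rpow, mul_one] at h3
    have h4 := (abs_le.1 h3).2
    linarith

end Pool.Agent.T6.H81.BA
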