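import Mathlib
import Pool.Agent.T6.H81.BA.F3
import Pool.Agent.T6.H81.BA.C2
import Pool.Agent.T6.H81.BA.E
import Pool.Agent.T6.H81.BA.T
import Pool.Agent.T6.H81.BA.H
import Pool.Agent.T6.H81.BA.K

/-! The asymptotic formula for all adelic heights: the two cases. -/

namespace Pool.Agent.T6.H81.BA

open Finset Module Matrix Filter Topology
open Pool.Agent.H548.BL (Smooth FinZeros tr smooth_tr finZeros_tr box finZeros_two)
open Pool.Agent.H548.BK (InV)

theorem fin2 (hL2 : StmtR2) (hZ : StmtZ) (hW : StmtW) (hN2 : StmtN2) {k N : ℕ} (hk : 2 ≤ k)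
    (hN : 2 * k + 1 ≤ N) (M : Fin k → Matrix (Fin N) (Fin N) ℤ) (hs : Smooth M)
    (hz : 3 ≤ k → NoZeros M) :
    ∃ G : MvPolynomial (Fin N ⊕ Fin N) ℤ, (NoZeros M → G = 1) ∧
      (∃ x y : Fin N → ℂ, InV M G x y) ∧
      ∀ (ψ : (Fin N → ℝ) → (Fin N → ℝ) → ℝ) (S : Finset Nat.Primes)
        (φ : ∀ p : Nat.Primes, (Fin N → ℚ_[p]) → (Fin N → ℚ_[p]) → ℝ),
        LF M ψ → (∀ p ∈ S, LF M (φ p)) → ∃ c : ℝ, 0 < c ∧
          ∀ G1 : MvPolynomial (Fin N ⊕ Fin N) ℤ, (∃ x y : Fin N → ℂ, InV M (G * G1) x y) →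
          Tendsto (fun B : ℝ => ((AA M (G * G1) ψ S φ B).ncard : ℝ) / (B * Real.log B))
            atTop (𝓝 c) := by
  have hC := c2_main hL2 e
  by_cases hnz : NoZeros M
  · have hf := finZeros_of_noZeros hnz
    have hD : Dat M ∅ ∅ :=
      ⟨by omega, by omega, hN, side_of_noZeros hnz, side_of_noZeros (noZeros_tr hnz),
        fun ε hε => box hs hf (by omega) (by omega) ε hε,
        fun ε hε => box (smooth_tr hs) (finZeros_tr hf) (by omega) (by omega) ε hε,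
        exists_of_noZeros (by omega) (by omega) hnz⟩
    have e1 : GP (∅ : Finset (Fin N → ℤ)) ∅ = 1 := by
      unfold GP
      simp
    obtain ⟨x0, y0, hi0, hx0, hy0⟩ := hD.ex
    have hcx := inV_complex (inV_iff.2 ⟨hx0, hy0, hi0⟩ : InV M (GP ∅ ∅) x0 y0)
    refine ⟨1, fun _ => rfl, by rwa [e1] at hcx, fun ψ S φ hψ hφ => ?_⟩
    have := main2 hC t h hZ hW hN2 hD ψ S φ hψ hφ
    rwa [e1] at this
  · have hk2 : k = 2 := by
      by_contra hne
      exact hnz (hz (by omega))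
    subst hk2
    obtain ⟨ZR, ZL, h1, h2, h3⟩ := Pool.Agent.T6.H81.BA.k N M (by omega) hs
    have hf := finZeros_two hs
    have hD : Dat M ZR ZL :=
      ⟨by omega, by omega, hN, h1, h2, fun ε hε => box hs hf (by omega) (by omega) ε hε,
        fun ε hε => box (smooth_tr hs) (finZeros_tr hf) (by omega) (by omega) ε hε, h3⟩
    obtain ⟨x0, y0, hi0, hx0, hy0⟩ := hD.ex
    have hcx := inV_complex (inV_iff.2 ⟨hx0, hy0, hi0⟩ : InV M (GP ZR ZL) x0 y0)
    exact ⟨GP ZR ZL, fun hh => absurd hh hnz, hcx, fun ψ S φ hψ hφ =>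
      main2 hC t h hZ hW hN2 hD ψ S φ hψ hφ⟩

end Pool.Agent.T6.H81.BA
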