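import Pool.Agent.T6.H81.BA.Defs
import Pool.Agent.T6.H68.BL.Main

/-!
# Module L: lattice points in balls
-/

namespace Pool.Agent.T6.H81.BA

open Module

theorem l : StmtL := by
  intro a ha
  refine ⟨Pool.Agent.T6.H68.BL.CC a, by unfold Pool.Agent.T6.H68.BL.CC; positivity, ?_⟩
  intro E _ _ _ L _ _ hE
  exact Pool.Agent.T6.H68.BL.main a ha L hE

end Pool.Agent.T6.H81.BA
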