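import Mathlib
import Pool.Agent.T6.H81.BA.Defs2
import Pool.Agent.T6.H81.BA.C

/-! Few pairs on a hypersurface. -/

namespace Pool.Agent.T6.H81.BA

open Finset Module Matrix
open Pool.Agent.H548.WM (ht bx mem_bx Rep ht_pos card_bx_le)
open Pool.Agent.H548.BL (rv cv Inc Smooth FinZeros tr lat mem_lat PP rc inc_iff_rv lat_card
  lat_doubling rv_tr cv_tr inc_tr tr_tr card_prod_filter)
open Pool.Agent.H548.BK (InV two AM AM_mulVec HH evz_HH Zm mul_Zm Zm_mulVec exists_minor two_map)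
open Pool.Agent.H548.TL (evz evz_map evz_int deg_evz)

/-- The value of a polynomial in the second group of variables. -/
theorem evz_inr {R : Type*} [CommRing R] {N : ℕ} (f : MvPolynomial (Fin N) ℤ) (x y : Fin N → R) :
    evz (MvPolynomial.rename Sum.inr f : MvPolynomial (Fin N ⊕ Fin N) ℤ) (two x y) = evz f y := by
  unfold evz
  rw [MvPolynomial.eval₂_rename]
  rfl

/-- A nonzero common solution. -/
theorem common {k N : ℕ} (hk : 1 ≤ k) (hkN : 2 * k + 1 ≤ N)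
    (M : Fin k → Matrix (Fin N) (Fin N) ℤ) (x x' : Fin N → ℤ) :
    ∃ y : Fin N → ℤ, y ≠ 0 ∧ Inc M x y ∧ Inc M x' y := by
  have h := Int.Matrix.exists_ne_zero_int_vec_norm_le
    (Matrix.of (Sum.elim (rv M x) (rv M x')) : Matrix (Fin k ⊕ Fin k) (Fin N) ℤ)
    (by simp; omega) (by simp; omega)
  obtain ⟨y, hy0, hy, -⟩ := h
  refine ⟨y, hy0, ?_, ?_⟩
  · rw [inc_iff_rv]
    intro i
    exact congrFun hy (Sum.inl i)
  · rw [inc_iff_rv]
    intro i
    exact congrFun hy (Sum.inr i)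

/-- A multiple of a point where a polynomial is not zero. -/
theorem exists_mul {N : ℕ} (f : MvPolynomial (Fin N) ℤ) (x : Fin N → ℤ)
    (hx : MvPolynomial.eval x f ≠ 0) (d : ℤ) (hd : d ≠ 0) :
    ∃ s : ℤ, MvPolynomial.eval ((d * s) • x) f ≠ 0 := by
  by_contra hcon
  push Not at hcon
  set F : Polynomial ℤ := evz f (fun i => Polynomial.C (x i) * Polynomial.X) with hF
  have hFe : ∀ t : ℤ, Polynomial.eval t F = MvPolynomial.eval (t • x) f := by
    intro t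
    have h1 := evz_map (Polynomial.evalRingHom t) f (fun i => Polynomial.C (x i) * Polynomial.X)
    rw [← evz_int]
    rw [Polynomial.coe_evalRingHom] at h1
    rw [hF, h1]
    congr 1
    funext i
    simp [mul_comm]
  have h0 : F = 0 := by
    apply Polynomial.eq_zero_of_infinite_isRoot
    apply Set.infinite_of_injective_forall_mem (f := fun s : ℤ => d * s)
    · intro s t hst
      exact mul_left_cancel₀ hd hst
    · intro s
      show Polynomial.eval (d * s) F = 0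
      rw [hFe]
      exact hcon s
  apply hx
  have := hFe 1
  rw [h0, Polynomial.eval_zero, one_smul] at this
  exact this.symm

/-- The polynomials which vanish on the vectors with degenerate fibres. -/
theorem exists_g {k N : ℕ} (hk : 1 ≤ k) (hkN : 2 * k + 1 ≤ N)
    (M : Fin k → Matrix (Fin N) (Fin N) ℤ) (f : MvPolynomial (Fin N) ℤ) (hf : f ≠ 0) :
    ∃ D : ℕ, ∀ x : Fin N → ℤ,
      (∀ y : Fin N → ℤ, y ≠ 0 → Inc M x y → LinearIndependent ℤ (cv M y)) →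
      ∃ g : MvPolynomial (Fin N) ℤ, g.totalDegree ≤ D ∧
        (∃ y ∈ lat (rv M x), MvPolynomial.eval y g ≠ 0) ∧
        ∀ y : Fin N → ℤ, (∀ x' ∈ lat (cv M y), MvPolynomial.eval x' f = 0) →
          MvPolynomial.eval y g = 0 := by
  classical
  obtain ⟨x', hx'⟩ : ∃ v, MvPolynomial.eval v f ≠ 0 := by
    by_contra hcon
    push Not at hcon
    apply hf
    apply MvPolynomial.funext
    intro v
    rw [hcon v, map_zero]
  set f' : MvPolynomial (Fin N ⊕ Fin N) ℤ := MvPolynomial.rename Sum.inr f with hf'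
  refine ⟨univ.sup fun J : Fin k → Fin N => (HH (tr M) J f').totalDegree, fun x hx => ?_⟩
  obtain ⟨y0, hy0, h1, h2⟩ := common hk hkN M x x'
  have hli : LinearIndependent ℤ (AM (tr M) y0).row := by
    have := hx y0 hy0 h1
    rw [← rv_tr] at this
    exact this
  obtain ⟨J, hJ⟩ := exists_minor hli
  obtain ⟨s, hs⟩ := exists_mul f x' hx' _ hJ
  set t1 : Fin N → ℤ := s • x' with ht1
  set g : MvPolynomial (Fin N) ℤ := evz (HH (tr M) J f') (two (fun i => MvPolynomial.X i)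
    (fun p => MvPolynomial.C (t1 p))) with hg
  have hge : ∀ y : Fin N → ℤ, MvPolynomial.eval y g = ((AM (tr M) y).submatrix id J).det *
      MvPolynomial.eval (Zm (AM (tr M) y) J *ᵥ t1) f := by
    intro y
    have e1 : MvPolynomial.eval y g = evz (HH (tr M) J f') (two y t1) := by
      rw [hg, evz_map, two_map]
      simp only [MvPolynomial.eval_X, MvPolynomial.eval_C]
    rw [e1, evz_HH, hf', evz_inr, evz_int]
  refine ⟨g, ?_, ⟨y0, ?_, ?_⟩, ?_⟩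
  · refine le_trans ?_ (Finset.le_sup (f := fun J : Fin k → Fin N =>
      (HH (tr M) J f').totalDegree) (mem_univ J))
    apply deg_evz
    rintro (i | i)
    · show (MvPolynomial.X i : MvPolynomial (Fin N) ℤ).totalDegree ≤ 1
      rw [MvPolynomial.totalDegree_X]
    · show (MvPolynomial.C (t1 i) : MvPolynomial (Fin N) ℤ).totalDegree ≤ 1
      rw [MvPolynomial.totalDegree_C]
      norm_num
  · rw [mem_lat]
    exact inc_iff_rv.1 h1
  · rw [hge, Zm_mulVec _ J, ht1, smul_smul]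
    · exact mul_ne_zero hJ hs
    · rw [ht1, mulVec_smul, AM_mulVec.2 (inc_tr.2 h2), smul_zero]
  · intro y hy
    rw [hge, hy, mul_zero]
    rw [mem_lat]
    intro i
    have h3 : AM (tr M) y *ᵥ (Zm (AM (tr M) y) J *ᵥ t1) = 0 := by
      rw [mulVec_mulVec, mul_Zm, zero_mulVec]
    have h4 := congrFun h3 i
    have h5 : (AM (tr M) y *ᵥ (Zm (AM (tr M) y) J *ᵥ t1)) i =
        rv (tr M) y i ⬝ᵥ (Zm (AM (tr M) y) J *ᵥ t1) := rfl
    rw [h5, rv_tr] at h4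
    exact h4

/-- The bound of the sums of the error terms, with given constants. -/
def EB {k N : ℕ} (M : Fin k → Matrix (Fin N) (Fin N) ℤ) (C δ : ℝ) : Prop :=
  ∀ A Y : ℕ, 1 ≤ A → 1 ≤ Y → A ≤ 2 * Y →
    ∀ X : Finset (Fin N → ℤ), (∀ x ∈ X, ht x ≤ A ∧ LinearIndependent ℤ (rv M x) ∧
      ∀ y : Fin N → ℤ, y ≠ 0 → Inc M x y → LinearIndependent ℤ (cv M y)) →
    ∑ x ∈ X, (1 + (Y : ℝ) / lam M x) ^ (N - k - 1) ≤
      C * ((A : ℝ) * Y) ^ (N - k) * (A : ℝ) ^ (-δ)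

theorem EB.mono {k N : ℕ} {M : Fin k → Matrix (Fin N) (Fin N) ℤ} {C C' δ δ' : ℝ} (h : EB M C δ)
    (hC0 : 0 ≤ C') (hC : C ≤ C') (hδ : δ' ≤ δ) : EB M C' δ' := by
  intro A Y hA hY hAY X hX
  refine (h A Y hA hY hAY X hX).trans ?_
  have hA' : (1 : ℝ) ≤ A := by exact_mod_cast hA
  have h1 : (A : ℝ) ^ (-δ) ≤ (A : ℝ) ^ (-δ') :=
    Real.rpow_le_rpow_of_exponent_le hA' (by linarith)
  gcongr

theorem pairs_le {α β : Type*} (S : Finset α) (T : Finset β) (P : α → β → Prop)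
    [DecidablePred fun t : α × β => P t.1 t.2] [∀ x, DecidablePred fun y => P x y]
    (c : α → ℝ) (h : ∀ x ∈ S, (((T.filter fun y => P x y).card : ℕ) : ℝ) ≤ c x) :
    ((((S ×ˢ T).filter fun t => P t.1 t.2).card : ℕ) : ℝ) ≤ ∑ x ∈ S, c x := by
  have h1 : ((S ×ˢ T).filter fun t => P t.1 t.2).card = ∑ x ∈ S, (T.filter fun y => P x y).card := by
    rw [card_filter, sum_product]
    refine Finset.sum_congr rfl fun x _ => ?_
    rw [card_filter]
  rw [h1]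
  push_cast
  exact Finset.sum_le_sum h

open Classical in
/-- The number of `y` over `x` where a polynomial vanishes. -/
theorem fibre_poly {k N D : ℕ} {C : ℝ} (hC : ∀ w : Fin k → Fin N → ℤ, LinearIndependent ℤ w →
      ∀ P : MvPolynomial (Fin N) ℤ, P.totalDegree ≤ D →
      (∃ y ∈ lat w, MvPolynomial.eval y P ≠ 0) →
      ∀ l : ℕ, 1 ≤ l → (∀ v ∈ lat w, v ≠ 0 → l ≤ ht v) →
      ∀ Y : ℕ, ((((bx N Y).filter fun v => v ∈ lat w ∧ MvPolynomial.eval v P = 0).card : ℕ) : ℝ) ≤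
        C * (1 + (Y : ℝ) / l) ^ (N - k - 1)) (hk : 1 ≤ k) (hkN : k < N)
    (M : Fin k → Matrix (Fin N) (Fin N) ℤ) (x : Fin N → ℤ) (hx : LinearIndependent ℤ (rv M x))
    (P : MvPolynomial (Fin N) ℤ) (hP : P.totalDegree ≤ D)
    (hy : ∃ y ∈ lat (rv M x), MvPolynomial.eval y P ≠ 0) (Y : ℕ) :
    ((((bx N Y).filter fun v => v ∈ lat (rv M x) ∧ MvPolynomial.eval v P = 0).card : ℕ) : ℝ) ≤
        C * (1 + (Y : ℝ) / lam M x) ^ (N - k - 1) := by
  obtain ⟨hl1, -⟩ := lamspec hk hkN M x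
  apply hC (rv M x) hx P hP hy (lam M x) hl1
  intro v hv hv0
  exact lamle hv0 (inc_iff_rv.2 (mem_lat.1 hv))

open Classical in
/-- The pairs with first factor on a hypersurface. -/
noncomputable def TF {k N : ℕ} (M : Fin k → Matrix (Fin N) (Fin N) ℤ)
    (ZR ZL : Finset (Fin N → ℤ)) (f : MvPolynomial (Fin N) ℤ) (A Y : ℕ) :
    Finset ((Fin N → ℤ) × (Fin N → ℤ)) :=
  (bx N A ×ˢ bx N Y).filter fun t => GX M ZR t.1 ∧ GX (tr M) ZL t.2 ∧ Inc M t.1 t.2 ∧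
    MvPolynomial.eval t.1 f = 0

/-- Equal boxes. -/
theorem tf_diag (hN1 : StmtN1) {k N : ℕ} (hk : 1 ≤ k) (hkN : 2 * k + 1 ≤ N)
    (M : Fin k → Matrix (Fin N) (Fin N) ℤ) (ZR ZL : Finset (Fin N → ℤ))
    (hs : Side M ZR ZL) (hs' : Side (tr M) ZL ZR) {CE δ : ℝ} (hE : EB M CE δ)
    (hE' : EB (tr M) CE δ) (f : MvPolynomial (Fin N) ℤ) (hf : f ≠ 0) :
    ∃ C : ℝ, 0 ≤ C ∧ ∀ A : ℕ, 1 ≤ A → ((TF M ZR ZL f A A).card : ℝ) ≤
      C * (CE * ((A : ℝ) * A) ^ (N - k) * (A : ℝ) ^ (-δ)) := by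
  classical
  obtain ⟨D, hD⟩ := exists_g hk hkN M f hf
  obtain ⟨C1, hC1, h1⟩ := hN1 k N f.totalDegree (by omega)
  obtain ⟨C2, hC2, h2⟩ := hN1 k N D (by omega)
  refine ⟨C1 + C2, by positivity, fun A hA => ?_⟩
  set X := (bx N A).filter fun x => GX M ZR x with hX
  set Z := (bx N A).filter fun y => GX (tr M) ZL y ∧
    ∃ x' ∈ lat (cv M y), MvPolynomial.eval x' f ≠ 0 with hZ
  -- the first part
  have e1 : ((((Z ×ˢ bx N A).filter fun t => t.2 ∈ lat (rv (tr M) t.1) ∧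
      MvPolynomial.eval t.2 f = 0).card : ℕ) : ℝ) ≤
      ∑ y ∈ Z, C1 * (1 + (A : ℝ) / lam (tr M) y) ^ (N - k - 1) := by
    apply pairs_le Z (bx N A) (fun y x => x ∈ lat (rv (tr M) y) ∧ MvPolynomial.eval x f = 0)
    intro y hy
    rw [hZ, mem_filter] at hy
    apply fibre_poly h1 hk (by omega) (tr M) y hy.2.1.1 f le_rfl
    rw [rv_tr]
    exact hy.2.2
  have e2 : ((((X ×ˢ bx N A).filter fun t => t.2 ∈ lat (rv M t.1) ∧
      ∀ x' ∈ lat (cv M t.2), MvPolynomial.eval x' f = 0).card : ℕ) : ℝ) ≤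
      ∑ x ∈ X, C2 * (1 + (A : ℝ) / lam M x) ^ (N - k - 1) := by
    apply pairs_le X (bx N A) (fun x y => y ∈ lat (rv M x) ∧
      ∀ x' ∈ lat (cv M y), MvPolynomial.eval x' f = 0)
    intro x hx
    rw [hX, mem_filter] at hx
    obtain ⟨g, hg1, hg2, hg3⟩ := hD x (hs.1 x hx.2)
    have h3 := fibre_poly h2 hk (by omega) M x hx.2.1 g hg1 hg2 A
    refine le_trans ?_ h3
    have h4 : ((bx N A).filter fun y => y ∈ lat (rv M x) ∧
        ∀ x' ∈ lat (cv M y), MvPolynomial.eval x' f = 0) ⊆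
        (bx N A).filter fun v => v ∈ lat (rv M x) ∧ MvPolynomial.eval v g = 0 := by
      intro y hy
      rw [mem_filter] at hy ⊢
      exact ⟨hy.1, hy.2.1, hg3 y hy.2.2⟩
    exact_mod_cast card_le_card h4
  have e3 : ∑ y ∈ Z, C1 * (1 + (A : ℝ) / lam (tr M) y) ^ (N - k - 1) ≤
      C1 * (CE * ((A : ℝ) * A) ^ (N - k) * (A : ℝ) ^ (-δ)) := by
    rw [← Finset.mul_sum]
    have := hE' A A hA hA (by omega) Z (by
      intro y hy
      rw [hZ, mem_filter, mem_bx] at hy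
      exact ⟨hy.1, hy.2.1.1, hs'.1 y hy.2.1⟩)
    gcongr
  have e4 : ∑ x ∈ X, C2 * (1 + (A : ℝ) / lam M x) ^ (N - k - 1) ≤
      C2 * (CE * ((A : ℝ) * A) ^ (N - k) * (A : ℝ) ^ (-δ)) := by
    rw [← Finset.mul_sum]
    have := hE A A hA hA (by omega) X (by
      intro x hx
      rw [hX, mem_filter, mem_bx] at hx
      exact ⟨hx.1, hx.2.1, hs.1 x hx.2⟩)
    gcongr
  have hsub : TF M ZR ZL f A A ⊆
      ((Z ×ˢ bx N A).filter fun t => t.2 ∈ lat (rv (tr M) t.1) ∧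
        MvPolynomial.eval t.2 f = 0).image Prod.swap ∪
      (X ×ˢ bx N A).filter fun t => t.2 ∈ lat (rv M t.1) ∧
        ∀ x' ∈ lat (cv M t.2), MvPolynomial.eval x' f = 0 := by
    rintro ⟨x, y⟩ ht
    unfold TF at ht
    rw [mem_filter, mem_product] at ht
    obtain ⟨⟨a1, a2⟩, a3, a4, a5, a6⟩ := ht
    simp only at a1 a2 a3 a4 a5 a6
    rw [mem_union, mem_image]
    by_cases h : ∃ x' ∈ lat (cv M y), MvPolynomial.eval x' f ≠ 0
    · left
      refine ⟨(y, x), ?_, rfl⟩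
      rw [mem_filter, mem_product, hZ, mem_filter]
      refine ⟨⟨⟨a2, a4, h⟩, a1⟩, ?_, a6⟩
      rw [mem_lat]
      exact inc_iff_rv.1 (inc_tr.2 a5)
    · right
      push Not at h
      rw [mem_filter, mem_product, hX, mem_filter]
      refine ⟨⟨⟨a1, a3⟩, a2⟩, ?_, h⟩
      rw [mem_lat]
      exact inc_iff_rv.1 a5
  have h5 : ((TF M ZR ZL f A A).card : ℝ) ≤ ((((Z ×ˢ bx N A).filter fun t =>
      t.2 ∈ lat (rv (tr M) t.1) ∧ MvPolynomial.eval t.2 f = 0).card : ℕ) : ℝ) +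
      ((((X ×ˢ bx N A).filter fun t => t.2 ∈ lat (rv M t.1) ∧
      ∀ x' ∈ lat (cv M t.2), MvPolynomial.eval x' f = 0).card : ℕ) : ℝ) := by
    exact_mod_cast (card_le_card hsub).trans ((card_union_le _ _).trans
      (Nat.add_le_add_right card_image_le _))
  rw [add_mul]
  linarith

/-- The vectors over a good vector, in finitely many hyperplanes. -/
theorem fibre_hyp {k N : ℕ} (hk : 1 ≤ k) (hkN : k < N) (M : Fin k → Matrix (Fin N) (Fin N) ℤ)
    (ZL : Finset (Fin N → ℤ)) (x : Fin N → ℤ)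
    (hz : ∀ z ∈ ZL, LinearIndependent ℤ (Fin.cons z (rv M x) : Fin (k + 1) → Fin N → ℤ)) (Y : ℕ)
    [DecidablePred fun y : Fin N → ℤ => y ∈ lat (rv M x) ∧ ∃ z ∈ ZL, y ⬝ᵥ z = 0] :
    ((((bx N Y).filter fun y => y ∈ lat (rv M x) ∧ ∃ z ∈ ZL, y ⬝ᵥ z = 0).card : ℕ) : ℝ) ≤
      ZL.card * 2 ^ (N - k - 1) * (1 + (Y : ℝ) / lam M x) ^ (N - k - 1) := by
  classical
  obtain ⟨hl1, -⟩ := lamspec hk hkN M x
  have hsub : ((bx N Y).filter fun y => y ∈ lat (rv M x) ∧ ∃ z ∈ ZL, y ⬝ᵥ z = 0) ⊆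
      ZL.biUnion fun z => (bx N Y).filter fun v =>
        v ∈ lat (Fin.cons z (rv M x) : Fin (k + 1) → Fin N → ℤ) := by
    intro y hy
    rw [mem_filter] at hy
    obtain ⟨hy1, hy2, z, hzZ, hz0⟩ := hy
    rw [mem_biUnion]
    refine ⟨z, hzZ, ?_⟩
    rw [mem_filter]
    refine ⟨hy1, ?_⟩
    rw [mem_lat]
    intro i
    refine Fin.cases ?_ (fun i => ?_) i
    · rw [Fin.cons_zero, dotProduct_comm]
      exact hz0
    · rw [Fin.cons_succ]
      exact mem_lat.1 hy2 i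
  have h2 : ((((bx N Y).filter fun y => y ∈ lat (rv M x) ∧ ∃ z ∈ ZL, y ⬝ᵥ z = 0).card : ℕ) : ℝ) ≤
      ∑ z ∈ ZL, ((((bx N Y).filter fun v =>
          v ∈ lat (Fin.cons z (rv M x) : Fin (k + 1) → Fin N → ℤ)).card : ℕ) : ℝ) := by
    exact_mod_cast (card_le_card hsub).trans card_biUnion_le
  refine h2.trans ?_
  rw [mul_assoc, ← nsmul_eq_mul]
  apply Finset.sum_le_card_nsmul
  intro z hzZ
  have h4 := pack (Fin.cons z (rv M x) : Fin (k + 1) → Fin N → ℤ) (hz z hzZ) (lam M x) hl1 (by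
    intro v hv hv0
    apply lamle hv0
    rw [inc_iff_rv]
    intro i
    have := mem_lat.1 hv i.succ
    rwa [Fin.cons_succ] at this) Y
  have e : N - (k + 1) = N - k - 1 := by omega
  rw [e] at h4
  refine le_trans (le_of_eq ?_) h4
  congr

/-- The second box may be larger. -/
theorem tf_half (hN1 : StmtN1) {k N : ℕ} (hk : 1 ≤ k) (hkN : 2 * k + 1 ≤ N)
    (M : Fin k → Matrix (Fin N) (Fin N) ℤ) (ZR ZL : Finset (Fin N → ℤ))
    (hs : Side M ZR ZL) (hs' : Side (tr M) ZL ZR) {CE δ : ℝ} (hCE : 0 ≤ CE)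
    (hδ1 : δ ≤ 1) (hE : EB M CE δ) (hE' : EB (tr M) CE δ) (f : MvPolynomial (Fin N) ℤ)
    (hf : f ≠ 0) :
    ∃ C : ℝ, 0 ≤ C ∧ ∀ A Y : ℕ, 1 ≤ A → A ≤ Y → ((TF M ZR ZL f A Y).card : ℝ) ≤
      C * (((A : ℝ) * Y) ^ (N - k) * (A : ℝ) ^ (-δ)) := by
  classical
  obtain ⟨C0, hC0, h0⟩ := tf_diag hN1 hk hkN M ZR ZL hs hs' hE hE' f hf
  obtain ⟨CP, hCP⟩ := hs.2
  set a := N - k with ha
  refine ⟨3 ^ a * (3 ^ N + C0 * CE + ZL.card * 2 ^ (a - 1) * CE + |CP| * (3 ^ N * 3 ^ a)),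
    by positivity, fun A Y hA hAY => ?_⟩
  have hA' : (1 : ℝ) ≤ A := by exact_mod_cast hA
  have hA0 : (0 : ℝ) < A := by linarith
  set sp := fun x : Fin N → ℤ => ∃ z ∈ ZL,
    ¬ LinearIndependent ℤ (Fin.cons z (rv M x) : Fin (k + 1) → Fin N → ℤ) with hsp
  set S := (bx N A).filter fun x => GX M ZR x ∧ MvPolynomial.eval x f = 0 with hS
  set X1 := (bx N A).filter fun x => GX M ZR x ∧ ¬ sp x with hX1
  set X2 := (bx N A).filter fun x => GX M ZR x ∧ sp x with hX2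
  -- the doubling
  have e1 : ((TF M ZR ZL f A Y).card : ℝ) ≤ ∑ x ∈ S, (3 * Y / A : ℝ) ^ a *
      ((((bx N A).filter fun y => y ∈ lat (rv M x)).card : ℕ) : ℝ) := by
    have h1 : TF M ZR ZL f A Y ⊆ (S ×ˢ bx N Y).filter fun t => t.2 ∈ lat (rv M t.1) := by
      rintro ⟨x, y⟩ ht
      unfold TF at ht
      rw [mem_filter, mem_product] at ht
      obtain ⟨⟨a1, a2⟩, a3, a4, a5, a6⟩ := ht
      rw [mem_filter, mem_product, hS, mem_filter]
      exact ⟨⟨⟨a1, a3, a6⟩, a2⟩, mem_lat.2 (inc_iff_rv.1 a5)⟩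
    have h2 : ((TF M ZR ZL f A Y).card : ℝ) ≤
        ((((S ×ˢ bx N Y).filter fun t => t.2 ∈ lat (rv M t.1)).card : ℕ) : ℝ) := by
      exact_mod_cast card_le_card h1
    refine h2.trans ?_
    apply pairs_le S (bx N Y) (fun x y => y ∈ lat (rv M x))
    intro x hx
    rw [hS, mem_filter] at hx
    have h3 := lat_doubling hx.2.1.1 Y A hA hAY
    rw [Fintype.card_fin, ← ha] at h3
    convert h3
  have e2 : ∑ x ∈ S, (3 * Y / A : ℝ) ^ a *
      ((((bx N A).filter fun y => y ∈ lat (rv M x)).card : ℕ) : ℝ) = (3 * Y / A : ℝ) ^ a *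
      ((((S ×ˢ bx N A).filter fun t => t.2 ∈ lat (rv M t.1)).card : ℕ) : ℝ) := by
    rw [← Finset.mul_sum]
    congr 1
    have h1 : ((S ×ˢ bx N A).filter fun t => t.2 ∈ lat (rv M t.1)).card =
        ∑ x ∈ S, ((bx N A).filter fun y => y ∈ lat (rv M x)).card := by
      rw [card_filter, sum_product]
      refine Finset.sum_congr rfl fun x _ => ?_
      rw [card_filter]
    rw [h1]
    push_cast
    rfl
  -- the parts
  have hsub : (S ×ˢ bx N A).filter (fun t => t.2 ∈ lat (rv M t.1)) ⊆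
      (((bx N A).image fun x => (x, (0 : Fin N → ℤ))) ∪ TF M ZR ZL f A A) ∪
      (((X1 ×ˢ bx N A).filter fun t => t.2 ∈ lat (rv M t.1) ∧ ∃ z ∈ ZL, t.2 ⬝ᵥ z = 0) ∪
      (X2 ×ˢ bx N A).filter fun t => t.2 ∈ lat (rv M t.1)) := by
    rintro ⟨x, y⟩ ht
    rw [mem_filter, mem_product, hS, mem_filter] at ht
    obtain ⟨⟨⟨a1, a2, a3⟩, a4⟩, a5⟩ := ht
    simp only at a1 a2 a3 a4 a5
    rw [mem_union, mem_union, mem_union, mem_image]
    by_cases hy0 : y = 0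
    · left
      left
      exact ⟨x, a1, by rw [hy0]⟩
    · have hinc : Inc M x y := inc_iff_rv.2 (mem_lat.1 a5)
      by_cases hspx : sp x
      · right
        right
        rw [mem_filter, mem_product, hX2, mem_filter]
        exact ⟨⟨⟨a1, a2, hspx⟩, a4⟩, a5⟩
      · by_cases hzz : ∃ z ∈ ZL, y ⬝ᵥ z = 0
        · right
          left
          rw [mem_filter, mem_product, hX1, mem_filter]
          exact ⟨⟨⟨a1, a2, hspx⟩, a4⟩, a5, hzz⟩
        · left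
          right
          push Not at hzz
          unfold TF
          rw [mem_filter, mem_product]
          refine ⟨⟨a1, a4⟩, a2, ⟨?_, hzz⟩, hinc, a3⟩
          rw [rv_tr]
          exact hs.1 x a2 y hy0 hinc
  have hc1 : ((((bx N A).image fun x => (x, (0 : Fin N → ℤ))).card : ℕ) : ℝ) ≤
      3 ^ N * ((A : ℝ) ^ (2 * a) * (A : ℝ) ^ (-δ)) := by
    have h1 : ((((bx N A).image fun x => (x, (0 : Fin N → ℤ))).card : ℕ) : ℝ) ≤
        ((bx N A).card : ℝ) := by exact_mod_cast card_image_le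
    refine h1.trans ((card_bx_le N hA).trans ?_)
    rw [mul_pow]
    have h2 : (A : ℝ) ^ N ≤ (A : ℝ) ^ (2 * a - 1) := pow_le_pow_right₀ hA' (by omega)
    have h3 : (A : ℝ) ^ (2 * a - 1) ≤ (A : ℝ) ^ (2 * a) * (A : ℝ) ^ (-δ) := by
      have e3 : (A : ℝ) ^ (2 * a) = (A : ℝ) ^ (2 * a - 1) * A := by
        rw [← pow_succ]
        congr 1
        omega
      rw [e3, mul_assoc]
      apply le_mul_of_one_le_right (by positivity)
      have e4 : (A : ℝ) * (A : ℝ) ^ (-δ) = (A : ℝ) ^ (1 - δ) := by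
        rw [sub_eq_add_neg, Real.rpow_add hA0, Real.rpow_one]
      rw [e4]
      exact Real.one_le_rpow hA' (by linarith)
    gcongr
    exact h2.trans h3
  have hAA : ((A : ℝ) * A) ^ a = (A : ℝ) ^ (2 * a) := by
    rw [← pow_two, ← pow_mul]
  have hc2 : ((TF M ZR ZL f A A).card : ℝ) ≤
      C0 * CE * ((A : ℝ) ^ (2 * a) * (A : ℝ) ^ (-δ)) := by
    have := h0 A hA
    rw [hAA] at this
    linarith
  have hc3 : ((((X1 ×ˢ bx N A).filter fun t => t.2 ∈ lat (rv M t.1) ∧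
      ∃ z ∈ ZL, t.2 ⬝ᵥ z = 0).card : ℕ) : ℝ) ≤
      ZL.card * 2 ^ (a - 1) * CE * ((A : ℝ) ^ (2 * a) * (A : ℝ) ^ (-δ)) := by
    have h1 := pairs_le X1 (bx N A) (fun x y => y ∈ lat (rv M x) ∧ ∃ z ∈ ZL, y ⬝ᵥ z = 0)
      (fun x => ZL.card * 2 ^ (a - 1) * (1 + (A : ℝ) / lam M x) ^ (a - 1)) (by
        intro x hx
        rw [hX1, mem_filter] at hx
        apply fibre_hyp hk (by omega) M ZL x _ A
        intro z hz
        by_contra hcon
        exact hx.2.2 ⟨z, hz, hcon⟩)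
    refine h1.trans ?_
    rw [← Finset.mul_sum]
    have h2 := hE A A hA hA (by omega) X1 (by
      intro x hx
      rw [hX1, mem_filter, mem_bx] at hx
      exact ⟨hx.1, hx.2.1.1, hs.1 x hx.2.1⟩)
    rw [← ha, hAA] at h2
    calc (ZL.card : ℝ) * 2 ^ (a - 1) * ∑ x ∈ X1, (1 + (A : ℝ) / lam M x) ^ (a - 1) ≤
        (ZL.card : ℝ) * 2 ^ (a - 1) * (CE * (A : ℝ) ^ (2 * a) * (A : ℝ) ^ (-δ)) := by gcongr
      _ = _ := by ring
  have hc4 : ((((X2 ×ˢ bx N A).filter fun t => t.2 ∈ lat (rv M t.1)).card : ℕ) : ℝ) ≤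
      |CP| * (3 ^ N * 3 ^ a) * ((A : ℝ) ^ (2 * a) * (A : ℝ) ^ (-δ)) := by
    have h1 := pairs_le X2 (bx N A) (fun x y => y ∈ lat (rv M x))
      (fun x => 3 ^ N * (3 * (A : ℝ)) ^ a) (by
        intro x hx
        rw [hX2, mem_filter] at hx
        have h4 := lat_card hx.2.1.1 A hA
        rw [Fintype.card_fin, ← ha] at h4
        convert h4)
    refine h1.trans ?_
    rw [Finset.sum_const, nsmul_eq_mul]
    have h6 : (X2.card : ℝ) ≤ |CP| * (A : ℝ) ^ (a - 1) := by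
      have h7 := hCP A hA
      calc (X2.card : ℝ) ≤ CP * (A : ℝ) ^ (a - 1) := by
            rw [hX2]
            convert h7
        _ ≤ |CP| * (A : ℝ) ^ (a - 1) := by
            gcongr
            exact le_abs_self _
    have h9 : (A : ℝ) ^ (a - 1) ≤ (A : ℝ) ^ a * (A : ℝ) ^ (-δ) := by
      have e3 : (A : ℝ) ^ a = (A : ℝ) ^ (a - 1) * A := by
        rw [← pow_succ]
        congr 1
        omega
      rw [e3, mul_assoc]
      apply le_mul_of_one_le_right (by positivity)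
      have e4 : (A : ℝ) * (A : ℝ) ^ (-δ) = (A : ℝ) ^ (1 - δ) := by
        rw [sub_eq_add_neg, Real.rpow_add hA0, Real.rpow_one]
      rw [e4]
      exact Real.one_le_rpow hA' (by linarith)
    calc (X2.card : ℝ) * (3 ^ N * (3 * (A : ℝ)) ^ a) ≤
        (|CP| * (A : ℝ) ^ (a - 1)) * (3 ^ N * (3 * (A : ℝ)) ^ a) := by gcongr
      _ ≤ (|CP| * ((A : ℝ) ^ a * (A : ℝ) ^ (-δ))) * (3 ^ N * (3 * (A : ℝ)) ^ a) := by gcongr
      _ = _ := by
          rw [mul_pow 3 (A : ℝ), two_mul a, pow_add (A : ℝ) a a]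
          ring
  have htot : ((((S ×ˢ bx N A).filter fun t => t.2 ∈ lat (rv M t.1)).card : ℕ) : ℝ) ≤
      (3 ^ N + C0 * CE + ZL.card * 2 ^ (a - 1) * CE + |CP| * (3 ^ N * 3 ^ a)) *
      ((A : ℝ) ^ (2 * a) * (A : ℝ) ^ (-δ)) := by
    have h1 := card_le_card hsub
    have h2 := card_union_le (((bx N A).image fun x => (x, (0 : Fin N → ℤ))) ∪ TF M ZR ZL f A A)
      (((X1 ×ˢ bx N A).filter fun t => t.2 ∈ lat (rv M t.1) ∧ ∃ z ∈ ZL, t.2 ⬝ᵥ z = 0) ∪
      (X2 ×ˢ bx N A).filter fun t => t.2 ∈ lat (rv M t.1))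
    have h3 := card_union_le ((bx N A).image fun x => (x, (0 : Fin N → ℤ))) (TF M ZR ZL f A A)
    have h4 := card_union_le ((X1 ×ˢ bx N A).filter fun t => t.2 ∈ lat (rv M t.1) ∧
      ∃ z ∈ ZL, t.2 ⬝ᵥ z = 0) ((X2 ×ˢ bx N A).filter fun t => t.2 ∈ lat (rv M t.1))
    have h5 : ((((S ×ˢ bx N A).filter fun t => t.2 ∈ lat (rv M t.1)).card : ℕ) : ℝ) ≤
        ((((bx N A).image fun x => (x, (0 : Fin N → ℤ))).card : ℕ) : ℝ) +
        ((TF M ZR ZL f A A).card : ℝ) + (((((X1 ×ˢ bx N A).filter fun t =>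
        t.2 ∈ lat (rv M t.1) ∧ ∃ z ∈ ZL, t.2 ⬝ᵥ z = 0).card : ℕ) : ℝ) +
        ((((X2 ×ˢ bx N A).filter fun t => t.2 ∈ lat (rv M t.1)).card : ℕ) : ℝ)) := by
      exact_mod_cast h1.trans (h2.trans (Nat.add_le_add h3 h4))
    refine h5.trans ?_
    rw [add_mul, add_mul, add_mul]
    linarith
  calc ((TF M ZR ZL f A Y).card : ℝ) ≤ (3 * Y / A : ℝ) ^ a *
      ((((S ×ˢ bx N A).filter fun t => t.2 ∈ lat (rv M t.1)).card : ℕ) : ℝ) := e1.trans_eq e2
    _ ≤ (3 * Y / A : ℝ) ^ a * ((3 ^ N + C0 * CE + ZL.card * 2 ^ (a - 1) * CE +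
        |CP| * (3 ^ N * 3 ^ a)) * ((A : ℝ) ^ (2 * a) * (A : ℝ) ^ (-δ))) := by gcongr
    _ = _ := by
        rw [div_pow, mul_pow, mul_pow, two_mul a, pow_add (A : ℝ) a a]
        field_simp

/-- The pairs on a hypersurface, if the first box is the smaller one. -/
theorem g_half (hN1 : StmtN1) {k N : ℕ} (hk : 1 ≤ k) (hkN : 2 * k + 1 ≤ N)
    (M : Fin k → Matrix (Fin N) (Fin N) ℤ) (ZR ZL : Finset (Fin N → ℤ))
    (hs : Side M ZR ZL) (hs' : Side (tr M) ZL ZR) {CE δ : ℝ} (hCE : 0 ≤ CE)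
    (hδ1 : δ ≤ 1) (hE : EB M CE δ) (hE' : EB (tr M) CE δ)
    (G : MvPolynomial (Fin N ⊕ Fin N) ℤ) (hG : ∃ x y : Fin N → ℂ, InV M G x y) :
    ∃ C : ℝ, 0 ≤ C ∧ ∀ A Y : ℕ, 1 ≤ A → A ≤ Y → ∀ S : Finset ((Fin N → ℤ) × (Fin N → ℤ)),
      (∀ t ∈ S, ht t.1 ≤ A ∧ ht t.2 ≤ Y ∧ GX M ZR t.1 ∧ GX (tr M) ZL t.2 ∧ Inc M t.1 t.2 ∧
        evz G (two t.1 t.2) = 0) →
      (S.card : ℝ) ≤ C * (((A : ℝ) * Y) ^ (N - k) * (A : ℝ) ^ (-δ)) := by
  classical
  obtain ⟨x0, y0, hG1, hG2, -, hG4⟩ := hG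
  obtain ⟨f, J, hf, hfJ⟩ := Pool.Agent.H548.BK.gen (M := M) (G := G) ⟨x0, y0, hG1, hG2, hG4⟩
  obtain ⟨C0, hC0, h0⟩ := tf_half hN1 hk hkN M ZR ZL hs hs' hCE hδ1 hE hE' f hf
  obtain ⟨C1, hC1, h1⟩ := hN1 k N G.totalDegree (by omega)
  refine ⟨C0 + C1 * CE, by positivity, fun A Y hA hAY S hS => ?_⟩
  set X := (bx N A).filter fun x => GX M ZR x ∧ MvPolynomial.eval x f ≠ 0 with hX
  have hsub : S ⊆ TF M ZR ZL f A Y ∪ (X ×ˢ bx N Y).filter fun t => t.2 ∈ lat (rv M t.1) ∧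
      evz G (two t.1 t.2) = 0 := by
    rintro ⟨x, y⟩ ht
    obtain ⟨a1, a2, a3, a4, a5, a6⟩ := hS _ ht
    simp only at a1 a2 a3 a4 a5 a6
    rw [mem_union]
    by_cases h : MvPolynomial.eval x f = 0
    · left
      unfold TF
      rw [mem_filter, mem_product, mem_bx, mem_bx]
      exact ⟨⟨a1, a2⟩, a3, a4, a5, h⟩
    · right
      rw [mem_filter, mem_product, hX, mem_filter, mem_bx, mem_bx]
      exact ⟨⟨⟨a1, a3, h⟩, a2⟩, mem_lat.2 (inc_iff_rv.1 a5), a6⟩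
  have e1 : ((((X ×ˢ bx N Y).filter fun t => t.2 ∈ lat (rv M t.1) ∧
      evz G (two t.1 t.2) = 0).card : ℕ) : ℝ) ≤
      ∑ x ∈ X, C1 * (1 + (Y : ℝ) / lam M x) ^ (N - k - 1) := by
    apply pairs_le X (bx N Y) (fun x y => y ∈ lat (rv M x) ∧ evz G (two x y) = 0)
    intro x hx
    rw [hX, mem_filter] at hx
    obtain ⟨-, y1, hy1, hy2⟩ := hfJ x hx.2.2
    set P : MvPolynomial (Fin N) ℤ := evz G (two (fun i => MvPolynomial.C (x i))
      (fun k => MvPolynomial.X k)) with hP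
    have hPe : ∀ y : Fin N → ℤ, MvPolynomial.eval y P = evz G (two x y) := by
      intro y
      rw [hP, evz_map, two_map]
      simp only [MvPolynomial.eval_X, MvPolynomial.eval_C]
    have hPd : P.totalDegree ≤ G.totalDegree := by
      apply deg_evz
      rintro (i | i)
      · show (MvPolynomial.C (x i) : MvPolynomial (Fin N) ℤ).totalDegree ≤ 1
        rw [MvPolynomial.totalDegree_C]
        norm_num
      · show (MvPolynomial.X i : MvPolynomial (Fin N) ℤ).totalDegree ≤ 1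
        rw [MvPolynomial.totalDegree_X]
    have h2 := fibre_poly h1 hk (by omega) M x hx.2.1.1 P hPd
      ⟨y1, mem_lat.2 (inc_iff_rv.1 (AM_mulVec.1 hy1)), by rw [hPe]; exact hy2⟩ Y
    simp only [hPe] at h2
    convert h2
  have e2 : ∑ x ∈ X, C1 * (1 + (Y : ℝ) / lam M x) ^ (N - k - 1) ≤
      C1 * (CE * ((A : ℝ) * Y) ^ (N - k) * (A : ℝ) ^ (-δ)) := by
    rw [← Finset.mul_sum]
    have := hE A Y hA (by omega) (by omega) X (by
      intro x hx
      rw [hX, mem_filter, mem_bx] at hx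
      exact ⟨hx.1, hx.2.1.1, hs.1 x hx.2.1⟩)
    gcongr
  have e3 : (S.card : ℝ) ≤ ((TF M ZR ZL f A Y).card : ℝ) +
      ((((X ×ˢ bx N Y).filter fun t => t.2 ∈ lat (rv M t.1) ∧
      evz G (two t.1 t.2) = 0).card : ℕ) : ℝ) := by
    exact_mod_cast (card_le_card hsub).trans (card_union_le _ _)
  have e4 := h0 A Y hA hAY
  rw [add_mul]
  linarith

/-- The pairs on a hypersurface. -/
theorem n2 (hE : StmtE) (hN1 : StmtN1) : StmtN2 := by
  classical
  intro k N M ZR ZL hk hN3 hN hs hs' hB hB' G hG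
  obtain ⟨CE, δ1, hCE, hδ1, hδ1', hE1⟩ := hE k N M hk hN hB
  obtain ⟨CE', δ2, hCE', hδ2, hδ2', hE2⟩ := hE k N (tr M) hk hN hB'
  have h1 : EB M (max CE CE') (min δ1 δ2) := EB.mono (C := CE) (δ := δ1) hE1
    (le_max_of_le_left hCE) (le_max_left _ _) (min_le_left _ _)
  have h2 : EB (tr M) (max CE CE') (min δ1 δ2) := EB.mono (C := CE') (δ := δ2) hE2
    (le_max_of_le_left hCE) (le_max_right _ _) (min_le_right _ _)
  have hδ : min δ1 δ2 ≤ 1 := (min_le_left _ _).trans hδ1'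
  have hCm : 0 ≤ max CE CE' := le_max_of_le_left hCE
  obtain ⟨C1, hC1, g1⟩ := g_half hN1 hk hN M ZR ZL hs hs' hCm hδ h1 h2 G hG
  set G' : MvPolynomial (Fin N ⊕ Fin N) ℤ := MvPolynomial.rename Sum.swap G with hG'
  have hev : ∀ {R : Type} [CommRing R] (x y : Fin N → R), evz G' (two y x) = evz G (two x y) := by
    intro R _ x y
    rw [hG']
    unfold evz
    rw [MvPolynomial.eval₂_rename]
    congr 1
    funext i
    rcases i with i | i <;> rfl
  have hG2 : ∃ x y : Fin N → ℂ, InV (tr M) G' x y := by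
    obtain ⟨x, y, a1, a2, a3, a4⟩ := hG
    refine ⟨y, x, inc_tr.2 a1, ?_, ?_, ?_⟩
    · rw [rv_tr]
      exact a3
    · rw [cv_tr]
      exact a2
    · rw [hev]
      exact a4
  obtain ⟨C2, hC2, g2⟩ := g_half hN1 hk hN (tr M) ZL ZR hs' (by rw [tr_tr]; exact hs) hCm hδ h2
    (by rw [tr_tr]; exact h1) G' hG2
  refine ⟨max C1 C2, min δ1 δ2, lt_min hδ1 hδ2, fun A Y hA hY => ?_⟩
  have hA0 : (0 : ℝ) < A := by exact_mod_cast hA
  have hY0 : (0 : ℝ) < Y := by exact_mod_cast hY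
  rcases le_total A Y with h | h
  · rw [min_eq_left h, mul_assoc]
    refine (g1 A Y hA h _ ?_).trans ?_
    · intro t ht
      rw [mem_filter, mem_product, mem_bx, mem_bx] at ht
      exact ⟨ht.1.1, ht.1.2, ht.2.1, ht.2.2.1, ht.2.2.2.1, ht.2.2.2.2⟩
    · gcongr
      exact le_max_left _ _
  · rw [min_eq_right h, mul_assoc, mul_comm (A : ℝ) (Y : ℝ)]
    have key : ∀ S : Finset ((Fin N → ℤ) × (Fin N → ℤ)),
        (∀ t ∈ S, ht t.1 ≤ A ∧ ht t.2 ≤ Y ∧ GX M ZR t.1 ∧ GX (tr M) ZL t.2 ∧ Inc M t.1 t.2 ∧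
        evz G (two t.1 t.2) = 0) →
        (S.card : ℝ) ≤ C2 * (((Y : ℝ) * A) ^ (N - k) * (Y : ℝ) ^ (-(min δ1 δ2))) := by
      intro S hS
      rw [← card_image_of_injective S
        (Prod.swap_injective (α := Fin N → ℤ) (β := Fin N → ℤ))]
      apply g2 Y A hY h
      intro t ht
      rw [mem_image] at ht
      obtain ⟨⟨x, y⟩, ht, rfl⟩ := ht
      obtain ⟨b1, b2, b3, b4, b5, b6⟩ := hS _ ht
      refine ⟨b2, b1, b4, ?_, inc_tr.2 b5, ?_⟩
      · rw [tr_tr]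
        exact b3
      · show evz G' (two y x) = 0
        rw [hev]
        exact b6
    refine (key _ ?_).trans ?_
    · intro t ht
      rw [mem_filter, mem_product, mem_bx, mem_bx] at ht
      exact ⟨ht.1.1, ht.1.2, ht.2.1, ht.2.2.1, ht.2.2.2.1, ht.2.2.2.2⟩
    · gcongr
      exact le_max_right _ _

end Pool.Agent.T6.H81.BA
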