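import Mathlib
import Pool.Agent.T6.H81.BA.Defs
import Pool.Agent.T6.H52.BA.R1
import Pool.Agent.T6.H52.BA.R3

set_option autoImplicit false

/-! Module R: normalised primitive vectors in the lattice `lat w`. -/

namespace Pool.Agent.T6.H81.BA

open Finset Module
open Pool.Agent.H548.WM (ht bx mem_bx Rep)
open Pool.Agent.H548.BL (lat mem_lat rc orth)
open Pool.Agent.T6.H52.BA

theorem r (hL : StmtL) : StmtR := by
  intro k N hkN
  classical
  obtain ⟨C0, hC0, h0⟩ := hL (N - k) (by omega)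
  set a := N - k with ha
  have ha3 : 3 ≤ a := by omega
  refine ⟨2 * (C0 * 2 ^ (a - 1) + 1), by positivity, fun w hw => ?_⟩
  have := zlat w hw
  obtain ⟨c0, hc0, h1⟩ := h0 (orth w) (LL w) (finrank_eq w hw)
  have hM0 : 0 ≤ MM a := MM_nonneg (by omega)
  have hM2 : MM a ≤ 2 := MM_le (by omega)
  have h2a : (1 : ℝ) ≤ 2 ^ (a - 1) := one_le_pow₀ (by norm_num)
  refine ⟨c0 * MM a / 2, by positivity, fun l hl hlow => ?_⟩
  have hl0 : (0 : ℝ) < l := by exact_mod_cast hl
  obtain ⟨h2, h3⟩ := h1 l hl0 (by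
    intro e he hne
    obtain ⟨v, hv, hve⟩ := mem_LL.1 he
    rw [norm_LL hve]
    have hv0 : v ≠ 0 := by
      rintro rfl
      apply hne
      apply Subtype.ext
      rw [← hve]
      funext i
      simp [rc]
    exact_mod_cast hlow v hv hv0)
  have hcl : 0 ≤ c0 * (l : ℝ) ^ a := by positivity
  refine ⟨?_, fun Y => ?_⟩
  · calc c0 * MM a / 2 * (l : ℝ) ^ a = (c0 * (l : ℝ) ^ a) * (MM a / 2) := by ring
      _ ≤ (c0 * (l : ℝ) ^ a) * 1 := by gcongr; linarith
      _ ≤ C0 := by linarith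
      _ ≤ 2 * (C0 * 2 ^ (a - 1) + 1) := by nlinarith
  · -- the counting function
    set n : ℕ → ℝ := fun y => (((bx N y).filter (· ∈ lat w)).card : ℝ) with hn
    have hnz : ∀ y, n y - 1 = ((nz w y).card : ℝ) := by
      intro y
      simp only [hn]
      rw [card_all]
      push_cast
      ring
    have hn1 : ∀ y : ℕ, y < l → n y = 1 := by
      intro y hy
      have h4 : nz w y = ∅ := by
        rw [Finset.eq_empty_iff_forall_notMem]
        intro v hv
        rw [mem_nz] at hv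
        have := hlow v hv.2.1 hv.2.2
        omega
      have h5 := hnz y
      rw [h4, card_empty, Nat.cast_zero] at h5
      linarith
    have has : ∀ t : ℝ, 0 ≤ t → |n ⌊t⌋₊ - c0 * t ^ a| ≤ C0 * (1 + t / l) ^ (a - 1) := by
      intro t ht0
      have h4 := (h3 t ht0).2
      rw [ncard_LL w ht0] at h4
      exact h4
    have h5 := main ha3 hC0 n (hn1 0 (by omega)) hc0 hl h2 hn1 has Y
    have h6 : ∑ d ∈ Icc 1 Y, (ArithmeticFunction.moebius d : ℝ) * (n (Y / d) - 1) =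
        2 * ((((bx N Y).filter fun v => v ∈ lat w ∧ Rep v).card : ℕ) : ℝ) := by
      have h7 := moeb w Y
      have h8 := congrArg (Int.cast : ℤ → ℝ) h7
      push_cast at h8
      rw [← h8]
      apply Finset.sum_congr rfl
      intro d _
      rw [hnz]
    rw [h6] at h5
    set r : ℝ := ((((bx N Y).filter fun v => v ∈ lat w ∧ Rep v).card : ℕ) : ℝ) with hr
    have h9 : |r - c0 * MM a / 2 * (Y : ℝ) ^ a| = |2 * r - c0 * MM a * (Y : ℝ) ^ a| / 2 := by
      rw [show r - c0 * MM a / 2 * (Y : ℝ) ^ a = (2 * r - c0 * MM a * (Y : ℝ) ^ a) / 2 by ring,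
        abs_div, abs_of_pos (by norm_num : (0 : ℝ) < 2)]
    rw [h9]
    have h10 : ((Y : ℝ) / l) ^ (a - 1) ≤ (1 + (Y : ℝ) / l) ^ (a - 1) := by
      gcongr
      linarith
    have h11 : 0 ≤ ((Y : ℝ) / l) ^ (a - 1) := by positivity
    have h12 : 0 ≤ 2 * (C0 * 2 ^ (a - 1) + 1) := by positivity
    calc |2 * r - c0 * MM a * (Y : ℝ) ^ a| / 2 ≤
        (2 * (C0 * 2 ^ (a - 1) + 1) * ((Y : ℝ) / l) ^ (a - 1)) / 2 := by gcongr
      _ ≤ 2 * (C0 * 2 ^ (a - 1) + 1) * ((Y : ℝ) / l) ^ (a - 1) := by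
        have : 0 ≤ 2 * (C0 * 2 ^ (a - 1) + 1) * ((Y : ℝ) / l) ^ (a - 1) := by positivity
        linarith
      _ ≤ _ := by gcongr

end Pool.Agent.T6.H81.BA
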